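import Mathlib

/-!
# Project SP, file Prob: random subsets of a finite set

`wt r S` is the weight of `S` when each element `e` is included independently with probability
`r e`; `Ex r f` is the expectation of `f` over the random set.  The functions are total; the
hypotheses `0 ≤ r e ≤ 1` are only needed for monotonicity.
-/

set_option autoImplicit false

namespace Pool.Agent.Helper68.SP

open Finset

variable {E : Type*} [Fintype E] [DecidableEq E]

/-- the weight of the set `S` -/
def wt (r : E → ℝ) (S : Finset E) : ℝ := ∏ e, if e ∈ S then r e else 1 - r e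

/-- the expectation of `f` over the random subset with rates `r` -/
def Ex (r : E → ℝ) (f : Finset E → ℝ) : ℝ := ∑ S : Finset E, wt r S * f S

/-- rates in `[0,1]` -/
def IsRate (r : E → ℝ) : Prop := ∀ e, 0 ≤ r e ∧ r e ≤ 1

lemma wt_nonneg {r : E → ℝ} (hr : IsRate r) (S : Finset E) : 0 ≤ wt r S := by
  unfold wt
  apply Finset.prod_nonneg
  intro e _
  split_ifs
  · exact (hr e).1
  · linarith [(hr e).2]

/-- expectation of a function of product form -/
lemma Ex_prod (r a b : E → ℝ) :
    Ex r (fun S => ∏ e, if e ∈ S then a e else b e) = ∏ e, (r e * a e + (1 - r e) * b e) := by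
  classical
  rw [Finset.prod_add]
  unfold Ex wt
  rw [← Finset.powerset_univ]
  refine Finset.sum_congr rfl fun S _ => ?_
  rw [← Finset.prod_mul_distrib]
  rw [← Finset.prod_sdiff (Finset.subset_univ S), mul_comm]
  congr 1
  · refine Finset.prod_congr rfl fun e he => ?_
    simp [he]
  · refine Finset.prod_congr rfl fun e he => ?_
    have : e ∉ S := (Finset.mem_sdiff.1 he).2
    simp [this]

lemma sum_wt (r : E → ℝ) : ∑ S : Finset E, wt r S = 1 := by
  have h := Ex_prod r (fun _ => 1) (fun _ => 1)
  simpa [Ex] using h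

lemma Ex_const (r : E → ℝ) (c : ℝ) : Ex r (fun _ => c) = c := by
  unfold Ex
  rw [← Finset.sum_mul, sum_wt, one_mul]

lemma Ex_add (r : E → ℝ) (f g : Finset E → ℝ) :
    Ex r (fun S => f S + g S) = Ex r f + Ex r g := by
  unfold Ex
  rw [← Finset.sum_add_distrib]
  exact Finset.sum_congr rfl fun S _ => by ring

lemma Ex_sub (r : E → ℝ) (f g : Finset E → ℝ) :
    Ex r (fun S => f S - g S) = Ex r f - Ex r g := by
  unfold Ex
  rw [← Finset.sum_sub_distrib]
  exact Finset.sum_congr rfl fun S _ => by ring

lemma Ex_mul_left (r : E → ℝ) (c : ℝ) (f : Finset E → ℝ) :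
    Ex r (fun S => c * f S) = c * Ex r f := by
  unfold Ex
  rw [Finset.mul_sum]
  exact Finset.sum_congr rfl fun S _ => by ring

lemma Ex_mul_right (r : E → ℝ) (c : ℝ) (f : Finset E → ℝ) :
    Ex r (fun S => f S * c) = Ex r f * c := by
  unfold Ex
  rw [Finset.sum_mul]
  exact Finset.sum_congr rfl fun S _ => by ring

lemma Ex_sum {ι : Type*} (r : E → ℝ) (s : Finset ι) (f : ι → Finset E → ℝ) :
    Ex r (fun S => ∑ i ∈ s, f i S) = ∑ i ∈ s, Ex r (f i) := by
  unfold Ex
  rw [Finset.sum_comm]
  exact Finset.sum_congr rfl fun S _ => by rw [Finset.mul_sum]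

lemma Ex_mono {r : E → ℝ} (hr : IsRate r) {f g : Finset E → ℝ} (h : ∀ S, f S ≤ g S) :
    Ex r f ≤ Ex r g := by
  unfold Ex
  exact Finset.sum_le_sum fun S _ => mul_le_mul_of_nonneg_left (h S) (wt_nonneg hr S)

lemma Ex_nonneg {r : E → ℝ} (hr : IsRate r) {f : Finset E → ℝ} (h : ∀ S, 0 ≤ f S) :
    0 ≤ Ex r f := by
  unfold Ex
  exact Finset.sum_nonneg fun S _ => mul_nonneg (wt_nonneg hr S) (h S)

lemma Ex_le_of_le {r : E → ℝ} (hr : IsRate r) {f : Finset E → ℝ} {c : ℝ} (h : ∀ S, f S ≤ c) :
    Ex r f ≤ c := by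
  have := Ex_mono hr h
  rwa [Ex_const] at this

lemma le_Ex_of_le {r : E → ℝ} (hr : IsRate r) {f : Finset E → ℝ} {c : ℝ} (h : ∀ S, c ≤ f S) :
    c ≤ Ex r f := by
  have := Ex_mono hr h
  rwa [Ex_const] at this

lemma Ex_congr (r : E → ℝ) {f g : Finset E → ℝ} (h : ∀ S, f S = g S) : Ex r f = Ex r g := by
  have : f = g := funext h
  rw [this]

/-- some set is at least as good as the average -/
lemma exists_ge_Ex {r : E → ℝ} (hr : IsRate r) (f : Finset E → ℝ) : ∃ S, Ex r f ≤ f S := by
  by_contra hcon
  push Not at hcon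
  obtain ⟨S₀, -, hS₀⟩ := Finset.exists_max_image (Finset.univ : Finset (Finset E)) f
    ⟨∅, Finset.mem_univ _⟩
  have := Ex_le_of_le hr (fun S => hS₀ S (Finset.mem_univ _))
  linarith [hcon S₀]

/-- sets of weight zero do not matter -/
lemma Ex_congr_wt (r : E → ℝ) {f g : Finset E → ℝ} (h : ∀ S, wt r S ≠ 0 → f S = g S) :
    Ex r f = Ex r g := by
  unfold Ex
  refine Finset.sum_congr rfl fun S _ => ?_
  by_cases h0 : wt r S = 0
  · simp [h0]
  · rw [h S h0]

/-- if `r e = 1` then `e` belongs to all sets of nonzero weight -/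
lemma mem_of_wt_ne_zero {r : E → ℝ} {S : Finset E} (h : wt r S ≠ 0) {e : E} (he : r e = 1) :
    e ∈ S := by
  by_contra hcon
  apply h
  unfold wt
  exact Finset.prod_eq_zero (Finset.mem_univ e) (by simp [hcon, he])

/-- if `r e = 0` then `e` belongs to no set of nonzero weight -/
lemma notMem_of_wt_ne_zero {r : E → ℝ} {S : Finset E} (h : wt r S ≠ 0) {e : E} (he : r e = 0) :
    e ∉ S := by
  intro hcon
  apply h
  unfold wt
  exact Finset.prod_eq_zero (Finset.mem_univ e) (by simp [hcon, he])

/-- the probability that the random set contains `A` -/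
lemma Ex_subset (r : E → ℝ) (A : Finset E) :
    Ex r (fun S => if A ⊆ S then 1 else 0) = ∏ e ∈ A, r e := by
  have h := Ex_prod r (fun _ => 1) (fun e => if e ∈ A then 0 else 1)
  have h1 : ∀ S : Finset E, (∏ e, if e ∈ S then (1 : ℝ) else (if e ∈ A then 0 else 1)) =
      if A ⊆ S then 1 else 0 := by
    intro S
    split_ifs with hAS
    · apply Finset.prod_eq_one
      intro e _
      by_cases he : e ∈ A
      · simp [hAS he]
      · simp [he]
    · rw [Finset.not_subset] at hAS
      obtain ⟨e, he, heS⟩ := hAS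
      exact Finset.prod_eq_zero (Finset.mem_univ e) (by simp [he, heS])
  rw [Ex_congr r (fun S => (h1 S).symm), h, ← Finset.prod_subset (Finset.subset_univ A)]
  · refine Finset.prod_congr rfl fun e he => ?_
    simp [he]
  · intro e _ he
    simp [he]

/-- `Ex` of the indicator of a membership -/
lemma Ex_mem (r : E → ℝ) (e : E) : Ex r (fun S => if e ∈ S then 1 else 0) = r e := by
  have h := Ex_subset r {e}
  simpa using h

/-- the part of `S` in `A` and the part of `T` outside `A` -/
def mix (A S T : Finset E) : Finset E := (S ∩ A) ∪ (T \ A)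

omit [Fintype E] in
lemma mem_mix {A S T : Finset E} {e : E} :
    e ∈ mix A S T ↔ (e ∈ A ∧ e ∈ S) ∨ (e ∉ A ∧ e ∈ T) := by
  unfold mix
  simp only [Finset.mem_union, Finset.mem_inter, Finset.mem_sdiff]
  tauto

omit [Fintype E] in
lemma mix_inter (A S T : Finset E) : mix A S T ∩ A = S ∩ A := by
  ext e
  simp only [Finset.mem_inter, mem_mix]
  tauto

omit [Fintype E] in
lemma mix_sdiff (A S T : Finset E) : mix A S T \ A = T \ A := by
  ext e
  simp only [Finset.mem_sdiff, mem_mix]
  tauto

lemma wt_mix (r : E → ℝ) (A S T : Finset E) :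
    wt r (mix A S T) * wt r (mix A T S) = wt r S * wt r T := by
  unfold wt
  rw [← Finset.prod_mul_distrib, ← Finset.prod_mul_distrib]
  refine Finset.prod_congr rfl fun e _ => ?_
  simp only [mem_mix]
  by_cases h1 : e ∈ A <;> by_cases h2 : e ∈ S <;> by_cases h3 : e ∈ T <;> simp [h1, h2, h3] <;> ring

omit [Fintype E] in
/-- the mixing map is an involution of the pairs of sets -/
lemma mix_mix (A S T : Finset E) : mix A (mix A S T) (mix A T S) = S := by
  ext e
  simp only [mem_mix]
  tauto

/-- resampling lemma: the part of the random set outside `A` may be resampled -/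
theorem Ex_mix (r : E → ℝ) (A : Finset E) (f : Finset E → ℝ) :
    Ex r (fun S => Ex r (fun T => f (mix A S T))) = Ex r f := by
  have h1 : Ex r (fun S => Ex r (fun T => f (mix A S T))) =
      ∑ P : Finset E × Finset E, wt r P.1 * wt r P.2 * f (mix A P.1 P.2) := by
    rw [Fintype.sum_prod_type]
    unfold Ex
    refine Finset.sum_congr rfl fun S _ => ?_
    rw [Finset.mul_sum]
    exact Finset.sum_congr rfl fun T _ => by ring
  have h2 : ∑ P : Finset E × Finset E, wt r P.1 * wt r P.2 * f (mix A P.1 P.2) =
      ∑ P : Finset E × Finset E, wt r P.1 * wt r P.2 * f P.1 := by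
    refine Finset.sum_bij' (fun P _ => (mix A P.1 P.2, mix A P.2 P.1))
      (fun P _ => (mix A P.1 P.2, mix A P.2 P.1)) (fun _ _ => Finset.mem_univ _)
      (fun _ _ => Finset.mem_univ _) ?_ ?_ ?_
    · intro P _
      ext1 <;> simp [mix_mix]
    · intro P _
      ext1 <;> simp [mix_mix]
    · intro P _
      simp only
      rw [wt_mix]
  have h3 : ∑ P : Finset E × Finset E, wt r P.1 * wt r P.2 * f P.1 = Ex r f := by
    rw [Fintype.sum_prod_type]
    unfold Ex
    refine Finset.sum_congr rfl fun S _ => ?_
    simp only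
    rw [← Finset.sum_mul, ← Finset.mul_sum, sum_wt, mul_one]
  rw [h1, h2, h3]

/-- independence of functions of disjoint parts of the random set -/
theorem Ex_mul_of_indep (r : E → ℝ) (A : Finset E) {f g : Finset E → ℝ}
    (hf : ∀ S T, S ∩ A = T ∩ A → f S = f T) (hg : ∀ S T, S \ A = T \ A → g S = g T) :
    Ex r (fun S => f S * g S) = Ex r f * Ex r g := by
  rw [← Ex_mix r A (fun S => f S * g S)]
  have h : ∀ S T : Finset E, f (mix A S T) * g (mix A S T) = f S * g T := by
    intro S T
    rw [hf _ S (mix_inter A S T), hg _ T (mix_sdiff A S T)]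
  simp only [h, Ex_mul_left, Ex_mul_right]

/-- order of two expectations -/
lemma Ex_comm {E' : Type*} [Fintype E'] [DecidableEq E'] (r : E → ℝ) (r' : E' → ℝ)
    (f : Finset E → Finset E' → ℝ) :
    Ex r (fun S => Ex r' (fun T => f S T)) = Ex r' (fun T => Ex r (fun S => f S T)) := by
  unfold Ex
  simp only [Finset.mul_sum]
  rw [Finset.sum_comm]
  refine Finset.sum_congr rfl fun T _ => Finset.sum_congr rfl fun S _ => ?_
  ring

/-- every function is a combination of indicators of points, which are of product form -/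
lemma Ex_eq_sum_point (r : E → ℝ) (f : Finset E → ℝ) :
    Ex r f = ∑ T : Finset E, f T * Ex r (fun S => if S = T then 1 else 0) := by
  have h : ∀ T : Finset E, Ex r (fun S => if S = T then (1 : ℝ) else 0) = wt r T := by
    intro T
    unfold Ex
    simp
  simp only [h]
  unfold Ex
  exact Finset.sum_congr rfl fun T _ => by ring

/-- the random set `Q ∩ R` -/
theorem Ex_inter (q r : E → ℝ) (f : Finset E → ℝ) :
    Ex q (fun Q => Ex r (fun R => f (Q ∩ R))) = Ex (fun e => q e * r e) f := by
  have key : ∀ T : Finset E, Ex q (fun Q => Ex r (fun R => if Q ∩ R = T then (1 : ℝ) else 0)) =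
      wt (fun e => q e * r e) T := by
    intro T
    have h1 : ∀ Q R : Finset E, (if Q ∩ R = T then (1 : ℝ) else 0) =
        ∏ e, if e ∈ R then (if (e ∈ Q ↔ e ∈ T) then 1 else 0) else (if e ∈ T then 0 else 1) := by
      intro Q R
      split_ifs with h
      · symm
        apply Finset.prod_eq_one
        intro e _
        have he : e ∈ Q ∩ R ↔ e ∈ T := by rw [h]
        rw [Finset.mem_inter] at he
        by_cases h1 : e ∈ R
        · simp only [h1, and_true] at he
          simp [h1, he]
        · simp only [h1, and_false, false_iff] at he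
          simp [h1, he]
      · symm
        have h2 : ∃ e, ¬ (e ∈ Q ∩ R ↔ e ∈ T) := by
          by_contra hcon
          push Not at hcon
          exact h (Finset.ext hcon)
        obtain ⟨e, he⟩ := h2
        apply Finset.prod_eq_zero (Finset.mem_univ e)
        rw [Finset.mem_inter] at he
        by_cases h1 : e ∈ R
        · simp only [h1, and_true] at he
          simp [h1, he]
        · simp only [h1, and_false, false_iff, not_not] at he
          simp [h1, he]
    simp only [h1]
    have h3 : ∀ Q : Finset E, Ex r (fun R => ∏ e, if e ∈ R then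
        (if (e ∈ Q ↔ e ∈ T) then (1 : ℝ) else 0) else (if e ∈ T then 0 else 1)) =
        ∏ e, if e ∈ Q then (r e * (if e ∈ T then 1 else 0) + (1 - r e) * (if e ∈ T then 0 else 1))
          else (r e * (if e ∈ T then 0 else 1) + (1 - r e) * (if e ∈ T then 0 else 1)) := by
      intro Q
      rw [Ex_prod]
      refine Finset.prod_congr rfl fun e _ => ?_
      by_cases h1 : e ∈ Q <;> by_cases h2 : e ∈ T <;> simp [h1, h2]
    simp only [h3]
    rw [Ex_prod]
    unfold wt
    refine Finset.prod_congr rfl fun e _ => ?_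
    by_cases h2 : e ∈ T
    · simp [h2]
    · simp [h2]
      ring
  have h4 : ∀ S : Finset E, f S = ∑ T : Finset E, f T * (if S = T then 1 else 0) := by
    intro S
    simp
  have h5 : Ex q (fun Q => Ex r (fun R => f (Q ∩ R))) =
      Ex q (fun Q => Ex r (fun R => ∑ T : Finset E, f T * (if Q ∩ R = T then 1 else 0))) := by
    refine Ex_congr q fun Q => Ex_congr r fun R => ?_
    exact h4 (Q ∩ R)
  rw [h5]
  simp only [Ex_sum, Ex_mul_left, key]
  unfold Ex
  exact Finset.sum_congr rfl fun T _ => by ring

/-- marginal law along an injective map -/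
theorem Ex_preimage {E' : Type*} [Fintype E'] [DecidableEq E'] (φ : E' → E)
    (hφ : Function.Injective φ) (r : E → ℝ) (f : Finset E' → ℝ) :
    Ex r (fun S => f (S.preimage φ hφ.injOn)) = Ex (fun e => r (φ e)) f := by
  have key : ∀ T : Finset E', Ex r (fun S => if S.preimage φ hφ.injOn = T then (1 : ℝ) else 0) =
      wt (fun e => r (φ e)) T := by
    intro T
    have h1 : ∀ S : Finset E, (if S.preimage φ hφ.injOn = T then (1 : ℝ) else 0) =
        ∏ e, if e ∈ S then (if (∃ a, φ a = e ∧ a ∉ T) then 0 else 1)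
          else (if (∃ a, φ a = e ∧ a ∈ T) then 0 else 1) := by
      intro S
      split_ifs with h
      · symm
        apply Finset.prod_eq_one
        intro e _
        split_ifs with h2 h3 h4
        · obtain ⟨a, ha, haT⟩ := h3
          rw [← h, Finset.mem_preimage, ha] at haT
          exact absurd h2 haT
        · rfl
        · obtain ⟨a, ha, haT⟩ := h4
          rw [← h, Finset.mem_preimage, ha] at haT
          exact absurd haT h2
        · rfl
      · symm
        have h2 : ∃ a, ¬ (a ∈ S.preimage φ hφ.injOn ↔ a ∈ T) := by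
          by_contra hcon
          push Not at hcon
          exact h (Finset.ext hcon)
        obtain ⟨a, ha⟩ := h2
        apply Finset.prod_eq_zero (Finset.mem_univ (φ a))
        rw [Finset.mem_preimage] at ha
        by_cases h1 : φ a ∈ S
        · have h3 : a ∉ T := fun h4 => ha ⟨fun _ => h4, fun _ => h1⟩
          have h5 : ∃ b, φ b = φ a ∧ b ∉ T := ⟨a, rfl, h3⟩
          simp [h1, h5]
        · have h3 : a ∈ T := by
            by_contra h4
            exact ha ⟨fun h5 => absurd h5 h1, fun h5 => absurd h5 h4⟩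
          have h5 : ∃ b, φ b = φ a ∧ b ∈ T := ⟨a, rfl, h3⟩
          simp [h1, h5]
    simp only [h1]
    rw [Ex_prod]
    unfold wt
    have h6 : ∀ e : E, (∀ a, φ a ≠ e) → (r e * (if (∃ a, φ a = e ∧ a ∉ T) then (0 : ℝ) else 1) +
        (1 - r e) * (if (∃ a, φ a = e ∧ a ∈ T) then 0 else 1)) = 1 := by
      intro e he
      have h7 : ¬ ∃ a, φ a = e ∧ a ∉ T := fun ⟨a, ha, _⟩ => he a ha
      have h8 : ¬ ∃ a, φ a = e ∧ a ∈ T := fun ⟨a, ha, _⟩ => he a ha
      simp [h7, h8]
    rw [← Finset.prod_subset (Finset.subset_univ (Finset.univ.map ⟨φ, hφ⟩))]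
    · rw [Finset.prod_map]
      refine Finset.prod_congr rfl fun a _ => ?_
      simp only [Function.Embedding.coeFn_mk]
      by_cases h9 : a ∈ T
      · have h7 : ¬ ∃ b, φ b = φ a ∧ b ∉ T := by
          rintro ⟨b, hb, hbT⟩
          rw [hφ hb] at hbT
          exact hbT h9
        have h8 : ∃ b, φ b = φ a ∧ b ∈ T := ⟨a, rfl, h9⟩
        simp [h7, h8, h9]
      · have h7 : ∃ b, φ b = φ a ∧ b ∉ T := ⟨a, rfl, h9⟩
        have h8 : ¬ ∃ b, φ b = φ a ∧ b ∈ T := by
          rintro ⟨b, hb, hbT⟩
          rw [hφ hb] at hbT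
          exact h9 hbT
        simp [h7, h8, h9]
    · intro e _ he
      apply h6
      intro a ha
      apply he
      simp [← ha]
  have h4 : ∀ S : Finset E', f S = ∑ T : Finset E', f T * (if S = T then 1 else 0) := by
    intro S
    simp
  rw [Ex_congr r (fun S => h4 (S.preimage φ hφ.injOn))]
  simp only [Ex_sum, Ex_mul_left, key]
  unfold Ex
  exact Finset.sum_congr rfl fun T _ => by ring

end Pool.Agent.Helper68.SP
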