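import Pool.Agent.Helper68.SP.Defs

/-!
# SP-24: merging matchings of different weight scales

PROOF.  `M = {e ∈ M₀ | ∀ e' ∈ M₀, b e < b e' → ∀ i, c i e ≠ c i e'}`.  Matching: let `e ≠ e' ∈ M`, `c i e = c i e'`.  If `b e = b e'` this contradicts `hM`; if `b e < b e'` then `e ∉ M`; symmetric.
`∑_{M₀ \ M} w e ≤ ∑_{e' ∈ M₀} ∑_i ∑_{e ∈ M₀, b e < b e', c i e = c i e'} w e`.  For fixed `e', i` the elements `e` of the inner sum have distinct values `t = b e' - b e ≥ 1` (two with the
same `b` and the same `c i` are equal by `hM`), and `w e ≤ w e' / γ ^ t`, so the inner sum is `≤ w e' ∑_{t ≥ 1} γ^(-t) = w e' / (γ - 1)`.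
Total loss `≤ k / (γ - 1) * ∑_{M₀} w`.
-/

set_option autoImplicit false

namespace Pool.Agent.Helper68.SP

open Finset

theorem merge_geo (γ : ℝ) (hγ : 1 < γ) (N : ℕ) :
    (γ - 1) * ∑ t ∈ range N, (γ⁻¹) ^ (t + 1) = 1 - (γ⁻¹) ^ N := by
  have h0 : γ ≠ 0 := by positivity
  induction N with
  | zero => simp
  | succ N ih =>
    rw [sum_range_succ, mul_add, ih, pow_succ]
    field_simp
    ring

theorem merge_geo_le (γ : ℝ) (hγ : 1 < γ) (N : ℕ) :
    ∑ t ∈ range N, (γ⁻¹) ^ (t + 1) ≤ 1 / (γ - 1) := by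
  have h1 := merge_geo γ hγ N
  have h2 : 0 < γ - 1 := by linarith
  rw [le_div_iff₀ h2, mul_comm, h1]
  have : 0 ≤ (γ⁻¹) ^ N := by positivity
  linarith

theorem merge_inner {E : Type} [DecidableEq E] (w : E → ℝ) (S : Finset E) (t : E → ℕ)
    (ht : ∀ e ∈ S, 1 ≤ t e) (hi : ∀ e ∈ S, ∀ e' ∈ S, t e = t e' → e = e') (γ W : ℝ) (hγ : 1 < γ)
    (hW : 0 ≤ W) (hw : ∀ e ∈ S, w e * γ ^ t e ≤ W) :
    ∑ e ∈ S, w e ≤ W / (γ - 1) := by
  have hg : 0 < γ := by linarith
  have h1 : ∑ e ∈ S, w e ≤ ∑ e ∈ S, W * (γ⁻¹) ^ ((t e - 1) + 1) := by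
    refine sum_le_sum fun e he => ?_
    rw [Nat.sub_add_cancel (ht e he), inv_pow, ← div_eq_mul_inv, le_div_iff₀ (by positivity)]
    exact hw e he
  have h2 : ∑ e ∈ S, (γ⁻¹) ^ ((t e - 1) + 1) = ∑ u ∈ S.image (fun e => t e - 1), (γ⁻¹) ^ (u + 1) := by
    rw [sum_image]
    intro e he e' he' h
    refine hi e he e' he' ?_
    have a1 := ht e he
    have a2 := ht e' he'
    simp only at h
    omega
  have h3 : ∑ u ∈ S.image (fun e => t e - 1), (γ⁻¹) ^ (u + 1) ≤
      ∑ u ∈ range ((S.image (fun e => t e - 1)).sup id + 1), (γ⁻¹) ^ (u + 1) := by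
    refine sum_le_sum_of_subset_of_nonneg ?_ (fun u _ _ => by positivity)
    intro u hu
    rw [mem_range]
    have := le_sup (f := id) hu
    simp only [id] at this
    exact Nat.lt_succ_of_le this
  have h4 := merge_geo_le γ hγ ((S.image (fun e => t e - 1)).sup id + 1)
  calc ∑ e ∈ S, w e ≤ ∑ e ∈ S, W * (γ⁻¹) ^ ((t e - 1) + 1) := h1
    _ = W * ∑ u ∈ S.image (fun e => t e - 1), (γ⁻¹) ^ (u + 1) := by rw [← mul_sum, h2]
    _ ≤ W * (1 / (γ - 1)) := mul_le_mul_of_nonneg_left (h3.trans h4) hW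
    _ = W / (γ - 1) := by ring

theorem merge {E U : Type} [Fintype E] [DecidableEq E] [DecidableEq U] {k : ℕ}
    (c : Fin k → E → U) (w : E → ℝ) (hw : ∀ e, 0 ≤ w e) (b : E → ℤ) (γ : ℝ) (hγ : 1 < γ)
    (M₀ : Finset E)
    (hM : ∀ e ∈ M₀, ∀ e' ∈ M₀, b e = b e' → ∀ i, c i e = c i e' → e = e')
    (hb : ∀ e ∈ M₀, ∀ e' ∈ M₀, b e < b e' → w e * γ ^ (b e' - b e).toNat ≤ w e') :
    ∃ M : Finset E, M ⊆ M₀ ∧ IsMatching c M ∧
      (1 - (k : ℝ) / (γ - 1)) * ∑ e ∈ M₀, w e ≤ ∑ e ∈ M, w e := by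
  classical
  set P : E → Prop := fun e => ∀ e' ∈ M₀, b e < b e' → ∀ i, c i e ≠ c i e' with hP
  refine ⟨M₀.filter P, filter_subset _ _, ?_, ?_⟩
  · intro i e he e' he' hc
    rw [mem_coe, mem_filter] at he he'
    rcases lt_trichotomy (b e) (b e') with h | h | h
    · exact absurd hc (he.2 e' he'.1 h i)
    · exact hM e he.1 e' he'.1 h i hc
    · exact absurd hc.symm (he'.2 e he.1 h i)
  · have hsplit : ∑ e ∈ M₀, w e = ∑ e ∈ M₀.filter P, w e + ∑ e ∈ M₀.filter (fun e => ¬ P e), w e :=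
      (sum_filter_add_sum_filter_not M₀ P w).symm
    have hbad : ∑ e ∈ M₀.filter (fun e => ¬ P e), w e ≤ (k : ℝ) / (γ - 1) * ∑ e ∈ M₀, w e := by
      have step1 : ∑ e ∈ M₀.filter (fun e => ¬ P e), w e ≤
          ∑ e ∈ M₀, ∑ e' ∈ M₀, ∑ i : Fin k, if b e < b e' ∧ c i e = c i e' then w e else 0 := by
        rw [sum_filter]
        refine sum_le_sum fun e he => ?_
        have nn : ∀ e' ∈ M₀, 0 ≤ ∑ i : Fin k, if b e < b e' ∧ c i e = c i e' then w e else 0 :=
          fun e' _ => sum_nonneg fun i _ => by split_ifs <;> first | exact hw e | exact le_rfl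
        by_cases h : P e
        · rw [if_neg (not_not.mpr h)]
          exact sum_nonneg nn
        · rw [if_pos h]
          simp only [hP, not_forall, not_not] at h
          obtain ⟨e', he', hlt, i, hi⟩ := h
          calc w e = if b e < b e' ∧ c i e = c i e' then w e else 0 := by
                rw [if_pos ⟨hlt, hi⟩]
            _ ≤ ∑ i : Fin k, if b e < b e' ∧ c i e = c i e' then w e else 0 :=
                single_le_sum (f := fun i : Fin k => if b e < b e' ∧ c i e = c i e' then w e else 0)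
                  (fun i _ => by
                    show (0 : ℝ) ≤ if b e < b e' ∧ c i e = c i e' then w e else 0
                    split_ifs
                    · exact hw e
                    · exact le_rfl) (mem_univ i)
            _ ≤ _ := single_le_sum
                (f := fun e' => ∑ i : Fin k, if b e < b e' ∧ c i e = c i e' then w e else 0) nn he'
      have step2 : (∑ e ∈ M₀, ∑ e' ∈ M₀, ∑ i : Fin k, if b e < b e' ∧ c i e = c i e' then w e else 0)
          = ∑ e' ∈ M₀, ∑ i : Fin k, ∑ e ∈ M₀.filter (fun e => b e < b e' ∧ c i e = c i e'), w e := by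
        rw [sum_comm]
        refine sum_congr rfl fun e' _ => ?_
        rw [sum_comm]
        refine sum_congr rfl fun i _ => ?_
        rw [sum_filter]
      have step3 : ∀ e' ∈ M₀, ∀ i : Fin k,
          ∑ e ∈ M₀.filter (fun e => b e < b e' ∧ c i e = c i e'), w e ≤ w e' / (γ - 1) := by
        intro e' he' i
        refine merge_inner w _ (fun e => (b e' - b e).toNat) ?_ ?_ γ (w e') hγ (hw e') ?_
        · intro e he
          rw [mem_filter] at he
          have := he.2.1
          show 1 ≤ (b e' - b e).toNat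
          omega
        · intro e he e'' he'' h
          rw [mem_filter] at he he''
          have h1 := he.2.1
          have h2 := he''.2.1
          have h3 : (b e' - b e).toNat = (b e' - b e'').toNat := h
          refine hM e he.1 e'' he''.1 (by omega) i ?_
          rw [he.2.2, he''.2.2]
        · intro e he
          rw [mem_filter] at he
          exact hb e he.1 e' he' he.2.1
      calc ∑ e ∈ M₀.filter (fun e => ¬ P e), w e
          ≤ ∑ e' ∈ M₀, ∑ i : Fin k, ∑ e ∈ M₀.filter (fun e => b e < b e' ∧ c i e = c i e'), w e := by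
            rw [← step2]; exact step1
        _ ≤ ∑ e' ∈ M₀, ∑ _i : Fin k, w e' / (γ - 1) :=
            sum_le_sum fun e' he' => sum_le_sum fun i _ => step3 e' he' i
        _ = (k : ℝ) / (γ - 1) * ∑ e ∈ M₀, w e := by
            rw [mul_sum]
            refine sum_congr rfl fun e' _ => ?_
            rw [sum_const, card_univ, Fintype.card_fin, nsmul_eq_mul]
            ring
    rw [sub_mul, one_mul]
    linarith

end Pool.Agent.Helper68.SP
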