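import Pool.Agent.Helper68.SP.BlockBase

/-!
# SP-23: the sparsifier for a block of weights

PROOF.  `τ` from `block_base k hk Γ ε`.  Apply it to `w' e = if e ∈ B then w e / s else 0` and `z' R e = if e ∈ B then z R e else 0` (`IsFM`: degrees are smaller).  `mean p z' e = mean p z e` for `e ∈ B` and `0` otherwise, so
`rateQ τ p (mean p z') e = q e * (if e ∈ B then 1 else 0)`, `q = rateQ τ p (mean p z)`.  Let `G'` be the result and `G Q R e = if e ∈ B then G' (Q ∩ B) R e else 0`.  The law of `Q ∩ B`: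
`Ex q (fun Q => f (Q ∩ B)) = Ex (fun e => q e * 1_B e) f` (`Ex_inter` with the rates `1_B`, for which only the set `B` has nonzero weight; or `Ex_mix`).
`∑_{e ∈ B} (w e / s) x e - ε ∑_{e ∈ B} x e ≤ Ex Ex ∑ w' G'` and `w' G' (Q ∩ B) R = (1/s) w G Q R` termwise.  Multiply by `s`; `ε s ∑_{B} x ≤ ε ∑_{B} w x` since `s ≤ w e` on `B`.
-/

set_option autoImplicit false

namespace Pool.Agent.Helper68.SP

open Finset

private lemma bl_restrict {E V : Type*} [Fintype E] [DecidableEq E] [DecidableEq V]
    {vs : E → Finset V} {z : E → ℝ} (h : IsFM vs z) (B : Finset E) :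
    IsFM vs (fun e => if e ∈ B then z e else 0) := by
  refine ⟨fun e => ?_, fun v => ?_⟩
  · split_ifs
    · exact h.nonneg e
    · exact le_rfl
  · refine le_trans ?_ (h.deg_le v)
    unfold deg
    refine Finset.sum_le_sum fun e _ => ?_
    by_cases h1 : v ∈ vs e <;> by_cases h2 : e ∈ B <;> simp [h1, h2, h.nonneg e]

private lemma bl_Ex {E : Type*} [Fintype E] [DecidableEq E] (q : E → ℝ) (B : Finset E)
    (f : Finset E → ℝ) :
    Ex (fun e => q e * (if e ∈ B then 1 else 0)) f = Ex q (fun Q => f (Q ∩ B)) := by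
  rw [← Ex_inter]
  refine Ex_congr q fun Q => ?_
  have h1 : ∀ R : Finset E, wt (fun e => if e ∈ B then (1 : ℝ) else 0) R ≠ 0 →
      f (Q ∩ R) = f (Q ∩ B) := by
    intro R hR
    have h2 : R = B := by
      ext e
      constructor
      · intro he
        by_contra hB
        exact notMem_of_wt_ne_zero hR (e := e) (by simp [hB]) he
      · intro he
        exact mem_of_wt_ne_zero hR (e := e) (by simp [he])
    rw [h2]
  rw [Ex_congr_wt _ h1, Ex_const]

theorem block_thm (k : ℕ) (hk : 1 ≤ k) (Γ ε : ℝ) (hΓ : 1 ≤ Γ) (hε : 0 < ε) :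
    ∃ τ : ℝ, 0 < τ ∧ τ ≤ 1 ∧ ∀ (E U : Type) [Fintype E] [DecidableEq E] [Fintype U]
      [DecidableEq U] (c : Fin k → E → U) (w : E → ℝ) (p s : ℝ) (z : Finset E → E → ℝ)
      (B : Finset E), 0 < s →
      (∀ e ∈ B, s ≤ w e ∧ w e ≤ Γ * s) → 0 < p → p ≤ 1 → (∀ R, IsFM (pvs c) (z R)) →
      (∀ R e, e ∉ R → z R e = 0) →
      ∃ G : Finset E → Finset E → E → ℝ, (∀ Q R, IsFM (pvs c) (G Q R)) ∧
        (∀ Q R e, ¬ (e ∈ Q ∧ e ∈ R ∧ e ∈ B) → G Q R e = 0) ∧
        (1 - ε) * ∑ e ∈ B, w e * mean p z e ≤
          Ex (rateQ τ p (mean p z)) (fun Q => Ex (fun _ => p) (fun R => ∑ e, w e * G Q R e)) := by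
  obtain ⟨τ, hτ0, hτ1, H⟩ := block_base k hk Γ ε hΓ hε
  refine ⟨τ, hτ0, hτ1, ?_⟩
  intro E U _ _ _ _ c w p s z B hs hw hp hp1 hz hzR
  obtain ⟨G', hG1, hG2, hG3⟩ := H E U c (fun e => if e ∈ B then w e / s else 0) p
    (fun R e => if e ∈ B then z R e else 0) (by
      intro e
      by_cases he : e ∈ B
      · obtain ⟨h1, h2⟩ := hw e he
        simp only [he, if_true]
        refine ⟨div_nonneg (hs.le.trans h1) hs.le, ?_⟩
        rw [div_le_iff₀ hs]
        exact h2
      · simp only [he, if_false]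
        exact ⟨le_rfl, by linarith⟩) hp hp1 (fun R => bl_restrict (hz R) B) (by
      intro R e he
      simp [hzR R e he])
  have hmean : ∀ e, mean p (fun R e => if e ∈ B then z R e else 0) e =
      if e ∈ B then mean p z e else 0 := by
    intro e
    unfold mean
    by_cases he : e ∈ B
    · simp only [he, if_true]
    · simp only [he, if_false]
      exact Ex_const _ _
  have hrate : rateQ τ p (mean p (fun R e => if e ∈ B then z R e else 0)) =
      fun e => rateQ τ p (mean p z) e * (if e ∈ B then 1 else 0) := by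
    funext e
    unfold rateQ
    rw [hmean]
    by_cases he : e ∈ B
    · simp only [he, if_true, mul_one]
    · simp only [he, if_false, zero_div, mul_zero]
      exact min_eq_right zero_le_one
  refine ⟨fun Q R e => if e ∈ B then G' (Q ∩ B) R e else 0, fun Q R => bl_restrict (hG1 _ R) B,
    ?_, ?_⟩
  · intro Q R e h
    by_cases he : e ∈ B
    · simp only [he, if_true]
      apply hG2
      rintro ⟨h1, h2⟩
      exact h ⟨(Finset.mem_inter.1 h1).1, h2, he⟩
    · simp only [he, if_false]
  · rw [hrate, bl_Ex] at hG3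
    have hR : ∀ Q : Finset E, Ex (fun _ => p) (fun R => ∑ e, (if e ∈ B then w e / s else 0) *
        G' (Q ∩ B) R e) = 1 / s * Ex (fun _ => p) (fun R => ∑ e, w e *
          (if e ∈ B then G' (Q ∩ B) R e else 0)) := by
      intro Q
      rw [← Ex_mul_left]
      refine Ex_congr _ fun R => ?_
      rw [Finset.mul_sum]
      refine Finset.sum_congr rfl fun e _ => ?_
      by_cases he : e ∈ B
      · simp only [he, if_true]
        ring
      · simp only [he, if_false]
        ring
    rw [Ex_congr _ hR, Ex_mul_left] at hG3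
    have hL1 : ∑ e, (if e ∈ B then w e / s else 0) *
        mean p (fun R e => if e ∈ B then z R e else 0) e =
        1 / s * ∑ e ∈ B, w e * mean p z e := by
      rw [Finset.mul_sum, ← Finset.sum_subset (Finset.subset_univ B)]
      · refine Finset.sum_congr rfl fun e he => ?_
        rw [hmean]
        simp only [he, if_true]
        ring
      · intro e _ he
        simp only [he, if_false, zero_mul]
    have hL2 : ∑ e, mean p (fun R e => if e ∈ B then z R e else 0) e = ∑ e ∈ B, mean p z e := by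
      rw [← Finset.sum_subset (Finset.subset_univ B)]
      · refine Finset.sum_congr rfl fun e he => ?_
        rw [hmean]
        simp only [he, if_true]
      · intro e _ he
        rw [hmean]
        simp only [he, if_false]
    rw [hL1, hL2] at hG3
    have hm0 : ∀ e, 0 ≤ mean p z e := by
      intro e
      unfold mean
      exact Ex_nonneg (fun _ => ⟨hp.le, hp1⟩) fun R => (hz R).nonneg e
    have h1 : s * ∑ e ∈ B, mean p z e ≤ ∑ e ∈ B, w e * mean p z e := by
      rw [Finset.mul_sum]
      exact Finset.sum_le_sum fun e he => mul_le_mul_of_nonneg_right (hw e he).1 (hm0 e)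
    have h2 := mul_le_mul_of_nonneg_left hG3 hs.le
    have h3 : s * (1 / s * ∑ e ∈ B, w e * mean p z e - ε * ∑ e ∈ B, mean p z e) =
        ∑ e ∈ B, w e * mean p z e - ε * (s * ∑ e ∈ B, mean p z e) := by
      field_simp
    have h4 : ∀ x : ℝ, s * (1 / s * x) = x := fun x => by field_simp
    rw [h3, h4] at h2
    have h5 := mul_le_mul_of_nonneg_left h1 hε.le
    calc (1 - ε) * ∑ e ∈ B, w e * mean p z e
        = ∑ e ∈ B, w e * mean p z e - ε * ∑ e ∈ B, w e * mean p z e := by ring
      _ ≤ ∑ e ∈ B, w e * mean p z e - ε * (s * ∑ e ∈ B, mean p z e) := by linarith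
      _ ≤ _ := h2

end Pool.Agent.Helper68.SP
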