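import Pool.Agent.Helper68.SP.SmallDeg

/-!
# SP-03: the integrality gap `k - 1` (Furedi-Kahn-Seymour; proof of Chan and Lau)

PROOF of `local_ratio`: strong induction on `S.card`, for all `w`.  `S = ∅`: `M = ∅`.  Otherwise `exists_small_degree` gives `i, u` with
`D = S.filter (c i · = u)` nonempty and `D.card ≤ k - 1`.  Let `e₀ ∈ D` have the largest `x`, `s = ∑_{e ∈ D} x e ≤ 1` (degree of `(i, u)`;
`x ≥ 0`), so `s ≤ (k - 1) x e₀`.  Let `Nb f` mean `∃ j, c j f = c j e₀`.  Then
`∑_{f ∈ S, Nb f} x f ≤ s + ∑_{j ≠ i} (∑_{f ∈ S, c j f = c j e₀} x f - x e₀) ≤ s + (k - 1) (1 - x e₀) ≤ k - 1`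
(every `f ≠ e₀` with `Nb f` is counted in `D` or at some `j ≠ i`; `e₀` is counted in `D`).  Subsets of `Indep` sets are `Indep`.
If `w e₀ ≤ 0`, apply the induction hypothesis to `S.erase e₀` and the same `w`.  If `w e₀ > 0`, let
`w' f = w f - (if Nb f then w e₀ else 0)`, so `w' e₀ = 0`, and let `M'` be the matching for `S.erase e₀`, `w'`.  If no `f ∈ M'` has `Nb f`, then
`M = insert e₀ M'` is a matching and `w(M) = w'(M') + w e₀`; otherwise `M = M'` and `w(M') = w'(M') + w e₀ * #{f ∈ M' | Nb f} ≥ w'(M') + w e₀`.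
Finally `∑_{S} w x = ∑_{S.erase e₀} w' x + w e₀ ∑_{f ∈ S, Nb f} x f ≤ (k - 1) w'(M') + (k - 1) w e₀ ≤ (k - 1) w(M)`.

`int_gap`: apply `exists_indep_support`, then `local_ratio` to `z'` and its support.
-/

set_option autoImplicit false

namespace Pool.Agent.Helper68.SP

open Finset

private theorem indep_mono {E U : Type} [Fintype E] [DecidableEq E] [Fintype U] [DecidableEq U]
    {k : ℕ} (c : Fin k → E → U) {S S' : Finset E} (hS : Indep (pvs c) S) (h : S' ⊆ S) :
    Indep (pvs c) S' := fun a ha hv => hS a (fun e he => ha e (fun h' => he (h h'))) hv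

private theorem sum_class_le {E U : Type} [Fintype E] [DecidableEq E] [Fintype U] [DecidableEq U]
    {k : ℕ} (c : Fin k → E → U) (x : E → ℝ) (hx : IsFM (pvs c) x) (S : Finset E) (i : Fin k)
    (u : U) : ∑ e ∈ S, (if c i e = u then x e else 0) ≤ 1 := by
  have h1 : ∑ e ∈ S, (if c i e = u then x e else 0) ≤ ∑ e, (if c i e = u then x e else 0) := by
    apply Finset.sum_le_sum_of_subset_of_nonneg (Finset.subset_univ _)
    intro e _ _
    split_ifs
    · exact hx.nonneg e
    · exact le_rfl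
  have h2 : ∑ e, (if c i e = u then x e else 0) = deg (pvs c) x (i, u) := by
    unfold deg
    refine Finset.sum_congr rfl fun e _ => ?_
    have h3 : (i, u) ∈ pvs c e ↔ c i e = u := by
      unfold pvs
      rw [Finset.mem_image]
      constructor
      · rintro ⟨j, -, hj⟩
        obtain ⟨rfl, h⟩ := Prod.mk.inj hj
        exact h
      · intro h
        exact ⟨i, Finset.mem_univ _, by rw [h]⟩
    by_cases h : c i e = u
    · rw [if_pos h, if_pos (h3.2 h)]
    · rw [if_neg h, if_neg (fun h' => h (h3.1 h'))]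
  rw [h2] at h1
  exact h1.trans (hx.deg_le _)

private theorem nb_sum_le {E U : Type} [Fintype E] [DecidableEq E] [Fintype U] [DecidableEq U]
    {k : ℕ} (hk : 2 ≤ k) (c : Fin k → E → U) (x : E → ℝ) (hx : IsFM (pvs c) x) (S : Finset E)
    (i : Fin k) (u : U) (hcard : (S.filter (fun e => c i e = u)).card ≤ k - 1) (e₀ : E)
    (he₀ : e₀ ∈ S) (hu : c i e₀ = u) (hmax : ∀ e ∈ S, c i e = u → x e ≤ x e₀) :
    ∑ f ∈ S, (if ∃ j, c j f = c j e₀ then x f else 0) ≤ (k : ℝ) - 1 := by
  classical
  have hk1 : (((k - 1 : ℕ)) : ℝ) = (k : ℝ) - 1 := by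
    rw [Nat.cast_sub (by omega)]
    simp
  have h0 := hx.nonneg
  -- pointwise
  have hpt : ∀ f ∈ S, (if ∃ j, c j f = c j e₀ then x f else 0) ≤
      (if c i f = u then x f else 0) +
        ∑ j ∈ Finset.univ.erase i, (if c j f = c j e₀ ∧ f ≠ e₀ then x f else 0) := by
    intro f _
    have hnn : ∀ j, 0 ≤ (if c j f = c j e₀ ∧ f ≠ e₀ then x f else 0) := by
      intro j
      split_ifs
      · exact h0 f
      · exact le_rfl
    have hs := Finset.sum_nonneg (s := Finset.univ.erase i) fun j _ => hnn j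
    split_ifs with h1 h2 h2
    · linarith
    · obtain ⟨j, hj⟩ := h1
      have hji : j ≠ i := by
        rintro rfl
        exact h2 (hj.trans hu)
      have hfe : f ≠ e₀ := by
        rintro rfl
        exact h2 hu
      have h3 := Finset.single_le_sum (f := fun j => if c j f = c j e₀ ∧ f ≠ e₀ then x f else 0)
        (fun j _ => hnn j) (Finset.mem_erase.2 ⟨hji, Finset.mem_univ j⟩)
      have h4 : (if c j f = c j e₀ ∧ f ≠ e₀ then x f else 0) = x f := if_pos ⟨hj, hfe⟩
      have h5 : x f ≤ ∑ j ∈ Finset.univ.erase i, (if c j f = c j e₀ ∧ f ≠ e₀ then x f else 0) :=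
        h4.symm.le.trans h3
      linarith
    · have := h0 f
      linarith
    · linarith
  have hsum := Finset.sum_le_sum hpt
  rw [Finset.sum_add_distrib, Finset.sum_comm] at hsum
  -- the first class
  have hD : ∑ f ∈ S, (if c i f = u then x f else 0) ≤ ((k : ℝ) - 1) * x e₀ := by
    rw [← Finset.sum_filter]
    have h1 : ∑ f ∈ S.filter (fun e => c i e = u), x f ≤
        (S.filter (fun e => c i e = u)).card • x e₀ := by
      apply Finset.sum_le_card_nsmul
      intro e he
      rw [Finset.mem_filter] at he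
      exact hmax e he.1 he.2
    rw [nsmul_eq_mul] at h1
    have h2 : ((S.filter (fun e => c i e = u)).card : ℝ) ≤ (k : ℝ) - 1 := by
      rw [← hk1]
      exact_mod_cast hcard
    exact h1.trans (mul_le_mul_of_nonneg_right h2 (h0 e₀))
  -- the other classes
  have hj : ∀ j : Fin k, ∑ f ∈ S, (if c j f = c j e₀ ∧ f ≠ e₀ then x f else 0) ≤ 1 - x e₀ := by
    intro j
    have h1 := sum_class_le c x hx S j (c j e₀)
    have h2 : ∑ f ∈ S, (if c j f = c j e₀ then x f else 0) =
        ∑ f ∈ S, (if c j f = c j e₀ ∧ f ≠ e₀ then x f else 0) + x e₀ := by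
      rw [← Finset.add_sum_erase S _ he₀, ← Finset.add_sum_erase S (fun f =>
        if c j f = c j e₀ ∧ f ≠ e₀ then x f else 0) he₀]
      simp only [if_true, ne_eq, not_true_eq_false, and_false, if_false, zero_add]
      rw [add_comm]
      congr 1
      refine Finset.sum_congr rfl fun f hf => ?_
      have h3 : f ≠ e₀ := (Finset.mem_erase.1 hf).1
      simp [h3]
    linarith
  have hjj : ∑ j ∈ Finset.univ.erase i, ∑ f ∈ S, (if c j f = c j e₀ ∧ f ≠ e₀ then x f else 0) ≤
      ((k : ℝ) - 1) * (1 - x e₀) := by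
    have h1 : ∑ j ∈ Finset.univ.erase i, ∑ f ∈ S, (if c j f = c j e₀ ∧ f ≠ e₀ then x f else 0) ≤
        (Finset.univ.erase i).card • (1 - x e₀) := by
      apply Finset.sum_le_card_nsmul
      intro j _
      exact hj j
    rw [Finset.card_erase_of_mem (Finset.mem_univ i), Finset.card_univ, Fintype.card_fin,
      nsmul_eq_mul, hk1] at h1
    exact h1
  linarith

theorem local_ratio {E U : Type} [Fintype E] [DecidableEq E] [Fintype U] [DecidableEq U]
    {k : ℕ} (hk : 2 ≤ k) (c : Fin k → E → U) (x : E → ℝ) (hx : IsFM (pvs c) x) (S : Finset E)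
    (hS : Indep (pvs c) S) (w : E → ℝ) :
    ∃ M : Finset E, M ⊆ S ∧ IsMatching c M ∧
      ∑ e ∈ S, w e * x e ≤ ((k : ℝ) - 1) * ∑ e ∈ M, w e := by
  classical
  have hk0 : (0 : ℝ) ≤ (k : ℝ) - 1 := by
    have : (2 : ℝ) ≤ k := by exact_mod_cast hk
    linarith
  induction hn : S.card using Nat.strong_induction_on generalizing S w with
  | _ n ih =>
  rcases S.eq_empty_or_nonempty with rfl | hne
  · exact ⟨∅, Finset.Subset.refl _, fun i => by simp, by simp⟩
  obtain ⟨i, u, hD, hcard⟩ := exists_small_degree hk c S hne hS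
  obtain ⟨e₀, he₀D, hmax⟩ := Finset.exists_max_image _ x hD
  rw [Finset.mem_filter] at he₀D
  obtain ⟨he₀, hu⟩ := he₀D
  have hmax' : ∀ e ∈ S, c i e = u → x e ≤ x e₀ := fun e he h =>
    hmax e (Finset.mem_filter.2 ⟨he, h⟩)
  have hnb := nb_sum_le hk c x hx S i u hcard e₀ he₀ hu hmax'
  have hlt : (S.erase e₀).card < n := by
    rw [← hn]
    exact Finset.card_erase_lt_of_mem he₀
  have hI : Indep (pvs c) (S.erase e₀) := indep_mono c hS (Finset.erase_subset _ _)
  rcases le_or_gt (w e₀) 0 with hw | hw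
  · obtain ⟨M, hM1, hM2, hM3⟩ := ih _ hlt (S.erase e₀) hI w rfl
    refine ⟨M, hM1.trans (Finset.erase_subset _ _), hM2, ?_⟩
    rw [← Finset.add_sum_erase S _ he₀]
    have h1 : w e₀ * x e₀ ≤ 0 := mul_nonpos_of_nonpos_of_nonneg hw (hx.nonneg e₀)
    linarith
  · obtain ⟨M, hM1, hM2, hM3⟩ := ih _ hlt (S.erase e₀) hI
      (fun f => w f - (if ∃ j, c j f = c j e₀ then w e₀ else 0)) rfl
    have hself : ∃ j, c j e₀ = c j e₀ := ⟨i, rfl⟩
    have hsplit : ∑ e ∈ S, w e * x e =
        ∑ e ∈ S.erase e₀, (w e - (if ∃ j, c j e = c j e₀ then w e₀ else 0)) * x e +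
        w e₀ * ∑ f ∈ S, (if ∃ j, c j f = c j e₀ then x f else 0) := by
      have h1 : ∑ e ∈ S, w e * x e =
          ∑ e ∈ S, (w e - (if ∃ j, c j e = c j e₀ then w e₀ else 0)) * x e +
          w e₀ * ∑ f ∈ S, (if ∃ j, c j f = c j e₀ then x f else 0) := by
        rw [Finset.mul_sum, ← Finset.sum_add_distrib]
        refine Finset.sum_congr rfl fun e _ => ?_
        split_ifs <;> ring
      rw [h1, ← Finset.add_sum_erase S (fun e =>
        (w e - (if ∃ j, c j e = c j e₀ then w e₀ else 0)) * x e) he₀]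
      rw [if_pos hself, sub_self, zero_mul, zero_add]
    have hub : ∑ e ∈ S, w e * x e ≤ ((k : ℝ) - 1) *
        (∑ e ∈ M, (w e - (if ∃ j, c j e = c j e₀ then w e₀ else 0)) + w e₀) := by
      rw [hsplit, mul_add]
      have h2 : w e₀ * ∑ f ∈ S, (if ∃ j, c j f = c j e₀ then x f else 0) ≤
          ((k : ℝ) - 1) * w e₀ := by
        rw [mul_comm ((k : ℝ) - 1)]
        exact mul_le_mul_of_nonneg_left hnb hw.le
      linarith
    by_cases hex : ∃ f ∈ M, ∃ j, c j f = c j e₀
    · refine ⟨M, hM1.trans (Finset.erase_subset _ _), hM2, hub.trans ?_⟩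
      apply mul_le_mul_of_nonneg_left _ hk0
      obtain ⟨f, hf, hfj⟩ := hex
      have h1 : w e₀ ≤ ∑ e ∈ M, (if ∃ j, c j e = c j e₀ then w e₀ else 0) := by
        have h2 := Finset.single_le_sum (f := fun e => if ∃ j, c j e = c j e₀ then w e₀ else 0)
          (fun e _ => by
            split_ifs
            · exact hw.le
            · exact le_rfl) hf
        simp only [if_pos hfj] at h2
        exact h2
      rw [Finset.sum_sub_distrib]
      linarith
    · push Not at hex
      have he₀M : e₀ ∉ M := fun h => (Finset.mem_erase.1 (hM1 h)).1 rfl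
      refine ⟨insert e₀ M, ?_, ?_, hub.trans ?_⟩
      · rw [Finset.insert_subset_iff]
        exact ⟨he₀, hM1.trans (Finset.erase_subset _ _)⟩
      · intro j
        rw [Finset.coe_insert, Set.injOn_insert (by exact_mod_cast he₀M)]
        refine ⟨hM2 j, ?_⟩
        rintro ⟨f, hf, hfj⟩
        exact hex f hf j hfj
      · apply mul_le_mul_of_nonneg_left _ hk0
        rw [Finset.sum_insert he₀M]
        have h1 : ∑ e ∈ M, (w e - (if ∃ j, c j e = c j e₀ then w e₀ else 0)) = ∑ e ∈ M, w e := by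
          refine Finset.sum_congr rfl fun e he => ?_
          rw [if_neg (by
            push Not
            exact hex e he), sub_zero]
        rw [h1]
        linarith

theorem int_gap {E U : Type} [Fintype E] [DecidableEq E] [Fintype U] [DecidableEq U]
    {k : ℕ} (hk : 2 ≤ k) (c : Fin k → E → U) (w z : E → ℝ) (hz : IsFM (pvs c) z) :
    ∃ M : Finset E, (∀ e ∈ M, z e ≠ 0) ∧ IsMatching c M ∧
      ∑ e, w e * z e ≤ ((k : ℝ) - 1) * ∑ e ∈ M, w e := by
  obtain ⟨z', hz', h0, hle, hI⟩ := exists_indep_support (by omega) c w z hz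
  obtain ⟨M, hM1, hM2, hM3⟩ := local_ratio hk c z' hz' _ hI w
  refine ⟨M, fun e he hze => ?_, hM2, hle.trans ?_⟩
  · have h1 := hM1 he
    rw [Finset.mem_filter] at h1
    exact h1.2 (h0 e hze)
  · have h1 : ∑ e, w e * z' e = ∑ e ∈ Finset.univ.filter (fun e => z' e ≠ 0), w e * z' e := by
      symm
      apply Finset.sum_subset (Finset.filter_subset _ _)
      intro e _ he
      rw [Finset.mem_filter] at he
      push Not at he
      rw [he (Finset.mem_univ e), mul_zero]
    rw [h1]
    exact hM3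

end Pool.Agent.Helper68.SP
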