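import Pool.Agent.Helper68.SP.OptDefs
import Pool.Agent.Helper68.SP.Block
import Pool.Agent.Helper68.SP.IntGap
import Pool.Agent.Helper68.SP.Merge

/-!
# SP-25: all weights (decomposition into scales)

PROOF.  We may assume `ε ≤ 1` (if `ε > 1` the left side is `≤ 0` for any `τ`; use the `τ` of `ε = 1`, the left side is monotone).  `ε' = ε/3`, `γ = 1 + k/ε'`, `m = ⌈1/ε'⌉₊ ≥ 1`, `Γ = γ^(m-1) ≥ 1`;
`τ` from `block_thm k _ Γ ε'`.  `z = zOpt c w` (`isFM_zOpt`, `zOpt_eq_zero`), `x = mean p z`, `∑ w x = Ex p (optM c w) =: A` (`sum_zOpt`).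
For `w e > 0` let `j e : ℤ` with `γ ^ j ≤ w e < γ ^ (j+1)` (`exists_mem_Ico_zpow`); `j e = 0` otherwise.  Among the residues `ρ ∈ {0, .., m-1}` choose one with
`∑_{e : w e > 0, j e ≡ ρ mod m} w e x e ≤ A / m` (average).  `Kp = {e | 0 < w e, j e % m ≠ ρ}`, `b e = (j e - ρ) / m` (floor division), so for `e ∈ Kp`: `j e - ρ = m b e + t`,
`1 ≤ t ≤ m - 1`, and with `s β = γ ^ (ρ + m β + 1)` (zpow): `s (b e) ≤ w e ≤ Γ * s (b e)`.  `∑_{Kp} w x ≥ (1 - 1/m) A ≥ (1 - ε') A`.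
For `β ∈ Kp.image b` apply `block_thm` with `B_β = {e ∈ Kp | b e = β}`, `s = s β`: `G β`.  For `Q, R` apply `int_gap` to `w`, `G β Q R`: a matching `M_β ⊆ Q ∩ R ∩ B_β` with
`∑ w G β Q R ≤ (k-1) w(M_β)`.  `M₀ = ⋃_β M_β` satisfies the hypotheses of `merge` with this `γ`: if `b e = b e'` both are in the same `M_β`; if `t = b e' - b e ≥ 1` then
`w e < γ^(ρ + m b e + m)` and `w e' ≥ γ^(ρ + m b e + m t + 1)`, and `m t + 1 - m ≥ t`.  So `optM (Q ∩ R) ≥ (1 - k/(γ-1)) w(M₀) = (1 - ε') ∑_β w(M_β) ≥ ((1-ε')/(k-1)) ∑_β ∑ w G β Q R`.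
Take expectations and sum over `β`: `≥ ((1-ε')^2/(k-1)) ∑_{Kp} w x ≥ ((1-ε')^3/(k-1)) A ≥ ((1-ε)/(k-1)) A`.
-/

set_option autoImplicit false

namespace Pool.Agent.Helper68.SP

open Finset

/-- the rates of the sparsifier are rates -/
lemma isRate_rateQ_of_nonneg {E : Type*} {τ p : ℝ} (hτ : 0 < τ) (hp : 0 < p) {x : E → ℝ}
    (hx : ∀ e, 0 ≤ x e) : IsRate (rateQ τ p x) := by
  intro e
  unfold rateQ
  exact ⟨le_min zero_le_one (div_nonneg (hx e) (mul_pos hτ hp).le), min_le_left _ _⟩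

lemma mean_zOpt_nonneg {E U : Type} [Fintype E] [DecidableEq E] {k : ℕ}
    (c : Fin k → E → U) (w : E → ℝ) {p : ℝ} (hp : 0 < p) (hp1 : p ≤ 1) (e : E) :
    0 ≤ mean p (zOpt c w) e := by
  unfold mean
  apply Ex_nonneg (fun _ => ⟨hp.le, hp1⟩)
  intro S
  unfold zOpt
  split_ifs <;> norm_num

/-- the sum of the means -/
lemma sum_mean_zOpt {E U : Type} [Fintype E] [DecidableEq E] {k : ℕ}
    (c : Fin k → E → U) (w : E → ℝ) (p : ℝ) :
    ∑ e, w e * mean p (zOpt c w) e = Ex (fun _ => p) (optM c w) := by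
  unfold mean
  rw [← Ex_congr (fun _ => p) (sum_zOpt c w), Ex_sum]
  exact Finset.sum_congr rfl fun e _ => (Ex_mul_left _ _ _).symm

/-- the scales: arithmetic of the block index -/
lemma scale_bounds {γ : ℝ} (hγ : 1 < γ) {m : ℕ} (hm : 1 ≤ m) {ρ : ℕ} (hρ : ρ < m) {j : ℤ}
    (hj : j % (m : ℤ) ≠ (ρ : ℤ)) {x : ℝ} (h1 : γ ^ j ≤ x) (h2 : x < γ ^ (j + 1)) :
    γ ^ ((ρ : ℤ) + m * ((j - ρ) / m) + 1) ≤ x ∧ x ≤ γ ^ ((ρ : ℤ) + m * ((j - ρ) / m) + m) := by
  have hm0 : (0 : ℤ) < m := by exact_mod_cast hm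
  have h3 := Int.emod_add_mul_ediv (j - ρ) m
  have h4 := Int.emod_nonneg (j - ρ) hm0.ne'
  have h5 := Int.emod_lt_of_pos (j - ρ) hm0
  have h6 : (j - ρ) % (m : ℤ) ≠ 0 := by
    intro h
    apply hj
    have h8 : j % (m : ℤ) = (ρ : ℤ) % m := Int.emod_eq_emod_iff_emod_sub_eq_zero.2 h
    rw [h8]
    exact Int.emod_eq_of_lt (Int.natCast_nonneg _) (by exact_mod_cast hρ)
  have h9 : (1 : ℤ) ≤ (j - ρ) % m := by omega
  constructor
  · refine le_trans (zpow_le_zpow_right₀ hγ.le ?_) h1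
    linarith
  · refine le_trans h2.le (zpow_le_zpow_right₀ hγ.le ?_)
    linarith

/-- the main part: one residue class is removed -/
lemma scale_main (k : ℕ) (hk : 2 ≤ k) (ε : ℝ) (hε : 0 < ε) (hε1 : ε ≤ 1) (γ : ℝ)
    (hγ : γ = 1 + (k : ℝ) / ε) (m : ℕ) (hm : 1 ≤ m) (hm1 : 1 / (m : ℝ) ≤ ε) (τ : ℝ)
    (hτ : 0 < τ) (E U : Type) [Fintype E] [DecidableEq E] [Fintype U] [DecidableEq U]
    (c : Fin k → E → U) (w : E → ℝ) (p : ℝ) (hw : ∀ e, 0 ≤ w e) (hp : 0 < p) (hp1 : p ≤ 1)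
    (hblock : ∀ (s : ℝ) (z : Finset E → E → ℝ)
      (B : Finset E), 0 < s →
      (∀ e ∈ B, s ≤ w e ∧ w e ≤ γ ^ (m - 1) * s) → 0 < p → p ≤ 1 → (∀ R, IsFM (pvs c) (z R)) →
      (∀ R e, e ∉ R → z R e = 0) →
      ∃ G : Finset E → Finset E → E → ℝ, (∀ Q R, IsFM (pvs c) (G Q R)) ∧
        (∀ Q R e, ¬ (e ∈ Q ∧ e ∈ R ∧ e ∈ B) → G Q R e = 0) ∧
        (1 - ε) * ∑ e ∈ B, w e * mean p z e ≤
          Ex (rateQ τ p (mean p z)) (fun Q => Ex (fun _ => p) (fun R => ∑ e, w e * G Q R e))) :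
    (1 - ε) ^ 3 / ((k : ℝ) - 1) * Ex (fun _ => p) (optM c w) ≤
        Ex (rateQ τ p (mean p (zOpt c w)))
          (fun Q => Ex (fun _ => p) (fun R => optM c w (Q ∩ R))) := by
  classical
  have hk0 : (0 : ℝ) < (k : ℝ) - 1 := by
    have : (2 : ℝ) ≤ k := by exact_mod_cast hk
    linarith
  have hkp : (0 : ℝ) < (k : ℝ) := by linarith
  have hγ1 : 1 < γ := by
    rw [hγ]
    have : 0 < (k : ℝ) / ε := div_pos hkp hε
    linarith
  have hγ0 : 0 < γ := by linarith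
  have hmR : (0 : ℝ) < m := by exact_mod_cast hm
  set x : E → ℝ := mean p (zOpt c w) with hx
  set A : ℝ := Ex (fun _ => p) (optM c w) with hA
  have hx0 : ∀ e, 0 ≤ x e := mean_zOpt_nonneg c w hp hp1
  have hsum : ∑ e, w e * x e = A := sum_mean_zOpt c w p
  have hA0 : 0 ≤ A := by
    rw [← hsum]
    exact Finset.sum_nonneg fun e _ => mul_nonneg (hw e) (hx0 e)
  -- the exponents
  have hjex : ∀ e, ∃ n : ℤ, 0 < w e → γ ^ n ≤ w e ∧ w e < γ ^ (n + 1) := by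
    intro e
    by_cases h : 0 < w e
    · obtain ⟨n, hn⟩ := exists_mem_Ico_zpow h hγ1
      exact ⟨n, fun _ => ⟨hn.1, hn.2⟩⟩
    · exact ⟨0, fun h1 => absurd h1 h⟩
  choose j hj using hjex
  -- the residue
  obtain ⟨ρ, hρm, hρ⟩ : ∃ ρ : ℕ, ρ < m ∧
      ∑ e ∈ univ.filter (fun e => 0 < w e ∧ j e % (m : ℤ) = (ρ : ℤ)), w e * x e ≤ A / m := by
    by_contra hcon
    push Not at hcon
    have h1 : ∑ ρ ∈ range m, ∑ e ∈ univ.filter (fun e => 0 < w e ∧ j e % (m : ℤ) = (ρ : ℤ)),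
        w e * x e ≤ A := by
      have h2 : ∀ ρ ∈ range m,
          ∑ e ∈ univ.filter (fun e => 0 < w e ∧ j e % (m : ℤ) = (ρ : ℤ)), w e * x e =
          ∑ e, if (0 < w e ∧ j e % (m : ℤ) = (ρ : ℤ)) then w e * x e else 0 := by
        intro ρ _
        rw [Finset.sum_filter]
      rw [Finset.sum_congr rfl h2, Finset.sum_comm, ← hsum]
      refine Finset.sum_le_sum fun e _ => ?_
      by_cases hwe : 0 < w e
      · have hm0 : (0 : ℤ) < m := by exact_mod_cast hm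
        have h3 := Int.emod_nonneg (j e) hm0.ne'
        have h4 := Int.emod_lt_of_pos (j e) hm0
        obtain ⟨r, hr⟩ := Int.eq_ofNat_of_zero_le h3
        have h5 : ∀ ρ ∈ range m, (if (0 < w e ∧ j e % (m : ℤ) = (ρ : ℤ)) then w e * x e else 0) =
            if ρ = r then w e * x e else 0 := by
          intro ρ _
          have : (0 < w e ∧ j e % (m : ℤ) = (ρ : ℤ)) ↔ ρ = r := by
            rw [hr]
            constructor
            · rintro ⟨_, h⟩
              exact_mod_cast h.symm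
            · rintro rfl
              exact ⟨hwe, rfl⟩
          simp only [this]
        rw [Finset.sum_congr rfl h5, Finset.sum_ite_eq']
        split_ifs
        · exact le_rfl
        · exact mul_nonneg (hw e) (hx0 e)
      · have h5 : ∀ ρ ∈ range m,
            (if (0 < w e ∧ j e % (m : ℤ) = (ρ : ℤ)) then w e * x e else 0) = 0 := by
          intro ρ _
          rw [if_neg]
          exact fun h => hwe h.1
        rw [Finset.sum_congr rfl h5, Finset.sum_const_zero]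
        exact mul_nonneg (hw e) (hx0 e)
    have h3 : ∑ ρ ∈ range m, A / m < ∑ ρ ∈ range m,
        ∑ e ∈ univ.filter (fun e => 0 < w e ∧ j e % (m : ℤ) = (ρ : ℤ)), w e * x e := by
      apply Finset.sum_lt_sum_of_nonempty
      · exact ⟨0, Finset.mem_range.2 hm⟩
      · intro ρ hρ
        exact hcon ρ (Finset.mem_range.1 hρ)
    rw [Finset.sum_const, Finset.card_range, nsmul_eq_mul, mul_div_cancel₀ _ hmR.ne'] at h3
    linarith
  set Kp : Finset E := univ.filter (fun e => 0 < w e ∧ j e % (m : ℤ) ≠ (ρ : ℤ)) with hKp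
  set b : E → ℤ := fun e => (j e - ρ) / m with hb
  set s : ℤ → ℝ := fun β => γ ^ ((ρ : ℤ) + m * β + 1) with hs
  have hs0 : ∀ β, 0 < s β := fun β => zpow_pos hγ0 _
  have hKpb : ∀ e ∈ Kp, s (b e) ≤ w e ∧ w e ≤ γ ^ ((ρ : ℤ) + m * b e + m) := by
    intro e he
    rw [hKp, Finset.mem_filter] at he
    obtain ⟨-, hwe, hje⟩ := he
    obtain ⟨h1, h2⟩ := hj e hwe
    exact scale_bounds hγ1 hm hρm hje h1 h2
  -- the kept part
  have hkeep : (1 - ε) * A ≤ ∑ e ∈ Kp, w e * x e := by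
    have h1 : ∑ e, w e * x e = ∑ e ∈ Kp, w e * x e +
        ∑ e ∈ univ.filter (fun e => 0 < w e ∧ j e % (m : ℤ) = (ρ : ℤ)), w e * x e := by
      rw [hKp, Finset.sum_filter, Finset.sum_filter, ← Finset.sum_add_distrib]
      refine Finset.sum_congr rfl fun e _ => ?_
      by_cases hwe : 0 < w e
      · by_cases hje : j e % (m : ℤ) = (ρ : ℤ) <;> simp [hwe, hje]
      · have hwe0 : w e = 0 := le_antisymm (not_lt.1 hwe) (hw e)
        simp [hwe0]
    have h2 : A / m ≤ ε * A := by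
      have := mul_le_mul_of_nonneg_right hm1 hA0
      calc A / m = 1 / (m : ℝ) * A := by ring
        _ ≤ ε * A := this
    rw [hsum] at h1
    linarith
  -- the blocks
  have hB : ∀ β : ℤ, ∃ G : Finset E → Finset E → E → ℝ, (∀ Q R, IsFM (pvs c) (G Q R)) ∧
        (∀ Q R e, ¬ (e ∈ Q ∧ e ∈ R ∧ e ∈ Kp.filter (fun e => b e = β)) → G Q R e = 0) ∧
        (1 - ε) * ∑ e ∈ Kp.filter (fun e => b e = β), w e * x e ≤
          Ex (rateQ τ p x) (fun Q => Ex (fun _ => p) (fun R => ∑ e, w e * G Q R e)) := by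
    intro β
    refine hblock (s β) (zOpt c w) (Kp.filter (fun e => b e = β)) (hs0 β) ?_ hp hp1
      (fun R => isFM_zOpt c w R) (fun R e he => zOpt_eq_zero he)
    intro e he
    rw [Finset.mem_filter] at he
    obtain ⟨he1, he2⟩ := he
    obtain ⟨h1, h2⟩ := hKpb e he1
    rw [he2] at h1 h2
    refine ⟨h1, h2.trans (le_of_eq ?_)⟩
    rw [hs]
    simp only
    rw [← zpow_natCast γ (m - 1), ← zpow_add₀ hγ0.ne']
    congr 1
    push_cast [Nat.cast_sub hm]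
    ring
  choose G hG1 hG2 hG3 using hB
  have hMex : ∀ (β : ℤ) (Q R : Finset E), ∃ M : Finset E, (∀ e ∈ M, G β Q R e ≠ 0) ∧
      IsMatching c M ∧ ∑ e, w e * G β Q R e ≤ ((k : ℝ) - 1) * ∑ e ∈ M, w e :=
    fun β Q R => int_gap hk c w (G β Q R) (hG1 β Q R)
  choose M hM1 hM2 hM3 using hMex
  have hMmem : ∀ β Q R e, e ∈ M β Q R → e ∈ Q ∧ e ∈ R ∧ e ∈ Kp ∧ b e = β := by
    intro β Q R e he
    by_contra hcon
    apply hM1 β Q R e he
    apply hG2
    intro h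
    rw [Finset.mem_filter] at h
    exact hcon ⟨h.1, h.2.1, h.2.2.1, h.2.2.2⟩
  -- pointwise bound
  have hpoint : ∀ Q R : Finset E, (1 - ε) / ((k : ℝ) - 1) *
      ∑ β ∈ Kp.image b, ∑ e, w e * G β Q R e ≤ optM c w (Q ∩ R) := by
    intro Q R
    set M₀ : Finset E := (Kp.image b).biUnion (fun β => M β Q R) with hM₀
    have hM₀mem : ∀ e ∈ M₀, e ∈ M (b e) Q R := by
      intro e he
      rw [hM₀, Finset.mem_biUnion] at he
      obtain ⟨β, -, he⟩ := he
      have := (hMmem β Q R e he).2.2.2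
      rw [this]
      exact he
    obtain ⟨N, hN1, hN2, hN3⟩ := merge c w hw b γ hγ1 M₀
      (by
        intro e he e' he' hbe i hi
        have h1 := hM₀mem e he
        have h2 := hM₀mem e' he'
        rw [← hbe] at h2
        exact hM2 (b e) Q R i h1 h2 hi)
      (by
        intro e he e' he' hbe
        have h1 := (hMmem _ Q R e (hM₀mem e he)).2.2.1
        have h2 := (hMmem _ Q R e' (hM₀mem e' he')).2.2.1
        have h3 := (hKpb e h1).2
        have h4 := (hKpb e' h2).1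
        refine le_trans ?_ h4
        refine le_trans (mul_le_mul_of_nonneg_right h3 (pow_nonneg hγ0.le _)) ?_
        rw [hs]
        simp only
        rw [← zpow_natCast γ (b e' - b e).toNat, ← zpow_add₀ hγ0.ne']
        apply zpow_le_zpow_right₀ hγ1.le
        rw [Int.toNat_of_nonneg (by omega)]
        have hm0 : (1 : ℤ) ≤ m := by exact_mod_cast hm
        have h5 : 0 ≤ ((m : ℤ) - 1) * (b e' - b e - 1) :=
          mul_nonneg (by omega) (by omega)
        nlinarith [h5])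
    have hN4 : ∑ e ∈ N, w e ≤ optM c w (Q ∩ R) := by
      apply le_optM _ hN2
      intro e he
      have h1 := hMmem _ Q R e (hM₀mem e (hN1 he))
      exact Finset.mem_inter.2 ⟨h1.1, h1.2.1⟩
    have hgam : (k : ℝ) / (γ - 1) = ε := by
      have h7 : γ - 1 = (k : ℝ) / ε := by
        rw [hγ]
        ring
      rw [h7, div_div_cancel₀ hkp.ne']
    rw [hgam] at hN3
    have hdisj : ∑ e ∈ M₀, w e = ∑ β ∈ Kp.image b, ∑ e ∈ M β Q R, w e := by
      rw [hM₀, Finset.sum_biUnion]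
      intro β _ β' _ hne
      rw [Function.onFun, Finset.disjoint_left]
      intro e he he'
      apply hne
      rw [← (hMmem β Q R e he).2.2.2, ← (hMmem β' Q R e he').2.2.2]
    refine le_trans ?_ (hN3.trans hN4)
    have h6 : ∑ β ∈ Kp.image b, ∑ e, w e * G β Q R e ≤ ((k : ℝ) - 1) * ∑ e ∈ M₀, w e := by
      rw [hdisj, Finset.mul_sum]
      exact Finset.sum_le_sum fun β _ => hM3 β Q R
    calc (1 - ε) / ((k : ℝ) - 1) * ∑ β ∈ Kp.image b, ∑ e, w e * G β Q R e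
        ≤ (1 - ε) / ((k : ℝ) - 1) * (((k : ℝ) - 1) * ∑ e ∈ M₀, w e) :=
          mul_le_mul_of_nonneg_left h6 (div_nonneg (by linarith) hk0.le)
      _ = (1 - ε) * ∑ e ∈ M₀, w e := by
          field_simp
  -- expectations
  have hrate : IsRate (rateQ τ p x) := isRate_rateQ_of_nonneg hτ hp hx0
  have hratep : IsRate (fun _ : E => p) := fun _ => ⟨hp.le, hp1⟩
  have hE1 : Ex (rateQ τ p x) (fun Q => Ex (fun _ => p) (fun R => (1 - ε) / ((k : ℝ) - 1) *
      ∑ β ∈ Kp.image b, ∑ e, w e * G β Q R e)) ≤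
      Ex (rateQ τ p x) (fun Q => Ex (fun _ => p) (fun R => optM c w (Q ∩ R))) :=
    Ex_mono hrate fun Q => Ex_mono hratep fun R => hpoint Q R
  refine le_trans ?_ hE1
  have hE2 : Ex (rateQ τ p x) (fun Q => Ex (fun _ => p) (fun R => (1 - ε) / ((k : ℝ) - 1) *
      ∑ β ∈ Kp.image b, ∑ e, w e * G β Q R e)) = (1 - ε) / ((k : ℝ) - 1) *
      ∑ β ∈ Kp.image b, Ex (rateQ τ p x) (fun Q => Ex (fun _ => p) (fun R =>
        ∑ e, w e * G β Q R e)) := by
    simp only [Ex_mul_left]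
    congr 1
    rw [← Ex_sum]
    exact Ex_congr _ fun Q => Ex_sum _ _ _
  rw [hE2]
  have hE3 : (1 - ε) * ∑ e ∈ Kp, w e * x e ≤
      ∑ β ∈ Kp.image b, Ex (rateQ τ p x) (fun Q => Ex (fun _ => p) (fun R =>
        ∑ e, w e * G β Q R e)) := by
    have h1 : ∑ e ∈ Kp, w e * x e =
        ∑ β ∈ Kp.image b, ∑ e ∈ Kp.filter (fun e => b e = β), w e * x e :=
      (Finset.sum_fiberwise_of_maps_to (fun e he => Finset.mem_image_of_mem b he) _).symm
    rw [h1, Finset.mul_sum]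
    exact Finset.sum_le_sum fun β _ => hG3 β
  have h1e : 0 ≤ 1 - ε := by linarith
  calc (1 - ε) ^ 3 / ((k : ℝ) - 1) * A
      = (1 - ε) / ((k : ℝ) - 1) * ((1 - ε) * ((1 - ε) * A)) := by ring
    _ ≤ (1 - ε) / ((k : ℝ) - 1) * ((1 - ε) * ∑ e ∈ Kp, w e * x e) :=
        mul_le_mul_of_nonneg_left (mul_le_mul_of_nonneg_left hkeep h1e) (div_nonneg h1e hk0.le)
    _ ≤ _ := mul_le_mul_of_nonneg_left hE3 (div_nonneg h1e hk0.le)

theorem random_sparsifier (k : ℕ) (hk : 2 ≤ k) (ε : ℝ) (hε : 0 < ε) :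
    ∃ τ : ℝ, 0 < τ ∧ τ ≤ 1 ∧ ∀ (E U : Type) [Fintype E] [DecidableEq E] [Fintype U]
      [DecidableEq U] (c : Fin k → E → U) (w : E → ℝ) (p : ℝ), (∀ e, 0 ≤ w e) → 0 < p → p ≤ 1 →
      (1 - ε) / ((k : ℝ) - 1) * Ex (fun _ => p) (optM c w) ≤
        Ex (rateQ τ p (mean p (zOpt c w)))
          (fun Q => Ex (fun _ => p) (fun R => optM c w (Q ∩ R))) := by
  have hk0 : (0 : ℝ) < (k : ℝ) - 1 := by
    have : (2 : ℝ) ≤ k := by exact_mod_cast hk
    linarith
  by_cases hε1 : ε ≤ 1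
  · have hε3 : 0 < ε / 3 := by positivity
    have hε31 : ε / 3 ≤ 1 := by linarith
    set γ : ℝ := 1 + (k : ℝ) / (ε / 3) with hγ
    have hkp : (0 : ℝ) < (k : ℝ) := by linarith
    have hγ1 : 1 ≤ γ := by
      have : 0 < (k : ℝ) / (ε / 3) := div_pos hkp hε3
      rw [hγ]
      linarith
    set m : ℕ := ⌈1 / (ε / 3)⌉₊ with hmdef
    have hmpos : 0 < m := Nat.ceil_pos.2 (by positivity)
    have hm1 : 1 / (m : ℝ) ≤ ε / 3 := by
      have h1 : 1 / (ε / 3) ≤ (m : ℝ) := Nat.le_ceil _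
      have hmR : (0 : ℝ) < m := by exact_mod_cast hmpos
      rw [div_le_iff₀ hmR]
      rw [div_le_iff₀ hε3] at h1
      linarith
    obtain ⟨τ, hτ, hτ1, hbl⟩ := block_thm k (by omega) (γ ^ (m - 1)) (ε / 3)
      (one_le_pow₀ hγ1) hε3
    refine ⟨τ, hτ, hτ1, ?_⟩
    intro E U _ _ _ _ c w p hw hp hp1
    have h := scale_main k hk (ε / 3) hε3 hε31 γ hγ m hmpos hm1 τ hτ E U c w p hw hp hp1
      (fun s z B h1 h2 h3 h4 h5 h6 => hbl E U c w p s z B h1 h2 h3 h4 h5 h6)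
    refine le_trans ?_ h
    apply mul_le_mul_of_nonneg_right
    · apply div_le_div_of_nonneg_right _ hk0.le
      nlinarith [sq_nonneg (ε / 3), mul_nonneg hε3.le (sq_nonneg (ε / 3)),
        mul_nonneg (by linarith : (0 : ℝ) ≤ 1 - ε / 3) (sq_nonneg (ε / 3))]
    · exact Ex_nonneg (fun _ => ⟨hp.le, hp1⟩) fun S => optM_nonneg c w S
  · refine ⟨1, one_pos, le_rfl, ?_⟩
    intro E U _ _ _ _ c w p _ hp hp1
    have h1 : (1 - ε) / ((k : ℝ) - 1) * Ex (fun _ => p) (optM c w) ≤ 0 := by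
      apply mul_nonpos_of_nonpos_of_nonneg
      · exact div_nonpos_of_nonpos_of_nonneg (by linarith) hk0.le
      · exact Ex_nonneg (fun _ => ⟨hp.le, hp1⟩) fun S => optM_nonneg c w S
    refine h1.trans ?_
    apply Ex_nonneg (isRate_rateQ_of_nonneg one_pos hp (mean_zOpt_nonneg c w hp hp1))
    intro Q
    exact Ex_nonneg (fun _ => ⟨hp.le, hp1⟩) fun R => optM_nonneg c w _

end Pool.Agent.Helper68.SP
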