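import Pool.Agent.Helper68.SP.Defs

/-!
# SP-19: independent copies and hashing

PROOF.  `μ = ∑ mean p z > 0`, `B = card U`.  `|z R| := ∑ e, z R e = ∑ u, deg (pvs c) (z R) (0, u) ≤ B` (`k ≥ 1`).  Choose `M : ℕ` with `M μ ^ 2 ≥ B ^ 2`,
`2 k M μ / κ ≥ 1`, `M > 0`, and `n = ⌈2 k M μ / κ⌉₊ > 0`; then `k n ≤ k (2 k M μ / κ + 1) ≤ (4 k^2 / κ) M μ`.
For `R : Finset (E × Fin M)` let `R_m = {e | (e, m) ∈ R}` (`Finset.preimage`; by `Ex_preimage` the law of `R_m` is that of `R`, so `Ex (fun R => f (R_m)) = Ex f`; the `R_m` are independent: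
for `m ≠ m'` `Ex (f (R_m) g (R_m')) = Ex f * Ex g` by `Ex_mul_of_indep`).  Put `a R i u m = deg (pvs c) (z (R_m)) (i, u) ∈ [0, 1]`.
For a map `h : Fin k × U × Fin M → Fin n` let `c'' i (e, m) = h (i, c i e, m)` and
`z'' R (e, m) = z (R_m) e * ∏_i ∏_{(u', m') ≠ (c i e, m), h (i, u', m') = h (i, c i e, m)} (1 - a R i u' m')`.
* `IsFM`: nonneg clear; at the bucket `(i₀, b)` bound the factors with `i ≠ i₀` by `1`:
  `∑_{(e,m) : c'' i₀ (e,m) = b} z'' ≤ ∑_{(u,m) : h (i₀,u,m) = b} a u m ∏_{(u',m') ≠ (u,m), h = b} (1 - a u' m') ≤ 1`, the probability that exactly one of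
  independent events with probabilities `a` happens (induction; or `∑ a_i ∏_{j ≠ i} (1 - a_j) ≤ ∏ (a_j + (1 - a_j)) = 1` by `Finset.prod_add`).
* `z'' R q = 0` for `q ∉ R` and `z'' R (e, m) ≤ z (R_m) e`, so `mean p z'' (e, m) ≤ mean p z e`.
* Loss: `1 - ∏ (1 - a) ≤ ∑ a`, so `∑_{q} (z (R_m) e - z'' R q) ≤ ∑_{(e,m)} z (R_m) e ∑_i ∑_{(u',m') ≠ (c i e, m)} 1[h (i,u',m') = h (i, c i e, m)] a R i u' m'`.  Average over all maps `h`
  (uniformly; for two different points of the domain the fraction of the `h` with equal values is `1 / n`): `≤ (k / n) (∑_m |z (R_m)|)^2`, and its expectation is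
  `≤ (k / n) (M B^2 + M^2 μ^2) ≤ (k / n) 2 M^2 μ^2 ≤ κ M μ`.  So some `h` has expected loss `≤ κ M μ`, i.e. `∑_q mean p z'' q ≥ M μ - κ M μ`.
-/

set_option autoImplicit false
set_option linter.unusedSectionVars false

namespace Pool.Agent.Helper68.SP

open Finset

/-! ### Products of numbers in `[0, 1]` -/

theorem prod_one_sub_mem {ι : Type*} (s : Finset ι) (a : ι → ℝ) (h0 : ∀ i ∈ s, 0 ≤ a i)
    (h1 : ∀ i ∈ s, a i ≤ 1) : 0 ≤ ∏ i ∈ s, (1 - a i) ∧ ∏ i ∈ s, (1 - a i) ≤ 1 := by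
  constructor
  · exact Finset.prod_nonneg fun i hi => by linarith [h1 i hi]
  · exact Finset.prod_le_one (fun i hi => by linarith [h1 i hi]) fun i hi => by linarith [h0 i hi]

theorem one_sub_prod_le {ι : Type*} (s : Finset ι) (a : ι → ℝ) (h0 : ∀ i ∈ s, 0 ≤ a i)
    (h1 : ∀ i ∈ s, a i ≤ 1) : 1 - ∏ i ∈ s, (1 - a i) ≤ ∑ i ∈ s, a i := by
  classical
  induction s using Finset.induction_on with
  | empty => simp
  | insert x s hx ih =>
    have h0' : ∀ i ∈ s, 0 ≤ a i := fun i hi => h0 i (Finset.mem_insert_of_mem hi)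
    have h1' : ∀ i ∈ s, a i ≤ 1 := fun i hi => h1 i (Finset.mem_insert_of_mem hi)
    have h2 := ih h0' h1'
    have h3 := prod_one_sub_mem s a h0' h1'
    have h4 := h0 x (Finset.mem_insert_self x s)
    have h5 := h1 x (Finset.mem_insert_self x s)
    rw [Finset.prod_insert hx, Finset.sum_insert hx]
    nlinarith

/-- exactly one of independent events happens with probability at most one -/
theorem sum_exactly_one_le {ι : Type*} [DecidableEq ι] (s : Finset ι) (a : ι → ℝ)
    (h0 : ∀ i ∈ s, 0 ≤ a i) (h1 : ∀ i ∈ s, a i ≤ 1) :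
    ∑ i ∈ s, a i * ∏ j ∈ s.erase i, (1 - a j) + ∏ i ∈ s, (1 - a i) ≤ 1 := by
  induction s using Finset.induction_on with
  | empty => simp
  | insert x s hx ih =>
    have h0' : ∀ i ∈ s, 0 ≤ a i := fun i hi => h0 i (Finset.mem_insert_of_mem hi)
    have h1' : ∀ i ∈ s, a i ≤ 1 := fun i hi => h1 i (Finset.mem_insert_of_mem hi)
    have h2 := ih h0' h1'
    have h3 := prod_one_sub_mem s a h0' h1'
    have h4 := h0 x (Finset.mem_insert_self x s)
    have h5 := h1 x (Finset.mem_insert_self x s)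
    rw [Finset.prod_insert hx, Finset.sum_insert hx, Finset.erase_insert hx]
    have h6 : ∑ i ∈ s, a i * ∏ j ∈ (insert x s).erase i, (1 - a j) =
        (1 - a x) * ∑ i ∈ s, a i * ∏ j ∈ s.erase i, (1 - a j) := by
      rw [Finset.mul_sum]
      refine Finset.sum_congr rfl fun i hi => ?_
      have hxi : x ≠ i := fun h => hx (h ▸ hi)
      have h7 : (insert x s).erase i = insert x (s.erase i) := Finset.erase_insert_of_ne hxi
      have h8 : x ∉ s.erase i := fun h => hx (Finset.mem_of_mem_erase h)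
      rw [h7, Finset.prod_insert h8]
      ring
    rw [h6]
    nlinarith

/-! ### The deterministic part -/

section det

variable {X D : Type*} [Fintype X] [Fintype D] [DecidableEq D] {k n : ℕ}

/-- the degree of the point `q` of class `i` -/
def aa (C : Fin k → X → D) (W : X → ℝ) (i : Fin k) (q : D) : ℝ :=
  ∑ x, if C i x = q then W x else 0

theorem sum_aa (C : Fin k → X → D) (W : X → ℝ) (i : Fin k) : ∑ q, aa C W i q = ∑ x, W x := by
  unfold aa
  rw [Finset.sum_comm]
  refine Finset.sum_congr rfl fun x _ => ?_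
  simp

omit [Fintype D] in
theorem aa_nonneg (C : Fin k → X → D) {W : X → ℝ} (hW : ∀ x, 0 ≤ W x) (i : Fin k) (q : D) :
    0 ≤ aa C W i q := by
  unfold aa
  refine Finset.sum_nonneg fun x _ => ?_
  split_ifs
  · exact hW x
  · exact le_rfl

/-- the thinned weights -/
def thin (C : Fin k → X → D) (h : Fin k × D → Fin n) (W : X → ℝ) (x : X) : ℝ :=
  W x * ∏ i, ∏ q ∈ univ.filter (fun q => q ≠ C i x ∧ h (i, q) = h (i, C i x)),
    (1 - aa C W i q)

variable (C : Fin k → X → D) (h : Fin k × D → Fin n) {W : X → ℝ} (hW : ∀ x, 0 ≤ W x)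
  (ha : ∀ i q, aa C W i q ≤ 1)

include hW ha

theorem factor_mem (x : X) (i : Fin k) :
    0 ≤ ∏ q ∈ univ.filter (fun q => q ≠ C i x ∧ h (i, q) = h (i, C i x)), (1 - aa C W i q) ∧
      ∏ q ∈ univ.filter (fun q => q ≠ C i x ∧ h (i, q) = h (i, C i x)), (1 - aa C W i q) ≤ 1 :=
  prod_one_sub_mem _ _ (fun q _ => aa_nonneg C hW i q) fun q _ => ha i q

theorem thin_nonneg (x : X) : 0 ≤ thin C h W x :=
  mul_nonneg (hW x) (Finset.prod_nonneg fun i _ => (factor_mem C h hW ha x i).1)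

theorem thin_le (x : X) : thin C h W x ≤ W x := by
  have h1 : ∏ i, ∏ q ∈ univ.filter (fun q => q ≠ C i x ∧ h (i, q) = h (i, C i x)),
      (1 - aa C W i q) ≤ 1 :=
    Finset.prod_le_one (fun i _ => (factor_mem C h hW ha x i).1)
      fun i _ => (factor_mem C h hW ha x i).2
  exact mul_le_of_le_one_right (hW x) h1

theorem thin_le_one_factor (x : X) (i₀ : Fin k) : thin C h W x ≤
    W x * ∏ q ∈ univ.filter (fun q => q ≠ C i₀ x ∧ h (i₀, q) = h (i₀, C i₀ x)),
      (1 - aa C W i₀ q) := by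
  unfold thin
  apply mul_le_mul_of_nonneg_left _ (hW x)
  rw [← Finset.mul_prod_erase univ _ (Finset.mem_univ i₀)]
  apply mul_le_of_le_one_right (factor_mem C h hW ha x i₀).1
  exact Finset.prod_le_one (fun i _ => (factor_mem C h hW ha x i).1)
    fun i _ => (factor_mem C h hW ha x i).2

theorem thin_deg_le (i₀ : Fin k) (b : Fin n) :
    ∑ x, (if h (i₀, C i₀ x) = b then thin C h W x else 0) ≤ 1 := by
  let s : Finset D := univ.filter fun q => h (i₀, q) = b
  have h1 : ∀ x, (if h (i₀, C i₀ x) = b then thin C h W x else 0) ≤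
      ∑ q ∈ s, if C i₀ x = q then W x * ∏ q' ∈ s.erase q, (1 - aa C W i₀ q') else 0 := by
    intro x
    split_ifs with hb
    · have hmem : C i₀ x ∈ s := by simp [s, hb]
      rw [Finset.sum_ite_eq s (C i₀ x), if_pos hmem]
      refine (thin_le_one_factor C h hW ha x i₀).trans (le_of_eq ?_)
      congr 1
      refine Finset.prod_congr ?_ fun _ _ => rfl
      ext q
      simp [s, hb]
    · refine Finset.sum_nonneg fun q hq => ?_
      split_ifs with hc
      · exact mul_nonneg (hW x) (prod_one_sub_mem _ _ (fun q _ => aa_nonneg C hW i₀ q)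
          fun q _ => ha i₀ q).1
      · exact le_rfl
  refine (Finset.sum_le_sum fun x _ => h1 x).trans ?_
  rw [Finset.sum_comm]
  have h2 : ∀ q ∈ s, ∑ x, (if C i₀ x = q then W x * ∏ q' ∈ s.erase q, (1 - aa C W i₀ q') else 0) =
      aa C W i₀ q * ∏ q' ∈ s.erase q, (1 - aa C W i₀ q') := by
    intro q _
    unfold aa
    rw [Finset.sum_mul]
    refine Finset.sum_congr rfl fun x _ => ?_
    split_ifs
    · rfl
    · rw [zero_mul]
  rw [Finset.sum_congr rfl h2]
  have h3 := sum_exactly_one_le s (aa C W i₀) (fun q _ => aa_nonneg C hW i₀ q)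
    fun q _ => ha i₀ q
  have h4 := (prod_one_sub_mem s (aa C W i₀) (fun q _ => aa_nonneg C hW i₀ q)
    fun q _ => ha i₀ q).1
  linarith

theorem loss_le (x : X) : W x - thin C h W x ≤
    ∑ i, ∑ q, (if q ≠ C i x then (if h (i, q) = h (i, C i x) then W x * aa C W i q else 0)
      else 0) := by
  unfold thin
  have h1 : 1 - ∏ i, (1 - (1 - ∏ q ∈ univ.filter (fun q => q ≠ C i x ∧ h (i, q) = h (i, C i x)),
      (1 - aa C W i q))) ≤ ∑ i, (1 - ∏ q ∈ univ.filter
        (fun q => q ≠ C i x ∧ h (i, q) = h (i, C i x)), (1 - aa C W i q)) :=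
    one_sub_prod_le univ _ (fun i _ => by linarith [(factor_mem C h hW ha x i).2])
      fun i _ => by linarith [(factor_mem C h hW ha x i).1]
  have h2 : ∀ i, 1 - ∏ q ∈ univ.filter (fun q => q ≠ C i x ∧ h (i, q) = h (i, C i x)),
      (1 - aa C W i q) ≤ ∑ q ∈ univ.filter (fun q => q ≠ C i x ∧ h (i, q) = h (i, C i x)),
        aa C W i q := fun i =>
    one_sub_prod_le _ _ (fun q _ => aa_nonneg C hW i q) fun q _ => ha i q
  have h3 := h1.trans (Finset.sum_le_sum fun i _ => h2 i)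
  simp only [sub_sub_cancel] at h3
  have h4 := mul_le_mul_of_nonneg_left h3 (hW x)
  rw [mul_sub, mul_one] at h4
  refine h4.trans (le_of_eq ?_)
  rw [Finset.mul_sum]
  refine Finset.sum_congr rfl fun i _ => ?_
  rw [Finset.mul_sum, Finset.sum_filter]
  refine Finset.sum_congr rfl fun q _ => ?_
  by_cases h5 : q ≠ C i x
  · by_cases h6 : h (i, q) = h (i, C i x)
    · rw [if_pos ⟨h5, h6⟩, if_pos h5, if_pos h6]
    · rw [if_neg (fun h7 => h6 h7.2), if_pos h5, if_neg h6]
  · rw [if_neg (fun h7 => h5 h7.1), if_neg h5]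

end det

/-! ### Random maps -/

theorem card_collision {T : Type*} [Fintype T] [DecidableEq T] {n : ℕ} {x y : T} (hxy : x ≠ y) :
    (n : ℝ) * ∑ h : T → Fin n, (if h x = h y then (1 : ℝ) else 0) =
      ∑ _h : T → Fin n, (1 : ℝ) := by
  rw [← (Equiv.funSplitAt y (Fin n)).symm.sum_comp, ← (Equiv.funSplitAt y (Fin n)).symm.sum_comp,
    Fintype.sum_prod_type, Fintype.sum_prod_type, Finset.sum_comm]
  have h1 : ∀ (g : {j // j ≠ y} → Fin n) (b : Fin n),
      (if (Equiv.funSplitAt y (Fin n)).symm (b, g) x = (Equiv.funSplitAt y (Fin n)).symm (b, g) y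
        then (1 : ℝ) else 0) = if b = g ⟨x, hxy⟩ then 1 else 0 := by
    intro g b
    simp only [Equiv.funSplitAt_symm_apply, dif_neg hxy, dif_pos]
    by_cases hb : b = g ⟨x, hxy⟩
    · rw [if_pos hb, if_pos hb.symm]
    · rw [if_neg hb, if_neg (fun h => hb h.symm)]
  simp only [h1, Finset.sum_ite_eq', Finset.mem_univ, if_true]
  simp

theorem sum_loss_le {X D : Type*} [Fintype X] [Fintype D] [DecidableEq D] {k n : ℕ}
    (C : Fin k → X → D) {W : X → ℝ} (hW : ∀ x, 0 ≤ W x) (ha : ∀ i q, aa C W i q ≤ 1) :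
    (n : ℝ) * ∑ h : Fin k × D → Fin n, ∑ x, (W x - thin C h W x) ≤
      (∑ _h : Fin k × D → Fin n, (1 : ℝ)) * (k * (∑ x, W x) ^ 2) := by
  have h1 : ∑ h : Fin k × D → Fin n, ∑ x, (W x - thin C h W x) ≤
      ∑ h : Fin k × D → Fin n, ∑ x, ∑ i, ∑ q,
        (if q ≠ C i x then (if h (i, q) = h (i, C i x) then W x * aa C W i q else 0) else 0) :=
    Finset.sum_le_sum fun h _ => Finset.sum_le_sum fun x _ => loss_le C h hW ha x
  have hn : (0 : ℝ) ≤ n := Nat.cast_nonneg n
  refine (mul_le_mul_of_nonneg_left h1 hn).trans ?_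
  have h2 : ∑ h : Fin k × D → Fin n, ∑ x, ∑ i, ∑ q,
        (if q ≠ C i x then (if h (i, q) = h (i, C i x) then W x * aa C W i q else 0) else 0) =
      ∑ x, ∑ i, ∑ q, ∑ h : Fin k × D → Fin n,
        (if q ≠ C i x then (if h (i, q) = h (i, C i x) then W x * aa C W i q else 0) else 0) := by
    rw [Finset.sum_comm]
    refine Finset.sum_congr rfl fun x _ => ?_
    rw [Finset.sum_comm]
    refine Finset.sum_congr rfl fun i _ => ?_
    rw [Finset.sum_comm]
  rw [h2, Finset.mul_sum]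
  have h3 : ∀ x i q, (n : ℝ) * ∑ h : Fin k × D → Fin n,
        (if q ≠ C i x then (if h (i, q) = h (i, C i x) then W x * aa C W i q else 0) else 0) ≤
      (∑ _h : Fin k × D → Fin n, (1 : ℝ)) * (W x * aa C W i q) := by
    intro x i q
    have hnn : 0 ≤ (∑ _h : Fin k × D → Fin n, (1 : ℝ)) * (W x * aa C W i q) :=
      mul_nonneg (Finset.sum_nonneg fun _ _ => zero_le_one)
        (mul_nonneg (hW x) (aa_nonneg C hW i q))
    by_cases hq : q ≠ C i x
    · simp only [if_pos hq]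
      have h4 : ∀ h : Fin k × D → Fin n, (if h (i, q) = h (i, C i x) then W x * aa C W i q else 0) =
          (if h (i, q) = h (i, C i x) then 1 else 0) * (W x * aa C W i q) := by
        intro h
        split_ifs
        · rw [one_mul]
        · rw [zero_mul]
      simp only [h4]
      rw [← Finset.sum_mul, ← mul_assoc, card_collision]
      intro h5
      exact hq (Prod.mk.inj h5).2
    · simp only [if_neg hq, Finset.sum_const_zero, mul_zero]
      exact hnn
  calc ∑ x, (n : ℝ) * ∑ i, ∑ q, ∑ h : Fin k × D → Fin n,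
        (if q ≠ C i x then (if h (i, q) = h (i, C i x) then W x * aa C W i q else 0) else 0)
      ≤ ∑ x, ∑ i : Fin k, ∑ q, (∑ _h : Fin k × D → Fin n, (1 : ℝ)) * (W x * aa C W i q) := by
        refine Finset.sum_le_sum fun x _ => ?_
        rw [Finset.mul_sum]
        refine Finset.sum_le_sum fun i _ => ?_
        rw [Finset.mul_sum]
        exact Finset.sum_le_sum fun q _ => h3 x i q
    _ = (∑ _h : Fin k × D → Fin n, (1 : ℝ)) * (k * (∑ x, W x) ^ 2) := by
        have h5 : ∀ x : X, ∑ i : Fin k, ∑ q,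
            (∑ _h : Fin k × D → Fin n, (1 : ℝ)) * (W x * aa C W i q) =
            (∑ _h : Fin k × D → Fin n, (1 : ℝ)) * (k * (W x * ∑ x, W x)) := by
          intro x
          simp only [← Finset.mul_sum, sum_aa, Finset.sum_const, Finset.card_univ,
            Fintype.card_fin, nsmul_eq_mul]
          ring
        simp only [h5]
        rw [← Finset.mul_sum, ← Finset.mul_sum, ← Finset.sum_mul]
        ring

/-! ### Slices of the random set -/

section slice

variable {E : Type} [Fintype E] [DecidableEq E] {M : ℕ}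

omit [Fintype E] [DecidableEq E] in
theorem pair_inj (m : Fin M) : Function.Injective (fun e : E => (e, m)) := fun _ _ h =>
  (Prod.mk.inj h).1

/-- the slice `m` of the set -/
noncomputable def slice (m : Fin M) (R : Finset (E × Fin M)) : Finset E :=
  R.preimage (fun e => (e, m)) (pair_inj m).injOn

theorem mem_slice (m : Fin M) (R : Finset (E × Fin M)) (e : E) :
    e ∈ slice m R ↔ (e, m) ∈ R := by
  unfold slice
  rw [Finset.mem_preimage]

theorem Ex_slice (p : ℝ) (m : Fin M) (f : Finset E → ℝ) :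
    Ex (fun _ : E × Fin M => p) (fun R => f (slice m R)) = Ex (fun _ : E => p) f :=
  Ex_preimage (fun e : E => (e, m)) (pair_inj m) (fun _ => p) f

theorem Ex_slice_mul (p : ℝ) {m m' : Fin M} (hm : m ≠ m') (f g : Finset E → ℝ) :
    Ex (fun _ : E × Fin M => p) (fun R => f (slice m R) * g (slice m' R)) =
      Ex (fun _ : E => p) f * Ex (fun _ : E => p) g := by
  rw [← Ex_slice p m f, ← Ex_slice p m' g]
  apply Ex_mul_of_indep (fun _ => p) (univ.filter fun q : E × Fin M => q.2 = m)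
  · intro S T hST
    congr 1
    ext e
    rw [mem_slice, mem_slice]
    have h1 : (e, m) ∈ S ∩ (univ.filter fun q : E × Fin M => q.2 = m) ↔
        (e, m) ∈ T ∩ (univ.filter fun q : E × Fin M => q.2 = m) := by rw [hST]
    simpa using h1
  · intro S T hST
    congr 1
    ext e
    rw [mem_slice, mem_slice]
    have h1 : (e, m') ∈ S \ (univ.filter fun q : E × Fin M => q.2 = m) ↔
        (e, m') ∈ T \ (univ.filter fun q : E × Fin M => q.2 = m) := by rw [hST]
    simpa [hm.symm] using h1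

end slice

section final

variable {E U : Type} [Fintype E] [DecidableEq E] [Fintype U] [DecidableEq U] {k : ℕ}
  {c : Fin k → E → U}

omit [Fintype E] [DecidableEq E] [Fintype U] in
theorem mem_pvs' (c : Fin k → E → U) (e : E) (i : Fin k) (u : U) :
    (i, u) ∈ pvs c e ↔ c i e = u := by
  unfold pvs
  simp only [Finset.mem_image, Finset.mem_univ, true_and, Prod.mk.injEq]
  constructor
  · rintro ⟨j, hj, hju⟩
    subst hj
    exact hju
  · intro h
    exact ⟨i, rfl, h⟩

theorem deg_pvs (c : Fin k → E → U) (w : E → ℝ) (i : Fin k) (u : U) :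
    deg (pvs c) w (i, u) = aa c w i u := by
  unfold deg aa
  refine Finset.sum_congr rfl fun e _ => ?_
  by_cases h : c i e = u
  · rw [if_pos h, if_pos ((mem_pvs' c e i u).2 h)]
  · rw [if_neg h, if_neg (fun h' => h ((mem_pvs' c e i u).1 h'))]

theorem tot_le (hk : 1 ≤ k) {w : E → ℝ} (hw : IsFM (pvs c) w) :
    ∑ e, w e ≤ Fintype.card U := by
  rw [← sum_aa c w ⟨0, hk⟩]
  have h1 : ∀ u, aa c w ⟨0, hk⟩ u ≤ 1 := fun u => by
    rw [← deg_pvs]
    exact hw.deg_le _
  refine (Finset.sum_le_sum fun u _ => h1 u).trans ?_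
  simp

/-- the classes of the copies -/
def CC (c : Fin k → E → U) (M : ℕ) (i : Fin k) (x : E × Fin M) : U × Fin M := (c i x.1, x.2)

/-- the weights of the copies -/
noncomputable def WW (z : Finset E → E → ℝ) {M : ℕ} (R : Finset (E × Fin M)) (x : E × Fin M) : ℝ :=
  z (slice x.2 R) x.1

theorem aa_CC (z : Finset E → E → ℝ) {M : ℕ} (R : Finset (E × Fin M)) (i : Fin k)
    (q : U × Fin M) : aa (CC c M) (WW z R) i q = aa c (z (slice q.2 R)) i q.1 := by
  unfold aa CC WW
  rw [Fintype.sum_prod_type]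
  refine Finset.sum_congr rfl fun e _ => ?_
  rw [Finset.sum_eq_single q.2]
  · obtain ⟨q1, q2⟩ := q
    simp only [Prod.mk.injEq, and_true]
  · intro m _ hm
    rw [if_neg]
    intro h'
    exact hm (congrArg Prod.snd h')
  · intro h'
    exact absurd (Finset.mem_univ _) h'

theorem sum_WW (z : Finset E → E → ℝ) {M : ℕ} (R : Finset (E × Fin M)) :
    ∑ x, WW z R x = ∑ m : Fin M, ∑ e, z (slice m R) e := by
  rw [Fintype.sum_prod_type, Finset.sum_comm]
  rfl

theorem Ex_sq_le (p : ℝ) (hp : 0 ≤ p) (hp1 : p ≤ 1) (f : Finset E → ℝ) (hf : ∀ R, 0 ≤ f R) {B : ℝ}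
    (hB : ∀ R, f R ≤ B) (M : ℕ) :
    Ex (fun _ : E × Fin M => p) (fun R => (∑ m : Fin M, f (slice m R)) ^ 2) ≤
      M * B ^ 2 + (M : ℝ) ^ 2 * (Ex (fun _ : E => p) f) ^ 2 := by
  have h1 : ∀ R : Finset (E × Fin M), (∑ m : Fin M, f (slice m R)) ^ 2 =
      ∑ m : Fin M, ∑ m' : Fin M, f (slice m R) * f (slice m' R) := by
    intro R
    rw [sq, Finset.sum_mul_sum]
  rw [Ex_congr _ h1]
  simp only [Ex_sum]
  have hrate : IsRate (fun _ : E => p) := fun _ => ⟨hp, hp1⟩
  have h2 : ∀ m m' : Fin M,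
      Ex (fun _ : E × Fin M => p) (fun R => f (slice m R) * f (slice m' R)) ≤
        (if m = m' then B ^ 2 else 0) + (Ex (fun _ : E => p) f) ^ 2 := by
    intro m m'
    by_cases hm : m = m'
    · subst hm
      rw [if_pos rfl, Ex_slice p m (fun S => f S * f S)]
      have h3 : Ex (fun _ : E => p) (fun S => f S * f S) ≤ B ^ 2 := by
        apply Ex_le_of_le hrate
        intro S
        have h4 := hf S
        have h5 := hB S
        nlinarith
      nlinarith [sq_nonneg (Ex (fun _ : E => p) f)]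
    · rw [if_neg hm, Ex_slice_mul p hm, zero_add, sq]
  refine (Finset.sum_le_sum fun m _ => Finset.sum_le_sum fun m' _ => h2 m m').trans (le_of_eq ?_)
  simp only [Finset.sum_add_distrib, Finset.sum_ite_eq, Finset.mem_univ, if_true, Finset.sum_const,
    Finset.card_univ, Fintype.card_fin, nsmul_eq_mul]
  ring

end final

theorem exists_hash {k : ℕ} (hk : 1 ≤ k) {E U : Type} [Fintype E] [DecidableEq E] [Fintype U]
    [DecidableEq U] (c : Fin k → E → U) (p : ℝ) (hp : 0 ≤ p) (hp1 : p ≤ 1)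
    (z : Finset E → E → ℝ) (hz : ∀ R, IsFM (pvs c) (z R)) (hz0 : ∀ R e, e ∉ R → z R e = 0)
    (hμ : 0 < ∑ e, mean p z e) (κ : ℝ) (hκ : 0 < κ) :
    ∃ (M n : ℕ) (c'' : Fin k → E × Fin M → Fin n)
      (z'' : Finset (E × Fin M) → E × Fin M → ℝ), 0 < M ∧
      (∀ i e e' m, c i e = c i e' → c'' i (e, m) = c'' i (e', m)) ∧
      (∀ R, IsFM (pvs c'') (z'' R)) ∧ (∀ R q, q ∉ R → z'' R q = 0) ∧
      (∀ q, mean p z'' q ≤ mean p z q.1) ∧
      (1 - κ) * ((M : ℝ) * ∑ e, mean p z e) ≤ ∑ q, mean p z'' q ∧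
      (k : ℝ) * (n : ℝ) ≤ 4 * (k : ℝ) ^ 2 / κ * ((M : ℝ) * ∑ e, mean p z e) := by
  set μ : ℝ := ∑ e, mean p z e with hμdef
  set B : ℝ := (Fintype.card U : ℝ) with hBdef
  have hk0 : (0 : ℝ) < k := by exact_mod_cast hk
  -- the numbers `M` and `n`
  obtain ⟨M, hM0, hM1, hM2⟩ : ∃ M : ℕ, 0 < M ∧ B ^ 2 ≤ M * μ ^ 2 ∧ 1 ≤ 2 * k * M * μ / κ := by
    obtain ⟨M1, h1⟩ := exists_nat_ge (B ^ 2 / μ ^ 2)
    obtain ⟨M2, h2⟩ := exists_nat_ge (κ / (2 * k * μ))
    refine ⟨M1 + M2 + 1, by omega, ?_, ?_⟩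
    · rw [div_le_iff₀ (by positivity)] at h1
      have h3 : (M1 : ℝ) * μ ^ 2 ≤ ((M1 + M2 + 1 : ℕ) : ℝ) * μ ^ 2 := by
        apply mul_le_mul_of_nonneg_right _ (by positivity)
        push_cast
        have : (0 : ℝ) ≤ M2 := Nat.cast_nonneg M2
        linarith
      linarith
    · rw [le_div_iff₀ hκ, one_mul]
      rw [div_le_iff₀ (by positivity)] at h2
      have h3 : (M2 : ℝ) * (2 * k * μ) ≤ ((M1 + M2 + 1 : ℕ) : ℝ) * (2 * k * μ) := by
        apply mul_le_mul_of_nonneg_right _ (by positivity)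
        push_cast
        have : (0 : ℝ) ≤ M1 := Nat.cast_nonneg M1
        linarith
      nlinarith
  set n : ℕ := ⌈2 * k * M * μ / κ⌉₊ with hn
  have hM0' : (0 : ℝ) < M := by exact_mod_cast hM0
  have hn1 : 2 * k * M * μ / κ ≤ n := Nat.le_ceil _
  have hn2 : (n : ℝ) < 2 * k * M * μ / κ + 1 := Nat.ceil_lt_add_one (by positivity)
  have hn0 : (0 : ℝ) < n := lt_of_lt_of_le (by linarith) hn1
  have hn0' : 0 < n := by exact_mod_cast hn0
  have hrate : IsRate (fun _ : E × Fin M => p) := fun _ => ⟨hp, hp1⟩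
  have hW : ∀ (R : Finset (E × Fin M)) x, 0 ≤ WW z R x := fun R x => (hz _).nonneg _
  have ha : ∀ (R : Finset (E × Fin M)) (i : Fin k) (q : U × Fin M),
      aa (CC c M) (WW z R) i q ≤ 1 := by
    intro R i q
    rw [aa_CC, ← deg_pvs]
    exact (hz _).deg_le _
  have hmeanW : ∀ x : E × Fin M, Ex (fun _ : E × Fin M => p) (fun R => WW z R x) = mean p z x.1 :=
    fun x => Ex_slice p x.2 (fun S => z S x.1)
  -- choice of `h`
  have hne : (univ : Finset (Fin k × (U × Fin M) → Fin n)).Nonempty :=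
    ⟨fun _ => ⟨0, hn0'⟩, Finset.mem_univ _⟩
  have htot : (n : ℝ) * ∑ h : Fin k × (U × Fin M) → Fin n,
      Ex (fun _ : E × Fin M => p) (fun R => ∑ x, (WW z R x - thin (CC c M) h (WW z R) x)) ≤
      (∑ _h : Fin k × (U × Fin M) → Fin n, (1 : ℝ)) * (k * (2 * (M : ℝ) ^ 2 * μ ^ 2)) := by
    rw [← Ex_sum, ← Ex_mul_left]
    refine (Ex_mono hrate fun R => sum_loss_le (CC c M) (hW R) (ha R)).trans ?_
    rw [Ex_mul_left, Ex_mul_left]
    apply mul_le_mul_of_nonneg_left _ (Finset.sum_nonneg fun _ _ => zero_le_one)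
    apply mul_le_mul_of_nonneg_left _ hk0.le
    have h1 := Ex_sq_le p hp hp1 (fun R => ∑ e, z R e)
      (fun R => Finset.sum_nonneg fun e _ => (hz R).nonneg e) (fun R => tot_le hk (hz R)) M
    have h2 : Ex (fun _ : E => p) (fun R => ∑ e, z R e) = μ := by
      rw [Ex_sum]
      rfl
    rw [h2] at h1
    simp only [sum_WW]
    refine h1.trans ?_
    have h3 : (M : ℝ) * B ^ 2 ≤ M * (M * μ ^ 2) := mul_le_mul_of_nonneg_left hM1 hM0'.le
    nlinarith
  have hle : ∑ h : Fin k × (U × Fin M) → Fin n,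
      Ex (fun _ : E × Fin M => p) (fun R => ∑ x, (WW z R x - thin (CC c M) h (WW z R) x)) ≤
      ∑ _h : Fin k × (U × Fin M) → Fin n, κ * (M * μ) := by
    have h1 : (k : ℝ) * (2 * (M : ℝ) ^ 2 * μ ^ 2) ≤ n * (κ * (M * μ)) := by
      rw [div_le_iff₀ hκ] at hn1
      have h2 : 2 * k * M * μ * (M * μ) ≤ n * κ * (M * μ) :=
        mul_le_mul_of_nonneg_right hn1 (by positivity)
      nlinarith
    have h3 : (∑ _h : Fin k × (U × Fin M) → Fin n, (1 : ℝ)) * (k * (2 * (M : ℝ) ^ 2 * μ ^ 2)) ≤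
        n * ∑ _h : Fin k × (U × Fin M) → Fin n, κ * (M * μ) := by
      refine (mul_le_mul_of_nonneg_left h1 (Finset.sum_nonneg fun _ _ => zero_le_one)).trans
        (le_of_eq ?_)
      rw [Finset.sum_const, Finset.sum_const, nsmul_eq_mul, nsmul_eq_mul]
      ring
    exact le_of_mul_le_mul_left (htot.trans h3) hn0
  obtain ⟨h, -, hh⟩ := Finset.exists_le_of_sum_le hne hle
  refine ⟨M, n, fun i x => h (i, CC c M i x), fun R => thin (CC c M) h (WW z R), hM0,
    ?_, ?_, ?_, ?_, ?_, ?_⟩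
  · intro i e e' m he
    change h (i, c i e, m) = h (i, c i e', m)
    rw [he]
  · intro R
    refine ⟨fun x => thin_nonneg _ h (hW R) (ha R) x, ?_⟩
    rintro ⟨i, b⟩
    rw [deg_pvs]
    exact thin_deg_le (CC c M) h (hW R) (ha R) i b
  · intro R q hq
    have h1 : WW z R q = 0 := by
      apply hz0
      rw [mem_slice]
      exact hq
    change thin (CC c M) h (WW z R) q = 0
    unfold thin
    rw [h1, zero_mul]
  · intro q
    rw [← hmeanW q]
    exact Ex_mono hrate fun R => thin_le (CC c M) h (hW R) (ha R) q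
  · have h1 : Ex (fun _ : E × Fin M => p)
        (fun R => ∑ x, (WW z R x - thin (CC c M) h (WW z R) x)) =
        M * μ - ∑ q, mean p (fun R => thin (CC c M) h (WW z R)) q := by
      rw [Ex_sum]
      simp only [Ex_sub, hmeanW, Finset.sum_sub_distrib]
      congr 1
      rw [Fintype.sum_prod_type]
      simp only [Finset.sum_const, Finset.card_univ, Fintype.card_fin, nsmul_eq_mul]
      rw [← Finset.mul_sum]
    rw [h1] at hh
    linarith
  · have h1 : (n : ℝ) ≤ 4 * k * M * μ / κ := by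
      have h2 : 4 * k * M * μ / κ = 2 * k * M * μ / κ + 2 * k * M * μ / κ := by ring
      rw [h2]
      linarith
    have h3 := mul_le_mul_of_nonneg_left h1 hk0.le
    refine h3.trans (le_of_eq ?_)
    ring

end Pool.Agent.Helper68.SP
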