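import Pool.Agent.Helper68.SP.PolicyBounded
import Pool.Agent.Helper68.SP.HashExist

/-!
# SP-20: policies for all `k`-partite instances

PROOF.  `x = mean p z`, `μ = ∑ x`.  If `μ = 0` then all `x e = 0`; take `g = 0` (the left side is `0`).  Let `μ > 0`, `κ = min (1/2) (ε₀ / (2 Γ))`, `M, n, c'', z''` from
`exists_hash`, and `K` from `policy_bounded k hk Γ (ε₀/2) (8 k^2 / κ)`.  The instance `E'' = E × Fin M`, `V'' = Fin k × Fin n`, `vs'' = pvs c''` (nonempty, cardinality `≤ k`), weights `w q.1`,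
`C'' = C ×ˢ univ` satisfies `card V'' = k n ≤ (4 k^2/κ) M μ ≤ (8 k^2/κ) ∑ mean p z''` (`1 - κ ≥ 1/2`).  Let `g''` be its policy.
For `m : Fin M`, `R : Finset E`, `R'' : Finset (E × Fin M)` let `ins m R R'' = {q | if q.2 = m then q.1 ∈ R else q ∈ R''}` and
`g R e = (1/M) ∑ m, Ex (fun _ => p) (fun R'' => g'' (ins m R R'') (e, m))`.
* `IsFM`: for `(i, u)` and fixed `m, R''` the `e` with `c i e = u` all have `c'' i (e, m) = b` for one `b`, so `∑_{e : c i e = u} g'' (..) (e, m) ≤ deg at (i, b) ≤ 1`.  (If no `e` has `c i e = u`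
  the degree is `0`.)
* `e ∈ C \ R`: `(e, m) ∈ C''`, `(e, m) ∉ ins m R R''`, so `g'' = 0`.  `e ∉ C`: `g'' ≤ K mean p z'' (e, m) ≤ K x e`.
* If `R ∩ C = R' ∩ C` then `ins m R R'' ∩ C'' = ins m R' R'' ∩ C''`.
* Value: `Ex_R Ex_R'' f (ins m R R'') = Ex f` (`Ex_mix` with `A = {q | q.2 ≠ m}` and `Ex_preimage` along `e ↦ (e, m)`), so
  `Ex_R ∑ e, w e g R e = (1/M) Ex (∑ q, w q.1 g'' R'' q) ≥ (1/M) (∑_q w q.1 mean p z'' q - (ε₀/2) ∑_q mean p z'' q)`.  Now `∑_q w q.1 mean p z'' q ≥ M ∑ w x - Γ ∑_q (x q.1 - mean p z'' q) ≥ M ∑ w x - Γ κ M μ`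
  and `∑_q mean p z'' q ≤ M μ`, `Γ κ ≤ ε₀/2`.
-/

set_option autoImplicit false

namespace Pool.Agent.Helper68.SP

open Finset

section policyaux

variable {E : Type} [Fintype E] [DecidableEq E] {M : ℕ}

/-- the set whose slice `m` is `R` and which agrees with `T` elsewhere -/
def insSlice (m : Fin M) (R : Finset E) (T : Finset (E × Fin M)) : Finset (E × Fin M) :=
  univ.filter fun q => (q.2 = m ∧ q.1 ∈ R) ∨ (q.2 ≠ m ∧ q ∈ T)

theorem mem_insSlice (m : Fin M) (R : Finset E) (T : Finset (E × Fin M)) (q : E × Fin M) :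
    q ∈ insSlice m R T ↔ (q.2 = m ∧ q.1 ∈ R) ∨ (q.2 ≠ m ∧ q ∈ T) := by
  unfold insSlice
  simp only [Finset.mem_filter, Finset.mem_univ, true_and]

theorem insSlice_slice (m : Fin M) (S T : Finset (E × Fin M)) :
    insSlice m (slice m S) T = mix (univ.filter fun q : E × Fin M => q.2 = m) S T := by
  ext q
  obtain ⟨e, m'⟩ := q
  rw [mem_insSlice, mem_mix]
  simp only [Finset.mem_filter, Finset.mem_univ, true_and, mem_slice]
  by_cases h : m' = m
  · subst h
    simp
  · simp [h]

theorem Ex_insSlice (p : ℝ) (m : Fin M) (f : Finset (E × Fin M) → ℝ) :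
    Ex (fun _ : E => p) (fun R => Ex (fun _ : E × Fin M => p) (fun T => f (insSlice m R T))) =
      Ex (fun _ : E × Fin M => p) f := by
  rw [← Ex_slice p m (fun R => Ex (fun _ : E × Fin M => p) (fun T => f (insSlice m R T)))]
  simp only [insSlice_slice]
  exact Ex_mix (fun _ : E × Fin M => p) (univ.filter fun q : E × Fin M => q.2 = m) f

end policyaux

theorem slice_deg_le {k : ℕ} {E U : Type} [Fintype E] [DecidableEq E] [DecidableEq U]
    {M n : ℕ} {c : Fin k → E → U} {c'' : Fin k → E × Fin M → Fin n}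
    (hc : ∀ i e e' m, c i e = c i e' → c'' i (e, m) = c'' i (e', m))
    {G : E × Fin M → ℝ} (hG : IsFM (pvs c'') G) (i : Fin k) (u : U) (m : Fin M) :
    ∑ e, (if c i e = u then G (e, m) else 0) ≤ 1 := by
  by_cases hex : ∃ e₀, c i e₀ = u
  · obtain ⟨e₀, he₀⟩ := hex
    have h1 := hG.deg_le (i, c'' i (e₀, m))
    rw [deg_pvs] at h1
    refine le_trans ?_ h1
    unfold aa
    rw [Fintype.sum_prod_type]
    refine Finset.sum_le_sum fun e _ => ?_
    have hnn : ∀ m' ∈ (univ : Finset (Fin M)),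
        0 ≤ (if c'' i (e, m') = c'' i (e₀, m) then G (e, m') else 0) := by
      intro m' _
      split_ifs
      · exact hG.nonneg _
      · exact le_rfl
    refine le_trans ?_ (Finset.single_le_sum hnn (Finset.mem_univ m))
    by_cases h2 : c i e = u
    · rw [if_pos h2, if_pos (hc i e e₀ m (h2.trans he₀.symm))]
    · rw [if_neg h2]
      exact hnn m (Finset.mem_univ m)
  · push Not at hex
    rw [Finset.sum_eq_zero]
    · exact zero_le_one
    · intro e _
      rw [if_neg (hex e)]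

theorem pvs_nonempty {k : ℕ} (hk : 1 ≤ k) {E U : Type} [DecidableEq U] (c : Fin k → E → U)
    (e : E) : (pvs c e).Nonempty :=
  ⟨(⟨0, hk⟩, c ⟨0, hk⟩ e), by unfold pvs; exact Finset.mem_image_of_mem _ (Finset.mem_univ _)⟩

theorem pvs_card_le {k : ℕ} {E U : Type} [DecidableEq U] (c : Fin k → E → U)
    (e : E) : (pvs c e).card ≤ k := by
  unfold pvs
  refine Finset.card_image_le.trans ?_
  simp

theorem policy (k : ℕ) (hk : 1 ≤ k) (Γ ε₀ : ℝ) (hΓ : 1 ≤ Γ) (hε₀ : 0 < ε₀) :
    ∃ K : ℝ, 0 < K ∧ ∀ (E U : Type) [Fintype E] [DecidableEq E] [Fintype U] [DecidableEq U]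
      (c : Fin k → E → U) (w : E → ℝ) (p : ℝ) (z : Finset E → E → ℝ) (C : Finset E),
      (∀ e, 0 ≤ w e ∧ w e ≤ Γ) → 0 ≤ p → p ≤ 1 → (∀ R, IsFM (pvs c) (z R)) →
      (∀ R e, e ∉ R → z R e = 0) →
      ∃ g : Finset E → E → ℝ, (∀ R, IsFM (pvs c) (g R)) ∧ (∀ R, ∀ e ∈ C, e ∉ R → g R e = 0) ∧
        (∀ R e, e ∉ C → g R e ≤ K * mean p z e) ∧ (∀ R R', R ∩ C = R' ∩ C → g R = g R') ∧
        ∑ e, w e * mean p z e - ε₀ * ∑ e, mean p z e ≤
          Ex (fun _ => p) (fun R => ∑ e, w e * g R e) := by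
  have hk0 : (0 : ℝ) < k := by exact_mod_cast hk
  have hΓ0 : 0 < Γ := by linarith
  obtain ⟨κ, hκ0, hκ1, hκ2⟩ : ∃ κ : ℝ, 0 < κ ∧ κ ≤ 1 / 2 ∧ Γ * κ ≤ ε₀ / 2 := by
    refine ⟨min (1 / 2) (ε₀ / (2 * Γ)), lt_min (by norm_num) (by positivity), min_le_left _ _, ?_⟩
    have h1 : min (1 / 2) (ε₀ / (2 * Γ)) ≤ ε₀ / (2 * Γ) := min_le_right _ _
    calc Γ * min (1 / 2) (ε₀ / (2 * Γ)) ≤ Γ * (ε₀ / (2 * Γ)) :=
          mul_le_mul_of_nonneg_left h1 hΓ0.le
      _ = ε₀ / 2 := by field_simp
  obtain ⟨K, hK, H⟩ := policy_bounded k hk Γ (ε₀ / 2) (8 * (k : ℝ) ^ 2 / κ) hΓ (by positivity)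
    (by positivity)
  refine ⟨K, hK, ?_⟩
  intro E U _ _ _ _ c w p z C hw hp0 hp1 hz hz0
  have hrateE : IsRate (fun _ : E => p) := fun _ => ⟨hp0, hp1⟩
  have hx0 : ∀ e, 0 ≤ mean p z e := fun e => Ex_nonneg hrateE fun R => (hz R).nonneg e
  rcases (Finset.sum_nonneg fun e (_ : e ∈ (univ : Finset E)) => hx0 e).eq_or_lt' with hμ | hμ
  · -- all means vanish
    have hx : ∀ e, mean p z e = 0 := fun e =>
      (Finset.sum_eq_zero_iff_of_nonneg fun e _ => hx0 e).1 hμ e (Finset.mem_univ e)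
    refine ⟨fun _ _ => 0, ?_, ?_, ?_, ?_, ?_⟩
    · intro R
      refine ⟨fun _ => le_rfl, fun v => ?_⟩
      unfold deg
      simp
    · intro R e _ _
      rfl
    · intro R e _
      rw [hx e, mul_zero]
    · intro R R' _
      rfl
    · simp only [hx, mul_zero, Finset.sum_const_zero, sub_zero]
      rw [Ex_const]
  · obtain ⟨M, n, c'', z'', hM, hc'', hFM'', hz0'', hmean'', htot, hcard⟩ :=
      exists_hash hk c p hp0 hp1 z hz hz0 hμ κ hκ0
    set μ : ℝ := ∑ e, mean p z e with hμdef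
    have hM0 : (0 : ℝ) < M := by exact_mod_cast hM
    have hrate : IsRate (fun _ : E × Fin M => p) := fun _ => ⟨hp0, hp1⟩
    have hcardV : (Fintype.card (Fin k × Fin n) : ℝ) ≤
        8 * (k : ℝ) ^ 2 / κ * ∑ q, mean p z'' q := by
      rw [Fintype.card_prod, Fintype.card_fin, Fintype.card_fin, Nat.cast_mul]
      have hMμ : 0 < (M : ℝ) * μ := mul_pos hM0 hμ
      have h1 : (M : ℝ) * μ ≤ 2 * ∑ q, mean p z'' q := by nlinarith
      have h2 : 0 ≤ 4 * (k : ℝ) ^ 2 / κ := by positivity
      have h3 := mul_le_mul_of_nonneg_left h1 h2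
      refine hcard.trans (h3.trans (le_of_eq ?_))
      ring
    obtain ⟨g'', hgFM, hg0, hgle, hgeq, hgval⟩ := H (E × Fin M) (Fin k × Fin n) (pvs c'')
      (fun q => w q.1) p z'' (C ×ˢ univ) (pvs_nonempty hk c'') (pvs_card_le c'')
      (fun q => hw q.1) hp0 hp1 hFM'' hz0'' hcardV
    refine ⟨fun R e => 1 / (M : ℝ) * ∑ m : Fin M, Ex (fun _ : E × Fin M => p)
      (fun T => g'' (insSlice m R T) (e, m)), ?_, ?_, ?_, ?_, ?_⟩
    · intro R
      refine ⟨fun e => ?_, ?_⟩
      · exact mul_nonneg (by positivity) (Finset.sum_nonneg fun m _ =>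
          Ex_nonneg hrate fun T => (hgFM _).nonneg _)
      · rintro ⟨i, u⟩
        rw [deg_pvs]
        unfold aa
        have h1 : ∀ e, (if c i e = u then 1 / (M : ℝ) * ∑ m : Fin M, Ex (fun _ : E × Fin M => p)
            (fun T => g'' (insSlice m R T) (e, m)) else 0) =
            1 / (M : ℝ) * ∑ m : Fin M, Ex (fun _ : E × Fin M => p)
              (fun T => if c i e = u then g'' (insSlice m R T) (e, m) else 0) := by
          intro e
          by_cases h2 : c i e = u
          · simp only [if_pos h2]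
          · simp only [if_neg h2, Ex_const, Finset.sum_const_zero, mul_zero]
        simp only [h1]
        rw [← Finset.mul_sum, Finset.sum_comm]
        have h4 : ∀ m : Fin M, ∑ e, Ex (fun _ : E × Fin M => p)
            (fun T => if c i e = u then g'' (insSlice m R T) (e, m) else 0) =
            Ex (fun _ : E × Fin M => p)
              (fun T => ∑ e, if c i e = u then g'' (insSlice m R T) (e, m) else 0) :=
          fun m => (Ex_sum _ _ _).symm
        rw [Finset.sum_congr rfl fun m _ => h4 m]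
        have h3 : ∀ m : Fin M, Ex (fun _ : E × Fin M => p)
            (fun T => ∑ e, if c i e = u then g'' (insSlice m R T) (e, m) else 0) ≤ 1 :=
          fun m => Ex_le_of_le hrate fun T => slice_deg_le hc'' (hgFM _) i u m
        have h5 := mul_le_mul_of_nonneg_left (Finset.sum_le_sum fun m (_ : m ∈ univ) => h3 m)
          (by positivity : (0 : ℝ) ≤ 1 / (M : ℝ))
        refine h5.trans (le_of_eq ?_)
        simp only [Finset.sum_const, Finset.card_univ, Fintype.card_fin, nsmul_eq_mul]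
        field_simp
    · intro R e heC heR
      have h1 : ∀ m : Fin M, Ex (fun _ : E × Fin M => p)
          (fun T => g'' (insSlice m R T) (e, m)) = 0 := by
        intro m
        rw [← Ex_const (fun _ : E × Fin M => p) 0]
        refine Ex_congr _ fun T => hg0 _ (e, m) ?_ ?_
        · exact Finset.mem_product.2 ⟨heC, Finset.mem_univ _⟩
        · rw [mem_insSlice]
          rintro (h2 | h2)
          · exact heR h2.2
          · exact h2.1 rfl
      simp only [h1, Finset.sum_const_zero, mul_zero]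
    · intro R e heC
      have h1 : ∀ m : Fin M, Ex (fun _ : E × Fin M => p)
          (fun T => g'' (insSlice m R T) (e, m)) ≤ K * mean p z e := by
        intro m
        refine Ex_le_of_le hrate fun T => ?_
        refine (hgle _ (e, m) ?_).trans (mul_le_mul_of_nonneg_left (hmean'' (e, m)) hK.le)
        intro h2
        exact heC (Finset.mem_product.1 h2).1
      have h2 := mul_le_mul_of_nonneg_left (Finset.sum_le_sum fun m (_ : m ∈ univ) => h1 m)
        (by positivity : (0 : ℝ) ≤ 1 / (M : ℝ))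
      refine h2.trans (le_of_eq ?_)
      simp only [Finset.sum_const, Finset.card_univ, Fintype.card_fin, nsmul_eq_mul]
      field_simp
    · intro R R' hRR
      funext e
      have h1 : ∀ (m : Fin M) (T : Finset (E × Fin M)),
          g'' (insSlice m R T) = g'' (insSlice m R' T) := by
        intro m T
        apply hgeq
        ext q
        rw [Finset.mem_inter, Finset.mem_inter, mem_insSlice, mem_insSlice, Finset.mem_product]
        have h2 : q.1 ∈ R ∩ C ↔ q.1 ∈ R' ∩ C := by rw [hRR]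
        rw [Finset.mem_inter, Finset.mem_inter] at h2
        tauto
      simp only [h1]
    · have h1 : Ex (fun _ : E => p) (fun R => ∑ e, w e * (1 / (M : ℝ) * ∑ m : Fin M,
          Ex (fun _ : E × Fin M => p) (fun T => g'' (insSlice m R T) (e, m)))) =
          1 / (M : ℝ) * Ex (fun _ : E × Fin M => p) (fun R => ∑ q, w q.1 * g'' R q) := by
        rw [Ex_sum, Ex_sum, Fintype.sum_prod_type, Finset.mul_sum]
        refine Finset.sum_congr rfl fun e _ => ?_
        rw [Ex_mul_left, Ex_mul_left, Ex_sum]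
        have h2 : ∀ m : Fin M, Ex (fun _ : E => p) (fun R => Ex (fun _ : E × Fin M => p)
            (fun T => g'' (insSlice m R T) (e, m))) =
            Ex (fun _ : E × Fin M => p) (fun R => g'' R (e, m)) :=
          fun m => Ex_insSlice p m (fun R => g'' R (e, m))
        simp only [h2, Ex_mul_left]
        rw [← Finset.mul_sum]
        ring
      rw [h1]
      have h2 : ∑ q : E × Fin M, w q.1 * mean p z q.1 = M * ∑ e, w e * mean p z e := by
        rw [Fintype.sum_prod_type, Finset.mul_sum]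
        refine Finset.sum_congr rfl fun e _ => ?_
        simp only [Finset.sum_const, Finset.card_univ, Fintype.card_fin, nsmul_eq_mul]
      have h3 : ∑ q : E × Fin M, mean p z q.1 = M * μ := by
        rw [Fintype.sum_prod_type, hμdef, Finset.mul_sum]
        refine Finset.sum_congr rfl fun e _ => ?_
        simp only [Finset.sum_const, Finset.card_univ, Fintype.card_fin, nsmul_eq_mul]
      have h4 : ∑ q : E × Fin M, mean p z'' q ≤ M * μ := by
        rw [← h3]
        exact Finset.sum_le_sum fun q _ => hmean'' q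
      have h5 : ∑ q : E × Fin M, w q.1 * mean p z q.1 - ∑ q : E × Fin M, w q.1 * mean p z'' q ≤
          Γ * (∑ q : E × Fin M, mean p z q.1 - ∑ q : E × Fin M, mean p z'' q) := by
        rw [← Finset.sum_sub_distrib, ← Finset.sum_sub_distrib, Finset.mul_sum]
        refine Finset.sum_le_sum fun q _ => ?_
        have h6 := hmean'' q
        have h7 := (hw q.1).2
        nlinarith
      rw [h2, h3] at h5
      have h6 : Γ * ((M : ℝ) * μ - ∑ q : E × Fin M, mean p z'' q) ≤ Γ * (κ * (M * μ)) :=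
        mul_le_mul_of_nonneg_left (by linarith) hΓ0.le
      have h7 : Γ * (κ * (M * μ)) ≤ ε₀ / 2 * (M * μ) := by
        rw [← mul_assoc]
        exact mul_le_mul_of_nonneg_right hκ2 (by positivity)
      have h8 : ε₀ / 2 * ∑ q : E × Fin M, mean p z'' q ≤ ε₀ / 2 * (M * μ) :=
        mul_le_mul_of_nonneg_left h4 (by positivity)
      have h9 : (M : ℝ) * (∑ e, w e * mean p z e - ε₀ * μ) ≤
          Ex (fun _ : E × Fin M => p) (fun R => ∑ q, w q.1 * g'' R q) := by
        have h10 : (M : ℝ) * (∑ e, w e * mean p z e - ε₀ * μ) =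
            M * ∑ e, w e * mean p z e - ε₀ / 2 * (M * μ) - ε₀ / 2 * (M * μ) := by ring
        rw [h10]
        linarith
      have h11 := mul_le_mul_of_nonneg_left h9 (by positivity : (0 : ℝ) ≤ 1 / (M : ℝ))
      refine le_trans (le_of_eq ?_) h11
      field_simp

end Pool.Agent.Helper68.SP
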