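import Pool.Agent.Helper68.SP.Sample
import Pool.Agent.Helper68.SP.Policy

/-!
# SP-22: the sparsifier for weights in `[0, Γ]`

PROOF.  `ε = min 1 (ε₀ / (4 Γ))`, `K` from `policy k hk Γ (ε₀/4)`, `τ = min 1 (ε₀ ε / (Γ k K^2))`.  Let `x = mean p z`, `μ = ∑ x`, `q = rateQ τ p x`, `C = {e | τ p ≤ x e}`, so `q e = 1` for `e ∈ C` and
`q e = x e / (τ p) < 1` for `e ∉ C`; `r' e = q e * p`, so `r' e = x e / τ` for `e ∉ C`.  Let `g` be the policy for this `C`.  For sets `R` and `T` (`T` stands for `(Q ∩ R) \ C`) let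
`h R T e = if e ∈ C then g R e else if e ∈ T then g R e / r' e else 0`, `D v = {e ∉ C | v ∈ vs e}`, `exc R T v = max (∑_{e ∈ D v} (if e ∈ T then g R e / r' e else 0) - ∑_{e ∈ D v} g R e - ε) 0`.
Then `deg (h R T) v ≤ 1 + ε + exc R T v` (because `∑_{e ∈ C, v ∈ vs e} g R e + ∑_{e ∈ D v} g R e ≤ 1`).  Let `G' R T` be the fractional matching of `normalize`, and
`G Q R = G' (R ∩ C) ((Q ∩ R) \ C)` if `C ⊆ Q`, and `0` otherwise.  Since `g R = g (R ∩ C)`: `e ∈ C`, `e ∉ R` implies `h = g = 0`; `e ∈ C ∩ R` and `C ⊆ Q` give `e ∈ Q ∩ R`; for `e ∉ C`, `h e ≠ 0` implies `e ∈ Q ∩ R`.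
`wt q Q ≠ 0` implies `C ⊆ Q` (`mem_of_wt_ne_zero`, `Ex_congr_wt`).  By `Ex_two`, with `Φ R₀ T = ∑ w (G' R₀ T)`:
`Ex q Ex p (∑ w G) = Ex p (fun R => Ex r' (fun T => Φ (R ∩ C) (T \ C))) ≥ (1/(1+ε)) Ex p (fun R => Ex r' (∑ w h - Γ ∑ exc))`.
For fixed `R`: `Ex r' (∑ w h) = ∑ w g R` (`Ex_mem`; if `r' e = 0`, `e ∉ C`, then `x e = 0` and `g R e ≤ K x e = 0`), and by `exc_le` with `a = g R`, `κ = K τ` (`g R e ≤ K x e = K τ r' e`)
`Ex r' (∑_v exc) ≤ ∑_v (K τ / (4 ε)) ∑_{e ∈ D v} g R e ≤ (K τ/(4 ε)) k ∑_{e ∉ C} K x e ≤ k K^2 τ μ / (4 ε)`, so `Γ * this ≤ ε₀ μ / 4`.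
Altogether `≥ (1/(1+ε)) (∑ w x - (ε₀/4) μ - (ε₀/4) μ) ≥ ∑ w x - ε ∑ w x - (ε₀/2) μ ≥ ∑ w x - ε₀ μ` (`∑ w x ≤ Γ μ`, `ε Γ ≤ ε₀/4`; `1/(1+ε) ≥ 1 - ε`, and if the bracket is negative
the left side is `≤ 0`... use `1/(1+ε) ≤ 1` for the negative part).
-/

set_option autoImplicit false

namespace Pool.Agent.Helper68.SP

open Finset

theorem block_base (k : ℕ) (hk : 1 ≤ k) (Γ ε₀ : ℝ) (hΓ : 1 ≤ Γ) (hε₀ : 0 < ε₀) :
    ∃ τ : ℝ, 0 < τ ∧ τ ≤ 1 ∧ ∀ (E U : Type) [Fintype E] [DecidableEq E] [Fintype U]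
      [DecidableEq U] (c : Fin k → E → U) (w : E → ℝ) (p : ℝ) (z : Finset E → E → ℝ),
      (∀ e, 0 ≤ w e ∧ w e ≤ Γ) → 0 < p → p ≤ 1 → (∀ R, IsFM (pvs c) (z R)) →
      (∀ R e, e ∉ R → z R e = 0) →
      ∃ G : Finset E → Finset E → E → ℝ, (∀ Q R, IsFM (pvs c) (G Q R)) ∧
        (∀ Q R e, ¬ (e ∈ Q ∧ e ∈ R) → G Q R e = 0) ∧
        ∑ e, w e * mean p z e - ε₀ * ∑ e, mean p z e ≤
          Ex (rateQ τ p (mean p z)) (fun Q => Ex (fun _ => p) (fun R => ∑ e, w e * G Q R e)) := by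
  obtain ⟨K, hK, hpol⟩ := policy k hk Γ (ε₀ / 4) hΓ (by linarith)
  have hΓ0 : 0 < Γ := by linarith
  have hk0 : (0 : ℝ) < k := by exact_mod_cast hk
  obtain ⟨ε, hεdef⟩ : ∃ ε, ε = min 1 (ε₀ / (4 * Γ)) := ⟨_, rfl⟩
  have hε : 0 < ε := by
    rw [hεdef]
    exact lt_min one_pos (by positivity)
  have hεΓ : ε * Γ ≤ ε₀ / 4 := by
    have h1 : ε ≤ ε₀ / (4 * Γ) := by
      rw [hεdef]
      exact min_le_right _ _
    have h2 : ε * Γ ≤ ε₀ / (4 * Γ) * Γ := mul_le_mul_of_nonneg_right h1 hΓ0.le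
    have h3 : ε₀ / (4 * Γ) * Γ = ε₀ / 4 := by
      field_simp
    linarith
  obtain ⟨τ, hτdef⟩ : ∃ τ, τ = min 1 (ε₀ * ε / (Γ * k * K ^ 2)) := ⟨_, rfl⟩
  have hτ : 0 < τ := by
    rw [hτdef]
    exact lt_min one_pos (by positivity)
  have hτ1 : τ ≤ 1 := by
    rw [hτdef]
    exact min_le_left _ _
  have hτK : Γ * (K * τ / (4 * ε) * (k * K)) ≤ ε₀ / 4 := by
    have h1 : τ ≤ ε₀ * ε / (Γ * k * K ^ 2) := by
      rw [hτdef]
      exact min_le_right _ _
    have h2 : τ * (Γ * k * K ^ 2) ≤ ε₀ * ε := by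
      rwa [le_div_iff₀ (by positivity)] at h1
    have h3 : Γ * (K * τ / (4 * ε) * (k * K)) = τ * (Γ * k * K ^ 2) / (4 * ε) := by
      field_simp
    rw [h3, div_le_iff₀ (by positivity)]
    calc τ * (Γ * k * K ^ 2) ≤ ε₀ * ε := h2
      _ = ε₀ / 4 * (4 * ε) := by ring
  refine ⟨τ, hτ, hτ1, ?_⟩
  intro E U _ _ _ _ c w p z hw hp hp1 hz hz0
  obtain ⟨x, hx⟩ : ∃ x, x = mean p z := ⟨_, rfl⟩
  rw [← hx]
  have hprate : IsRate (fun _ : E => p) := fun _ => ⟨hp.le, hp1⟩
  have hx0 : ∀ e, 0 ≤ x e := by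
    intro e
    rw [hx]
    exact Ex_nonneg hprate fun R => (hz R).nonneg e
  have hq01 : ∀ e, 0 ≤ rateQ τ p x e ∧ rateQ τ p x e ≤ 1 := by
    intro e
    unfold rateQ
    exact ⟨le_min zero_le_one (div_nonneg (hx0 e) (by positivity)), min_le_left _ _⟩
  obtain ⟨q, hq⟩ : ∃ q, q = rateQ τ p x := ⟨_, rfl⟩
  rw [← hq] at hq01 ⊢
  obtain ⟨C, hC⟩ : ∃ C : Finset E, C = univ.filter (fun e => τ * p ≤ x e) := ⟨_, rfl⟩
  have hCmem : ∀ e, e ∈ C ↔ τ * p ≤ x e := by
    intro e
    rw [hC, mem_filter]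
    exact ⟨fun h => h.2, fun h => ⟨mem_univ _, h⟩⟩
  have hτp : 0 < τ * p := mul_pos hτ hp
  have hqC : ∀ e ∈ C, q e = 1 := by
    intro e he
    rw [hq]
    unfold rateQ
    apply min_eq_left
    rw [le_div_iff₀ hτp, one_mul]
    exact (hCmem e).1 he
  obtain ⟨r', hr'⟩ : ∃ r' : E → ℝ, r' = fun e => q e * p := ⟨_, rfl⟩
  have hrate : IsRate r' := by
    intro e
    rw [hr']
    exact ⟨mul_nonneg (hq01 e).1 hp.le, mul_le_one₀ (hq01 e).2 hp.le hp1⟩
  have hr'C : ∀ e, e ∉ C → r' e * τ = x e := by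
    intro e he
    have h1 : x e < τ * p := lt_of_not_ge fun h => he ((hCmem e).2 h)
    have h2 : q e = x e / (τ * p) := by
      rw [hq]
      unfold rateQ
      apply min_eq_right
      rw [div_le_one hτp]
      exact h1.le
    rw [hr']
    show q e * p * τ = x e
    rw [h2]
    field_simp
  obtain ⟨g, hgFM, hg1, hg2, hg3, hg4⟩ := hpol E U c w p z C hw hp.le hp1 hz hz0
  rw [← hx] at hg2 hg4
  obtain ⟨h, hh⟩ : ∃ h : Finset E → Finset E → E → ℝ, h = fun R T e =>
      if e ∈ C then g R e else if e ∈ T then g R e / r' e else 0 := ⟨_, rfl⟩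
  obtain ⟨Dv, hDv⟩ : ∃ Dv : Fin k × U → Finset E, Dv = fun v =>
      univ.filter (fun e => e ∉ C ∧ v ∈ pvs c e) := ⟨_, rfl⟩
  obtain ⟨exc, hexc⟩ : ∃ exc : Finset E → Finset E → Fin k × U → ℝ, exc = fun R T v =>
      max (∑ e ∈ Dv v, (if e ∈ T then g R e / r' e else 0) - ∑ e ∈ Dv v, g R e - ε) 0 :=
    ⟨_, rfl⟩
  have hh0 : ∀ R T e, 0 ≤ h R T e := by
    intro R T e
    rw [hh]
    dsimp only
    split_ifs
    · exact (hgFM R).nonneg e
    · exact div_nonneg ((hgFM R).nonneg e) (hrate e).1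
    · exact le_rfl
  have hexc0 : ∀ R T v, 0 ≤ exc R T v := by
    intro R T v
    rw [hexc]
    exact le_max_right _ _
  have hdeg : ∀ R T v, deg (pvs c) (h R T) v ≤ 1 + ε + exc R T v := by
    intro R T v
    have h1 : deg (pvs c) (h R T) v = ∑ e ∈ univ.filter (fun e => e ∈ C ∧ v ∈ pvs c e), g R e +
        ∑ e ∈ Dv v, (if e ∈ T then g R e / r' e else 0) := by
      unfold deg
      rw [hDv, hh, sum_filter, sum_filter, ← sum_add_distrib]
      refine sum_congr rfl fun e _ => ?_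
      by_cases h2 : e ∈ C <;> by_cases h3 : v ∈ pvs c e <;> simp [h2, h3]
    have h2 : deg (pvs c) (g R) v = ∑ e ∈ univ.filter (fun e => e ∈ C ∧ v ∈ pvs c e), g R e +
        ∑ e ∈ Dv v, g R e := by
      unfold deg
      rw [hDv, sum_filter, sum_filter, ← sum_add_distrib]
      refine sum_congr rfl fun e _ => ?_
      by_cases h2 : e ∈ C <;> by_cases h3 : v ∈ pvs c e <;> simp [h2, h3]
    have h3 := (hgFM R).deg_le v
    have h4 : ∑ e ∈ Dv v, (if e ∈ T then g R e / r' e else 0) - ∑ e ∈ Dv v, g R e - ε ≤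
        exc R T v := by
      rw [hexc]
      exact le_max_left _ _
    linarith
  have hne : ∀ e, (pvs c e).Nonempty := by
    intro e
    unfold pvs
    exact ⟨(⟨0, hk⟩, c ⟨0, hk⟩ e), mem_image.2 ⟨⟨0, hk⟩, mem_univ _, rfl⟩⟩
  choose G' hG1 hG2 hG3 using fun R T =>
    normalize (pvs c) hne w (h R T) Γ ε hΓ0.le hε hw (hh0 R T) (exc R T) (hexc0 R T) (hdeg R T)
  have hcap : ∀ R, g (R ∩ C) = g R := by
    intro R
    apply hg3
    rw [inter_assoc, inter_self]
  have hhC : ∀ R T, h (R ∩ C) (T \ C) = h R T := by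
    intro R T
    rw [hh]
    funext e
    dsimp only
    rw [hcap]
    by_cases h1 : e ∈ C
    · simp [h1]
    · simp [h1]
  have hexcC : ∀ R T, exc (R ∩ C) (T \ C) = exc R T := by
    intro R T
    rw [hexc]
    funext v
    dsimp only
    rw [hcap]
    have h1 : ∑ e ∈ Dv v, (if e ∈ T \ C then g R e / r' e else 0) =
        ∑ e ∈ Dv v, (if e ∈ T then g R e / r' e else 0) := by
      refine sum_congr rfl fun e he => ?_
      rw [hDv, mem_filter] at he
      simp [he.2.1]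
    rw [h1]
  obtain ⟨G, hG⟩ : ∃ G : Finset E → Finset E → E → ℝ, G = fun Q R =>
      if C ⊆ Q then G' (R ∩ C) ((Q ∩ R) \ C) else fun _ => 0 := ⟨_, rfl⟩
  refine ⟨G, ?_, ?_, ?_⟩
  · intro Q R
    rw [hG]
    dsimp only
    split_ifs with h1
    · exact hG1 _ _
    · refine ⟨fun _ => le_rfl, fun v => ?_⟩
      unfold deg
      simp
  · intro Q R e he
    rw [hG]
    dsimp only
    split_ifs with h1
    · apply hG2
      rw [hh]
      dsimp only
      by_cases h2 : e ∈ C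
      · rw [if_pos h2]
        apply hg1 _ e h2
        intro h3
        exact he ⟨h1 h2, (mem_inter.1 h3).1⟩
      · rw [if_neg h2, if_neg]
        intro h3
        have h4 := (mem_sdiff.1 h3).1
        exact he ⟨(mem_inter.1 h4).1, (mem_inter.1 h4).2⟩
    · rfl
  · have e1 : Ex q (fun Q => Ex (fun _ => p) (fun R => ∑ e, w e * G Q R e)) =
        Ex q (fun Q => Ex (fun _ => p) (fun R =>
          (fun R₀ T => ∑ e, w e * G' R₀ T e) (R ∩ C) ((Q ∩ R) \ C))) := by
      apply Ex_congr_wt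
      intro Q hQ
      have h1 : C ⊆ Q := fun e he => mem_of_wt_ne_zero hQ (hqC e he)
      rw [hG]
      simp only [if_pos h1]
    rw [e1, Ex_two q (fun _ => p) C (fun R₀ T => ∑ e, w e * G' R₀ T e)]
    obtain ⟨μ, hμ⟩ : ∃ μ, μ = ∑ e, x e := ⟨_, rfl⟩
    have hμ0 : 0 ≤ μ := by
      rw [hμ]
      exact sum_nonneg fun e _ => hx0 e
    have key : ∀ R : Finset E, (∑ e, w e * g R e - ε₀ / 4 * μ) / (1 + ε) ≤
        Ex r' (fun T => ∑ e, w e * G' (R ∩ C) (T \ C) e) := by
      intro R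
      have k1 : Ex r' (fun T => (∑ e, w e * h R T e - Γ * ∑ v, exc R T v) / (1 + ε)) ≤
          Ex r' (fun T => ∑ e, w e * G' (R ∩ C) (T \ C) e) := by
        apply Ex_mono hrate
        intro T
        have := hG3 (R ∩ C) (T \ C)
        rw [hhC, hexcC] at this
        exact this
      refine le_trans ?_ k1
      have k2 : Ex r' (fun T => (∑ e, w e * h R T e - Γ * ∑ v, exc R T v) / (1 + ε)) =
          (∑ e, w e * Ex r' (fun T => h R T e) - Γ * ∑ v, Ex r' (fun T => exc R T v)) /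
            (1 + ε) := by
        have k3 : ∀ T : Finset E, (∑ e, w e * h R T e - Γ * ∑ v, exc R T v) / (1 + ε) =
            (∑ e, w e * h R T e - Γ * ∑ v, exc R T v) * (1 + ε)⁻¹ := fun T => div_eq_mul_inv _ _
        rw [Ex_congr r' k3, Ex_mul_right, Ex_sub, Ex_mul_left, Ex_sum, Ex_sum, div_eq_mul_inv]
        congr 2
        refine sum_congr rfl fun e _ => ?_
        rw [Ex_mul_left]
      rw [k2]
      have k4 : ∀ e, Ex r' (fun T => h R T e) = g R e := by
        intro e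
        rw [hh]
        dsimp only
        by_cases h1 : e ∈ C
        · simp only [if_pos h1]
          exact Ex_const _ _
        · simp only [if_neg h1]
          have h2 : ∀ T : Finset E, (if e ∈ T then g R e / r' e else 0) =
              (g R e / r' e) * (if e ∈ T then 1 else 0) := by
            intro T
            split_ifs <;> simp
          rw [Ex_congr r' h2, Ex_mul_left, Ex_mem]
          by_cases h3 : r' e = 0
          · have h4 : x e = 0 := by
              rw [← hr'C e h1, h3, zero_mul]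
            have h5 := hg2 R e h1
            rw [h4, mul_zero] at h5
            have h6 := (hgFM R).nonneg e
            rw [h3, mul_zero]
            linarith
          · rw [div_mul_cancel₀ _ h3]
      have k5 : Γ * ∑ v, Ex r' (fun T => exc R T v) ≤ ε₀ / 4 * μ := by
        have h1 : ∀ v, Ex r' (fun T => exc R T v) ≤ K * τ / (4 * ε) * ∑ e ∈ Dv v, g R e := by
          intro v
          rw [hexc]
          apply exc_le r' hrate (Dv v) (g R) (K * τ) ε (by positivity) hε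
            (fun e => (hgFM R).nonneg e)
          intro e he
          rw [hDv, mem_filter] at he
          have h2 := hg2 R e he.2.1
          rw [← hr'C e he.2.1] at h2
          calc g R e ≤ K * (r' e * τ) := h2
            _ = K * τ * r' e := by ring
        have h2 : ∑ v, ∑ e ∈ Dv v, g R e ≤ k * K * μ := by
          have h3 : ∑ v, ∑ e ∈ Dv v, g R e =
              ∑ e, ∑ v : Fin k × U, if (e ∉ C ∧ v ∈ pvs c e) then g R e else 0 := by
            rw [sum_comm]
            refine sum_congr rfl fun v _ => ?_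
            rw [hDv, sum_filter]
          rw [h3, hμ, mul_sum]
          refine sum_le_sum fun e _ => ?_
          by_cases h4 : e ∈ C
          · have h5 : ∑ v : Fin k × U, (if (e ∉ C ∧ v ∈ pvs c e) then g R e else 0) = 0 := by
              refine sum_eq_zero fun v _ => ?_
              rw [if_neg]
              exact fun h => h.1 h4
            rw [h5]
            have := hx0 e
            positivity
          · have h5 : ∑ v : Fin k × U, (if (e ∉ C ∧ v ∈ pvs c e) then g R e else 0) =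
                ((pvs c e).card : ℝ) * g R e := by
              rw [← sum_filter, sum_const, nsmul_eq_mul]
              congr 3
              ext v
              simp [h4]
            rw [h5]
            have h6 : ((pvs c e).card : ℝ) ≤ k := by
              have h7 : (pvs c e).card ≤ k := by
                unfold pvs
                refine card_image_le.trans ?_
                rw [card_univ, Fintype.card_fin]
              exact_mod_cast h7
            have h7 := hg2 R e h4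
            have h8 := (hgFM R).nonneg e
            calc ((pvs c e).card : ℝ) * g R e ≤ k * g R e := mul_le_mul_of_nonneg_right h6 h8
              _ ≤ k * (K * x e) := mul_le_mul_of_nonneg_left h7 hk0.le
              _ = k * K * x e := by ring
        have h3 : ∑ v, Ex r' (fun T => exc R T v) ≤ K * τ / (4 * ε) * (k * K * μ) := by
          refine (sum_le_sum fun v _ => h1 v).trans ?_
          rw [← mul_sum]
          exact mul_le_mul_of_nonneg_left h2 (by positivity)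
        calc Γ * ∑ v, Ex r' (fun T => exc R T v) ≤ Γ * (K * τ / (4 * ε) * (k * K * μ)) :=
              mul_le_mul_of_nonneg_left h3 hΓ0.le
          _ = Γ * (K * τ / (4 * ε) * (k * K)) * μ := by ring
          _ ≤ ε₀ / 4 * μ := mul_le_mul_of_nonneg_right hτK hμ0
      simp only [k4]
      apply div_le_div_of_nonneg_right _ (by positivity)
      linarith
    have k6 : Ex (fun _ => p) (fun R => (∑ e, w e * g R e - ε₀ / 4 * μ) / (1 + ε)) ≤
        Ex (fun _ => p) (fun R => Ex r' (fun T => ∑ e, w e * G' (R ∩ C) (T \ C) e)) :=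
      Ex_mono hprate key
    have k7 : Ex (fun _ : E => p) (fun R => (∑ e, w e * g R e - ε₀ / 4 * μ) / (1 + ε)) =
        (Ex (fun _ => p) (fun R => ∑ e, w e * g R e) - ε₀ / 4 * μ) / (1 + ε) := by
      have k3 : ∀ R : Finset E, (∑ e, w e * g R e - ε₀ / 4 * μ) / (1 + ε) =
          (∑ e, w e * g R e - ε₀ / 4 * μ) * (1 + ε)⁻¹ := fun R => div_eq_mul_inv _ _
      rw [Ex_congr _ k3, Ex_mul_right, Ex_sub, Ex_const, ← div_eq_mul_inv]
    rw [k7] at k6
    rw [← hμ] at hg4 ⊢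
    have hA : ∑ e, w e * x e ≤ Γ * μ := by
      rw [hμ, mul_sum]
      exact sum_le_sum fun e _ => mul_le_mul_of_nonneg_right (hw e).2 (hx0 e)
    have k8 : ∑ e, w e * x e - ε₀ * μ ≤
        (Ex (fun _ => p) (fun R => ∑ e, w e * g R e) - ε₀ / 4 * μ) / (1 + ε) := by
      rw [le_div_iff₀ (by positivity)]
      have h1 : ε * (∑ e, w e * x e) ≤ ε * (Γ * μ) := mul_le_mul_of_nonneg_left hA hε.le
      have h2 : ε * Γ * μ ≤ ε₀ / 4 * μ := mul_le_mul_of_nonneg_right hεΓ hμ0
      have h3 : 0 ≤ ε * (ε₀ * μ) := by positivity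
      nlinarith
    have k9 := k8.trans k6
    rw [hr'] at k9
    exact k9

end Pool.Agent.Helper68.SP
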