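import Mathlib

/-!
# SP-12: a partition into heavy parts with light unions

PROOF.  Among the finite sets `P` of finsets with: all parts satisfy `H`, pairwise disjoint, union `s` (the set of singletons of
elements of `s` is one), choose one with minimal cardinality (`Nat.find` on the cardinality, or `Finset.exists_min_image` on
`s.powerset.powerset.filter _`).  If `A ⊆ P`, `2 ≤ A.card`, and `H (A.biUnion id)`, then `insert (A.biUnion id) (P \ A)` has the same properties (the
new part is disjoint from the parts in `P \ A`, the union is the same) and its cardinality is `≤ P.card - A.card + 1 < P.card`, contradiction.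
-/

set_option autoImplicit false

namespace Pool.Agent.Helper68.SP

open Finset

theorem exists_min_partition {V : Type} [DecidableEq V] (H : Finset V → Prop) (s : Finset V)
    (hs : ∀ v ∈ s, H {v}) :
    ∃ P : Finset (Finset V), (∀ σ ∈ P, H σ) ∧ (∀ σ ∈ P, ∀ τ ∈ P, σ ≠ τ → Disjoint σ τ) ∧
      P.biUnion id = s ∧ ∀ A ⊆ P, 2 ≤ A.card → ¬ H (A.biUnion id) := by
  classical
  set F : Finset (Finset (Finset V)) := s.powerset.powerset.filter fun P =>
    (∀ σ ∈ P, H σ) ∧ (∀ σ ∈ P, ∀ τ ∈ P, σ ≠ τ → Disjoint σ τ) ∧ P.biUnion id = s with hF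
  have hmem : ∀ P : Finset (Finset V), (∀ σ ∈ P, H σ) →
      (∀ σ ∈ P, ∀ τ ∈ P, σ ≠ τ → Disjoint σ τ) → P.biUnion id = s → P ∈ F := by
    intro P h1 h2 h3
    rw [hF, Finset.mem_filter]
    refine ⟨?_, h1, h2, h3⟩
    rw [Finset.mem_powerset]
    intro σ hσ
    rw [Finset.mem_powerset, ← h3]
    exact Finset.subset_biUnion_of_mem id hσ
  have hne : F.Nonempty := by
    refine ⟨s.image fun v => {v}, hmem _ ?_ ?_ ?_⟩
    · intro σ hσ
      obtain ⟨v, hv, rfl⟩ := Finset.mem_image.1 hσ
      exact hs v hv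
    · intro σ hσ τ hτ hστ
      obtain ⟨v, _, rfl⟩ := Finset.mem_image.1 hσ
      obtain ⟨w, _, rfl⟩ := Finset.mem_image.1 hτ
      rw [Finset.disjoint_singleton]
      intro h
      exact hστ (by rw [h])
    · ext v
      simp
  obtain ⟨P, hP, hmin⟩ := Finset.exists_min_image F Finset.card hne
  rw [hF, Finset.mem_filter] at hP
  obtain ⟨_, h1, h2, h3⟩ := hP
  refine ⟨P, h1, h2, h3, fun A hA hcard hH => ?_⟩
  have hQ : insert (A.biUnion id) (P \ A) ∈ F := by
    refine hmem _ ?_ ?_ ?_
    · intro σ hσ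
      rcases Finset.mem_insert.1 hσ with rfl | hσ
      · exact hH
      · exact h1 σ (Finset.mem_sdiff.1 hσ).1
    · have hd : ∀ τ ∈ P \ A, Disjoint (A.biUnion id) τ := by
        intro τ hτ
        rw [Finset.mem_sdiff] at hτ
        rw [Finset.disjoint_biUnion_left]
        intro σ hσ
        exact h2 σ (hA hσ) τ hτ.1 (fun h => hτ.2 (h ▸ hσ))
      intro σ hσ τ hτ hστ
      rcases Finset.mem_insert.1 hσ with hσ' | hσ'
      · rcases Finset.mem_insert.1 hτ with hτ' | hτ'
        · exact absurd (hσ'.trans hτ'.symm) hστ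
        · rw [hσ']
          exact hd τ hτ'
      · rcases Finset.mem_insert.1 hτ with hτ' | hτ'
        · rw [hτ']
          exact (hd σ hσ').symm
        · exact h2 σ (Finset.mem_sdiff.1 hσ').1 τ (Finset.mem_sdiff.1 hτ').1 hστ
    · rw [Finset.biUnion_insert, id, ← Finset.union_biUnion, Finset.union_sdiff_of_subset hA, h3]
  have h4 := hmin _ hQ
  have h5 := Finset.card_insert_le (A.biUnion id) (P \ A)
  have h6 := Finset.card_sdiff_of_subset hA
  have h7 := Finset.card_le_card hA
  omega

end Pool.Agent.Helper68.SP
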