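import Pool.Agent.Helper68.SP.StageDefs

/-!
# Project SP: the multi-stage estimation procedure (definitions)

Every element `e` has a finite set `rem 0 e` of super-vertices (the parts of its partition).  At stage `j` the
target is `tgt j e ∈ rem j e` and `rem (j+1) e = (rem j e).erase (tgt j e)`.  `F j` is the random set revealed for
stage `j`, `Y σ` the (rounded up) value of a revealed super-vertex.
-/

set_option autoImplicit false

namespace Pool.Agent.Helper68.SP

open Finset

/-- a multi-stage system -/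
structure Sys (E S : Type) where
  N : Finset E
  x : E → ℝ
  w : E → ℝ
  rem : ℕ → E → Finset S
  tgt : ℕ → E → S
  rate : S → ℝ
  η : ℕ → S → ℝ

namespace Sys

variable {E S : Type} [DecidableEq E] [DecidableEq S] (sy : Sys E S)

/-- the stage number `j` -/
def stage (j : ℕ) : Stage E S where
  N := sy.N.filter (fun e => (sy.rem j e).Nonempty)
  tgt := sy.tgt j
  oth := sy.rem (j + 1)
  x := sy.x
  rate := sy.rate
  η := sy.η j

/-- the remaining weight of `e` before stage `j`; `ε` is the grid size, `s` the loss per stage -/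
noncomputable def W (ε s : ℝ) (L : ℕ) (F : ℕ → Finset S) (Y : S → ℝ) : ℕ → E → ℝ
  | 0 => fun e => sy.w e - ε
  | j + 1 => fun e =>
      if (sy.rem j e).Nonempty then
        W ε s L F Y j e -
          (sy.stage j).best ε L (fun e' => W ε s L F Y j e' - ∑ σ ∈ sy.rem (j + 1) e', Y σ) (F j)
            (sy.tgt j e) - s
      else W ε s L F Y j e

/-- the demand at stage `j` -/
noncomputable def dem (ε s : ℝ) (L : ℕ) (F : ℕ → Finset S) (Y : S → ℝ) (j : ℕ) (e : E) : ℝ :=
  sy.W ε s L F Y j e - ∑ σ ∈ sy.rem (j + 1) e, Y σ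

/-- the lower bound found at stage `j` -/
noncomputable def bb (ε s : ℝ) (L : ℕ) (F : ℕ → Finset S) (Y : S → ℝ) (j : ℕ) (σ : S) : ℝ :=
  (sy.stage j).best ε L (sy.dem ε s L F Y j) (F j) σ

/-- conditions on a system with at most `k` stages -/
structure Good (k : ℕ) (θ : ℕ → S → ℝ) (T : Finset S) : Prop where
  stage_good : ∀ j < k, (sy.stage j).Good k (θ j)
  x_nonneg : ∀ e, 0 ≤ sy.x e
  tgt_mem : ∀ e ∈ sy.N, ∀ j, (sy.rem j e).Nonempty → sy.tgt j e ∈ sy.rem j e
  rem_succ : ∀ e ∈ sy.N, ∀ j, sy.rem (j + 1) e = (sy.rem j e).erase (sy.tgt j e)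
  rem_last : ∀ e ∈ sy.N, sy.rem k e = ∅
  mem_T : ∀ e ∈ sy.N, ∀ σ ∈ sy.rem 0 e, σ ∈ T

/-- the sections of a subset of `Fin k × S` -/
def secs {k : ℕ} [Fintype S] (F : Finset (Fin k × S)) (j : ℕ) : Finset S :=
  if h : j < k then Finset.univ.filter (fun σ => ((⟨j, h⟩ : Fin k), σ) ∈ F) else ∅

end Sys

end Pool.Agent.Helper68.SP
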