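import Pool.Agent.Helper68.SP.HeavyCount
import Pool.Agent.Helper68.SP.MinPart
import Pool.Agent.Helper68.SP.SysDefs

/-!
# SP-14: the system of heavy parts

PROOF.  `N = N0.filter (∀ v ∈ vs e, Heavy {v})`.  For `e ∈ N` let `P e` be the partition of `vs e` from `exists_min_partition` with `H = Heavy`; put `P e = ∅` for
`e ∉ N`.  For a finite set `Q` of finsets let `big Q ∈ Q` have maximal cardinality if `Q` is nonempty (`Finset.exists_max_image`) and `big ∅ = ∅`.
`rem 0 e = P e`, `rem (j+1) e = (rem j e).erase (big (rem j e))`, `tgt j e = big (rem j e)`, `rate σ = if Heavy σ then ρ σ.card else 0`, `η j σ = ηη j σ.card`.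
* The parts are nonempty (heavy), disjoint, with union `vs e`, so `(P e).card ≤ (vs e).card ≤ k`, and `rem k e = ∅` because each step removes an element of a
  nonempty set.  `rem 0 e` is nonempty since `vs e` is.  `ysum y (vs e) = ∑_{σ ∈ P e} ysum y σ` (`Finset.sum_biUnion`).
* `tgt (j+1) e ∈ rem (j+1) e ⊆ rem j e`, so its cardinality is at most that of `tgt j e`.
* `codeg`: let `e ∈ N`, `rem j e` nonempty, `σ = tgt j e`, `∅ ≠ A ⊆ rem (j+1) e`, `B = insert σ A ⊆ P e`, `2 ≤ B.card` (`σ ∉ rem (j+1) e`), `U = B.biUnion id`.  If `e' ∈ N`, `tgt j e' = σ`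
  and `A ⊆ rem (j+1) e'` (and `rem j e'` nonempty) then `U ⊆ vs e'`.  So the sum is `≤ cm U < δ U.card` (`U` is nonempty and not heavy; `N ⊆ N0`, `x ≥ 0`), and
  `δ U.card ≤ δ (σ.card + 1)` (`U` contains `σ` and a nonempty disjoint set; `δ` antitone) `≤ θθ j σ.card * ηη j σ.card * (ρ σ.card)^k`.  Every `τ ∈ A` is heavy with
  `τ.card ≤ σ.card`, so `rate τ = ρ τ.card ≥ ρ σ.card`, and `A.card ≤ k`, `ρ ≤ 1` give `rr A ≥ (ρ σ.card)^k`.
* The mass of `N0 \ N`: each such `e` has a vertex `v` with `{v}` not heavy, i.e. `cm {v} < δ 1`; so the mass is `≤ ∑_{v not heavy} cm {v} ≤ δ 1 * card V`.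
-/

set_option autoImplicit false

namespace Pool.Agent.Helper68.SP

open Finset

section Aux

variable {V : Type} [DecidableEq V]

/-- a member of maximal cardinality -/
private noncomputable def hsBig (Q : Finset (Finset V)) : Finset V := by
  classical exact
    if h : Q.Nonempty then (Q.exists_max_image Finset.card h).choose else ∅

omit [DecidableEq V] in
private lemma hsBig_spec {Q : Finset (Finset V)} (h : Q.Nonempty) :
    hsBig Q ∈ Q ∧ ∀ τ ∈ Q, τ.card ≤ (hsBig Q).card := by
  unfold hsBig
  rw [dif_pos h]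
  exact (Q.exists_max_image Finset.card h).choose_spec

private noncomputable def hsRem (P : Finset (Finset V)) : ℕ → Finset (Finset V)
  | 0 => P
  | j + 1 => (hsRem P j).erase (hsBig (hsRem P j))

private lemma hsRem_subset (P : Finset (Finset V)) (j : ℕ) : hsRem P j ⊆ P := by
  induction j with
  | zero => exact Finset.Subset.refl _
  | succ j ih => exact (Finset.erase_subset _ _).trans ih

private lemma hsRem_card (P : Finset (Finset V)) (j : ℕ) :
    (hsRem P j).card = P.card - j := by
  induction j with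
  | zero => simp [hsRem]
  | succ j ih =>
    show ((hsRem P j).erase (hsBig (hsRem P j))).card = P.card - (j + 1)
    by_cases h : (hsRem P j).Nonempty
    · rw [Finset.card_erase_of_mem (hsBig_spec h).1, ih]
      omega
    · rw [Finset.not_nonempty_iff_eq_empty] at h
      rw [h] at ih ⊢
      simp only [Finset.card_empty, Finset.erase_empty] at ih ⊢
      omega

end Aux

variable {E V : Type} [Fintype E] [DecidableEq E] [Fintype V] [DecidableEq V]

open Classical in
theorem exists_sys {k : ℕ} (vs : E → Finset V) (hne : ∀ e, (vs e).Nonempty)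
    (hvs : ∀ e, (vs e).card ≤ k) (x w : E → ℝ) (hx : ∀ e, 0 ≤ x e) (N0 : Finset E)
    (δ ρ : ℕ → ℝ) (ηη θθ : ℕ → ℕ → ℝ) (hδ : ∀ a, 0 < δ a) (hδa : Antitone δ)
    (hρ : ∀ a, 0 < ρ a ∧ ρ a ≤ 1) (hρa : Antitone ρ) (hη : ∀ j a, 0 < ηη j a)
    (hθ : ∀ j a, 0 ≤ θθ j a)
    (hcod : ∀ j < k, ∀ a, 1 ≤ a → a ≤ k → δ (a + 1) ≤ θθ j a * ηη j a * ρ a ^ k) :
    ∃ sy : Sys E (Finset V), sy.x = x ∧ sy.w = w ∧ sy.N ⊆ N0 ∧
      (sy.rate = fun σ => if Heavy vs x N0 δ σ then ρ σ.card else 0) ∧
      (sy.η = fun j σ => ηη j σ.card) ∧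
      sy.Good k (fun j σ => θθ j σ.card) (heavySets vs x N0 δ) ∧
      (∀ e ∈ sy.N, (sy.rem 0 e).Nonempty) ∧
      (∀ e ∈ sy.N, ∀ y : V → ℝ, ysum y (vs e) = ∑ σ ∈ sy.rem 0 e, ysum y σ) ∧
      (∀ e ∈ sy.N, ∀ j, (sy.rem (j + 1) e).Nonempty →
        (sy.tgt (j + 1) e).card ≤ (sy.tgt j e).card) ∧
      ∑ e ∈ N0 \ sy.N, x e ≤ δ 1 * (Fintype.card V : ℝ) := by
  -- the partition
  set good : E → Prop := fun e => ∀ v ∈ vs e, Heavy vs x N0 δ {v} with hgood
  set P : E → Finset (Finset V) := fun e =>
    if h : good e then (exists_min_partition (Heavy vs x N0 δ) (vs e) h).choose else ∅ with hP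
  have hPs : ∀ e, good e → (∀ σ ∈ P e, Heavy vs x N0 δ σ) ∧
      (∀ σ ∈ P e, ∀ τ ∈ P e, σ ≠ τ → Disjoint σ τ) ∧
      (P e).biUnion id = vs e ∧ ∀ A ⊆ P e, 2 ≤ A.card → ¬ Heavy vs x N0 δ (A.biUnion id) := by
    intro e he
    have h1 : P e = (exists_min_partition (Heavy vs x N0 δ) (vs e) he).choose := by
      rw [hP]
      exact dif_pos he
    rw [h1]
    exact (exists_min_partition (Heavy vs x N0 δ) (vs e) he).choose_spec
  have hPcard : ∀ e, good e → (P e).card ≤ k := by
    intro e he
    obtain ⟨p1, p2, p3, p4⟩ := hPs e he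
    refine le_trans ?_ (hvs e)
    have h1 : ((P e).biUnion id).card = ∑ σ ∈ P e, (id σ : Finset V).card :=
      Finset.card_biUnion (fun σ hσ τ hτ hne => p2 σ hσ τ hτ hne)
    rw [← p3, h1, Finset.card_eq_sum_ones]
    exact Finset.sum_le_sum fun σ hσ => Finset.card_pos.2 (p1 σ hσ).1
  set N : Finset E := N0.filter good with hN
  have hNg : ∀ e ∈ N, good e := fun e he => (Finset.mem_filter.1 he).2
  have hrempos : ∀ e, good e → ∀ σ ∈ P e, 0 < (if Heavy vs x N0 δ σ then ρ σ.card else 0) := by
    intro e he σ hσ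
    rw [if_pos ((hPs e he).1 σ hσ)]
    exact (hρ _).1
  have hsub : ∀ e j, hsRem (P e) j ⊆ P e := fun e j => hsRem_subset (P e) j
  have hsubs : ∀ e, good e → ∀ σ ∈ P e, σ ⊆ vs e := by
    intro e he σ hσ
    rw [← (hPs e he).2.2.1]
    exact Finset.subset_biUnion_of_mem id hσ
  refine ⟨{ N := N, x := x, w := w, rem := fun j e => hsRem (P e) j,
            tgt := fun j e => hsBig (hsRem (P e) j),
            rate := fun σ => if Heavy vs x N0 δ σ then ρ σ.card else 0,
            η := fun j σ => ηη j σ.card }, rfl, rfl, Finset.filter_subset _ _, rfl, rfl, ?_, ?_,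
            ?_, ?_, ?_⟩
  · refine ⟨fun j hj => ?_, hx, fun e _ j h => (hsBig_spec h).1, fun e _ j => rfl, fun e he => ?_,
      fun e he σ hσ => ?_⟩
    · refine ⟨hx, fun σ => ?_, fun e he τ hτ => ?_, fun σ => hη j _, fun σ => hθ j _,
        fun e he => ?_, fun e he A hA hAne => ?_⟩
      · show 0 ≤ (if Heavy vs x N0 δ σ then ρ σ.card else 0) ∧
          (if Heavy vs x N0 δ σ then ρ σ.card else 0) ≤ 1
        split_ifs
        · exact ⟨(hρ _).1.le, (hρ _).2⟩
        · exact ⟨le_refl _, zero_le_one⟩
      · have he' : e ∈ N := (Finset.mem_filter.1 he).1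
        exact hrempos e (hNg e he') τ (hsub e (j + 1) hτ)
      · have he' : e ∈ N := (Finset.mem_filter.1 he).1
        exact (Finset.card_le_card (hsub e (j + 1))).trans (hPcard e (hNg e he'))
      · have he1 := Finset.mem_filter.1 he
        have heN : e ∈ N := he1.1
        have hge := hNg e heN
        have hne1 : (hsRem (P e) j).Nonempty := he1.2
        obtain ⟨p1, p2, p3, p4⟩ := hPs e hge
        change A ⊆ hsRem (P e) (j + 1) at hA
        set σ := hsBig (hsRem (P e) j) with hσ
        have hσm : σ ∈ hsRem (P e) j := (hsBig_spec hne1).1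
        have hσmax : ∀ τ ∈ hsRem (P e) j, τ.card ≤ σ.card := (hsBig_spec hne1).2
        have hσP : σ ∈ P e := hsub e j hσm
        have hA' : A ⊆ (hsRem (P e) j).erase σ := hA
        have hσA : σ ∉ A := fun h => (Finset.mem_erase.1 (hA' h)).1 rfl
        have hAP : A ⊆ P e := hA.trans (hsub e (j + 1))
        have hB : insert σ A ⊆ P e := Finset.insert_subset hσP hAP
        have hBcard : 2 ≤ (insert σ A).card := by
          rw [Finset.card_insert_of_notMem hσA]
          have := hAne.card_pos
          omega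
        have hU := p4 _ hB hBcard
        set U := (insert σ A).biUnion id with hUdef
        have hσU : σ ⊆ U := Finset.subset_biUnion_of_mem id (Finset.mem_insert_self σ A)
        have hUne : U.Nonempty := (p1 σ hσP).1.mono hσU
        have hcm : cm vs x N0 U < δ U.card := by
          by_contra hcon
          push Not at hcon
          exact hU ⟨hUne, hcon⟩
        have hσ1 : 1 ≤ σ.card := Finset.card_pos.2 (p1 σ hσP).1
        have hσk : σ.card ≤ k := (Finset.card_le_card (hsubs e hge σ hσP)).trans (hvs e)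
        obtain ⟨τ, hτ⟩ := hAne
        have hτP : τ ∈ P e := hAP hτ
        have hστ : σ ≠ τ := fun h => hσA (h ▸ hτ)
        have hUcard : σ.card + 1 ≤ U.card := by
          have h1 : σ ∪ τ ⊆ U := Finset.union_subset hσU
            (Finset.subset_biUnion_of_mem id (Finset.mem_insert_of_mem hτ))
          have h2 := Finset.card_le_card h1
          rw [Finset.card_union_of_disjoint (p2 σ hσP τ hτP hστ)] at h2
          have h3 : 1 ≤ τ.card := Finset.card_pos.2 (p1 τ hτP).1
          omega
        have hδU : δ U.card ≤ δ (σ.card + 1) := hδa hUcard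
        have hrr : ρ σ.card ^ k ≤ ∏ τ ∈ A, (if Heavy vs x N0 δ τ then ρ τ.card else 0) := by
          have h1 : ρ σ.card ^ k ≤ ρ σ.card ^ A.card :=
            pow_le_pow_of_le_one (hρ _).1.le (hρ _).2
              ((Finset.card_le_card hAP).trans (hPcard e hge))
          refine h1.trans ?_
          rw [← Finset.prod_const]
          refine Finset.prod_le_prod (fun _ _ => (hρ _).1.le) fun τ hτ => ?_
          rw [if_pos (p1 τ (hAP hτ))]
          exact hρa (hσmax τ (Finset.mem_of_mem_erase (hA' hτ)))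
        have hsum : (∑ e' ∈ N.filter (fun e' => (hsRem (P e') j).Nonempty),
            if hsBig (hsRem (P e') j) = σ ∧ A ⊆ hsRem (P e') (j + 1) then x e' else 0) ≤
            cm vs x N0 U := by
          unfold cm
          refine le_trans (Finset.sum_le_sum (g := fun e' => if U ⊆ vs e' then x e' else 0)
            fun e' he' => ?_) ?_
          · by_cases hc : hsBig (hsRem (P e') j) = σ ∧ A ⊆ hsRem (P e') (j + 1)
            · have he2 := Finset.mem_filter.1 he'
              have hge' := hNg e' he2.1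
              have hsub2 : U ⊆ vs e' := by
                rw [hUdef]
                refine Finset.biUnion_subset.2 fun τ' hτ' => ?_
                rcases Finset.mem_insert.1 hτ' with h | h
                · rw [h, ← hc.1]
                  exact hsubs e' hge' _ (hsub e' j (hsBig_spec he2.2).1)
                · exact hsubs e' hge' _ (hsub e' (j + 1) (hc.2 h))
              rw [if_pos hc, if_pos hsub2]
            · rw [if_neg hc]
              split_ifs
              · exact hx e'
              · exact le_refl _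
          · refine Finset.sum_le_sum_of_subset_of_nonneg
              ((Finset.filter_subset _ _).trans (Finset.filter_subset _ _)) fun e' _ _ => ?_
            split_ifs
            · exact hx e'
            · exact le_refl _
        have hfin : (∑ e' ∈ N.filter (fun e' => (hsRem (P e') j).Nonempty),
            if hsBig (hsRem (P e') j) = σ ∧ A ⊆ hsRem (P e') (j + 1) then x e' else 0) ≤
            θθ j σ.card * ηη j σ.card *
              ∏ τ ∈ A, (if Heavy vs x N0 δ τ then ρ τ.card else 0) := by
          have h1 := hcod j hj σ.card hσ1 hσk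
          have h2 : θθ j σ.card * ηη j σ.card * ρ σ.card ^ k ≤ θθ j σ.card * ηη j σ.card *
              ∏ τ ∈ A, (if Heavy vs x N0 δ τ then ρ τ.card else 0) :=
            mul_le_mul_of_nonneg_left hrr (mul_nonneg (hθ _ _) (hη _ _).le)
          linarith
        exact hfin
    · show hsRem (P e) k = ∅
      rw [← Finset.card_eq_zero, hsRem_card]
      have := hPcard e (hNg e he)
      omega
    · exact mem_heavySets.2 ((hPs e (hNg e he)).1 σ hσ)
  · intro e he
    show (P e).Nonempty
    obtain ⟨v, hv⟩ := hne e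
    rw [← (hPs e (hNg e he)).2.2.1] at hv
    obtain ⟨σ, hσ, -⟩ := Finset.mem_biUnion.1 hv
    exact ⟨σ, hσ⟩
  · intro e he y
    show ysum y (vs e) = ∑ σ ∈ P e, ysum y σ
    obtain ⟨p1, p2, p3, p4⟩ := hPs e (hNg e he)
    unfold ysum
    have h1 : ∑ v ∈ (P e).biUnion id, y v = ∑ σ ∈ P e, ∑ v ∈ (id σ : Finset V), y v :=
      Finset.sum_biUnion (fun σ hσ τ hτ hne => p2 σ hσ τ hτ hne)
    rw [← p3, h1]
    rfl
  · intro e he j hj
    change (hsRem (P e) (j + 1)).Nonempty at hj
    have h1 := (hsBig_spec hj).1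
    have h2 : hsBig (hsRem (P e) (j + 1)) ∈ hsRem (P e) j := Finset.mem_of_mem_erase h1
    exact (hsBig_spec ⟨_, h2⟩).2 _ h2
  · show ∑ e ∈ N0 \ N, x e ≤ δ 1 * (Fintype.card V : ℝ)
    have h1 : ∑ e ∈ N0 \ N, x e ≤ ∑ e ∈ N0 \ N,
        ∑ v ∈ Finset.univ.filter (fun v : V => ¬ Heavy vs x N0 δ {v}),
          (if {v} ⊆ vs e then x e else 0) := by
      refine Finset.sum_le_sum fun e he => ?_
      obtain ⟨he0, heN⟩ := Finset.mem_sdiff.1 he
      have h2 : ¬ good e := fun h => heN (Finset.mem_filter.2 ⟨he0, h⟩)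
      have h3 : ∃ v ∈ vs e, ¬ Heavy vs x N0 δ {v} := by
        by_contra hcon
        push Not at hcon
        exact h2 hcon
      obtain ⟨v, hv, hv2⟩ := h3
      have h4 : (if ({v} : Finset V) ⊆ vs e then x e else 0) = x e :=
        if_pos (Finset.singleton_subset_iff.2 hv)
      refine le_of_eq_of_le h4.symm (Finset.single_le_sum
        (f := fun v : V => if ({v} : Finset V) ⊆ vs e then x e else 0) (fun v' _ => ?_)
        (Finset.mem_filter.2 ⟨Finset.mem_univ v, hv2⟩))
      split_ifs
      · exact hx e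
      · exact le_refl _
    refine h1.trans ?_
    rw [Finset.sum_comm]
    have h5 : ∀ v ∈ Finset.univ.filter (fun v : V => ¬ Heavy vs x N0 δ {v}),
        ∑ e ∈ N0 \ N, (if ({v} : Finset V) ⊆ vs e then x e else 0) ≤ δ 1 := by
      intro v hv
      have hv2 := (Finset.mem_filter.1 hv).2
      have h6 : cm vs x N0 {v} < δ 1 := by
        by_contra hcon
        push Not at hcon
        exact hv2 ⟨Finset.singleton_nonempty v, by rw [Finset.card_singleton]; exact hcon⟩
      refine le_trans ?_ h6.le
      unfold cm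
      refine Finset.sum_le_sum_of_subset_of_nonneg Finset.sdiff_subset fun e' _ _ => ?_
      split_ifs
      · exact hx e'
      · exact le_refl _
    refine (Finset.sum_le_sum h5).trans ?_
    rw [Finset.sum_const, nsmul_eq_mul, mul_comm]
    refine mul_le_mul_of_nonneg_left ?_ (hδ 1).le
    exact_mod_cast Finset.card_le_univ _

end Pool.Agent.Helper68.SP
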