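import Pool.Agent.Helper68.SP.CoreIneq
import Pool.Agent.Helper68.SP.HeavySys

/-!
# SP-17: the core theorem (choice of the parameters)

PROOF.  `μ = ∑ mean`, `Γ₁ = Γ + 1`.  Choose `ε = min 1 (ε₀ / (8 (1 + k (k+1))))`, `L = ⌈Γ / ε⌉₊` (so `Γ ≤ L ε ≤ Γ₁`), `l = min (1/Γ₁) (ε₀ / (8 Γ₁^2 C1))`,
`δ a = ω ^ ((6k+1)^a)` with a small `ω ∈ (0, 1]` (so `δ 1 ≤ ω`, `δ (a+1) = δ a ^ (6k+1)`, `δ` antitone, `δ a ≤ ω` for `a ≥ 1`), `ρ a = δ a ^ 2`, `ηη j a = δ a ^ (2 (k - j))` (natural subtraction, for `j < k`),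
`θθ j a = δ (a+1) / (ηη j a * ρ a ^ k)`, `H j σ = 2 / ηη (j+1) σ.card` if `j + 1 < k` and `0` otherwise, `K = 2 Γ₁ / (δ k ^ (2 k) ε)`.
(If `j + 1 ≥ k` then `rem (j+1) e = ∅`, because `rem k e = ∅` and `rem` decreases, so `hH` is void there; for `j + 1 < k` it follows from `(tgt (j+1) e).card ≤ (tgt j e).card` and antitonicity of `ηη (j+1)`.)
Clip `y` at `L ε`: `y' = min y (L ε)` covers the same elements, `max (w e - ysum y' (vs e)) 0 ≤ max (w e - ysum y (vs e)) 0` (if a coordinate is clipped the left side is `0`), `∑ y' ≤ ∑ y`.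
Take the system of `exists_sys` with `N0 = Cᶜ` and apply `core_ineq`.  Error terms, each `≤ (ε₀/8) μ` for small `ω` (all constants depend on `k, Γ, ε₀, C1` only):
 a) `(1 + k(k+1)) ε μ`;
 b) `L ε ∑_{(C ∪ N)ᶜ} mean ≤ Γ₁ δ 1 card V ≤ Γ₁ ω C1 μ`;
 c) `L ε ∑_{j<k} ∑_{σ ∈ T} ηη j σ.card / 2 ≤ Γ₁ k 2^k μ ∑_{a ∈ Icc 1 k} δ a ^ 2 / δ a ≤ Γ₁ k^2 2^k ω μ` (`sum_heavy_le`; `ηη j a ≤ δ a ^ 2`);
 d) `l Γ₁^2 card V ≤ l Γ₁^2 C1 μ`;
 e) `k (∑ rate) log (k L + 1) / l ≤ k^2 2^k ω log (k L + 1) / l * μ` (`sum_heavy_le` with `g a = ρ a = δ a ^ 2`);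
 f) `L ε ∑_j ∑_{σ ∈ T} H j σ η j σ`: for `j + 1 < k` `H j η j = 2 δ a ^ 2`, so it is `≤ Γ₁ k 2^k μ ∑_a 2 δ a ≤ Γ₁ k^2 2^(k+1) ω μ`;
 g) `L ε ∑_j ∑_{σ ∈ T} H j σ 2^(k+2) θθ j σ.card ∑_{e : tgt j e = σ} mean`: `H j θθ j ≤ 2 δ a ^ (- 2 k) δ (a+1) δ a ^ (- 4 k) = 2 δ a ≤ 2 ω`, so it is `≤ Γ₁ k 2^(k+3) ω μ`
    (every active `e` has one target, in `T`).
The remaining term: `[ysum y' (vs e) < w e - ε] ≤ max (w e - ysum y' (vs e)) 0 / ε`, `2 / ηη 0 (tgt 0 e).card ≤ 2 / δ k ^ (2k)` (`(tgt 0 e).card ≤ k`), so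
`L ε * Ex (...) ≤ K * Ex (∑_{e ∉ C} mean e * max (w e - ysum y (vs e)) 0)`.
-/

set_option autoImplicit false

namespace Pool.Agent.Helper68.SP

open Finset

private theorem exists_params (k : ℕ) (Γ ε₀ C1 : ℝ) (hΓ : 1 ≤ Γ) (hε₀ : 0 < ε₀)
    (hC1 : 0 < C1) :
    ∃ (ε : ℝ) (L : ℕ) (l ω Γ₁ : ℝ), 0 < ε ∧ 0 < Γ₁ ∧ 0 < l ∧ 0 < ω ∧ ω ≤ 1 ∧ Γ ≤ (L : ℝ) * ε ∧
      (L : ℝ) * ε ≤ Γ₁ ∧ l * ((L : ℝ) * ε) ≤ 1 ∧ (1 + (k : ℝ) * ((k : ℝ) + 1)) * ε ≤ ε₀ / 8 ∧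
      Γ₁ * ω * C1 ≤ ε₀ / 8 ∧ Γ₁ * ((k : ℝ) ^ 2 * 2 ^ k * ω) ≤ ε₀ / 8 ∧
      l * Γ₁ ^ 2 * C1 ≤ ε₀ / 8 ∧
      (k : ℝ) ^ 2 * 2 ^ k * ω * Real.log ((k : ℝ) * (L : ℝ) + 1) / l ≤ ε₀ / 8 ∧
      Γ₁ * ((k : ℝ) ^ 2 * 2 ^ (k + 1) * ω) ≤ ε₀ / 8 ∧
      Γ₁ * ((k : ℝ) * 2 ^ (k + 3) * ω) ≤ ε₀ / 8 := by
  have hkk : (0 : ℝ) < 1 + (k : ℝ) * ((k : ℝ) + 1) := by positivity
  obtain ⟨ε, hε⟩ : ∃ ε : ℝ, ε = min 1 (ε₀ / (8 * (1 + (k : ℝ) * ((k : ℝ) + 1)))) := ⟨_, rfl⟩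
  have hε1 : ε ≤ 1 := by rw [hε]; exact min_le_left _ _
  have hε0 : 0 < ε := by
    rw [hε]
    exact lt_min one_pos (by positivity)
  have hε2 : ε ≤ ε₀ / (8 * (1 + (k : ℝ) * ((k : ℝ) + 1))) := by rw [hε]; exact min_le_right _ _
  obtain ⟨L, hL⟩ : ∃ L : ℕ, L = ⌈Γ / ε⌉₊ := ⟨_, rfl⟩
  have hL1 : Γ ≤ (L : ℝ) * ε := by
    have h1 := Nat.le_ceil (Γ / ε)
    rw [← hL, div_le_iff₀ hε0] at h1
    exact h1
  have hL2 : (L : ℝ) * ε ≤ Γ + 1 := by
    have h1 := Nat.ceil_lt_add_one (show 0 ≤ Γ / ε by positivity)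
    rw [← hL] at h1
    have h2 := mul_lt_mul_of_pos_right h1 hε0
    have h3 : (Γ / ε + 1) * ε = Γ + ε := by field_simp
    linarith
  have hΓ₁ : (0 : ℝ) < Γ + 1 := by linarith
  obtain ⟨l, hl⟩ : ∃ l : ℝ, l = min (1 / (Γ + 1)) (ε₀ / (8 * ((Γ + 1) ^ 2 * C1))) := ⟨_, rfl⟩
  have hl0 : 0 < l := by
    rw [hl]
    exact lt_min (by positivity) (by positivity)
  have hl1 : l ≤ 1 / (Γ + 1) := by rw [hl]; exact min_le_left _ _
  have hl2 : l ≤ ε₀ / (8 * ((Γ + 1) ^ 2 * C1)) := by rw [hl]; exact min_le_right _ _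
  have hlog : 0 ≤ Real.log ((k : ℝ) * (L : ℝ) + 1) := by
    apply Real.log_nonneg
    have : (0 : ℝ) ≤ (k : ℝ) * (L : ℝ) := by positivity
    linarith
  obtain ⟨B, hB⟩ : ∃ B : ℝ, B = (Γ + 1) * C1 + (Γ + 1) * ((k : ℝ) ^ 2 * 2 ^ k) +
    (k : ℝ) ^ 2 * 2 ^ k * Real.log ((k : ℝ) * (L : ℝ) + 1) / l +
    (Γ + 1) * ((k : ℝ) ^ 2 * 2 ^ (k + 1)) + (Γ + 1) * ((k : ℝ) * 2 ^ (k + 3)) := ⟨_, rfl⟩
  have b1 : 0 < (Γ + 1) * C1 := by positivity
  have b2 : 0 ≤ (Γ + 1) * ((k : ℝ) ^ 2 * 2 ^ k) := by positivity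
  have b3 : 0 ≤ (k : ℝ) ^ 2 * 2 ^ k * Real.log ((k : ℝ) * (L : ℝ) + 1) / l := by positivity
  have b4 : 0 ≤ (Γ + 1) * ((k : ℝ) ^ 2 * 2 ^ (k + 1)) := by positivity
  have b5 : 0 ≤ (Γ + 1) * ((k : ℝ) * 2 ^ (k + 3)) := by positivity
  have hB0 : 0 < B := by rw [hB]; linarith
  obtain ⟨ω, hω⟩ : ∃ ω : ℝ, ω = min 1 (ε₀ / (8 * B)) := ⟨_, rfl⟩
  have hω1 : ω ≤ 1 := by rw [hω]; exact min_le_left _ _
  have hω0 : 0 < ω := by
    rw [hω]
    exact lt_min one_pos (by positivity)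
  have hω2 : ω ≤ ε₀ / (8 * B) := by rw [hω]; exact min_le_right _ _
  have hωB : B * ω ≤ ε₀ / 8 := by
    have h1 := mul_le_mul_of_nonneg_left hω2 hB0.le
    have h2 : B * (ε₀ / (8 * B)) = ε₀ / 8 := by field_simp
    linarith
  have key : ∀ c : ℝ, c ≤ B → c * ω ≤ ε₀ / 8 := fun c hc =>
    (mul_le_mul_of_nonneg_right hc hω0.le).trans hωB
  refine ⟨ε, L, l, ω, Γ + 1, hε0, hΓ₁, hl0, hω0, hω1, hL1, hL2, ?_, ?_, ?_, ?_, ?_, ?_, ?_, ?_⟩
  · have h1 : l * ((L : ℝ) * ε) ≤ 1 / (Γ + 1) * (Γ + 1) :=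
      mul_le_mul hl1 hL2 (by positivity) (by positivity)
    have h2 : 1 / (Γ + 1) * (Γ + 1) = 1 := by field_simp
    linarith
  · have h1 := mul_le_mul_of_nonneg_left hε2 hkk.le
    have h2 : (1 + (k : ℝ) * ((k : ℝ) + 1)) * (ε₀ / (8 * (1 + (k : ℝ) * ((k : ℝ) + 1)))) =
        ε₀ / 8 := by field_simp
    linarith
  · have h1 := key ((Γ + 1) * C1) (by rw [hB]; linarith)
    linarith
  · have h1 := key ((Γ + 1) * ((k : ℝ) ^ 2 * 2 ^ k)) (by rw [hB]; linarith)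
    linarith
  · have h1 := mul_le_mul_of_nonneg_right hl2 (show (0 : ℝ) ≤ (Γ + 1) ^ 2 * C1 by positivity)
    have h2 : ε₀ / (8 * ((Γ + 1) ^ 2 * C1)) * ((Γ + 1) ^ 2 * C1) = ε₀ / 8 := by field_simp
    linarith
  · have h1 := key _ (show (k : ℝ) ^ 2 * 2 ^ k * Real.log ((k : ℝ) * (L : ℝ) + 1) / l ≤ B by
      rw [hB]; linarith)
    have h2 : (k : ℝ) ^ 2 * 2 ^ k * ω * Real.log ((k : ℝ) * (L : ℝ) + 1) / l =
        (k : ℝ) ^ 2 * 2 ^ k * Real.log ((k : ℝ) * (L : ℝ) + 1) / l * ω := by ring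
    linarith
  · have h1 := key ((Γ + 1) * ((k : ℝ) ^ 2 * 2 ^ (k + 1))) (by rw [hB]; linarith)
    linarith
  · have h1 := key ((Γ + 1) * ((k : ℝ) * 2 ^ (k + 3))) (by rw [hB]; linarith)
    linarith

private theorem mean_nonneg {E V : Type} [Fintype E] [DecidableEq E] [DecidableEq V]
    {vs : E → Finset V} {p : ℝ} (hp : 0 ≤ p) (hp1 : p ≤ 1) {z : Finset E → E → ℝ}
    (hz : ∀ R, IsFM vs (z R)) (e : E) : 0 ≤ mean p z e :=
  Ex_nonneg (fun _ => ⟨hp, hp1⟩) fun R => (hz R).nonneg e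

private theorem clip_or {V : Type} [Fintype V] [DecidableEq V] {y : V → ℝ} {c : ℝ}
    (hy : ∀ v, 0 ≤ y v) (hc : 0 ≤ c) (σ : Finset V) :
    c ≤ ysum (fun v => min (y v) c) σ ∨ ysum (fun v => min (y v) c) σ = ysum y σ := by
  by_cases h : ∃ v ∈ σ, c < y v
  · left
    obtain ⟨v, hv, hcv⟩ := h
    unfold ysum
    have h1 := Finset.single_le_sum (f := fun v => min (y v) c)
      (fun v _ => le_min (hy v) hc) hv
    have h2 : min (y v) c = c := min_eq_right hcv.le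
    simp only [h2] at h1
    exact h1
  · right
    push Not at h
    unfold ysum
    exact Finset.sum_congr rfl fun v hv => min_eq_left (h v hv)

theorem core_dual (k : ℕ) (hk : 1 ≤ k) (Γ ε₀ C1 : ℝ) (hΓ : 1 ≤ Γ) (hε₀ : 0 < ε₀)
    (hC1 : 0 < C1) :
    ∃ K : ℝ, 0 < K ∧ ∀ (E V : Type) [Fintype E] [DecidableEq E] [Fintype V] [DecidableEq V]
      (vs : E → Finset V) (w : E → ℝ) (p : ℝ) (z : Finset E → E → ℝ) (C : Finset E)
      (y : Finset E → V → ℝ),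
      (∀ e, (vs e).Nonempty) → (∀ e, (vs e).card ≤ k) → (∀ e, 0 ≤ w e ∧ w e ≤ Γ) →
      0 ≤ p → p ≤ 1 → (∀ R, IsFM vs (z R)) → (∀ R e, e ∉ R → z R e = 0) →
      (Fintype.card V : ℝ) ≤ C1 * ∑ e, mean p z e → (∀ R v, 0 ≤ y R v) →
      (∀ R, ∀ e ∈ R, e ∈ C → w e ≤ ysum (y R) (vs e)) →
      ∑ e, w e * mean p z e - ε₀ * ∑ e, mean p z e ≤
        Ex (fun _ => p) (fun R => ∑ v, y R v +
          K * ∑ e ∈ Cᶜ, mean p z e * max (w e - ysum (y R) (vs e)) 0) := by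
  classical
  obtain ⟨ε, L, l, ω, Γ₁, hε, hΓ₁, hl, hω, hω1, hL1, hL2, hlL, pa, pb, pc, pd, pe, pf, pg⟩ :=
    exists_params k Γ ε₀ C1 hΓ hε₀ hC1
  obtain ⟨δ, hδ⟩ : ∃ δ : ℕ → ℝ, δ = fun a => ω ^ ((6 * k + 1) ^ a) := ⟨_, rfl⟩
  have hδ0 : ∀ a, 0 < δ a := fun a => by rw [hδ]; exact pow_pos hω _
  have hδ1 : ∀ a, δ a ≤ 1 := fun a => by rw [hδ]; exact pow_le_one₀ hω.le hω1
  have hδa : Antitone δ := by
    intro a b hab
    rw [hδ]
    exact pow_le_pow_of_le_one hω.le hω1 (Nat.pow_le_pow_right (by omega) hab)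
  have hδs : ∀ a, δ (a + 1) = δ a ^ (6 * k + 1) := fun a => by
    rw [hδ]
    simp only
    rw [← pow_mul, pow_succ]
  have hδω : ∀ a, δ a ≤ ω := fun a => by
    rw [hδ]
    have h1 : 1 ≤ (6 * k + 1) ^ a := Nat.one_le_pow _ _ (by omega)
    calc ω ^ ((6 * k + 1) ^ a) ≤ ω ^ 1 := pow_le_pow_of_le_one hω.le hω1 h1
      _ = ω := pow_one _
  obtain ⟨ηη, hηη⟩ : ∃ ηη : ℕ → ℕ → ℝ, ηη = fun j a => δ a ^ (2 * (k - j)) := ⟨_, rfl⟩
  obtain ⟨ρ, hρ⟩ : ∃ ρ : ℕ → ℝ, ρ = fun a => δ a ^ 2 := ⟨_, rfl⟩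
  obtain ⟨θθ, hθθ⟩ : ∃ θθ : ℕ → ℕ → ℝ, θθ = fun j a => δ (a + 1) / (ηη j a * ρ a ^ k) :=
    ⟨_, rfl⟩
  have hηη0 : ∀ j a, 0 < ηη j a := fun j a => by rw [hηη]; exact pow_pos (hδ0 a) _
  have hρ0 : ∀ a, 0 < ρ a := fun a => by rw [hρ]; exact pow_pos (hδ0 a) _
  refine ⟨2 * Γ₁ / (δ k ^ (2 * k) * ε), by have := hδ0 k; positivity, ?_⟩
  intro E V _ _ _ _ vs w p z C y hne hvs hw hp hp1 hz hz0 hV hy hcov
  have hrp : IsRate (fun _ : E => p) := fun _ => ⟨hp, hp1⟩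
  have hx0 : ∀ e, 0 ≤ mean p z e := mean_nonneg hp hp1 hz
  obtain ⟨μ, hμ⟩ : ∃ μ : ℝ, μ = ∑ e, mean p z e := ⟨_, rfl⟩
  have hμ0 : 0 ≤ μ := by rw [hμ]; exact Finset.sum_nonneg fun e _ => hx0 e
  have hsub : ∀ S : Finset E, ∑ e ∈ S, mean p z e ≤ μ := fun S => by
    rw [hμ]
    exact Finset.sum_le_sum_of_subset_of_nonneg (Finset.subset_univ _) fun e _ _ => hx0 e
  have hLε0 : 0 ≤ (L : ℝ) * ε := by positivity
  obtain ⟨sy, hx, hws, hN, hrate, hη, hg, hne0, hsum, htgt, hmass⟩ :=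
    exists_sys (k := k) vs hne hvs (mean p z) w hx0 Cᶜ δ ρ ηη θθ hδ0 hδa
      (fun a => ⟨hρ0 a, by rw [hρ]; exact pow_le_one₀ (hδ0 a).le (hδ1 a)⟩)
      (fun a b hab => by
        rw [hρ]
        exact pow_le_pow_left₀ (hδ0 b).le (hδa hab) 2)
      hηη0 (fun j a => by
        rw [hθθ]
        have h1 := hηη0 j a
        have h2 := hρ0 a
        have h3 := hδ0 (a + 1)
        positivity)
      (fun j _ a _ _ => by
        rw [hθθ]
        have h1 := (hηη0 j a).ne'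
        have h2 := (pow_pos (hρ0 a) k).ne'
        apply le_of_eq
        simp only
        field_simp)
  obtain ⟨T, hTdef⟩ : ∃ T : Finset (Finset V), T = heavySets vs (mean p z) Cᶜ δ := ⟨_, rfl⟩
  rw [← hTdef] at hg
  have hT : ∀ σ ∈ T, 1 ≤ σ.card ∧ σ.card ≤ k := fun σ hσ => by
    rw [hTdef] at hσ
    exact card_of_heavy hvs hδ0 hσ
  -- the clipped solution
  have hclip : ∀ R e, max (w e - ysum (fun v => min (y R v) ((L : ℝ) * ε)) (vs e)) 0 ≤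
      max (w e - ysum (y R) (vs e)) 0 := by
    intro R e
    rcases clip_or (hy R) hLε0 (vs e) with h1 | h1
    · have h2 := (hw e).2
      apply max_le
      · refine le_trans ?_ (le_max_right _ _)
        linarith
      · exact le_max_right _ _
    · rw [h1]
  have hcov' : ∀ R, ∀ e ∈ R, e ∈ C →
      w e ≤ ysum (fun v => min (y R v) ((L : ℝ) * ε)) (vs e) := by
    intro R e he heC
    rcases clip_or (hy R) hLε0 (vs e) with h1 | h1
    · exact ((hw e).2.trans hL1).trans h1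
    · rw [h1]
      exact hcov R e he heC
  obtain ⟨H, hH⟩ : ∃ H : ℕ → Finset V → ℝ,
    H = fun j σ => if j + 1 < k then 2 / ηη (j + 1) σ.card else 0 := ⟨_, rfl⟩
  have hH0 : ∀ j σ, 0 ≤ H j σ := by
    intro j σ
    rw [hH]
    simp only
    split_ifs
    · have := hηη0 (j + 1) σ.card
      positivity
    · exact le_rfl
  have hrem : ∀ e ∈ sy.N, ∀ i, k ≤ i → sy.rem i e = ∅ := by
    intro e he i hi
    induction i, hi using Nat.le_induction with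
    | base => exact hg.rem_last e he
    | succ i _ ih => rw [hg.rem_succ e he i, ih, Finset.erase_empty]
  have hHH : ∀ j, ∀ e ∈ sy.N, (sy.rem (j + 1) e).Nonempty →
      2 / sy.η (j + 1) (sy.tgt (j + 1) e) ≤ H j (sy.tgt j e) := by
    intro j e he hnon
    rw [hH, hη]
    simp only
    split_ifs with hjk
    · have h1 := htgt e he j hnon
      have h2 := hηη0 (j + 1) (sy.tgt j e).card
      apply div_le_div_of_nonneg_left (by norm_num) h2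
      rw [hηη]
      exact pow_le_pow_left₀ (hδ0 _).le (hδa h1) _
    · exfalso
      rw [hrem e he (j + 1) (by omega)] at hnon
      exact Finset.not_nonempty_empty hnon
  have core := core_ineq (k := k) vs hne w ε hε L
    (fun e => ⟨(hw e).1, (hw e).2.trans hL1⟩) p hp hp1 z hz hz0 C
    (fun R v => min (y R v) ((L : ℝ) * ε)) (fun R v => ⟨le_min (hy R v) hLε0, min_le_right _ _⟩)
    hcov' sy (fun j σ => θθ j σ.card) T hg hx hws hN hne0 (fun e he u => hsum e he u) hT H hH0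
    hHH l hl hlL
  rw [← hμ] at core hV ⊢
  -- the sum over the heavy sets
  have hheavy : ∑ σ ∈ T, δ σ.card ^ 2 ≤ 2 ^ k * μ * (k * ω) := by
    have h1 := sum_heavy_le hvs hx0 (N := Cᶜ) hδ0 (fun a => δ a ^ 2)
      (fun a => by have := hδ0 a; positivity)
    rw [← hTdef] at h1
    refine h1.trans ?_
    have h2 : ∑ a ∈ Finset.Icc 1 k, δ a ^ 2 / δ a ≤ k * ω := by
      have h3 : ∀ a ∈ Finset.Icc 1 k, δ a ^ 2 / δ a ≤ ω := by
        intro a _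
        have h4 : δ a ^ 2 / δ a = δ a := by
          have := (hδ0 a).ne'
          field_simp
        rw [h4]
        exact hδω a
      have h4 := Finset.sum_le_card_nsmul _ _ _ h3
      rw [Nat.card_Icc, nsmul_eq_mul] at h4
      simpa using h4
    have h3 : 0 ≤ ∑ a ∈ Finset.Icc 1 k, δ a ^ 2 / δ a :=
      Finset.sum_nonneg fun a _ => by have := hδ0 a; positivity
    apply mul_le_mul _ h2 h3 (by positivity)
    exact mul_le_mul_of_nonneg_left (hsub _) (by positivity)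
  -- a)
  have ta : (1 + (k : ℝ) * ((k : ℝ) + 1)) * ε * μ ≤ ε₀ / 8 * μ :=
    mul_le_mul_of_nonneg_right pa hμ0
  -- b)
  have tb : (L : ℝ) * ε * ∑ e ∈ (C ∪ sy.N)ᶜ, mean p z e ≤ ε₀ / 8 * μ := by
    have h1 : (C ∪ sy.N)ᶜ = Cᶜ \ sy.N := by
      ext e
      simp only [Finset.mem_compl, Finset.mem_union, Finset.mem_sdiff]
      tauto
    rw [h1]
    have h2 : ∑ e ∈ Cᶜ \ sy.N, mean p z e ≤ ω * (C1 * μ) :=
      hmass.trans (mul_le_mul (hδω 1) hV (Nat.cast_nonneg _) hω.le)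
    have h3 : (L : ℝ) * ε * ∑ e ∈ Cᶜ \ sy.N, mean p z e ≤ Γ₁ * (ω * (C1 * μ)) :=
      mul_le_mul hL2 h2 (Finset.sum_nonneg fun e _ => hx0 e) hΓ₁.le
    have h4 := mul_le_mul_of_nonneg_right pb hμ0
    linarith
  -- c)
  have tc : (L : ℝ) * ε * ∑ j ∈ Finset.range k, ∑ σ ∈ T, sy.η j σ / 2 ≤ ε₀ / 8 * μ := by
    have h1 : ∀ j ∈ Finset.range k, ∑ σ ∈ T, sy.η j σ / 2 ≤ 2 ^ k * μ * (k * ω) := by
      intro j hj
      rw [Finset.mem_range] at hj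
      refine le_trans (Finset.sum_le_sum fun σ _ => ?_) hheavy
      rw [hη, hηη]
      simp only
      have h2 : δ σ.card ^ (2 * (k - j)) ≤ δ σ.card ^ 2 :=
        pow_le_pow_of_le_one (hδ0 _).le (hδ1 _) (by omega)
      have h3 : 0 < δ σ.card ^ 2 := pow_pos (hδ0 _) 2
      have h4 : 0 < δ σ.card ^ (2 * (k - j)) := pow_pos (hδ0 _) _
      linarith
    have h2 := Finset.sum_le_card_nsmul _ _ _ h1
    rw [Finset.card_range, nsmul_eq_mul] at h2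
    have h3 : 0 ≤ ∑ j ∈ Finset.range k, ∑ σ ∈ T, sy.η j σ / 2 :=
      Finset.sum_nonneg fun j _ => Finset.sum_nonneg fun σ _ => by
        rw [hη]
        have := hηη0 j σ.card
        positivity
    have h4 := mul_le_mul hL2 h2 h3 hΓ₁.le
    have h5 := mul_le_mul_of_nonneg_right pc hμ0
    have h6 : Γ₁ * ((k : ℝ) * (2 ^ k * μ * (k * ω))) = Γ₁ * ((k : ℝ) ^ 2 * 2 ^ k * ω) * μ := by
      ring
    linarith
  -- d)
  have td : l ^ 2 * ((L : ℝ) * ε) ^ 2 * (Fintype.card V : ℝ) / l ≤ ε₀ / 8 * μ := by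
    have h1 : l ^ 2 * ((L : ℝ) * ε) ^ 2 * (Fintype.card V : ℝ) / l =
        l * ((L : ℝ) * ε) ^ 2 * (Fintype.card V : ℝ) := by
      field_simp
    rw [h1]
    have h2 : ((L : ℝ) * ε) ^ 2 ≤ Γ₁ ^ 2 := pow_le_pow_left₀ hLε0 hL2 2
    have h3 : l * ((L : ℝ) * ε) ^ 2 * (Fintype.card V : ℝ) ≤ l * Γ₁ ^ 2 * (C1 * μ) :=
      mul_le_mul (mul_le_mul_of_nonneg_left h2 hl.le) hV (Nat.cast_nonneg _) (by positivity)
    have h4 := mul_le_mul_of_nonneg_right pd hμ0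
    linarith
  -- e)
  have hlog : 0 ≤ Real.log ((k : ℝ) * (L : ℝ) + 1) := by
    apply Real.log_nonneg
    have : (0 : ℝ) ≤ (k : ℝ) * (L : ℝ) := by positivity
    linarith
  have te : (k : ℝ) * (∑ σ, sy.rate σ) * Real.log ((k : ℝ) * (L : ℝ) + 1) / l ≤ ε₀ / 8 * μ := by
    have h1 : ∑ σ, sy.rate σ = ∑ σ ∈ T, δ σ.card ^ 2 := by
      rw [← Finset.sum_subset (Finset.subset_univ T)]
      · refine Finset.sum_congr rfl fun σ hσ => ?_
        rw [hTdef, mem_heavySets] at hσ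
        rw [hrate]
        simp only
        rw [if_pos hσ, hρ]
      · intro σ _ hσ
        rw [hTdef, mem_heavySets] at hσ
        rw [hrate]
        simp only
        rw [if_neg hσ]
    rw [h1]
    have h2 : (k : ℝ) * (∑ σ ∈ T, δ σ.card ^ 2) * Real.log ((k : ℝ) * (L : ℝ) + 1) / l ≤
        (k : ℝ) * (2 ^ k * μ * (k * ω)) * Real.log ((k : ℝ) * (L : ℝ) + 1) / l := by
      apply div_le_div_of_nonneg_right _ hl.le
      apply mul_le_mul_of_nonneg_right _ hlog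
      exact mul_le_mul_of_nonneg_left hheavy (Nat.cast_nonneg _)
    have h3 := mul_le_mul_of_nonneg_right pe hμ0
    have h4 : (k : ℝ) * (2 ^ k * μ * (k * ω)) * Real.log ((k : ℝ) * (L : ℝ) + 1) / l =
        (k : ℝ) ^ 2 * 2 ^ k * ω * Real.log ((k : ℝ) * (L : ℝ) + 1) / l * μ := by ring
    linarith
  -- f), g)
  have tfg : (L : ℝ) * ε * ∑ j ∈ Finset.range k, ∑ σ ∈ T, H j σ * (sy.η j σ +
      2 ^ (k + 2) * θθ j σ.card * ∑ e ∈ sy.N,
        (if (sy.rem j e).Nonempty ∧ sy.tgt j e = σ then mean p z e else 0)) ≤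
      ε₀ / 8 * μ + ε₀ / 8 * μ := by
    have hm0 : ∀ j σ, 0 ≤ ∑ e ∈ sy.N,
        (if (sy.rem j e).Nonempty ∧ sy.tgt j e = σ then mean p z e else 0) := by
      intro j σ
      apply Finset.sum_nonneg
      intro e _
      split_ifs
      · exact hx0 e
      · exact le_rfl
    have hmsum : ∀ j, ∑ σ ∈ T, ∑ e ∈ sy.N,
        (if (sy.rem j e).Nonempty ∧ sy.tgt j e = σ then mean p z e else 0) ≤ μ := by
      intro j
      rw [Finset.sum_comm]
      refine le_trans (Finset.sum_le_sum fun e _ => ?_) (hsub sy.N)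
      have h1 : ∀ σ ∈ T, (if (sy.rem j e).Nonempty ∧ sy.tgt j e = σ then mean p z e else 0) ≤
          if sy.tgt j e = σ then mean p z e else 0 := by
        intro σ _
        by_cases h2 : sy.tgt j e = σ
        · simp only [h2, and_true, if_true]
          split_ifs
          · exact le_rfl
          · exact hx0 e
        · simp [h2]
      refine (Finset.sum_le_sum h1).trans ?_
      rw [Finset.sum_ite_eq]
      split_ifs
      · exact le_rfl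
      · exact hx0 e
    have hterm : ∀ j ∈ Finset.range k, ∀ σ ∈ T, H j σ * (sy.η j σ +
        2 ^ (k + 2) * θθ j σ.card * ∑ e ∈ sy.N,
          (if (sy.rem j e).Nonempty ∧ sy.tgt j e = σ then mean p z e else 0)) ≤
        2 * δ σ.card ^ 2 + 2 ^ (k + 3) * ω * ∑ e ∈ sy.N,
          (if (sy.rem j e).Nonempty ∧ sy.tgt j e = σ then mean p z e else 0) := by
      intro j hj σ hσ
      rw [Finset.mem_range] at hj
      have h1 := hm0 j σ
      obtain ⟨m, hm⟩ : ∃ m : ℝ, m = ∑ e ∈ sy.N,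
        (if (sy.rem j e).Nonempty ∧ sy.tgt j e = σ then mean p z e else 0) := ⟨_, rfl⟩
      rw [← hm] at h1 ⊢
      obtain ⟨d, hd⟩ : ∃ d : ℝ, d = δ σ.card := ⟨_, rfl⟩
      have hd0 : 0 < d := by rw [hd]; exact hδ0 _
      have hd1 : d ≤ 1 := by rw [hd]; exact hδ1 _
      have hdω : d ≤ ω := by rw [hd]; exact hδω _
      have hds : δ (σ.card + 1) = d ^ (6 * k + 1) := by rw [hd]; exact hδs _
      rw [hH, hη]
      simp only
      split_ifs with hjk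
      · rw [hθθ, hηη, hρ]
        simp only
        rw [hds, ← hd]
        have e1 : 2 / d ^ (2 * (k - (j + 1))) * d ^ (2 * (k - j)) = 2 * d ^ 2 := by
          have h3 : 2 * (k - j) = 2 * (k - (j + 1)) + 2 := by omega
          rw [h3, pow_add]
          have h4 := (pow_pos hd0 (2 * (k - (j + 1)))).ne'
          field_simp
        have e2 : 2 / d ^ (2 * (k - (j + 1))) * (2 ^ (k + 2) *
            (d ^ (6 * k + 1) / (d ^ (2 * (k - j)) * (d ^ 2) ^ k)) * m) =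
            2 ^ (k + 3) * d ^ (4 * j + 3) * m := by
          have h3 : 6 * k + 1 = (4 * j + 3) + (2 * (k - (j + 1)) + (2 * (k - j) + 2 * k)) := by
            omega
          rw [h3, pow_add d (4 * j + 3), pow_add d (2 * (k - (j + 1))), pow_add d (2 * (k - j)),
            pow_mul d 2 k]
          have h4 := (pow_pos hd0 (2 * (k - (j + 1)))).ne'
          have h5 := (pow_pos hd0 (2 * (k - j))).ne'
          have h6 := (pow_pos (pow_pos hd0 2) k).ne'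
          rw [show (2 : ℝ) ^ (k + 3) = 2 ^ (k + 2) * 2 by rw [← pow_succ]]
          field_simp
        rw [mul_add, e1, e2]
        have h7 : d ^ (4 * j + 3) ≤ ω := by
          calc d ^ (4 * j + 3) ≤ d ^ 1 := pow_le_pow_of_le_one hd0.le hd1 (by omega)
            _ = d := pow_one d
            _ ≤ ω := hdω
        have h8 : (2 : ℝ) ^ (k + 3) * d ^ (4 * j + 3) * m ≤ 2 ^ (k + 3) * ω * m :=
          mul_le_mul_of_nonneg_right (mul_le_mul_of_nonneg_left h7 (by positivity)) h1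
        linarith
      · rw [zero_mul]
        rw [← hd]
        positivity
    have hj : ∀ j ∈ Finset.range k, ∑ σ ∈ T, H j σ * (sy.η j σ +
        2 ^ (k + 2) * θθ j σ.card * ∑ e ∈ sy.N,
          (if (sy.rem j e).Nonempty ∧ sy.tgt j e = σ then mean p z e else 0)) ≤
        2 * (2 ^ k * μ * (k * ω)) + 2 ^ (k + 3) * ω * μ := by
      intro j hj
      refine (Finset.sum_le_sum (hterm j hj)).trans ?_
      rw [Finset.sum_add_distrib, ← Finset.mul_sum, ← Finset.mul_sum]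
      have h1 := hmsum j
      have h2 : (0 : ℝ) ≤ 2 ^ (k + 3) * ω := by positivity
      have h3 := mul_le_mul_of_nonneg_left h1 h2
      linarith
    have h2 := Finset.sum_le_card_nsmul _ _ _ hj
    rw [Finset.card_range, nsmul_eq_mul] at h2
    have h3 : (L : ℝ) * ε * ∑ j ∈ Finset.range k, ∑ σ ∈ T, H j σ * (sy.η j σ +
        2 ^ (k + 2) * θθ j σ.card * ∑ e ∈ sy.N,
          (if (sy.rem j e).Nonempty ∧ sy.tgt j e = σ then mean p z e else 0)) ≤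
        (L : ℝ) * ε * ((k : ℝ) * (2 * (2 ^ k * μ * (k * ω)) + 2 ^ (k + 3) * ω * μ)) :=
      mul_le_mul_of_nonneg_left h2 hLε0
    have h4 : (L : ℝ) * ε * ((k : ℝ) * (2 * (2 ^ k * μ * (k * ω)) + 2 ^ (k + 3) * ω * μ)) ≤
        Γ₁ * ((k : ℝ) * (2 * (2 ^ k * μ * (k * ω)) + 2 ^ (k + 3) * ω * μ)) :=
      mul_le_mul_of_nonneg_right hL2 (by positivity)
    have h5 := mul_le_mul_of_nonneg_right pf hμ0
    have h6 := mul_le_mul_of_nonneg_right pg hμ0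
    have h7 : Γ₁ * ((k : ℝ) * (2 * (2 ^ k * μ * (k * ω)) + 2 ^ (k + 3) * ω * μ)) =
        Γ₁ * ((k : ℝ) ^ 2 * 2 ^ (k + 1) * ω) * μ + Γ₁ * ((k : ℝ) * 2 ^ (k + 3) * ω) * μ := by
      rw [pow_succ 2 k]
      ring
    linarith
  -- h)
  have th : (L : ℝ) * ε * Ex (fun _ => p) (fun R => ∑ e ∈ sy.N,
      (if ysum (fun v => min (y R v) ((L : ℝ) * ε)) (vs e) < w e - ε then
        2 / sy.η 0 (sy.tgt 0 e) * mean p z e else 0)) ≤
      2 * Γ₁ / (δ k ^ (2 * k) * ε) *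
        Ex (fun _ => p) (fun R => ∑ e ∈ Cᶜ, mean p z e * max (w e - ysum (y R) (vs e)) 0) := by
    have hdk : 0 < δ k ^ (2 * k) := pow_pos (hδ0 k) _
    have h1 : Ex (fun _ => p) (fun R => ∑ e ∈ sy.N,
        (if ysum (fun v => min (y R v) ((L : ℝ) * ε)) (vs e) < w e - ε then
          2 / sy.η 0 (sy.tgt 0 e) * mean p z e else 0)) ≤
        Ex (fun _ => p) (fun R => 2 / (δ k ^ (2 * k) * ε) *
          ∑ e ∈ Cᶜ, mean p z e * max (w e - ysum (y R) (vs e)) 0) := by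
      apply Ex_mono hrp
      intro R
      have h2 : ∀ e ∈ sy.N,
          (if ysum (fun v => min (y R v) ((L : ℝ) * ε)) (vs e) < w e - ε then
            2 / sy.η 0 (sy.tgt 0 e) * mean p z e else 0) ≤
          2 / (δ k ^ (2 * k) * ε) * (mean p z e * max (w e - ysum (y R) (vs e)) 0) := by
        intro e he
        have hx := hx0 e
        have hmax : 0 ≤ max (w e - ysum (y R) (vs e)) 0 := le_max_right _ _
        split_ifs with hlt
        · have h3 : ε ≤ max (w e - ysum (y R) (vs e)) 0 := by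
            refine le_trans ?_ (hclip R e)
            refine le_trans ?_ (le_max_left _ _)
            linarith
          have h4 : (sy.tgt 0 e).card ≤ k :=
            (hT _ (hg.mem_T e he _ (hg.tgt_mem e he 0 (hne0 e he)))).2
          have h5 : δ k ^ (2 * k) ≤ sy.η 0 (sy.tgt 0 e) := by
            rw [hη, hηη]
            simp only [Nat.sub_zero]
            exact pow_le_pow_left₀ (hδ0 k).le (hδa h4) _
          have h6 : 2 / sy.η 0 (sy.tgt 0 e) ≤ 2 / δ k ^ (2 * k) :=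
            div_le_div_of_nonneg_left (by norm_num) hdk h5
          have h7 : 2 / sy.η 0 (sy.tgt 0 e) * mean p z e ≤ 2 / δ k ^ (2 * k) * mean p z e :=
            mul_le_mul_of_nonneg_right h6 hx
          have h8 : 2 / (δ k ^ (2 * k) * ε) * (mean p z e * max (w e - ysum (y R) (vs e)) 0) =
              2 / δ k ^ (2 * k) * mean p z e * (max (w e - ysum (y R) (vs e)) 0 / ε) := by
            field_simp
          have h9 : 1 ≤ max (w e - ysum (y R) (vs e)) 0 / ε := by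
            rw [le_div_iff₀ hε]
            linarith
          have h10 : 0 ≤ 2 / δ k ^ (2 * k) * mean p z e := by positivity
          have h11 := mul_le_mul_of_nonneg_left h9 h10
          rw [h8]
          linarith
        · positivity
      refine (Finset.sum_le_sum h2).trans ?_
      rw [← Finset.mul_sum]
      apply mul_le_mul_of_nonneg_left _ (by positivity)
      apply Finset.sum_le_sum_of_subset_of_nonneg hN
      intro e _ _
      exact mul_nonneg (hx0 e) (le_max_right _ _)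
    rw [Ex_mul_left] at h1
    obtain ⟨Z, hZ⟩ : ∃ Z : ℝ, Z = Ex (fun _ => p)
      (fun R => ∑ e ∈ Cᶜ, mean p z e * max (w e - ysum (y R) (vs e)) 0) := ⟨_, rfl⟩
    have hZ0 : 0 ≤ Z := by
      rw [hZ]
      apply Ex_nonneg hrp
      intro R
      exact Finset.sum_nonneg fun e _ => mul_nonneg (hx0 e) (le_max_right _ _)
    rw [← hZ] at h1 ⊢
    have h3 := mul_le_mul_of_nonneg_left h1 hLε0
    have h4 : (L : ℝ) * ε * (2 / (δ k ^ (2 * k) * ε) * Z) ≤ Γ₁ * (2 / (δ k ^ (2 * k) * ε) * Z) :=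
      mul_le_mul_of_nonneg_right hL2 (by positivity)
    have h5 : Γ₁ * (2 / (δ k ^ (2 * k) * ε) * Z) = 2 * Γ₁ / (δ k ^ (2 * k) * ε) * Z := by ring
    linarith
  have ty : Ex (fun _ => p) (fun R => ∑ v, min (y R v) ((L : ℝ) * ε)) ≤
      Ex (fun _ => p) (fun R => ∑ v, y R v) := by
    apply Ex_mono hrp
    intro R
    exact Finset.sum_le_sum fun v _ => min_le_left _ _
  rw [Ex_add, Ex_mul_left]
  rw [add_div, mul_add, mul_add] at core
  have hfin : ε₀ / 8 * μ * 7 ≤ ε₀ * μ := by nlinarith [mul_nonneg hε₀.le hμ0]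
  linarith

end Pool.Agent.Helper68.SP
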