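import Pool.Agent.Helper68.SP.Defs

/-!
# SP-06: the expectation of a choice from a small set of random variables

PROOF.  Let `b = v + sF.card * log (L + 1)`.  For real `a`: `a ≤ exp (a - b) - 1 + b` (`Real.add_one_le_exp`).  Apply it to
`a = l * h R (d R)` and take expectations: it is enough that `Ex r (fun R => exp (l * h R (d R))) ≤ exp b`.  Let `P` be the finite set
of the functions `S → ℕ` that vanish outside `sF` and have values `≤ L` on `sF` (for instance the image of
`Fintype.piFinset (fun σ => if σ ∈ sF then range (L+1) else {0})`); `P.card = (L+1)^sF.card = exp (sF.card * log (L+1))`.  For each `R` the function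
`d' σ = if σ ∈ sF then d R σ else 0` is in `P` and `h R (d R) = h R d'`, so `exp (l * h R (d R)) ≤ ∑ d' ∈ P, exp (l * h R d')`; take
expectations, use `hmgf`.
-/

set_option autoImplicit false

namespace Pool.Agent.Helper68.SP

open Finset

theorem max_lemma {E S : Type} [Fintype E] [DecidableEq E] [Fintype S] [DecidableEq S]
    (r : E → ℝ) (hr : IsRate r) (sF : Finset S) (L : ℕ) (h : Finset E → (S → ℕ) → ℝ)
    (hdep : ∀ (R : Finset E) (d d' : S → ℕ), (∀ σ ∈ sF, d σ = d' σ) → h R d = h R d')
    (l v : ℝ) (hl : 0 < l)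
    (hmgf : ∀ d : S → ℕ, Ex r (fun R => Real.exp (l * h R d)) ≤ Real.exp v)
    (d : Finset E → S → ℕ) (hd : ∀ R σ, d R σ ≤ L) :
    Ex r (fun R => h R (d R)) ≤ (v + (sF.card : ℝ) * Real.log ((L : ℝ) + 1)) / l := by
  classical
  set b : ℝ := v + (sF.card : ℝ) * Real.log ((L : ℝ) + 1) with hb
  let P : Finset (S → ℕ) :=
    Fintype.piFinset (fun σ => if σ ∈ sF then Finset.range (L + 1) else {0})
  have hcard : P.card = (L + 1) ^ sF.card := by
    rw [Fintype.card_piFinset]
    have h1 : ∀ σ : S, (if σ ∈ sF then Finset.range (L + 1) else {0}).card =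
        if σ ∈ sF then L + 1 else 1 := by
      intro σ
      split_ifs
      · rw [Finset.card_range]
      · rw [Finset.card_singleton]
    rw [Finset.prod_congr rfl fun σ _ => h1 σ, Finset.prod_ite_mem, Finset.univ_inter,
      Finset.prod_const]
  have hL : (0 : ℝ) < (L : ℝ) + 1 := by positivity
  have hexp : (P.card : ℝ) * Real.exp v = Real.exp b := by
    rw [hcard, hb, Real.exp_add, mul_comm (sF.card : ℝ), Real.exp_mul, Real.exp_log hL,
      Real.rpow_natCast]
    push_cast
    ring
  have key : ∀ R, l * h R (d R) ≤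
      Real.exp (-b) * (∑ d' ∈ P, Real.exp (l * h R d')) + (b - 1) := by
    intro R
    have h1 : Real.exp (l * h R (d R)) ≤ ∑ d' ∈ P, Real.exp (l * h R d') := by
      have h2 : (fun σ => if σ ∈ sF then d R σ else 0) ∈ P := by
        rw [Fintype.mem_piFinset]
        intro σ
        split_ifs
        · rw [Finset.mem_range]
          exact Nat.lt_succ_of_le (hd R σ)
        · exact Finset.mem_singleton_self 0
      have h3 : h R (d R) = h R (fun σ => if σ ∈ sF then d R σ else 0) :=
        hdep R _ _ fun σ hσ => by rw [if_pos hσ]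
      rw [h3]
      exact Finset.single_le_sum (f := fun d' => Real.exp (l * h R d'))
        (fun d' _ => (Real.exp_pos _).le) h2
    have h2 := Real.add_one_le_exp (l * h R (d R) - b)
    have h3 : Real.exp (l * h R (d R) - b) = Real.exp (-b) * Real.exp (l * h R (d R)) := by
      rw [← Real.exp_add]
      congr 1
      ring
    have h4 : Real.exp (-b) * Real.exp (l * h R (d R)) ≤
        Real.exp (-b) * ∑ d' ∈ P, Real.exp (l * h R d') :=
      mul_le_mul_of_nonneg_left h1 (Real.exp_pos _).le
    linarith
  have h1 := Ex_mono hr key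
  rw [Ex_mul_left, Ex_add, Ex_mul_left, Ex_const, Ex_sum] at h1
  have h2 : ∑ d' ∈ P, Ex r (fun R => Real.exp (l * h R d')) ≤ P.card * Real.exp v := by
    refine (Finset.sum_le_sum fun d' _ => hmgf d').trans ?_
    rw [Finset.sum_const, nsmul_eq_mul]
  have h3 : Real.exp (-b) * ∑ d' ∈ P, Ex r (fun R => Real.exp (l * h R d')) ≤ 1 := by
    refine (mul_le_mul_of_nonneg_left h2 (Real.exp_pos _).le).trans ?_
    rw [hexp, ← Real.exp_add, neg_add_cancel, Real.exp_zero]
  rw [le_div_iff₀ hl]
  linarith

end Pool.Agent.Helper68.SP
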