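import Pool.Agent.Helper68.SP.Defs

/-!
# SP-05: bounded differences inequality (moment generating function)

PROOF.  For `S : Finset V` let `A S = univ.filter (root e ∉ S)` (the elements that stay fixed) and
`f_S R = Ex r (fun T => f (mix (A S) R T))` (the average over the elements with root in `S`).  Claim by induction on `S`: for all `R`
`Ex r (fun T => exp (l * (f_S R - f (mix (A S) R T)))) ≤ exp (l^2 c^2 S.card)`.   (*)
`S = ∅`: `mix univ R T = R`.  Step `S' = insert v S`, `v ∉ S`: by the resampling lemma `Ex_mix` (with the set `A S`; note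
`mix (A S') R (mix (A S) T₁ T₂) = mix (A S) (mix (A S') R T₁) T₂`) the left side of (*) for `S'` is
`Ex r (fun T₁ => Ex r (fun T₂ => exp (l (f_{S'} R - f_S R₁)) * exp (l (f_S R₁ - f (mix (A S) R₁ T₂)))))`, `R₁ = mix (A S') R T₁`, which is at most
`exp (l^2 c^2 S.card) * Ex r (fun T₁ => exp (l (f_{S'} R - f_S R₁)))`.  Now `Ex r (fun T₁ => f_S R₁) = f_{S'} R` (`Ex_mix` again) and
`|f_{S'} R - f_S R₁| ≤ c`: `R₁` and `R₁'` (two values of `T₁`): `f_S R₁ = Ex_T₂ f (mix (A S) R₁ T₂)` and the sets `mix (A S) R₁ T₂`, `mix (A S) R₁' T₂` differ only at elements with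
root `v`, so the hypothesis gives `|f_S R₁ - f_S R₁'| ≤ c`; average over `T₁'`.  With `t = l (f_{S'} R - f_S R₁) ∈ [-1, 1]`, mean zero,
`exp t ≤ 1 + t + t^2` (`Real.abs_exp_sub_one_sub_id_le`), so the expectation is `≤ 1 + l^2 c^2 ≤ exp (l^2 c^2)`.
Take `S = univ`: `mix ∅ R T = T`, `f_univ R = Ex r f`.
-/

set_option autoImplicit false
set_option linter.unusedVariables false

namespace Pool.Agent.Helper68.SP

open Finset

/-- the elements whose root is outside of `S` -/
private def mcdA {E V : Type} [Fintype E] [DecidableEq V] (root : E → V) (S : Finset V) :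
    Finset E := Finset.univ.filter (fun e => root e ∉ S)

private lemma mem_mcdA {E V : Type} [Fintype E] [DecidableEq V] (root : E → V) (S : Finset V)
    (e : E) : e ∈ mcdA root S ↔ root e ∉ S := by
  simp [mcdA]

private lemma mcd_mix {E V : Type} [Fintype E] [DecidableEq E] [DecidableEq V] (root : E → V)
    (S : Finset V) (v : V) (R T₁ T₂ : Finset E) :
    mix (mcdA root (insert v S)) R (mix (mcdA root S) T₁ T₂) =
      mix (mcdA root S) (mix (mcdA root (insert v S)) R T₁) T₂ := by
  ext e
  simp only [mem_mix, mem_mcdA, Finset.mem_insert]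
  tauto

private lemma mcd_split {E V : Type} [Fintype E] [DecidableEq E] [DecidableEq V]
    (r : E → ℝ) (root : E → V) (S : Finset V) (v : V) (R : Finset E) (g : Finset E → ℝ) :
    Ex r (fun T => g (mix (mcdA root (insert v S)) R T)) =
      Ex r (fun T₁ => Ex r (fun T₂ =>
        g (mix (mcdA root S) (mix (mcdA root (insert v S)) R T₁) T₂))) := by
  rw [← Ex_mix r (mcdA root S) (fun T => g (mix (mcdA root (insert v S)) R T))]
  simp only [mcd_mix]

private lemma mcd_step {E V : Type} [Fintype E] [DecidableEq E] [DecidableEq V]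
    (r : E → ℝ) (hr : IsRate r) (root : E → V) (f : Finset E → ℝ) (c l : ℝ)
    (hl : 0 ≤ l) (hlc : l * c ≤ 1)
    (hf : ∀ (v : V) (R R' : Finset E), (∀ e, root e ≠ v → (e ∈ R ↔ e ∈ R')) → f R' ≤ f R + c)
    (S : Finset V) : ∀ R : Finset E,
    Ex r (fun T => Real.exp (l * (Ex r (fun T' => f (mix (mcdA root S) R T')) -
      f (mix (mcdA root S) R T)))) ≤ Real.exp (l ^ 2 * c ^ 2 * (S.card : ℝ)) := by
  induction S using Finset.induction_on with
  | empty =>
    intro R
    have h1 : ∀ T : Finset E, mix (mcdA root ∅) R T = R := by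
      intro T
      ext e
      simp only [mem_mix, mem_mcdA, Finset.notMem_empty, not_false_eq_true, true_and,
        not_true_eq_false, false_and, or_false]
    simp only [h1, Ex_const]
    simp
  | insert v S hv ih =>
    intro R
    set F : Finset E → ℝ := fun R => Ex r (fun T => f (mix (mcdA root S) R T)) with hF
    set F' : ℝ := Ex r (fun T => f (mix (mcdA root (insert v S)) R T)) with hF'
    have hmean : F' = Ex r (fun T₁ => F (mix (mcdA root (insert v S)) R T₁)) := by
      rw [hF', mcd_split r root S v R f]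
    have hdiff : ∀ T₁ T₁' : Finset E, F (mix (mcdA root (insert v S)) R T₁) ≤
        F (mix (mcdA root (insert v S)) R T₁') + c := by
      intro T₁ T₁'
      have h1 : F (mix (mcdA root (insert v S)) R T₁') + c =
          Ex r (fun T => f (mix (mcdA root S) (mix (mcdA root (insert v S)) R T₁') T) + c) := by
        rw [Ex_add, Ex_const]
      rw [h1]
      refine Ex_mono hr fun T => ?_
      refine hf v _ _ fun e he => ?_
      simp only [mem_mix, mem_mcdA, Finset.mem_insert, he, false_or]
      tauto
    have hup : ∀ T₁ : Finset E, F (mix (mcdA root (insert v S)) R T₁) ≤ F' + c := by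
      intro T₁
      have h1 : F' + c = Ex r (fun T₁' => F (mix (mcdA root (insert v S)) R T₁') + c) := by
        rw [Ex_add, Ex_const, hmean]
      rw [h1]
      exact le_Ex_of_le hr fun T₁' => hdiff T₁ T₁'
    have hdown : ∀ T₁ : Finset E, F' ≤ F (mix (mcdA root (insert v S)) R T₁) + c := by
      intro T₁
      rw [hmean]
      exact Ex_le_of_le hr fun T₁' => hdiff T₁' T₁
    rw [mcd_split r root S v R (fun Z => Real.exp (l * (F' - f Z)))]
    have hfac : ∀ T₁ : Finset E, Ex r (fun T₂ => Real.exp (l * (F' -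
        f (mix (mcdA root S) (mix (mcdA root (insert v S)) R T₁) T₂)))) ≤
        Real.exp (l * (F' - F (mix (mcdA root (insert v S)) R T₁))) *
          Real.exp (l ^ 2 * c ^ 2 * (S.card : ℝ)) := by
      intro T₁
      set R₁ := mix (mcdA root (insert v S)) R T₁ with hR₁
      have h1 : ∀ T₂ : Finset E, Real.exp (l * (F' - f (mix (mcdA root S) R₁ T₂))) =
          Real.exp (l * (F' - F R₁)) * Real.exp (l * (F R₁ - f (mix (mcdA root S) R₁ T₂))) := by
        intro T₂
        rw [← Real.exp_add]
        congr 1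
        ring
      simp only [h1]
      rw [Ex_mul_left]
      exact mul_le_mul_of_nonneg_left (ih R₁) (Real.exp_nonneg _)
    have hquad : ∀ T₁ : Finset E,
        Real.exp (l * (F' - F (mix (mcdA root (insert v S)) R T₁))) ≤
          (1 + l ^ 2 * c ^ 2) + l * (F' - F (mix (mcdA root (insert v S)) R T₁)) := by
      intro T₁
      set t := F' - F (mix (mcdA root (insert v S)) R T₁) with ht
      have ht1 : t ≤ c := by
        have := hdown T₁
        rw [ht]; linarith
      have ht2 : -c ≤ t := by
        have := hup T₁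
        rw [ht]; linarith
      have habs : |l * t| ≤ l * c := by
        rw [abs_mul, abs_of_nonneg hl]
        exact mul_le_mul_of_nonneg_left (abs_le.2 ⟨ht2, ht1⟩) hl
      have h2 := Real.abs_exp_sub_one_sub_id_le (habs.trans hlc)
      have h3 := (abs_le.1 h2).2
      have h4 : (l * t) ^ 2 ≤ (l * c) ^ 2 := by
        rw [← sq_abs (l * t)]
        exact pow_le_pow_left₀ (abs_nonneg _) habs 2
      have h5 : (l * c) ^ 2 = l ^ 2 * c ^ 2 := by ring
      linarith
    have hexp : Ex r (fun T₁ => Real.exp (l * (F' - F (mix (mcdA root (insert v S)) R T₁)))) ≤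
        Real.exp (l ^ 2 * c ^ 2) := by
      refine (Ex_mono hr hquad).trans ?_
      rw [Ex_add, Ex_const, Ex_mul_left, Ex_sub, Ex_const, ← hmean]
      have := Real.add_one_le_exp (l ^ 2 * c ^ 2)
      rw [sub_self, mul_zero, add_zero]
      linarith
    refine (Ex_mono hr hfac).trans ?_
    rw [Ex_mul_right, Finset.card_insert_of_notMem hv]
    have h6 : Real.exp (l ^ 2 * c ^ 2 * ((S.card + 1 : ℕ) : ℝ)) =
        Real.exp (l ^ 2 * c ^ 2) * Real.exp (l ^ 2 * c ^ 2 * (S.card : ℝ)) := by
      rw [← Real.exp_add]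
      congr 1
      push_cast
      ring
    rw [h6]
    exact mul_le_mul_of_nonneg_right hexp (Real.exp_nonneg _)

theorem mcdiarmid {E V : Type} [Fintype E] [DecidableEq E] [Fintype V] [DecidableEq V]
    (r : E → ℝ) (hr : IsRate r) (root : E → V) (f : Finset E → ℝ) (c l : ℝ) (hc : 0 ≤ c)
    (hl : 0 ≤ l) (hlc : l * c ≤ 1)
    (hf : ∀ (v : V) (R R' : Finset E), (∀ e, root e ≠ v → (e ∈ R ↔ e ∈ R')) → f R' ≤ f R + c) :
    Ex r (fun R => Real.exp (l * (Ex r f - f R))) ≤
      Real.exp (l ^ 2 * c ^ 2 * (Fintype.card V : ℝ)) := by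
  have h := mcd_step r hr root f c l hl hlc hf Finset.univ ∅
  have h1 : ∀ T : Finset E, mix (mcdA root (Finset.univ : Finset V)) ∅ T = T := by
    intro T
    ext e
    simp only [mem_mix, mem_mcdA, Finset.mem_univ, not_true_eq_false, false_and, false_or,
      not_false_eq_true, true_and]
  simp only [h1] at h
  rw [Finset.card_univ] at h
  exact h

end Pool.Agent.Helper68.SP
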