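import Pool.Agent.Helper68.SP.StageDefs

/-!
# SP-08: second moment estimate for one stage

PROOF.  Let `D = {e ∈ N | tgt e = σ, β ≤ d e}`, `m = ∑_{e ∈ D} x e ≥ η σ > 0`, `ρ A = rr A`, `X F = X d F σ β = ∑_{e ∈ D} (x e / ρ (oth e)) 1[oth e ⊆ F]`.
By `Ex_subset` (`P(A ⊆ F) = ρ A`, and `oth e ⊆ F ∧ oth e' ⊆ F ↔ oth e ∪ oth e' ⊆ F`), `Ex X = m` and
`Ex X^2 = ∑_{e, e' ∈ D} x e x e' ρ(oth e ∪ oth e') / (ρ (oth e) ρ (oth e')) = ∑_{e,e'} x e x e' / ρ (oth e ∩ oth e')`
(`ρ(A ∪ B) ρ(A ∩ B) = ρ A ρ B`).  So `Ex (X - m)^2 = Ex X^2 - m^2 = ∑_{e,e'} x e x e' (1 / ρ(oth e ∩ oth e') - 1)`.  The terms with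
`oth e ∩ oth e' = ∅` vanish; the others are bounded, grouping by `A = oth e ∩ oth e' ≠ ∅`, by
`∑_{e ∈ D} x e ∑_{∅ ≠ A ⊆ oth e} (1 / ρ A) ∑_{e' ∈ N, tgt e' = σ, A ⊆ oth e'} x e' ≤ ∑_{e ∈ D} x e * 2^k * θ σ * η σ = 2^k θ σ η σ m`.
Chebyshev/Markov: if `X F < η σ / 2 ≤ m / 2` then `(X F - m)^2 ≥ m^2 / 4`, so
`Ex 1[X < η σ / 2] ≤ 4 * 2^k θ σ η σ m / m^2 ≤ 2^(k+2) θ σ`.
-/

set_option autoImplicit false

namespace Pool.Agent.Helper68.SP

open Finset

namespace Stage

variable {E S : Type} [Fintype E] [DecidableEq E] [Fintype S] [DecidableEq S] (st : Stage E S)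

open Classical in
theorem prob_small {k : ℕ} {θ : S → ℝ} (hg : st.Good k θ) (d : E → ℝ) (σ : S) (β : ℝ)
    (hm : st.η σ ≤ ∑ e ∈ st.N, if st.tgt e = σ ∧ β ≤ d e then st.x e else 0) :
    Ex st.rate (fun F => if st.X d F σ β < st.η σ / 2 then 1 else 0) ≤
      2 ^ (k + 2) * θ σ := by
  set D : Finset E := st.N.filter fun e => st.tgt e = σ ∧ β ≤ d e with hD
  set m : ℝ := ∑ e ∈ D, st.x e with hmdef
  have hDN : ∀ e ∈ D, e ∈ st.N := fun e he => (Finset.mem_filter.1 he).1
  have hDt : ∀ e ∈ D, st.tgt e = σ := fun e he => (Finset.mem_filter.1 he).2.1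
  have hηm : st.η σ ≤ m := by
    rw [hmdef, hD, Finset.sum_filter]
    exact hm
  have hη := hg.η_pos σ
  have hm0 : 0 < m := lt_of_lt_of_le hη hηm
  have hx := hg.x_nonneg
  have hrr : ∀ e ∈ D, ∀ C ⊆ st.oth e, 0 < st.rr C := fun e he C hC =>
    Finset.prod_pos fun τ hτ => hg.rate_pos e (hDN e he) τ (hC hτ)
  -- the estimate as a sum over `D`
  have hX : ∀ F, st.X d F σ β =
      ∑ e ∈ D, st.x e / st.rr (st.oth e) * (if st.oth e ⊆ F then 1 else 0) := by
    intro F
    unfold X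
    rw [hD, Finset.sum_filter]
    refine Finset.sum_congr rfl fun e _ => ?_
    by_cases h1 : st.tgt e = σ ∧ β ≤ d e
    · by_cases h2 : st.oth e ⊆ F
      · rw [if_pos ⟨h1.1, h2, h1.2⟩, if_pos h1, if_pos h2, mul_one]
      · rw [if_neg fun h3 => h2 h3.2.1, if_pos h1, if_neg h2, mul_zero]
    · rw [if_neg fun h3 => h1 ⟨h3.1, h3.2.2⟩, if_neg h1]
  have hE1 : Ex st.rate (fun F => st.X d F σ β) = m := by
    simp only [hX]
    rw [Ex_sum]
    refine Finset.sum_congr rfl fun e he => ?_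
    rw [Ex_mul_left, Ex_subset]
    exact div_mul_cancel₀ _ (hrr e he _ (Finset.Subset.refl _)).ne'
  have hE2 : Ex st.rate (fun F => st.X d F σ β ^ 2) =
      ∑ e ∈ D, ∑ e' ∈ D, st.x e / st.rr (st.oth e) * (st.x e' / st.rr (st.oth e')) *
        st.rr (st.oth e ∪ st.oth e') := by
    have h1 : ∀ F, st.X d F σ β ^ 2 = ∑ e ∈ D, ∑ e' ∈ D,
        st.x e / st.rr (st.oth e) * (st.x e' / st.rr (st.oth e')) *
          (if st.oth e ∪ st.oth e' ⊆ F then 1 else 0) := by
      intro F
      rw [hX, sq, Finset.sum_mul_sum]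
      refine Finset.sum_congr rfl fun e _ => Finset.sum_congr rfl fun e' _ => ?_
      by_cases h2 : st.oth e ⊆ F <;> by_cases h3 : st.oth e' ⊆ F <;>
        simp [h2, h3, Finset.union_subset_iff]
    simp only [h1]
    rw [Ex_sum]
    refine Finset.sum_congr rfl fun e _ => ?_
    rw [Ex_sum]
    refine Finset.sum_congr rfl fun e' _ => ?_
    rw [Ex_mul_left, Ex_subset]
    rfl
  have hterm : ∀ e ∈ D, ∀ e' ∈ D, st.x e / st.rr (st.oth e) * (st.x e' / st.rr (st.oth e')) *
        st.rr (st.oth e ∪ st.oth e') ≤ st.x e * st.x e' +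
        ∑ C ∈ (st.oth e).powerset.filter (fun C => C.Nonempty),
          st.x e * ((1 / st.rr C) * (if C ⊆ st.oth e' then st.x e' else 0)) := by
    intro e he e' he'
    have hA := hrr e he _ (Finset.Subset.refl _)
    have hB := hrr e' he' _ (Finset.Subset.refl _)
    have hI := hrr e he _ (Finset.inter_subset_left (s₂ := st.oth e'))
    have hui : st.rr (st.oth e ∪ st.oth e') * st.rr (st.oth e ∩ st.oth e') =
        st.rr (st.oth e) * st.rr (st.oth e') := Finset.prod_union_inter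
    have h1 : st.x e / st.rr (st.oth e) * (st.x e' / st.rr (st.oth e')) *
        st.rr (st.oth e ∪ st.oth e') = st.x e * st.x e' / st.rr (st.oth e ∩ st.oth e') := by
      rw [eq_div_iff hI.ne', mul_assoc, hui]
      field_simp
    rw [h1]
    have hnn : ∀ C ∈ (st.oth e).powerset.filter (fun C => C.Nonempty),
        0 ≤ st.x e * ((1 / st.rr C) * (if C ⊆ st.oth e' then st.x e' else 0)) := by
      intro C hC
      have hC' := hrr e he C (Finset.mem_powerset.1 (Finset.mem_filter.1 hC).1)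
      refine mul_nonneg (hx e) (mul_nonneg (by positivity) ?_)
      split_ifs
      · exact hx e'
      · exact le_rfl
    by_cases hne : (st.oth e ∩ st.oth e').Nonempty
    · have h2 := Finset.single_le_sum hnn (a := st.oth e ∩ st.oth e')
        (Finset.mem_filter.2 ⟨Finset.mem_powerset.2 Finset.inter_subset_left, hne⟩)
      rw [if_pos Finset.inter_subset_right] at h2
      have h3 : 0 ≤ st.x e * st.x e' := mul_nonneg (hx e) (hx e')
      calc st.x e * st.x e' / st.rr (st.oth e ∩ st.oth e')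
          = st.x e * (1 / st.rr (st.oth e ∩ st.oth e') * st.x e') := by ring
        _ ≤ _ := by linarith
    · rw [Finset.not_nonempty_iff_eq_empty] at hne
      have h2 : st.rr (st.oth e ∩ st.oth e') = 1 := by
        rw [hne]
        exact Finset.prod_empty
      rw [h2, div_one]
      have h3 := Finset.sum_nonneg hnn
      linarith
  have hvar : Ex st.rate (fun F => (st.X d F σ β - m) ^ 2) ≤ 2 ^ k * θ σ * st.η σ * m := by
    have h1 : Ex st.rate (fun F => (st.X d F σ β - m) ^ 2) =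
        Ex st.rate (fun F => st.X d F σ β ^ 2) - m ^ 2 := by
      have h2 : ∀ F, (st.X d F σ β - m) ^ 2 =
          (st.X d F σ β ^ 2 - (2 * m) * st.X d F σ β) + m ^ 2 := fun F => by ring
      simp only [h2]
      rw [Ex_add, Ex_sub, Ex_mul_left, hE1, Ex_const]
      ring
    rw [h1, hE2]
    have h3 : ∑ e ∈ D, ∑ e' ∈ D, st.x e / st.rr (st.oth e) * (st.x e' / st.rr (st.oth e')) *
        st.rr (st.oth e ∪ st.oth e') ≤ ∑ e ∈ D, ∑ e' ∈ D, (st.x e * st.x e' +
        ∑ C ∈ (st.oth e).powerset.filter (fun C => C.Nonempty),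
          st.x e * ((1 / st.rr C) * (if C ⊆ st.oth e' then st.x e' else 0))) :=
      Finset.sum_le_sum fun e he => Finset.sum_le_sum fun e' he' => hterm e he e' he'
    have h4 : ∑ e ∈ D, ∑ e' ∈ D, (st.x e * st.x e' +
        ∑ C ∈ (st.oth e).powerset.filter (fun C => C.Nonempty),
          st.x e * ((1 / st.rr C) * (if C ⊆ st.oth e' then st.x e' else 0))) =
        m ^ 2 + ∑ e ∈ D, st.x e * ∑ C ∈ (st.oth e).powerset.filter (fun C => C.Nonempty),
          (1 / st.rr C) * ∑ e' ∈ D, (if C ⊆ st.oth e' then st.x e' else 0) := by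
      have h5 : m ^ 2 = ∑ e ∈ D, ∑ e' ∈ D, st.x e * st.x e' := by
        rw [sq, hmdef, Finset.sum_mul_sum]
      rw [h5, ← Finset.sum_add_distrib]
      refine Finset.sum_congr rfl fun e _ => ?_
      rw [Finset.sum_add_distrib, Finset.sum_comm]
      congr 1
      rw [Finset.mul_sum]
      refine Finset.sum_congr rfl fun C _ => ?_
      rw [Finset.mul_sum, Finset.mul_sum]
    have h6 : ∑ e ∈ D, st.x e * ∑ C ∈ (st.oth e).powerset.filter (fun C => C.Nonempty),
          (1 / st.rr C) * ∑ e' ∈ D, (if C ⊆ st.oth e' then st.x e' else 0) ≤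
        ∑ e ∈ D, st.x e * (2 ^ k * (θ σ * st.η σ)) := by
      refine Finset.sum_le_sum fun e he => mul_le_mul_of_nonneg_left ?_ (hx e)
      have h7 : ∀ C ∈ (st.oth e).powerset.filter (fun C => C.Nonempty),
          (1 / st.rr C) * ∑ e' ∈ D, (if C ⊆ st.oth e' then st.x e' else 0) ≤
            θ σ * st.η σ := by
        intro C hC
        have hCe := Finset.mem_powerset.1 (Finset.mem_filter.1 hC).1
        have hC' := hrr e he C hCe
        have h8 := hg.codeg e (hDN e he) C hCe (Finset.mem_filter.1 hC).2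
        rw [hDt e he] at h8
        have h9 : ∑ e' ∈ D, (if C ⊆ st.oth e' then st.x e' else 0) ≤
            ∑ e' ∈ st.N, (if st.tgt e' = σ ∧ C ⊆ st.oth e' then st.x e' else 0) := by
          rw [hD, Finset.sum_filter]
          refine Finset.sum_le_sum fun e' _ => ?_
          by_cases h10 : st.tgt e' = σ ∧ C ⊆ st.oth e'
          · rw [if_pos h10, if_pos h10.2]
            split_ifs
            · exact le_rfl
            · exact hx e'
          · rw [if_neg h10]
            split_ifs with h11 h12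
            · exact absurd ⟨h11.1, h12⟩ h10
            · exact le_rfl
            · exact le_rfl
        rw [one_div, inv_mul_le_iff₀ hC']
        refine (h9.trans h8).trans (le_of_eq ?_)
        ring
      refine (Finset.sum_le_card_nsmul _ _ _ h7).trans ?_
      rw [nsmul_eq_mul]
      refine mul_le_mul_of_nonneg_right ?_ (mul_nonneg (hg.θ_nonneg σ) hη.le)
      have h10 : ((st.oth e).powerset.filter (fun C => C.Nonempty)).card ≤ 2 ^ k := by
        refine (Finset.card_filter_le _ _).trans ?_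
        rw [Finset.card_powerset]
        exact Nat.pow_le_pow_right (by norm_num) (hg.card_oth e (hDN e he))
      exact_mod_cast h10
    rw [← Finset.sum_mul] at h6
    have h11 : m * (2 ^ k * (θ σ * st.η σ)) = 2 ^ k * θ σ * st.η σ * m := by ring
    linarith
  -- Chebyshev
  have hcheb : Ex st.rate (fun F => (m ^ 2 / 4) *
      (if st.X d F σ β < st.η σ / 2 then 1 else 0)) ≤
      Ex st.rate (fun F => (st.X d F σ β - m) ^ 2) := by
    refine Ex_mono hg.isRate fun F => ?_
    split_ifs with h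
    · have h1 : m / 2 ≤ m - st.X d F σ β := by linarith
      nlinarith
    · rw [mul_zero]
      positivity
  rw [Ex_mul_left] at hcheb
  set P := Ex st.rate (fun F => if st.X d F σ β < st.η σ / 2 then (1 : ℝ) else 0) with hP
  have h1 : m ^ 2 / 4 * P ≤ 2 ^ k * θ σ * st.η σ * m := hcheb.trans hvar
  have h2 : 2 ^ k * θ σ * st.η σ * m ≤ 2 ^ k * θ σ * m * m := by
    refine mul_le_mul_of_nonneg_right ?_ hm0.le
    exact mul_le_mul_of_nonneg_left hηm (mul_nonneg (by positivity) (hg.θ_nonneg σ))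
  have h3 : m ^ 2 / 4 * P ≤ m ^ 2 / 4 * (2 ^ (k + 2) * θ σ) := by
    refine (h1.trans h2).trans (le_of_eq ?_)
    ring
  exact le_of_mul_le_mul_left h3 (by positivity)

end Stage

end Pool.Agent.Helper68.SP
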