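import Pool.Agent.Helper68.SP.StageBasic
import Pool.Agent.Helper68.SP.StageVar

/-!
# SP-09: the mass above the estimated level is small on average

PROOF.  Let `m β = ∑_{e ∈ N, tgt e = σ, β ≤ d e} x e`, let `i` be the largest `i ≤ L` with `i = 0` or `η σ ≤ m (i ε)`, and
`mt = ∑_{e ∈ N, tgt e = σ} x e`.  Let `M F` be the sum in the statement.  Always `M F ≤ mt`.  If `i ε ≤ best F`, every `e` counted in `M F` has
`d e > (i + 1) ε`; if `i + 1 ≤ L` then `M F ≤ m ((i+1) ε) < η σ` by maximality of `i`; if `i = L` then no `e` has `d e > (L+1) ε`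
(`d e ≤ L ε`), `M F = 0`.  So `M F ≤ η σ + 1[best F < i ε] * mt`.  If `i = 0` the indicator is zero.  If `i > 0` then `η σ ≤ m (i ε)` and
`best F < i ε` implies (`le_best`) `X d F σ (i ε) < η σ / 2`, so by `prob_small` the expectation of the indicator is `≤ 2^(k+2) θ σ`.
(If `θ σ` times ... : the last term is `≥ 0` in all cases.)
-/

set_option autoImplicit false

namespace Pool.Agent.Helper68.SP

open Finset

namespace Stage

variable {E S : Type} [Fintype E] [DecidableEq E] [Fintype S] [DecidableEq S] (st : Stage E S)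

theorem top_mass {k : ℕ} {θ : S → ℝ} (hg : st.Good k θ) {ε : ℝ} (hε : 0 < ε) (L : ℕ)
    (d : E → ℝ) (hd : ∀ e ∈ st.N, d e ≤ (L : ℝ) * ε) (σ : S) :
    Ex st.rate (fun F => ∑ e ∈ st.N,
        (if st.tgt e = σ ∧ st.best ε L d F σ + ε < d e then st.x e else 0)) ≤
      st.η σ + 2 ^ (k + 2) * θ σ * ∑ e ∈ st.N, (if st.tgt e = σ then st.x e else 0) := by
  classical
  have hη : 0 < st.η σ := hg.η_pos σ
  have hx : ∀ e, 0 ≤ st.x e := hg.x_nonneg
  set m : ℝ → ℝ := fun β => ∑ e ∈ st.N, (if st.tgt e = σ ∧ β ≤ d e then st.x e else 0) with hm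
  set mt : ℝ := ∑ e ∈ st.N, (if st.tgt e = σ then st.x e else 0) with hmt
  set i : ℕ := Nat.findGreatest (fun i => i = 0 ∨ st.η σ ≤ m ((i : ℝ) * ε)) L with hi
  have hiL : i ≤ L := Nat.findGreatest_le L
  have hmt0 : 0 ≤ mt := by
    rw [hmt]
    refine Finset.sum_nonneg fun e _ => ?_
    split_ifs
    · exact hx e
    · exact le_refl _
  have hispec : i = 0 ∨ st.η σ ≤ m ((i : ℝ) * ε) := by
    have h1 := Nat.findGreatest_spec (P := fun i => i = 0 ∨ st.η σ ≤ m ((i : ℝ) * ε))
      (Nat.zero_le L) (Or.inl rfl)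
    exact h1
  have hnext : i + 1 ≤ L → m (((i + 1 : ℕ) : ℝ) * ε) < st.η σ := by
    intro h1
    have h2 := Nat.findGreatest_is_greatest (P := fun i => i = 0 ∨ st.η σ ≤ m ((i : ℝ) * ε))
      (n := L) (k := i + 1) (Nat.lt_succ_self _) h1
    have h3 : ¬ (st.η σ ≤ m (((i + 1 : ℕ) : ℝ) * ε)) := fun h => h2 (Or.inr h)
    exact not_le.1 h3
  -- pointwise bound
  have hpt : ∀ F : Finset S, ∑ e ∈ st.N,
        (if st.tgt e = σ ∧ st.best ε L d F σ + ε < d e then st.x e else 0) ≤
      st.η σ + (if 0 < i then (if st.X d F σ ((i : ℝ) * ε) < st.η σ / 2 then (1 : ℝ) else 0)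
        else 0) * mt := by
    intro F
    by_cases hb : (i : ℝ) * ε ≤ st.best ε L d F σ
    · have hind : 0 ≤ (if 0 < i then (if st.X d F σ ((i : ℝ) * ε) < st.η σ / 2 then (1 : ℝ) else 0)
        else 0) * mt := by
        refine mul_nonneg ?_ hmt0
        split_ifs <;> norm_num
      suffices h : ∑ e ∈ st.N,
        (if st.tgt e = σ ∧ st.best ε L d F σ + ε < d e then st.x e else 0) ≤ st.η σ by linarith
      by_cases hL : i + 1 ≤ L
      · refine le_trans ?_ (hnext hL).le
        rw [hm]
        refine Finset.sum_le_sum fun e _ => ?_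
        by_cases h1 : st.tgt e = σ ∧ st.best ε L d F σ + ε < d e
        · have h2 : st.tgt e = σ ∧ ((i + 1 : ℕ) : ℝ) * ε ≤ d e := by
            refine ⟨h1.1, ?_⟩
            push_cast
            linarith [h1.2]
          rw [if_pos h1, if_pos h2]
        · rw [if_neg h1]
          split_ifs
          · exact hx e
          · exact le_refl _
      · have hiL' : i = L := by omega
        refine le_trans (le_of_eq ?_) hη.le
        refine Finset.sum_eq_zero fun e he => ?_
        refine if_neg fun h1 => ?_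
        have h2 := hd e he
        rw [hiL'] at hb
        linarith [h1.2]
    · rw [not_le] at hb
      have hi0 : 0 < i := by
        rcases Nat.eq_zero_or_pos i with h0 | h0
        · exfalso
          rw [h0] at hb
          have := st.best_nonneg hε L d F σ
          simp only [Nat.cast_zero, zero_mul] at hb
          linarith
        · exact h0
      have hX : st.X d F σ ((i : ℝ) * ε) < st.η σ / 2 := by
        by_contra h
        rw [not_lt] at h
        have := st.le_best hε L d F σ i hiL h
        linarith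
      rw [if_pos hi0, if_pos hX, one_mul]
      have h1 : ∑ e ∈ st.N,
          (if st.tgt e = σ ∧ st.best ε L d F σ + ε < d e then st.x e else 0) ≤ mt := by
        rw [hmt]
        refine Finset.sum_le_sum fun e _ => ?_
        by_cases h1 : st.tgt e = σ ∧ st.best ε L d F σ + ε < d e
        · rw [if_pos h1, if_pos h1.1]
        · rw [if_neg h1]
          split_ifs
          · exact hx e
          · exact le_refl _
      linarith
  refine (Ex_mono hg.isRate hpt).trans ?_
  rw [Ex_add, Ex_const, Ex_mul_right]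
  have hEx : Ex st.rate (fun F => if 0 < i then
      (if st.X d F σ ((i : ℝ) * ε) < st.η σ / 2 then (1 : ℝ) else 0) else 0) ≤
      2 ^ (k + 2) * θ σ := by
    by_cases hi0 : 0 < i
    · have h1 := st.prob_small hg d σ ((i : ℝ) * ε) (hispec.resolve_left hi0.ne')
      refine le_trans (le_of_eq ?_) h1
      refine Ex_congr _ fun F => ?_
      rw [if_pos hi0]
    · have h1 : Ex st.rate (fun F => if 0 < i then
        (if st.X d F σ ((i : ℝ) * ε) < st.η σ / 2 then (1 : ℝ) else 0) else 0) =
          Ex st.rate (fun _ => (0 : ℝ)) := Ex_congr _ fun F => by rw [if_neg hi0]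
      rw [h1, Ex_const]
      have := hg.θ_nonneg σ
      positivity
  have := mul_le_mul_of_nonneg_right hEx hmt0
  linarith

end Stage

end Pool.Agent.Helper68.SP
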