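import Pool.Agent.Helper68.SP.SysBasic
import Pool.Agent.Helper68.SP.StageTop

/-!
# SP-11: expected number of false constraints

Here `y` are the true values, `Y` the revealed (rounded) values, `s = (k+1) ε`.

PROOF.  Write `r (j, σ) = rate σ` and `F j = secs F j`.  For `j < k` the section `F j` may be resampled
independently of the rest: for every `f`,
`Ex r f = Ex r (fun F => Ex rate (fun G => f (F with section j replaced by G)))`    (**)
(`Ex_mix` with `A` = complement of `{j} × S`, then `Ex_preimage` along `σ ↦ (j, σ)`; the set with replaced section is `mix A F F'`, a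
function of `F ∩ A` and of the preimage of `F'`).
Let `act j e` mean `(rem j e).Nonempty`.  Let `Bad j = {e ∈ N | act j e, ∑_{σ ∈ rem j e} y σ < W j e}`; it depends only on `F i`, `i < j`
(so do `W j`, `dem j`), while `bb j` depends on `F i`, `i ≤ j`.
(1) For `e ∈ N`, `act j e`, `e ∉ Bad j`: `dem j e = W j e - ∑_{rem (j+1) e} Y ≤ W j e - ∑_{rem (j+1) e} y ≤ y (tgt j e)`, because
`rem (j+1) e = (rem j e).erase (tgt j e)`.  So (**) and `Stage.false_le` for `stage j`, `d = dem j`, `Bad = Bad j` give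
`E #{σ | y σ < bb j σ} ≤ E ∑_{e ∈ Bad j} (2 / η j (tgt j e)) x e`.
(2) `j = 0`: `W 0 e = w e - ε`: the first term of the right side.
(3) `j = i + 1 < k`: let `e ∈ Bad (i+1)`.  Then `act i e`, and
`∑_{rem (i+1) e} y < W (i+1) e = W i e - bb i (tgt i e) - (k+1) ε`, so
`dem i e = W i e - ∑_{rem (i+1) e} Y ≥ W i e - ∑_{rem (i+1) e} y - k ε > bb i (tgt i e) + ε`
(`Y σ ≤ y σ + ε` for the `≤ k` elements `σ` of `rem (i+1) e`; the cardinality bound is `Stage.Good.card_oth`).  Also `2 / η (i+1) (tgt (i+1) e) ≤ H i (tgt i e)`.  Therefore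
`∑_{e ∈ Bad (i+1)} (2 / η (i+1) (tgt (i+1) e)) x e ≤ ∑_{σ ∈ T} H i σ * ∑_{e ∈ (stage i).N} (if tgt i e = σ ∧ bb i σ + ε < dem i e then x e else 0)`,
and (**) for section `i` with `Stage.top_mass` (the demand `dem i` does not depend on `F i`; `dem i e ≤ L ε` by `dem_le`) bounds the
expectation by `∑_{σ ∈ T} H i σ (η i σ + 2^(k+2) θ i σ ∑_{e ∈ N, act i e, tgt i e = σ} x e)`.
Sum over `j < k` (the term `i = k - 1` of the right side is `≥ 0`).
-/

set_option autoImplicit false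
set_option linter.unusedSectionVars false

namespace Pool.Agent.Helper68.SP

open Finset

namespace Sys

variable {E S : Type} [Fintype E] [DecidableEq E] [Fintype S] [DecidableEq S] (sy : Sys E S)

/-- the set `F` with section `j` replaced by `G` -/
def repl {k : ℕ} (j : Fin k) (F : Finset (Fin k × S)) (G : Finset S) : Finset (Fin k × S) :=
  Finset.univ.filter (fun q => if q.1 = j then q.2 ∈ G else q ∈ F)

theorem inj_sec {k : ℕ} (j : Fin k) : Function.Injective (fun σ : S => (j, σ)) :=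
  fun _ _ h => (Prod.mk.inj h).2

theorem mix_eq_repl {k : ℕ} (j : Fin k) (F F' : Finset (Fin k × S)) :
    mix (Finset.univ.filter (fun q : Fin k × S => q.1 ≠ j)) F F' =
      repl j F (F'.preimage (fun σ : S => (j, σ)) (inj_sec j).injOn) := by
  ext q
  obtain ⟨i, σ⟩ := q
  simp only [mem_mix, repl, Finset.mem_filter, Finset.mem_univ, true_and, Finset.mem_preimage,
    ne_eq]
  by_cases h : i = j
  · subst h
    simp
  · simp [h]

theorem resample {k : ℕ} (rate : S → ℝ) (j : Fin k) (f : Finset (Fin k × S) → ℝ) :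
    Ex (fun q : Fin k × S => rate q.2) f =
      Ex (fun q : Fin k × S => rate q.2) (fun F => Ex rate (fun G => f (repl j F G))) := by
  rw [← Ex_mix (fun q : Fin k × S => rate q.2) (Finset.univ.filter (fun q : Fin k × S => q.1 ≠ j)) f]
  refine Ex_congr _ fun F => ?_
  have h := Ex_preimage (fun σ : S => (j, σ)) (inj_sec j) (fun q : Fin k × S => rate q.2)
    (fun G => f (repl j F G))
  rw [← h]
  refine Ex_congr _ fun F' => ?_
  rw [mix_eq_repl]

theorem secs_repl_self {k : ℕ} (j : Fin k) (F : Finset (Fin k × S)) (G : Finset S) :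
    secs (repl j F G) j.1 = G := by
  ext σ
  simp [secs, repl]

theorem secs_repl_ne {k : ℕ} (j : Fin k) (F : Finset (Fin k × S)) (G : Finset S) (i : ℕ)
    (hi : i ≠ j.1) : secs (repl j F G) i = secs F i := by
  ext σ
  by_cases h : i < k
  · have h2 : (⟨i, h⟩ : Fin k) ≠ j := fun h3 => hi (by rw [← h3])
    simp [secs, repl, h, h2]
  · simp [secs, h]

omit [Fintype E] [Fintype S] in
theorem W_congr (ε s : ℝ) (L : ℕ) (F F' : ℕ → Finset S) (Y : S → ℝ) (j : ℕ)
    (h : ∀ i < j, F i = F' i) : sy.W ε s L F Y j = sy.W ε s L F' Y j := by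
  induction j with
  | zero => rfl
  | succ j ih =>
    have h1 := ih fun i hi => h i (Nat.lt_succ_of_lt hi)
    have h2 := h j (Nat.lt_succ_self j)
    unfold W
    rw [h1, h2]

omit [Fintype E] [Fintype S] in
theorem dem_congr (ε s : ℝ) (L : ℕ) (F F' : ℕ → Finset S) (Y : S → ℝ) (j : ℕ)
    (h : ∀ i < j, F i = F' i) : sy.dem ε s L F Y j = sy.dem ε s L F' Y j := by
  funext e
  unfold dem
  rw [sy.W_congr ε s L F F' Y j h]

theorem bb_repl {k : ℕ} (ε s : ℝ) (L : ℕ) (F : Finset (Fin k × S)) (G : Finset S) (Y : S → ℝ)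
    (j : Fin k) (σ : S) : sy.bb ε s L (secs (repl j F G)) Y j.1 σ =
      (sy.stage j.1).best ε L (sy.dem ε s L (secs F) Y j.1) G σ := by
  unfold bb
  rw [secs_repl_self, sy.dem_congr ε s L (secs (repl j F G)) (secs F) Y j.1
    (fun i hi => secs_repl_ne j F G i (Nat.ne_of_lt hi))]

theorem dem_repl {k : ℕ} (ε s : ℝ) (L : ℕ) (F : Finset (Fin k × S)) (G : Finset S) (Y : S → ℝ)
    (j : Fin k) : sy.dem ε s L (secs (repl j F G)) Y j.1 = sy.dem ε s L (secs F) Y j.1 :=
  sy.dem_congr ε s L (secs (repl j F G)) (secs F) Y j.1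
    (fun i hi => secs_repl_ne j F G i (Nat.ne_of_lt hi))

/-- the elements whose remaining weight is not covered by the true values -/
noncomputable def Bad (ε s : ℝ) (L : ℕ) (F : ℕ → Finset S) (y Y : S → ℝ) (j : ℕ) : Finset E :=
  sy.N.filter (fun e => (sy.rem j e).Nonempty ∧ ∑ σ ∈ sy.rem j e, y σ < sy.W ε s L F Y j e)

omit [Fintype E] [Fintype S] in
theorem mem_Bad (ε s : ℝ) (L : ℕ) (F : ℕ → Finset S) (y Y : S → ℝ) (j : ℕ) (e : E) :
    e ∈ sy.Bad ε s L F y Y j ↔ e ∈ sy.N ∧ (sy.rem j e).Nonempty ∧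
      ∑ σ ∈ sy.rem j e, y σ < sy.W ε s L F Y j e := by
  unfold Bad
  rw [Finset.mem_filter]

omit [Fintype E] [Fintype S] in
theorem rem_subset {k : ℕ} {θ : ℕ → S → ℝ} {T : Finset S} (hg : sy.Good k θ T) {e : E}
    (he : e ∈ sy.N) (j : ℕ) : sy.rem j e ⊆ sy.rem 0 e := by
  induction j with
  | zero => exact Finset.Subset.refl _
  | succ j ih =>
    rw [hg.rem_succ e he j]
    exact (Finset.erase_subset _ _).trans ih

omit [Fintype E] [Fintype S] in
theorem rem_insert {k : ℕ} {θ : ℕ → S → ℝ} {T : Finset S} (hg : sy.Good k θ T) {e : E}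
    (he : e ∈ sy.N) (j : ℕ) (hne : (sy.rem j e).Nonempty) (f : S → ℝ) :
    ∑ σ ∈ sy.rem j e, f σ = f (sy.tgt j e) + ∑ σ ∈ sy.rem (j + 1) e, f σ := by
  rw [hg.rem_succ e he j, Finset.add_sum_erase _ _ (hg.tgt_mem e he j hne)]

/-- one stage: conditional expectation of the number of false constraints -/
theorem stage_false {k : ℕ} {θ : ℕ → S → ℝ} {T : Finset S} (hg : sy.Good k θ T) {ε s : ℝ}
    (hε : 0 < ε) (L : ℕ) (y Y : S → ℝ) (hy : ∀ σ, 0 ≤ y σ)
    (hyY : ∀ e ∈ sy.N, ∀ σ ∈ sy.rem 0 e, y σ ≤ Y σ ∧ Y σ ≤ y σ + ε) (j : ℕ) (hj : j < k)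
    (F : ℕ → Finset S) :
    Ex sy.rate (fun G => ((Finset.univ.filter (fun σ => y σ <
        (sy.stage j).best ε L (sy.dem ε s L F Y j) G σ)).card : ℝ)) ≤
      ∑ e ∈ sy.N, if e ∈ sy.Bad ε s L F y Y j then 2 / sy.η j (sy.tgt j e) * sy.x e else 0 := by
  have h := (sy.stage j).false_le (hg.stage_good j hj) hε L (sy.dem ε s L F Y j) y hy
    (sy.Bad ε s L F y Y j) ?_
  · refine h.trans (le_of_eq ?_)
    show ∑ e ∈ sy.N.filter (fun e => (sy.rem j e).Nonempty), _ = _
    rw [Finset.sum_filter]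
    refine Finset.sum_congr rfl fun e _ => ?_
    by_cases h1 : (sy.rem j e).Nonempty
    · simp only [h1, if_true]
      rfl
    · have h2 : e ∉ sy.Bad ε s L F y Y j := fun h3 =>
        h1 ((sy.mem_Bad ε s L F y Y j e).1 h3).2.1
      simp [h1, h2]
  · intro e he hb
    have he' : e ∈ sy.N ∧ (sy.rem j e).Nonempty := Finset.mem_filter.1 he
    have h1 : sy.W ε s L F Y j e ≤ ∑ σ ∈ sy.rem j e, y σ := by
      by_contra hcon
      push Not at hcon
      exact hb ((sy.mem_Bad ε s L F y Y j e).2 ⟨he'.1, he'.2, hcon⟩)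
    rw [sy.rem_insert hg he'.1 j he'.2 y] at h1
    have h2 : ∑ σ ∈ sy.rem (j + 1) e, y σ ≤ ∑ σ ∈ sy.rem (j + 1) e, Y σ :=
      Finset.sum_le_sum fun σ hσ => (hyY e he'.1 σ (sy.rem_subset hg he'.1 (j + 1) hσ)).1
    show sy.W ε s L F Y j e - ∑ σ ∈ sy.rem (j + 1) e, Y σ ≤ y (sy.tgt j e)
    linarith

/-- the bad elements of stage `i + 1` have demand above the level found at stage `i` -/
theorem bad_succ {k : ℕ} {θ : ℕ → S → ℝ} {T : Finset S} (hg : sy.Good k θ T) {ε : ℝ}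
    (hε : 0 < ε) (L : ℕ) (y Y : S → ℝ)
    (hyY : ∀ e ∈ sy.N, ∀ σ ∈ sy.rem 0 e, y σ ≤ Y σ ∧ Y σ ≤ y σ + ε) (i : ℕ) (hi : i < k)
    (F : ℕ → Finset S) (e : E) (he : e ∈ sy.Bad ε (((k : ℝ) + 1) * ε) L F y Y (i + 1)) :
    e ∈ sy.N ∧ (sy.rem i e).Nonempty ∧ (sy.rem (i + 1) e).Nonempty ∧
      sy.bb ε (((k : ℝ) + 1) * ε) L F Y i (sy.tgt i e) + ε < sy.dem ε (((k : ℝ) + 1) * ε) L F Y i e := by
  obtain ⟨hN, hne, hlt⟩ := (sy.mem_Bad ε _ L F y Y (i + 1) e).1 he
  have hsub : sy.rem (i + 1) e ⊆ sy.rem i e := by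
    rw [hg.rem_succ e hN i]
    exact Finset.erase_subset _ _
  have hne' : (sy.rem i e).Nonempty := hne.mono hsub
  refine ⟨hN, hne', hne, ?_⟩
  rw [sy.W_succ, if_pos hne'] at hlt
  have hcard : ((sy.rem (i + 1) e).card : ℝ) ≤ k := by
    have h := (hg.stage_good i hi).card_oth e (Finset.mem_filter.2 ⟨hN, hne'⟩)
    exact_mod_cast h
  have hsum : ∑ σ ∈ sy.rem (i + 1) e, Y σ ≤ ∑ σ ∈ sy.rem (i + 1) e, y σ + (k : ℝ) * ε := by
    calc ∑ σ ∈ sy.rem (i + 1) e, Y σ ≤ ∑ σ ∈ sy.rem (i + 1) e, (y σ + ε) :=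
          Finset.sum_le_sum fun σ hσ => (hyY e hN σ (sy.rem_subset hg hN (i + 1) hσ)).2
      _ = ∑ σ ∈ sy.rem (i + 1) e, y σ + ((sy.rem (i + 1) e).card : ℝ) * ε := by
          rw [Finset.sum_add_distrib, Finset.sum_const, nsmul_eq_mul]
      _ ≤ _ := by
          have := mul_le_mul_of_nonneg_right hcard hε.le
          linarith
  unfold dem
  linarith

theorem false_le {k : ℕ} {θ : ℕ → S → ℝ} {T : Finset S} (hg : sy.Good k θ T) {ε : ℝ}
    (hε : 0 < ε) (L : ℕ) (hw : ∀ e ∈ sy.N, sy.w e ≤ (L : ℝ) * ε) (y Y : S → ℝ)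
    (hy : ∀ σ, 0 ≤ y σ) (hY0 : ∀ σ, 0 ≤ Y σ)
    (hyY : ∀ e ∈ sy.N, ∀ σ ∈ sy.rem 0 e, y σ ≤ Y σ ∧ Y σ ≤ y σ + ε)
    (H : ℕ → S → ℝ) (hH0 : ∀ j σ, 0 ≤ H j σ)
    (hH : ∀ j, ∀ e ∈ sy.N, (sy.rem (j + 1) e).Nonempty →
      2 / sy.η (j + 1) (sy.tgt (j + 1) e) ≤ H j (sy.tgt j e)) :
    Ex (fun q : Fin k × S => sy.rate q.2) (fun F => ∑ j ∈ Finset.range k,
        ((Finset.univ.filter (fun σ => y σ < sy.bb ε (((k : ℝ) + 1) * ε) L (secs F) Y j σ)).card : ℝ)) ≤
      ∑ e ∈ sy.N, (if (sy.rem 0 e).Nonempty ∧ ∑ σ ∈ sy.rem 0 e, y σ < sy.w e - ε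
        then 2 / sy.η 0 (sy.tgt 0 e) * sy.x e else 0) +
      ∑ j ∈ Finset.range k, ∑ σ ∈ T, H j σ * (sy.η j σ + 2 ^ (k + 2) * θ j σ *
        ∑ e ∈ sy.N, (if (sy.rem j e).Nonempty ∧ sy.tgt j e = σ then sy.x e else 0)) := by
  set s : ℝ := ((k : ℝ) + 1) * ε with hs
  have hs0 : 0 ≤ s := by rw [hs]; positivity
  -- the case without stages
  rcases Nat.eq_zero_or_pos k with hk0 | hkpos
  · have h0 : ∀ e ∈ sy.N, ¬ ((sy.rem 0 e).Nonempty ∧ ∑ σ ∈ sy.rem 0 e, y σ < sy.w e - ε) := by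
      intro e he h
      have h1 := hg.rem_last e he
      rw [hk0] at h1
      rw [h1] at h
      exact Finset.not_nonempty_empty h.1
    have h1 : ∑ e ∈ sy.N, (if (sy.rem 0 e).Nonempty ∧ ∑ σ ∈ sy.rem 0 e, y σ < sy.w e - ε
        then 2 / sy.η 0 (sy.tgt 0 e) * sy.x e else 0) = 0 :=
      Finset.sum_eq_zero fun e he => if_neg (h0 e he)
    rw [h1]
    have h2 : Finset.range k = ∅ := by rw [hk0]; rfl
    rw [h2]
    simp only [Finset.sum_empty, add_zero]
    rw [Ex_const]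
  have hrate : IsRate (fun q : Fin k × S => sy.rate q.2) := fun q =>
    (hg.stage_good 0 hkpos).isRate q.2
  have hrate' : IsRate sy.rate := (hg.stage_good 0 hkpos).isRate
  have hη : ∀ j < k, ∀ σ, 0 < sy.η j σ := fun j hj σ => (hg.stage_good j hj).η_pos σ
  have hθ : ∀ j < k, ∀ σ, 0 ≤ θ j σ := fun j hj σ => (hg.stage_good j hj).θ_nonneg σ
  -- expectation of the sum
  rw [Ex_sum]
  -- first estimate
  have key1 : ∀ j < k, Ex (fun q : Fin k × S => sy.rate q.2) (fun F =>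
      ((Finset.univ.filter (fun σ => y σ < sy.bb ε s L (secs F) Y j σ)).card : ℝ)) ≤
      Ex (fun q : Fin k × S => sy.rate q.2) (fun F => ∑ e ∈ sy.N,
        if e ∈ sy.Bad ε s L (secs F) y Y j then 2 / sy.η j (sy.tgt j e) * sy.x e else 0) := by
    intro j hj
    rw [resample sy.rate (⟨j, hj⟩ : Fin k)]
    refine Ex_mono hrate fun F => ?_
    refine le_trans (le_of_eq (Ex_congr _ fun G => ?_))
      (sy.stage_false (s := s) hg hε L y Y hy hyY j hj (secs F))
    have h : ∀ σ, sy.bb ε s L (secs (repl (⟨j, hj⟩ : Fin k) F G)) Y j σ =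
        (sy.stage j).best ε L (sy.dem ε s L (secs F) Y j) G σ := fun σ =>
      sy.bb_repl ε s L F G Y (⟨j, hj⟩ : Fin k) σ
    simp only [h]
  -- the later stages
  have key2 : ∀ i, i + 1 < k → Ex (fun q : Fin k × S => sy.rate q.2) (fun F => ∑ e ∈ sy.N,
        if e ∈ sy.Bad ε s L (secs F) y Y (i + 1) then
          2 / sy.η (i + 1) (sy.tgt (i + 1) e) * sy.x e else 0) ≤
      ∑ σ ∈ T, H i σ * (sy.η i σ + 2 ^ (k + 2) * θ i σ *
        ∑ e ∈ sy.N, (if (sy.rem i e).Nonempty ∧ sy.tgt i e = σ then sy.x e else 0)) := by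
    intro i hi
    have hi' : i < k := Nat.lt_of_succ_lt hi
    have step1 : ∀ F : Finset (Fin k × S), ∑ e ∈ sy.N,
        (if e ∈ sy.Bad ε s L (secs F) y Y (i + 1) then
          2 / sy.η (i + 1) (sy.tgt (i + 1) e) * sy.x e else 0) ≤
        ∑ σ ∈ T, H i σ * ∑ e ∈ (sy.stage i).N, (if (sy.stage i).tgt e = σ ∧
          sy.bb ε s L (secs F) Y i σ + ε < sy.dem ε s L (secs F) Y i e
          then (sy.stage i).x e else 0) := by
      intro F
      have h1 : ∑ σ ∈ T, H i σ * ∑ e ∈ (sy.stage i).N, (if (sy.stage i).tgt e = σ ∧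
          sy.bb ε s L (secs F) Y i σ + ε < sy.dem ε s L (secs F) Y i e
          then (sy.stage i).x e else 0) = ∑ e ∈ (sy.stage i).N, ∑ σ ∈ T,
          (if sy.tgt i e = σ ∧ sy.bb ε s L (secs F) Y i σ + ε < sy.dem ε s L (secs F) Y i e
            then H i σ * sy.x e else 0) := by
        rw [Finset.sum_comm]
        refine Finset.sum_congr rfl fun σ _ => ?_
        rw [Finset.mul_sum]
        refine Finset.sum_congr rfl fun e _ => ?_
        rw [mul_ite, mul_zero]
        rfl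
      rw [h1]
      have h2 : ∀ e ∈ (sy.stage i).N, ∑ σ ∈ T,
          (if sy.tgt i e = σ ∧ sy.bb ε s L (secs F) Y i σ + ε < sy.dem ε s L (secs F) Y i e
            then H i σ * sy.x e else 0) =
          if sy.bb ε s L (secs F) Y i (sy.tgt i e) + ε < sy.dem ε s L (secs F) Y i e
            then H i (sy.tgt i e) * sy.x e else 0 := by
        intro e he
        have he' : e ∈ sy.N ∧ (sy.rem i e).Nonempty := Finset.mem_filter.1 he
        have hT : sy.tgt i e ∈ T := hg.mem_T e he'.1 _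
          (sy.rem_subset hg he'.1 i (hg.tgt_mem e he'.1 i he'.2))
        rw [Finset.sum_eq_single (sy.tgt i e)]
        · simp
        · intro σ _ hσ
          rw [if_neg]
          rintro ⟨h3, -⟩
          exact hσ h3.symm
        · intro h3
          exact absurd hT h3
      rw [Finset.sum_congr rfl h2]
      show _ ≤ ∑ e ∈ sy.N.filter (fun e => (sy.rem i e).Nonempty), _
      rw [Finset.sum_filter]
      refine Finset.sum_le_sum fun e he => ?_
      by_cases hb : e ∈ sy.Bad ε s L (secs F) y Y (i + 1)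
      · obtain ⟨-, hne, hne', hlt⟩ := sy.bad_succ hg hε L y Y hyY i hi' (secs F) e hb
        rw [if_pos hb, if_pos hne, if_pos hlt]
        exact mul_le_mul_of_nonneg_right (hH i e he hne') (hg.x_nonneg e)
      · rw [if_neg hb]
        split_ifs
        · exact mul_nonneg (hH0 _ _) (hg.x_nonneg e)
        · exact le_refl _
        · exact le_refl _
    refine (Ex_mono hrate step1).trans ?_
    rw [Ex_sum]
    refine Finset.sum_le_sum fun σ _ => ?_
    rw [Ex_mul_left]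
    refine mul_le_mul_of_nonneg_left ?_ (hH0 i σ)
    rw [resample sy.rate (⟨i, hi'⟩ : Fin k)]
    refine Ex_le_of_le hrate fun F => ?_
    have h3 := (sy.stage i).top_mass (hg.stage_good i hi') hε L (sy.dem ε s L (secs F) Y i) ?_ σ
    · have h4 : ∑ e ∈ (sy.stage i).N, (if (sy.stage i).tgt e = σ then (sy.stage i).x e else 0) =
          ∑ e ∈ sy.N, (if (sy.rem i e).Nonempty ∧ sy.tgt i e = σ then sy.x e else 0) := by
        show ∑ e ∈ sy.N.filter (fun e => (sy.rem i e).Nonempty), _ = _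
        rw [Finset.sum_filter]
        refine Finset.sum_congr rfl fun e _ => ?_
        by_cases h5 : (sy.rem i e).Nonempty
        · simp only [h5, if_true, true_and]
          rfl
        · simp [h5]
      rw [h4] at h3
      refine le_trans (le_of_eq (Ex_congr _ fun G => ?_)) h3
      have h5 := sy.bb_repl ε s L F G Y (⟨i, hi'⟩ : Fin k) σ
      have h6 := sy.dem_repl ε s L F G Y (⟨i, hi'⟩ : Fin k)
      simp only at h5 h6
      rw [h5, h6]
    · intro e he
      have he' : e ∈ sy.N ∧ (sy.rem i e).Nonempty := Finset.mem_filter.1 he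
      have h5 := sy.dem_le hε hs0 L (secs F) Y hY0 i e
      have h6 := hw e he'.1
      linarith
  -- the first stage
  have key0 : Ex (fun q : Fin k × S => sy.rate q.2) (fun F => ∑ e ∈ sy.N,
        if e ∈ sy.Bad ε s L (secs F) y Y 0 then 2 / sy.η 0 (sy.tgt 0 e) * sy.x e else 0) =
      ∑ e ∈ sy.N, (if (sy.rem 0 e).Nonempty ∧ ∑ σ ∈ sy.rem 0 e, y σ < sy.w e - ε
        then 2 / sy.η 0 (sy.tgt 0 e) * sy.x e else 0) := by
    rw [← Ex_const (fun q : Fin k × S => sy.rate q.2) (∑ e ∈ sy.N,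
      (if (sy.rem 0 e).Nonempty ∧ ∑ σ ∈ sy.rem 0 e, y σ < sy.w e - ε
        then 2 / sy.η 0 (sy.tgt 0 e) * sy.x e else 0))]
    refine Ex_congr _ fun F => ?_
    refine Finset.sum_congr rfl fun e he => ?_
    have h : e ∈ sy.Bad ε s L (secs F) y Y 0 ↔
        ((sy.rem 0 e).Nonempty ∧ ∑ σ ∈ sy.rem 0 e, y σ < sy.w e - ε) := by
      rw [mem_Bad]
      constructor
      · rintro ⟨-, h1⟩
        exact h1
      · intro h1
        exact ⟨he, h1⟩
    by_cases h1 : e ∈ sy.Bad ε s L (secs F) y Y 0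
    · rw [if_pos h1, if_pos (h.1 h1)]
    · rw [if_neg h1, if_neg (fun h2 => h1 (h.2 h2))]
  obtain ⟨k', rfl⟩ : ∃ k', k = k' + 1 := ⟨k - 1, by omega⟩
  rw [Finset.sum_range_succ', add_comm]
  refine add_le_add ((key1 0 hkpos).trans (le_of_eq key0)) ?_
  calc ∑ i ∈ Finset.range k', Ex (fun q : Fin (k' + 1) × S => sy.rate q.2) (fun F =>
        ((Finset.univ.filter (fun σ => y σ < sy.bb ε s L (secs F) Y (i + 1) σ)).card : ℝ))
      ≤ ∑ i ∈ Finset.range k', ∑ σ ∈ T, H i σ * (sy.η i σ + 2 ^ (k' + 1 + 2) * θ i σ *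
        ∑ e ∈ sy.N, (if (sy.rem i e).Nonempty ∧ sy.tgt i e = σ then sy.x e else 0)) := by
        refine Finset.sum_le_sum fun i hi => ?_
        have hi' : i + 1 < k' + 1 := by
          have := Finset.mem_range.1 hi
          omega
        exact (key1 (i + 1) hi').trans (key2 i hi')
    _ ≤ ∑ i ∈ Finset.range (k' + 1), ∑ σ ∈ T, H i σ * (sy.η i σ + 2 ^ (k' + 1 + 2) * θ i σ *
        ∑ e ∈ sy.N, (if (sy.rem i e).Nonempty ∧ sy.tgt i e = σ then sy.x e else 0)) := by
        rw [Finset.sum_range_succ]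
        refine le_add_of_nonneg_right ?_
        refine Finset.sum_nonneg fun σ _ => ?_
        refine mul_nonneg (hH0 _ _) (add_nonneg (hη k' (Nat.lt_succ_self k') σ).le ?_)
        refine mul_nonneg (mul_nonneg (by positivity) (hθ k' (Nat.lt_succ_self k') σ)) ?_
        refine Finset.sum_nonneg fun e _ => ?_
        split_ifs
        · exact hg.x_nonneg e
        · exact le_refl _

end Sys

end Pool.Agent.Helper68.SP
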