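import Pool.Agent.Helper68.SP.Cover
import Pool.Agent.Helper68.SP.McDiarmid
import Pool.Agent.Helper68.SP.MaxLemma
import Pool.Agent.Helper68.SP.SysFalse

/-!
# SP-16: the core inequality

PROOF.  `Γ = L ε`, `s = (k+1) ε`, `P f = Ex (fun _ => p) f`, `r q = sy.rate q.2` on `Fin k × Finset V`, `x = mean p z`.
For `R` let `d R σ = if σ.card ≤ k then ⌈ysum (y R) σ / ε⌉₊ else 0 ≤ k L` (`ysum ≤ k Γ = k L ε`), and for `d : Finset V → ℕ` let `Yd σ = d σ * ε`.  For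
`σ ∈ rem 0 e`, `e ∈ N` (so `σ ∈ T`, `σ.card ≤ k`): `ysum (y R) σ ≤ Y(d R) σ ≤ ysum (y R) σ + ε`.
For `F : Finset (Fin k × Finset V)` and `d` let `b F d j σ = sy.bb ε s L (secs F) Yd j σ`, `Z F d R = Zc vs w C k (b F d) R`.  `Adm Γ k (b F d)`: `bb_nonneg`, `bb_le`, and
`bb_eq_zero` because `∅ ∉ T`.
(1) `Zc_le`: `Z F (d R) R ≤ ∑ v, y R v + Γ * fal F R`, `fal F R = ∑_{j<k} #{σ | ysum (y R) σ < b F (d R) j σ}`.
(2) Fix `F`; `sF` = the set of the `σ` with `(j, σ) ∈ F` for some `j`, `sF.card ≤ F.card`.  Apply `max_lemma` with `h R d = P (Z F d) - Z F d R`, level bound `k * L`,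
`v = l^2 Γ^2 card V`; `hdep` is `bb_congr` (`secs F i ⊆ sF`); `hmgf` is `mcdiarmid` with `c = Γ` and `Zc_lip` (choose `root e ∈ vs e`).  So
`P (fun R => P (Z F (d R)) - Z F (d R) R) ≤ (l^2 Γ^2 card V + F.card * log (k L + 1)) / l`.
(3) `Zc_mean` with `s' = ε + k s` and `G = {e ∈ N | w e ≤ s' + ∑_{j<k, active} b F d j (tgt j e)}`: for `y'` with the lower bounds,
`ysum y' (vs e) = ∑_{σ ∈ rem 0 e} ysum y' σ = ∑_{j < k, active} ysum y' (tgt j e)` (each `σ ∈ rem 0 e` is `tgt j e` for exactly one active `j < k`, because `rem (j+1) e = (rem j e).erase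
(tgt j e)` and `rem k e = ∅`) `≥ ∑_{active} b F d j (tgt j e) ≥ w e - s'`.  `(C ∪ G)ᶜ ⊆ (C ∪ N)ᶜ ∪ (N \ G)` and `uncovered_le` bounds the mass of `N \ G` by `∑_{j<k} ∑_{σ ∈ T} η j σ / 2`.  So
for all `F, d`: `P (Z F d) ≥ A₀ := ∑ w x - s' ∑ x - Γ (∑_{(C ∪ N)ᶜ} x + ∑∑ η/2)`, and `s' = (1 + k(k+1)) ε`.
(4) For each `F`: `P (∑ v, y R v) ≥ P (Z F (d R) R) - Γ P (fal F R) ≥ A₀ - (2) - Γ P (fal F R)`.
(5) Take `Ex r` over `F`: `Ex r (F.card) = ∑ q, r q = k ∑ σ, rate σ` (`Ex_mem`), and `Ex r (fun F => P (fal F)) = P (fun R => Ex r (fal · R))` (`Ex_comm`) is bounded by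
`Sys.false_le` (`y := ysum (y R)`, `Y := Y(d R)`).
-/

set_option autoImplicit false

namespace Pool.Agent.Helper68.SP

open Finset

variable {E V : Type} [Fintype E] [DecidableEq E] [Fintype V] [DecidableEq V]

omit [Fintype E] [DecidableEq E] [DecidableEq V] in
private theorem zc_congr {vs : E → Finset V} {w : E → ℝ} {C : Finset E} {k : ℕ}
    {b b' : ℕ → Finset V → ℝ} {R : Finset E} (h : ∀ j < k, ∀ σ, b j σ = b' j σ) :
    Zc vs w C k b R = Zc vs w C k b' R := by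
  have h1 : CovSet vs w C k b R = CovSet vs w C k b' R := by
    apply Set.Subset.antisymm
    · rintro y ⟨h1, h2, h3⟩
      exact ⟨h1, h2, fun j hj σ => (h j hj σ) ▸ h3 j hj σ⟩
    · rintro y ⟨h1, h2, h3⟩
      exact ⟨h1, h2, fun j hj σ => (h j hj σ).symm ▸ h3 j hj σ⟩
  unfold Zc
  rw [h1]

omit [Fintype E] [DecidableEq E] [Fintype V] in
private theorem sum_rem {sy : Sys E (Finset V)} {k : ℕ} {θ : ℕ → Finset V → ℝ}
    {T : Finset (Finset V)} (hg : sy.Good k θ T) {e : E} (he : e ∈ sy.N) (u : Finset V → ℝ) :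
    ∑ σ ∈ sy.rem 0 e, u σ =
      ∑ j ∈ Finset.range k, if (sy.rem j e).Nonempty then u (sy.tgt j e) else 0 := by
  have key : ∀ m : ℕ, ∑ σ ∈ sy.rem 0 e, u σ =
      ∑ j ∈ Finset.range m, (if (sy.rem j e).Nonempty then u (sy.tgt j e) else 0) +
        ∑ σ ∈ sy.rem m e, u σ := by
    intro m
    induction m with
    | zero => rw [Finset.range_zero, Finset.sum_empty, zero_add]
    | succ m ih =>
      rw [ih, Finset.sum_range_succ, hg.rem_succ e he m, add_assoc]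
      congr 1
      by_cases h : (sy.rem m e).Nonempty
      · rw [if_pos h, Finset.add_sum_erase _ _ (hg.tgt_mem e he m h)]
      · rw [if_neg h, Finset.not_nonempty_iff_eq_empty.1 h, Finset.erase_empty, zero_add]
  rw [key k, hg.rem_last e he, Finset.sum_empty, add_zero]

theorem core_ineq {k : ℕ} (vs : E → Finset V) (hne : ∀ e, (vs e).Nonempty)
    (w : E → ℝ) (ε : ℝ) (hε : 0 < ε) (L : ℕ) (hw : ∀ e, 0 ≤ w e ∧ w e ≤ (L : ℝ) * ε)
    (p : ℝ) (hp : 0 ≤ p) (hp1 : p ≤ 1) (z : Finset E → E → ℝ) (hz : ∀ R, IsFM vs (z R))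
    (hz0 : ∀ R e, e ∉ R → z R e = 0) (C : Finset E) (y : Finset E → V → ℝ)
    (hy : ∀ R v, 0 ≤ y R v ∧ y R v ≤ (L : ℝ) * ε)
    (hcov : ∀ R, ∀ e ∈ R, e ∈ C → w e ≤ ysum (y R) (vs e))
    (sy : Sys E (Finset V)) (θ : ℕ → Finset V → ℝ) (T : Finset (Finset V))
    (hg : sy.Good k θ T) (hx : sy.x = mean p z) (hws : sy.w = w) (hNC : sy.N ⊆ Cᶜ)
    (hne0 : ∀ e ∈ sy.N, (sy.rem 0 e).Nonempty)
    (hsum : ∀ e ∈ sy.N, ∀ u : V → ℝ, ysum u (vs e) = ∑ σ ∈ sy.rem 0 e, ysum u σ)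
    (hT : ∀ σ ∈ T, 1 ≤ σ.card ∧ σ.card ≤ k)
    (H : ℕ → Finset V → ℝ) (hH0 : ∀ j σ, 0 ≤ H j σ)
    (hH : ∀ j, ∀ e ∈ sy.N, (sy.rem (j + 1) e).Nonempty →
      2 / sy.η (j + 1) (sy.tgt (j + 1) e) ≤ H j (sy.tgt j e))
    (l : ℝ) (hl : 0 < l) (hlΓ : l * ((L : ℝ) * ε) ≤ 1) :
    ∑ e, w e * mean p z e - (1 + (k : ℝ) * ((k : ℝ) + 1)) * ε * ∑ e, mean p z e
      - (L : ℝ) * ε * (∑ e ∈ (C ∪ sy.N)ᶜ, mean p z e +
          ∑ j ∈ Finset.range k, ∑ σ ∈ T, sy.η j σ / 2)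
      - (l ^ 2 * ((L : ℝ) * ε) ^ 2 * (Fintype.card V : ℝ) +
          (k : ℝ) * (∑ σ, sy.rate σ) * Real.log ((k : ℝ) * (L : ℝ) + 1)) / l
      - (L : ℝ) * ε * (Ex (fun _ => p) (fun R => ∑ e ∈ sy.N,
            (if ysum (y R) (vs e) < w e - ε then 2 / sy.η 0 (sy.tgt 0 e) * mean p z e else 0)) +
          ∑ j ∈ Finset.range k, ∑ σ ∈ T, H j σ * (sy.η j σ + 2 ^ (k + 2) * θ j σ *
            ∑ e ∈ sy.N, (if (sy.rem j e).Nonempty ∧ sy.tgt j e = σ then mean p z e else 0))) ≤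
    Ex (fun _ => p) (fun R => ∑ v, y R v) := by
  classical
  have hΓ : 0 ≤ (L : ℝ) * ε := mul_nonneg (Nat.cast_nonneg L) hε.le
  have hPr : IsRate (fun _ : E => p) := fun _ => ⟨hp, hp1⟩
  have hkε : 0 ≤ (k : ℝ) * ε := mul_nonneg (Nat.cast_nonneg k) hε.le
  let s : ℝ := ((k : ℝ) + 1) * ε
  have hsdef : s = ((k : ℝ) + 1) * ε := rfl
  have hs : ε ≤ s := by
    rw [hsdef]
    linarith
  have hs0 : 0 ≤ s := hε.le.trans hs
  let r : Fin k × Finset V → ℝ := fun q => sy.rate q.2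
  have hr : IsRate r := fun q => (hg.stage_good q.1 q.1.2).isRate q.2
  have hne' := hne
  choose root hroot using hne'
  let Yd : (Finset V → ℕ) → Finset V → ℝ := fun dd σ => (dd σ : ℝ) * ε
  have hYd : ∀ dd σ, 0 ≤ Yd dd σ := fun dd σ => mul_nonneg (Nat.cast_nonneg _) hε.le
  let b : Finset (Fin k × Finset V) → (Finset V → ℕ) → ℕ → Finset V → ℝ :=
    fun F dd j σ => sy.bb ε s L (Sys.secs F) (Yd dd) j σ
  have hempty : (∅ : Finset V) ∉ T := fun h => by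
    have h1 := (hT ∅ h).1
    rw [Finset.card_empty] at h1
    omega
  have hadm : ∀ F dd, Adm ((L : ℝ) * ε) k (b F dd) := fun F dd =>
    ⟨fun j _ σ => sy.bb_nonneg hε s L _ _ j σ, fun j _ σ => sy.bb_le hε s L _ _ j σ,
      fun j hj => sy.bb_eq_zero hg hε s L _ _ j hj ∅ hempty⟩
  let Z : Finset (Fin k × Finset V) → (Finset V → ℕ) → Finset E → ℝ :=
    fun F dd R => Zc vs w C k (b F dd) R
  have hwle : ∀ e, w e ≤ (L : ℝ) * ε := fun e => (hw e).2
  let d : Finset E → Finset V → ℕ := fun R σ => if σ.card ≤ k then ⌈ysum (y R) σ / ε⌉₊ else 0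
  have hyn : ∀ R σ, 0 ≤ ysum (y R) σ := fun R σ => Finset.sum_nonneg fun v _ => (hy R v).1
  have hdle : ∀ R σ, d R σ ≤ k * L := by
    intro R σ
    change (if σ.card ≤ k then ⌈ysum (y R) σ / ε⌉₊ else 0) ≤ k * L
    split_ifs with h
    · rw [Nat.ceil_le, div_le_iff₀ hε]
      have h1 : ysum (y R) σ ≤ ∑ v ∈ σ, (L : ℝ) * ε := Finset.sum_le_sum fun v _ => (hy R v).2
      rw [Finset.sum_const, nsmul_eq_mul] at h1
      have h2 : (σ.card : ℝ) ≤ k := by exact_mod_cast h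
      have h3 := mul_le_mul_of_nonneg_right h2 hΓ
      push_cast
      linarith
    · exact Nat.zero_le _
  let fal : Finset (Fin k × Finset V) → Finset E → ℝ := fun F R =>
    ∑ j ∈ Finset.range k, ((Finset.univ.filter
      (fun σ : Finset V => ysum (y R) σ < b F (d R) j σ)).card : ℝ)
  -- (1)
  have h1 : ∀ F R, Z F (d R) R ≤ ∑ v, y R v + (L : ℝ) * ε * fal F R := fun F R =>
    Zc_le hΓ C (hadm F (d R)) R (y R) (fun v => (hy R v).1) (hcov R)
  -- (2)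
  have hlog : 0 ≤ Real.log ((k : ℝ) * (L : ℝ) + 1) := Real.log_nonneg (by
    have : 0 ≤ (k : ℝ) * L := by positivity
    linarith)
  have h2 : ∀ F : Finset (Fin k × Finset V),
      Ex (fun _ => p) (fun R => Ex (fun _ => p) (Z F (d R)) - Z F (d R) R) ≤
        (l ^ 2 * ((L : ℝ) * ε) ^ 2 * (Fintype.card V : ℝ) +
          (F.card : ℝ) * Real.log ((k : ℝ) * (L : ℝ) + 1)) / l := by
    intro F
    have hdep : ∀ (R : Finset E) (dd dd' : Finset V → ℕ),
        (∀ σ ∈ F.image Prod.snd, dd σ = dd' σ) →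
          Ex (fun _ => p) (Z F dd) - Z F dd R = Ex (fun _ => p) (Z F dd') - Z F dd' R := by
      intro R dd dd' hdd
      have hZ : Z F dd = Z F dd' := by
        funext R'
        refine zc_congr fun j hj σ => sy.bb_congr hg ε s L _ _ _ (fun i hi τ hτ => ?_) j hj σ
        change (dd τ : ℝ) * ε = (dd' τ : ℝ) * ε
        unfold Sys.secs at hτ
        rw [dif_pos hi] at hτ
        rw [hdd τ (Finset.mem_image.2 ⟨(⟨i, hi⟩, τ), (Finset.mem_filter.1 hτ).2, rfl⟩)]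
      rw [hZ]
    have h3 := max_lemma (fun _ : E => p) hPr (F.image Prod.snd) (k * L)
      (fun R dd => Ex (fun _ => p) (Z F dd) - Z F dd R) hdep l
      (l ^ 2 * ((L : ℝ) * ε) ^ 2 * (Fintype.card V : ℝ)) hl
      (fun dd => mcdiarmid (fun _ : E => p) hPr root (Z F dd) ((L : ℝ) * ε) l hΓ hl.le hlΓ
        (fun v R R' h => Zc_lip hΓ hwle hne C (hadm F dd) root hroot v R R' h)) d hdle
    refine h3.trans ?_
    have h4 : ((F.image Prod.snd).card : ℝ) ≤ F.card := by exact_mod_cast Finset.card_image_le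
    have h5 := mul_le_mul_of_nonneg_right h4 hlog
    apply div_le_div_of_nonneg_right _ hl.le
    push_cast
    linarith
  -- (3)
  have hxn : ∀ e, 0 ≤ mean p z e := fun e => by
    rw [← hx]
    exact hg.x_nonneg e
  have h3 : ∀ F dd, ∑ e, w e * mean p z e -
      (1 + (k : ℝ) * ((k : ℝ) + 1)) * ε * ∑ e, mean p z e -
      (L : ℝ) * ε * (∑ e ∈ (C ∪ sy.N)ᶜ, mean p z e +
        ∑ j ∈ Finset.range k, ∑ σ ∈ T, sy.η j σ / 2) ≤ Ex (fun _ => p) (Z F dd) := by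
    intro F dd
    let G : Finset E := sy.N.filter fun e => w e ≤ ε + (k : ℝ) * s +
      ∑ j ∈ Finset.range k, (if (sy.rem j e).Nonempty then b F dd j (sy.tgt j e) else 0)
    have hs' : 0 ≤ ε + (k : ℝ) * s := add_nonneg hε.le (mul_nonneg (Nat.cast_nonneg k) hs0)
    have hG : ∀ e ∈ G, ∀ y' : V → ℝ, (∀ v, 0 ≤ y' v) →
        (∀ j < k, ∀ σ, b F dd j σ ≤ ysum y' σ) → w e ≤ ysum y' (vs e) + (ε + (k : ℝ) * s) := by
      intro e he y' hy' hb'
      obtain ⟨he1, he2⟩ := Finset.mem_filter.1 he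
      rw [hsum e he1 y', sum_rem hg he1 (fun σ => ysum y' σ)]
      have h4 : ∑ j ∈ Finset.range k,
          (if (sy.rem j e).Nonempty then b F dd j (sy.tgt j e) else 0) ≤
          ∑ j ∈ Finset.range k,
            (if (sy.rem j e).Nonempty then ysum y' (sy.tgt j e) else 0) := by
        refine Finset.sum_le_sum fun j hj => ?_
        split_ifs
        · exact hb' j (Finset.mem_range.1 hj) _
        · exact le_rfl
      linarith
    have h4 := Zc_mean hΓ hwle hne C (hadm F dd) hp hp1 z hz hz0 (ε + (k : ℝ) * s) hs' G hG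
    have h5 : ∑ e ∈ (C ∪ G)ᶜ, mean p z e ≤
        ∑ e ∈ (C ∪ sy.N)ᶜ, mean p z e + ∑ e ∈ sy.N \ G, mean p z e := by
      rw [← Finset.sum_union]
      · refine Finset.sum_le_sum_of_subset_of_nonneg ?_ fun e _ _ => hxn e
        intro e he
        rw [Finset.mem_compl, Finset.mem_union] at he
        rw [Finset.mem_union, Finset.mem_compl, Finset.mem_union, Finset.mem_sdiff]
        tauto
      · rw [Finset.disjoint_left]
        intro e he he'
        rw [Finset.mem_compl, Finset.mem_union] at he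
        rw [Finset.mem_sdiff] at he'
        tauto
    have h6 : ∑ e ∈ sy.N \ G, mean p z e = ∑ e ∈ sy.N, (if ε + (k : ℝ) * s +
        ∑ j ∈ Finset.range k, (if (sy.rem j e).Nonempty then
          sy.bb ε s L (Sys.secs F) (Yd dd) j (sy.tgt j e) else 0) < sy.w e
        then sy.x e else 0) := by
      rw [← Finset.sum_filter, hx]
      refine Finset.sum_congr ?_ fun _ _ => rfl
      ext e
      rw [Finset.mem_sdiff, Finset.mem_filter, Finset.mem_filter, hws]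
      constructor
      · rintro ⟨h7, h8⟩
        refine ⟨h7, ?_⟩
        by_contra h9
        exact h8 ⟨h7, not_lt.1 h9⟩
      · rintro ⟨h7, h8⟩
        exact ⟨h7, fun h9 => absurd h9.2 (not_le.2 h8)⟩
    have h7 := sy.uncovered_le hg hε hs L (fun e _ => by rw [hws]; exact hwle e) hne0
      (Sys.secs F) (Yd dd) (hYd dd)
    rw [← h6] at h7
    have h8 := mul_le_mul_of_nonneg_left (h5.trans (add_le_add_right h7 _)) hΓ
    have h9 : (1 + (k : ℝ) * ((k : ℝ) + 1)) * ε * ∑ e, mean p z e =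
        (ε + (k : ℝ) * s) * ∑ e, mean p z e := by
      rw [hsdef]
      ring
    rw [h9]
    linarith
  -- (4)
  have h4 : ∀ F : Finset (Fin k × Finset V), ∑ e, w e * mean p z e -
      (1 + (k : ℝ) * ((k : ℝ) + 1)) * ε * ∑ e, mean p z e -
      (L : ℝ) * ε * (∑ e ∈ (C ∪ sy.N)ᶜ, mean p z e +
        ∑ j ∈ Finset.range k, ∑ σ ∈ T, sy.η j σ / 2) -
      (l ^ 2 * ((L : ℝ) * ε) ^ 2 * (Fintype.card V : ℝ) / l +
        (F.card : ℝ) * (Real.log ((k : ℝ) * (L : ℝ) + 1) / l)) -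
      (L : ℝ) * ε * Ex (fun _ => p) (fun R => fal F R) ≤
        Ex (fun _ => p) (fun R => ∑ v, y R v) := by
    intro F
    have a1 := Ex_mono hPr (h1 F)
    rw [Ex_add, Ex_mul_left] at a1
    have a2 := h2 F
    rw [Ex_sub, add_div, mul_div_assoc (F.card : ℝ)] at a2
    have a3 := le_Ex_of_le hPr (fun R => h3 F (d R))
    linarith
  -- (5)
  have e1 : Ex r (fun F => (F.card : ℝ)) = (k : ℝ) * ∑ σ, sy.rate σ := by
    have h5 : ∀ F : Finset (Fin k × Finset V), (F.card : ℝ) =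
        ∑ q : Fin k × Finset V, (if q ∈ F then (1 : ℝ) else 0) := by
      intro F
      rw [Finset.sum_boole, Finset.filter_mem_eq_inter, Finset.univ_inter]
    rw [Ex_congr r h5, Ex_sum]
    simp only [Ex_mem]
    rw [Fintype.sum_prod_type]
    change ∑ _x : Fin k, ∑ σ : Finset V, sy.rate σ = _
    rw [Finset.sum_const, Finset.card_univ, Fintype.card_fin, nsmul_eq_mul]
  have hfl : ∀ R, Ex r (fun F => fal F R) ≤ ∑ e ∈ sy.N,
      (if ysum (y R) (vs e) < w e - ε then 2 / sy.η 0 (sy.tgt 0 e) * mean p z e else 0) +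
      ∑ j ∈ Finset.range k, ∑ σ ∈ T, H j σ * (sy.η j σ + 2 ^ (k + 2) * θ j σ *
        ∑ e ∈ sy.N, (if (sy.rem j e).Nonempty ∧ sy.tgt j e = σ then mean p z e else 0)) := by
    intro R
    have h5 := sy.false_le hg hε L (fun e _ => by rw [hws]; exact hwle e) (ysum (y R))
      (Yd (d R)) (hyn R) (hYd (d R)) (by
        intro e he σ hσ
        have hc : σ.card ≤ k := (hT σ (hg.mem_T e he σ hσ)).2
        have hd : Yd (d R) σ = (⌈ysum (y R) σ / ε⌉₊ : ℝ) * ε := by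
          change ((if σ.card ≤ k then ⌈ysum (y R) σ / ε⌉₊ else 0 : ℕ) : ℝ) * ε = _
          rw [if_pos hc]
        rw [hd]
        have h6 : ysum (y R) σ / ε ≤ (⌈ysum (y R) σ / ε⌉₊ : ℝ) := Nat.le_ceil _
        have h7 : (⌈ysum (y R) σ / ε⌉₊ : ℝ) < ysum (y R) σ / ε + 1 :=
          Nat.ceil_lt_add_one (div_nonneg (hyn R σ) hε.le)
        refine ⟨(div_le_iff₀ hε).1 h6, ?_⟩
        have h8 := mul_le_mul_of_nonneg_right h7.le hε.le
        rwa [add_mul, div_mul_cancel₀ _ hε.ne', one_mul] at h8) H hH0 hH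
    refine h5.trans (le_of_eq ?_)
    rw [hx, hws]
    congr 1
    refine Finset.sum_congr rfl fun e he => ?_
    have h6 : ysum (y R) (vs e) = ∑ σ ∈ sy.rem 0 e, ysum (y R) σ := hsum e he (y R)
    rw [h6]
    by_cases h7 : ∑ σ ∈ sy.rem 0 e, ysum (y R) σ < w e - ε
    · rw [if_pos ⟨hne0 e he, h7⟩, if_pos h7]
    · rw [if_neg (fun h8 => h7 h8.2), if_neg h7]
  have e2 := Ex_mono hPr hfl
  rw [Ex_add, Ex_const] at e2
  have e3 : Ex r (fun F => Ex (fun _ => p) (fun R => fal F R)) =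
      Ex (fun _ => p) (fun R => Ex r (fun F => fal F R)) :=
    Ex_comm r (fun _ => p) (fun F R => fal F R)
  have h5 := Ex_le_of_le hr h4
  rw [Ex_sub, Ex_sub, Ex_const, Ex_add, Ex_const, Ex_mul_right, Ex_mul_left, e1, e3] at h5
  have h6 := mul_le_mul_of_nonneg_left e2 hΓ
  have h7 : (l ^ 2 * ((L : ℝ) * ε) ^ 2 * (Fintype.card V : ℝ) +
      (k : ℝ) * (∑ σ, sy.rate σ) * Real.log ((k : ℝ) * (L : ℝ) + 1)) / l =
      l ^ 2 * ((L : ℝ) * ε) ^ 2 * (Fintype.card V : ℝ) / l +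
        (k : ℝ) * (∑ σ, sy.rate σ) * (Real.log ((k : ℝ) * (L : ℝ) + 1) / l) := by
    rw [add_div, mul_div_assoc ((k : ℝ) * ∑ σ, sy.rate σ)]
  rw [h7]
  linarith

end Pool.Agent.Helper68.SP
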