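import Pool.Agent.Helper68.SP.Defs

/-!
# SP-15: the covering problem with side constraints

`CovSet` is the set of the `y ≥ 0` which cover the elements of `R ∩ C` and satisfy the lower bounds `b j σ`; `Zc` is the
infimum of `∑ v, y v`.

PROOFS.  The set `CovSet` is nonempty: the constant `Γ` is in it (`vs e` nonempty, `w e ≤ Γ`; if `b j σ ≠ 0` then `σ` is nonempty and
`b j σ ≤ Γ`; if `b j σ = 0` it is clear).  The sums are bounded below by `0`.
* `Zc_lip`: let `δ > 0` and `y ∈ CovSet R` with `∑ y < Zc R + δ` (`exists_lt_of_csInf_lt`); then `y + Γ·1_v` is in `CovSet R'`: if `e ∈ R' ∩ C` has `root e ≠ v` then `e ∈ R`;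
  if `root e = v` then `v ∈ vs e` and `ysum ≥ Γ ≥ w e`.  So `Zc R' ≤ ∑ y + Γ`.
* `Zc_le`: let `D` be the set of the pairs `(j, σ)`, `j < k`, with `ysum y σ < b j σ`; then `b j σ > 0`, choose `pick σ ∈ σ`, and add `Γ` at `pick σ` for each pair of `D`.  The
  result is in `CovSet R` and its sum is `∑ y + Γ * D.card`.
* `Zc_mean`: for every `R` and `y ∈ CovSet R`, with `z = z R`:
  `∑ w z ≤ ∑_{e ∈ R ∩ C} ysum y (vs e) z e + ∑_{e ∈ G} (ysum y (vs e) + s') z e + Γ ∑_{e ∉ C ∪ G} z e`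
  (`z e = 0` for `e ∉ R`, in particular for `e ∈ C \ R`; for `e ∈ C ∩ G` count it once) `≤ ∑_e ysum y (vs e) z e + s' ∑ z + Γ ∑_{e ∉ C ∪ G} z e` and
  `∑_e ysum y (vs e) z e = ∑_v y v * deg vs z v ≤ ∑_v y v`.  Hence `∑ w z - s' ∑ z - Γ ∑_{e ∉ C ∪ G} z e ≤ Zc R`; take expectations.
-/

set_option autoImplicit false

namespace Pool.Agent.Helper68.SP

open Finset

variable {E V : Type} [Fintype E] [DecidableEq E] [Fintype V] [DecidableEq V]

/-- feasible covers -/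
def CovSet (vs : E → Finset V) (w : E → ℝ) (C : Finset E) (k : ℕ) (b : ℕ → Finset V → ℝ)
    (R : Finset E) : Set (V → ℝ) :=
  {y | (∀ v, 0 ≤ y v) ∧ (∀ e ∈ R, e ∈ C → w e ≤ ysum y (vs e)) ∧
    ∀ j < k, ∀ σ, b j σ ≤ ysum y σ}

/-- the value of the covering problem -/
noncomputable def Zc (vs : E → Finset V) (w : E → ℝ) (C : Finset E) (k : ℕ)
    (b : ℕ → Finset V → ℝ) (R : Finset E) : ℝ :=
  sInf ((fun y : V → ℝ => ∑ v, y v) '' CovSet vs w C k b R)

/-- admissible lower bounds -/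
structure Adm (Γ : ℝ) (k : ℕ) (b : ℕ → Finset V → ℝ) : Prop where
  nonneg : ∀ j < k, ∀ σ, 0 ≤ b j σ
  le : ∀ j < k, ∀ σ, b j σ ≤ Γ
  zero : ∀ j < k, b j ∅ = 0

private lemma ysum_mono {y y' : V → ℝ} (h : ∀ v, y v ≤ y' v) (σ : Finset V) :
    ysum y σ ≤ ysum y' σ := by
  unfold ysum
  exact Finset.sum_le_sum fun v _ => h v

private lemma le_ysum {y : V → ℝ} (h : ∀ v, 0 ≤ y v) {σ : Finset V} {v : V} (hv : v ∈ σ) :
    y v ≤ ysum y σ := by
  unfold ysum
  exact Finset.single_le_sum (f := y) (fun u _ => h u) hv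

private lemma ysum_nonneg {y : V → ℝ} (h : ∀ v, 0 ≤ y v) (σ : Finset V) : 0 ≤ ysum y σ := by
  unfold ysum
  exact Finset.sum_nonneg fun v _ => h v

private lemma covSet_nonempty {vs : E → Finset V} {w : E → ℝ} {Γ : ℝ} (hΓ : 0 ≤ Γ)
    (hw : ∀ e, w e ≤ Γ) (hne : ∀ e, (vs e).Nonempty) (C : Finset E) {k : ℕ}
    {b : ℕ → Finset V → ℝ} (hb : Adm Γ k b) (R : Finset E) :
    (CovSet vs w C k b R).Nonempty := by
  refine ⟨fun _ => Γ, fun _ => hΓ, fun e _ _ => ?_, fun j hj σ => ?_⟩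
  · obtain ⟨v, hv⟩ := hne e
    exact (hw e).trans (le_ysum (y := fun _ => Γ) (fun _ => hΓ) hv)
  · rcases σ.eq_empty_or_nonempty with h0 | ⟨v, hv⟩
    · rw [h0, hb.zero j hj]
      exact ysum_nonneg (fun _ => hΓ) _
    · exact (hb.le j hj σ).trans (le_ysum (y := fun _ => Γ) (fun _ => hΓ) hv)

private lemma bddBelow_cov (vs : E → Finset V) (w : E → ℝ) (C : Finset E) (k : ℕ)
    (b : ℕ → Finset V → ℝ) (R : Finset E) :
    BddBelow ((fun y : V → ℝ => ∑ v, y v) '' CovSet vs w C k b R) := by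
  refine ⟨0, ?_⟩
  rintro _ ⟨y, hy, rfl⟩
  exact Finset.sum_nonneg fun v _ => hy.1 v

private lemma Zc_le_sum {vs : E → Finset V} {w : E → ℝ} {C : Finset E} {k : ℕ}
    {b : ℕ → Finset V → ℝ} {R : Finset E} {y : V → ℝ} (hy : y ∈ CovSet vs w C k b R) :
    Zc vs w C k b R ≤ ∑ v, y v :=
  csInf_le (bddBelow_cov vs w C k b R) ⟨y, hy, rfl⟩

private lemma le_Zc {vs : E → Finset V} {w : E → ℝ} {Γ : ℝ} (hΓ : 0 ≤ Γ)
    (hw : ∀ e, w e ≤ Γ) (hne : ∀ e, (vs e).Nonempty) (C : Finset E) {k : ℕ}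
    {b : ℕ → Finset V → ℝ} (hb : Adm Γ k b) (R : Finset E) {a : ℝ}
    (h : ∀ y ∈ CovSet vs w C k b R, a ≤ ∑ v, y v) : a ≤ Zc vs w C k b R := by
  refine le_csInf ((covSet_nonempty hΓ hw hne C hb R).image _) ?_
  rintro _ ⟨y, hy, rfl⟩
  exact h y hy

theorem Zc_lip {vs : E → Finset V} {w : E → ℝ} {Γ : ℝ} (hΓ : 0 ≤ Γ) (hw : ∀ e, w e ≤ Γ)
    (hne : ∀ e, (vs e).Nonempty) (C : Finset E) {k : ℕ} {b : ℕ → Finset V → ℝ}
    (hb : Adm Γ k b) (root : E → V) (hroot : ∀ e, root e ∈ vs e) (v : V) (R R' : Finset E)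
    (h : ∀ e, root e ≠ v → (e ∈ R ↔ e ∈ R')) :
    Zc vs w C k b R' ≤ Zc vs w C k b R + Γ := by
  have key : Zc vs w C k b R' - Γ ≤ Zc vs w C k b R := by
    refine le_Zc hΓ hw hne C hb R fun y hy => ?_
    obtain ⟨hy0, hyc, hys⟩ := hy
    have hmono : ∀ u, y u ≤ y u + (if u = v then Γ else 0) := by
      intro u
      split_ifs
      · linarith
      · linarith
    have hnn : ∀ u, 0 ≤ y u + (if u = v then Γ else 0) := fun u => (hy0 u).trans (hmono u)
    have hmem : (fun u => y u + (if u = v then Γ else 0)) ∈ CovSet vs w C k b R' := by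
      refine ⟨hnn, fun e he heC => ?_, fun j hj σ => ?_⟩
      · by_cases hr : root e = v
        · have hv : v ∈ vs e := hr ▸ hroot e
          have h1 := le_ysum (y := fun u => y u + (if u = v then Γ else 0)) hnn hv
          have h2 : Γ ≤ (fun u => y u + (if u = v then Γ else 0)) v := by
            simp only [if_true]
            linarith [hy0 v]
          exact (hw e).trans (h2.trans h1)
        · exact (hyc e ((h e hr).2 he) heC).trans (ysum_mono hmono _)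
      · exact (hys j hj σ).trans (ysum_mono hmono _)
    have h3 := Zc_le_sum hmem
    have h4 : ∑ u, (y u + (if u = v then Γ else 0)) = ∑ u, y u + Γ := by
      rw [Finset.sum_add_distrib]
      simp
    rw [h4] at h3
    linarith
  linarith

theorem Zc_le {vs : E → Finset V} {w : E → ℝ} {Γ : ℝ} (hΓ : 0 ≤ Γ)
    (C : Finset E) {k : ℕ} {b : ℕ → Finset V → ℝ}
    (hb : Adm Γ k b) (R : Finset E) (y : V → ℝ) (hy : ∀ v, 0 ≤ y v)
    (hcov : ∀ e ∈ R, e ∈ C → w e ≤ ysum y (vs e)) :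
    Zc vs w C k b R ≤ ∑ v, y v + Γ * ∑ j ∈ Finset.range k,
      ((Finset.univ.filter (fun σ : Finset V => ysum y σ < b j σ)).card : ℝ) := by
  classical
  have hex : ∀ σ : Finset V, ∃ q : V → ℝ, (∀ v, 0 ≤ q v) ∧ ∑ v, q v ≤ 1 ∧
      (σ.Nonempty → 1 ≤ ysum q σ) := by
    intro σ
    rcases σ.eq_empty_or_nonempty with h0 | ⟨v, hv⟩
    · refine ⟨fun _ => 0, fun _ => le_refl _, by simp, fun h => ?_⟩
      rw [h0] at h
      exact absurd h Finset.not_nonempty_empty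
    · refine ⟨fun u => if u = v then 1 else 0, fun u => ?_, ?_, fun _ => ?_⟩
      · dsimp only
        split_ifs
        · exact zero_le_one
        · exact le_refl _
      · simp
      · unfold ysum
        rw [Finset.sum_ite_eq' σ v (fun _ => (1 : ℝ)), if_pos hv]
  choose q hq0 hq1 hq2 using hex
  obtain ⟨F, hF⟩ : ∃ F : ℕ → Finset (Finset V),
      F = fun j => Finset.univ.filter (fun σ : Finset V => ysum y σ < b j σ) := ⟨_, rfl⟩
  have hFm : ∀ j σ, σ ∈ F j ↔ ysum y σ < b j σ := by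
    intro j σ
    rw [hF]
    simp
  have hcard : ∑ j ∈ Finset.range k,
      ((Finset.univ.filter (fun σ : Finset V => ysum y σ < b j σ)).card : ℝ) =
      ∑ j ∈ Finset.range k, ((F j).card : ℝ) := by
    rw [hF]
  rw [hcard]
  have hx0 : ∀ v, 0 ≤ ∑ j ∈ Finset.range k, ∑ σ ∈ F j, q σ v := fun v =>
    Finset.sum_nonneg fun j _ => Finset.sum_nonneg fun σ _ => hq0 σ v
  have hmono : ∀ v, y v ≤ y v + Γ * ∑ j ∈ Finset.range k, ∑ σ ∈ F j, q σ v := by
    intro v
    have := mul_nonneg hΓ (hx0 v)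
    linarith
  have hnn : ∀ v, 0 ≤ y v + Γ * ∑ j ∈ Finset.range k, ∑ σ ∈ F j, q σ v := fun v =>
    (hy v).trans (hmono v)
  have hmem : (fun v => y v + Γ * ∑ j ∈ Finset.range k, ∑ σ ∈ F j, q σ v) ∈
      CovSet vs w C k b R := by
    refine ⟨hnn, fun e he heC => (hcov e he heC).trans (ysum_mono hmono _), fun j hj σ => ?_⟩
    by_cases hs : ysum y σ < b j σ
    · have hne : σ.Nonempty := by
        rcases σ.eq_empty_or_nonempty with h0 | h1
        · exfalso
          rw [h0, hb.zero j hj] at hs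
          exact absurd (ysum_nonneg hy (∅ : Finset V)) (not_le.2 hs)
        · exact h1
      have h1 : ∀ v, Γ * q σ v ≤ y v + Γ * ∑ j ∈ Finset.range k, ∑ σ ∈ F j, q σ v := by
        intro v
        have h2 : q σ v ≤ ∑ τ ∈ F j, q τ v :=
          Finset.single_le_sum (f := fun τ => q τ v) (fun τ _ => hq0 τ v) ((hFm j σ).2 hs)
        have h3 : ∑ τ ∈ F j, q τ v ≤ ∑ i ∈ Finset.range k, ∑ τ ∈ F i, q τ v :=
          Finset.single_le_sum (f := fun i => ∑ τ ∈ F i, q τ v)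
            (fun i _ => Finset.sum_nonneg fun τ _ => hq0 τ v) (Finset.mem_range.2 hj)
        have h4 := mul_le_mul_of_nonneg_left (h2.trans h3) hΓ
        linarith [hy v]
      have h5 := ysum_mono h1 σ
      have h6 : ysum (fun v => Γ * q σ v) σ = Γ * ysum (q σ) σ := by
        unfold ysum
        rw [Finset.mul_sum]
      have h7 : Γ ≤ Γ * ysum (q σ) σ := by
        have := mul_le_mul_of_nonneg_left (hq2 σ hne) hΓ
        linarith
      calc b j σ ≤ Γ := hb.le j hj σ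
        _ ≤ Γ * ysum (q σ) σ := h7
        _ = ysum (fun v => Γ * q σ v) σ := h6.symm
        _ ≤ _ := h5
    · exact (not_lt.1 hs).trans (ysum_mono hmono _)
  have h8 := Zc_le_sum hmem
  have h9 : ∑ v, (y v + Γ * ∑ j ∈ Finset.range k, ∑ σ ∈ F j, q σ v) =
      ∑ v, y v + Γ * ∑ j ∈ Finset.range k, ∑ σ ∈ F j, ∑ v, q σ v := by
    rw [Finset.sum_add_distrib, ← Finset.mul_sum, Finset.sum_comm]
    congr 2
    refine Finset.sum_congr rfl fun j _ => ?_
    rw [Finset.sum_comm]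
  have h10 : ∑ j ∈ Finset.range k, ∑ σ ∈ F j, ∑ v, q σ v ≤
      ∑ j ∈ Finset.range k, ((F j).card : ℝ) := by
    refine Finset.sum_le_sum fun j _ => ?_
    calc ∑ σ ∈ F j, ∑ v, q σ v ≤ ∑ σ ∈ F j, (1 : ℝ) := Finset.sum_le_sum fun σ _ => hq1 σ
      _ = ((F j).card : ℝ) := by simp
  have h11 := mul_le_mul_of_nonneg_left h10 hΓ
  calc Zc vs w C k b R ≤ ∑ v, (y v + Γ * ∑ j ∈ Finset.range k, ∑ σ ∈ F j, q σ v) := h8
    _ = ∑ v, y v + Γ * ∑ j ∈ Finset.range k, ∑ σ ∈ F j, ∑ v, q σ v := h9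
    _ ≤ _ := by linarith

theorem Zc_mean {vs : E → Finset V} {w : E → ℝ} {Γ : ℝ} (hΓ : 0 ≤ Γ) (hw : ∀ e, w e ≤ Γ)
    (hne : ∀ e, (vs e).Nonempty) (C : Finset E) {k : ℕ} {b : ℕ → Finset V → ℝ}
    (hb : Adm Γ k b) {p : ℝ} (hp : 0 ≤ p) (hp1 : p ≤ 1) (z : Finset E → E → ℝ)
    (hz : ∀ R, IsFM vs (z R)) (hz0 : ∀ R e, e ∉ R → z R e = 0) (s' : ℝ) (hs' : 0 ≤ s')
    (G : Finset E)
    (hG : ∀ e ∈ G, ∀ y : V → ℝ, (∀ v, 0 ≤ y v) → (∀ j < k, ∀ σ, b j σ ≤ ysum y σ) →
      w e ≤ ysum y (vs e) + s') :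
    ∑ e, w e * mean p z e - s' * ∑ e, mean p z e - Γ * ∑ e ∈ (C ∪ G)ᶜ, mean p z e ≤
      Ex (fun _ => p) (fun R => Zc vs w C k b R) := by
  classical
  have hr : IsRate (fun _ : E => p) := fun _ => ⟨hp, hp1⟩
  have key : ∀ R : Finset E, ∑ e, w e * z R e - s' * ∑ e, z R e -
      Γ * ∑ e ∈ (C ∪ G)ᶜ, z R e ≤ Zc vs w C k b R := by
    intro R
    refine le_Zc hΓ hw hne C hb R fun y hy => ?_
    obtain ⟨hy0, hyc, hys⟩ := hy
    have hz1 := (hz R).nonneg
    have h1 : ∀ e, w e * z R e ≤ ysum y (vs e) * z R e + s' * z R e +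
        (if e ∈ (C ∪ G)ᶜ then Γ * z R e else 0) := by
      intro e
      have hs0 : 0 ≤ s' * z R e := mul_nonneg hs' (hz1 e)
      have hy1 : 0 ≤ ysum y (vs e) * z R e := mul_nonneg (ysum_nonneg hy0 _) (hz1 e)
      have hG0 : 0 ≤ Γ * z R e := mul_nonneg hΓ (hz1 e)
      by_cases hCG : e ∈ (C ∪ G)ᶜ
      · rw [if_pos hCG]
        have := mul_le_mul_of_nonneg_right (hw e) (hz1 e)
        linarith
      · rw [if_neg hCG]
        by_cases heG : e ∈ G
        · have h2 := mul_le_mul_of_nonneg_right (hG e heG y hy0 hys) (hz1 e)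
          rw [add_mul] at h2
          linarith
        · have heC : e ∈ C := by
            by_contra hC
            apply hCG
            rw [Finset.mem_compl, Finset.mem_union]
            rintro (h | h)
            · exact hC h
            · exact heG h
          by_cases heR : e ∈ R
          · have h2 := mul_le_mul_of_nonneg_right (hyc e heR heC) (hz1 e)
            linarith
          · rw [hz0 R e heR]
            simp
    have h2 : ∑ e, w e * z R e ≤ ∑ e, ysum y (vs e) * z R e + s' * ∑ e, z R e +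
        Γ * ∑ e ∈ (C ∪ G)ᶜ, z R e := by
      calc ∑ e, w e * z R e ≤ ∑ e, (ysum y (vs e) * z R e + s' * z R e +
          (if e ∈ (C ∪ G)ᶜ then Γ * z R e else 0)) := Finset.sum_le_sum fun e _ => h1 e
        _ = _ := by
          rw [Finset.sum_add_distrib, Finset.sum_add_distrib, ← Finset.mul_sum,
            Finset.sum_ite_mem, Finset.univ_inter, ← Finset.mul_sum]
    have h3 : ∑ e, ysum y (vs e) * z R e = ∑ v, y v * deg vs (z R) v := by
      unfold ysum deg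
      have h4 : ∀ e, (∑ v ∈ vs e, y v) * z R e = ∑ v, (if v ∈ vs e then y v * z R e else 0) := by
        intro e
        rw [Finset.sum_mul, Finset.sum_ite_mem, Finset.univ_inter]
      rw [Finset.sum_congr rfl fun e _ => h4 e, Finset.sum_comm]
      refine Finset.sum_congr rfl fun v _ => ?_
      rw [Finset.mul_sum]
      refine Finset.sum_congr rfl fun e _ => ?_
      split_ifs
      · rfl
      · rw [mul_zero]
    have h5 : ∑ v, y v * deg vs (z R) v ≤ ∑ v, y v := by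
      refine Finset.sum_le_sum fun v _ => ?_
      have := mul_le_mul_of_nonneg_left ((hz R).deg_le v) (hy0 v)
      linarith
    linarith
  have h6 := Ex_mono hr key
  have h7 : Ex (fun _ : E => p) (fun R => ∑ e, w e * z R e - s' * ∑ e, z R e -
      Γ * ∑ e ∈ (C ∪ G)ᶜ, z R e) =
      ∑ e, w e * mean p z e - s' * ∑ e, mean p z e - Γ * ∑ e ∈ (C ∪ G)ᶜ, mean p z e := by
    rw [Ex_sub, Ex_sub, Ex_mul_left, Ex_mul_left, Ex_sum, Ex_sum, Ex_sum]
    unfold mean
    congr 2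
    refine Finset.sum_congr rfl fun e _ => ?_
    rw [Ex_mul_left]
  rw [← h7]
  exact h6

end Pool.Agent.Helper68.SP
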