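import Pool.Agent.Helper68.SP.Prob

/-!
# Project SP, file Defs: hypergraphs, fractional matchings, the rates of the sparsifier
-/

set_option autoImplicit false

namespace Pool.Agent.Helper68.SP

open Finset

section

variable {E V : Type*} [Fintype E] [DecidableEq E] [DecidableEq V]

/-- the degree of the vertex `v` under the weights `z`; `vs e` is the set of vertices of `e` -/
def deg (vs : E → Finset V) (z : E → ℝ) (v : V) : ℝ := ∑ e, if v ∈ vs e then z e else 0

/-- fractional matchings -/
structure IsFM (vs : E → Finset V) (z : E → ℝ) : Prop where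
  nonneg : ∀ e, 0 ≤ z e
  deg_le : ∀ v, deg vs z v ≤ 1

/-- the sum of `y` over a set of vertices -/
def ysum (y : V → ℝ) (σ : Finset V) : ℝ := ∑ v ∈ σ, y v

/-- the expectation of the random vector `z R` -/
noncomputable def mean (p : ℝ) (z : Finset E → E → ℝ) (e : E) : ℝ :=
  Ex (fun _ => p) (fun R => z R e)

/-- the rates of the sparsifier -/
noncomputable def rateQ (τ p : ℝ) (x : E → ℝ) (e : E) : ℝ := min 1 (x e / (τ * p))

end

section

variable {E U : Type*} {k : ℕ}

/-- the vertex set of `e` in the `k`-partite hypergraph with class maps `c i` -/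
def pvs [DecidableEq U] (c : Fin k → E → U) (e : E) : Finset (Fin k × U) :=
  Finset.univ.image (fun i => (i, c i e))

/-- matchings of the `k`-partite hypergraph -/
def IsMatching (c : Fin k → E → U) (S : Finset E) : Prop := ∀ i, Set.InjOn (c i) (S : Set E)

end

end Pool.Agent.Helper68.SP
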