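import Pool.Agent.Helper68.SP.Scale

/-!
# Project SP: a deterministic sparsifier
-/

set_option autoImplicit false

namespace Pool.Agent.Helper68.SP

open Finset

lemma isRate_const {E : Type} {p : ℝ} (hp : 0 ≤ p) (hp1 : p ≤ 1) :
    IsRate (fun _ : E => p) := fun _ => ⟨hp, hp1⟩

lemma mean_nonneg {E : Type} [Fintype E] [DecidableEq E] {p : ℝ} (hp : 0 ≤ p) (hp1 : p ≤ 1)
    {z : Finset E → E → ℝ} (hz : ∀ R e, 0 ≤ z R e) (e : E) : 0 ≤ mean p z e :=
  Ex_nonneg (isRate_const hp hp1) (fun R => hz R e)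

lemma isRate_rateQ {E : Type} {τ p : ℝ} (hτ : 0 < τ) (hp : 0 < p) {x : E → ℝ}
    (hx : ∀ e, 0 ≤ x e) : IsRate (rateQ τ p x) := by
  intro e
  unfold rateQ
  refine ⟨le_min zero_le_one (div_nonneg (hx e) (mul_pos hτ hp).le), min_le_left _ _⟩

lemma Ex_card {E : Type} [Fintype E] [DecidableEq E] (r : E → ℝ) :
    Ex r (fun S => (S.card : ℝ)) = ∑ e, r e := by
  have h : ∀ S : Finset E, (S.card : ℝ) = ∑ e, if e ∈ S then (1 : ℝ) else 0 := by
    intro S
    rw [Finset.sum_ite_mem, Finset.univ_inter, Finset.sum_const, nsmul_eq_mul, mul_one]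
  rw [Ex_congr r h, Ex_sum]
  exact Finset.sum_congr rfl fun e _ => Ex_mem r e

lemma sum_mean_zOpt_le {E U : Type} [Fintype E] [DecidableEq E] {k : ℕ} (c : Fin k → E → U)
    (w : E → ℝ) {p : ℝ} (hp : 0 ≤ p) (hp1 : p ≤ 1) :
    ∑ e, mean p (zOpt c w) e ≤ (rankM c : ℝ) := by
  unfold mean
  rw [← Ex_sum]
  apply Ex_le_of_le (isRate_const hp hp1)
  intro R
  have h : ∑ e, zOpt c w R e = ((optSol c w R).card : ℝ) := by
    unfold zOpt
    rw [Finset.sum_ite_mem, Finset.univ_inter, Finset.sum_const, nsmul_eq_mul, mul_one]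
  rw [h]
  exact_mod_cast card_le_rankM (optSol_isMatching c w R)

theorem det_sparsifier (k : ℕ) (hk : 2 ≤ k) (ε : ℝ) (hε : 0 < ε) :
    ∃ C : ℝ, 0 < C ∧ ∀ (E U : Type) [Fintype E] [DecidableEq E] [Fintype U] [DecidableEq U]
      (c : Fin k → E → U) (w : E → ℝ) (p : ℝ), (∀ e, 0 ≤ w e) → 0 < p → p ≤ 1 →
      ∃ Q : Finset E, (Q.card : ℝ) ≤ C / p * (rankM c : ℝ) ∧
        (1 - ε) / ((k : ℝ) - 1) * Ex (fun _ => p) (optM c w) ≤
          Ex (fun _ => p) (fun R => optM c w (Q ∩ R)) := by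
  obtain ⟨τ, hτ, hτ1, hτr⟩ := random_sparsifier k hk (ε / 2) (by linarith)
  have hk1 : (1 : ℝ) ≤ (k : ℝ) - 1 := by
    have : (2 : ℝ) ≤ (k : ℝ) := by exact_mod_cast hk
    linarith
  have hk0 : (0 : ℝ) < (k : ℝ) - 1 := by linarith
  refine ⟨2 * ((k : ℝ) - 1) / (ε * τ), by positivity, ?_⟩
  intro E U _ _ _ _ c w p hw hp hp1
  have hpr : IsRate (fun _ : E => p) := isRate_const hp.le hp1
  have hA0 : 0 ≤ Ex (fun _ => p) (optM c w) := Ex_nonneg hpr (fun R => optM_nonneg c w R)
  have hΦ0 : ∀ Q : Finset E, 0 ≤ Ex (fun _ => p) (fun R => optM c w (Q ∩ R)) :=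
    fun Q => Ex_nonneg hpr (fun R => optM_nonneg c w _)
  rcases hA0.eq_or_lt with hA | hA
  · refine ⟨∅, ?_, ?_⟩
    · simp only [Finset.card_empty, Nat.cast_zero]
      positivity
    · rw [← hA, mul_zero]
      exact hΦ0 ∅
  · -- the rank is positive
    have hrank : 0 < (rankM c : ℝ) := by
      have h1 : ∃ R, 0 < optM c w R := by
        by_contra hcon
        push Not at hcon
        have := Ex_le_of_le hpr hcon
        linarith
      obtain ⟨R, hR⟩ := h1
      have h2 : (optSol c w R).Nonempty := by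
        by_contra hcon
        rw [Finset.not_nonempty_iff_eq_empty] at hcon
        rw [← sum_optSol c w R, hcon, Finset.sum_empty] at hR
        exact lt_irrefl _ hR
      have h3 : 1 ≤ rankM c := le_trans (Finset.card_pos.2 h2) (card_le_rankM (optSol_isMatching c w R))
      exact_mod_cast h3
    set A := Ex (fun _ => p) (optM c w) with hAdef
    set x := mean p (zOpt c w) with hx
    have hx0 : ∀ e, 0 ≤ x e := by
      apply mean_nonneg hp.le hp1
      intro R e
      unfold zOpt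
      split_ifs <;> norm_num
    set q := rateQ τ p x with hq
    have hqr : IsRate q := isRate_rateQ hτ hp hx0
    have hD : ∑ e, q e ≤ (rankM c : ℝ) / (τ * p) := by
      calc ∑ e, q e ≤ ∑ e, x e / (τ * p) := Finset.sum_le_sum fun e _ => min_le_right _ _
        _ = (∑ e, x e) / (τ * p) := by rw [Finset.sum_div]
        _ ≤ (rankM c : ℝ) / (τ * p) := by
          apply div_le_div_of_nonneg_right (sum_mean_zOpt_le c w hp.le hp1) (mul_pos hτ hp).le
    set β := (ε / 2) / ((k : ℝ) - 1) * A * (τ * p) / (rankM c : ℝ) with hβ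
    have hβ0 : 0 < β := by positivity
    obtain ⟨Q, hQ⟩ := exists_ge_Ex hqr
      (fun Q => Ex (fun _ => p) (fun R => optM c w (Q ∩ R)) - β * (Q.card : ℝ))
    rw [Ex_sub, Ex_mul_left, Ex_card] at hQ
    have h1 := hτr E U c w p hw hp hp1
    rw [← hAdef, ← hx, ← hq] at h1
    have h2 : β * ∑ e, q e ≤ (ε / 2) / ((k : ℝ) - 1) * A := by
      calc β * ∑ e, q e ≤ β * ((rankM c : ℝ) / (τ * p)) := mul_le_mul_of_nonneg_left hD hβ0.le
        _ = (ε / 2) / ((k : ℝ) - 1) * A := by
          rw [hβ]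
          field_simp
    have h3 : (1 - ε) / ((k : ℝ) - 1) * A =
        (1 - ε / 2) / ((k : ℝ) - 1) * A - (ε / 2) / ((k : ℝ) - 1) * A := by ring
    have h4 : (1 - ε) / ((k : ℝ) - 1) * A + β * (Q.card : ℝ) ≤
        Ex (fun _ => p) (fun R => optM c w (Q ∩ R)) := by
      rw [h3]
      linarith
    have h5 : Ex (fun _ => p) (fun R => optM c w (Q ∩ R)) ≤ A :=
      Ex_mono hpr (fun R => optM_mono c w Finset.inter_subset_right)
    by_cases hε1 : ε ≤ 1
    · refine ⟨Q, ?_, ?_⟩
      · have h6 : 0 ≤ (1 - ε) / ((k : ℝ) - 1) * A := by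
          have : 0 ≤ 1 - ε := by linarith
          positivity
        have h7 : β * (Q.card : ℝ) ≤ A := by linarith
        have h8 : (Q.card : ℝ) ≤ A / β := by
          rw [le_div_iff₀ hβ0]
          linarith
        refine h8.trans (le_of_eq ?_)
        rw [hβ]
        field_simp
      · have : 0 ≤ β * (Q.card : ℝ) := by positivity
        linarith
    · refine ⟨∅, ?_, ?_⟩
      · simp only [Finset.card_empty, Nat.cast_zero]
        positivity
      · have h6 : (1 - ε) / ((k : ℝ) - 1) * A ≤ 0 := by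
          apply mul_nonpos_of_nonpos_of_nonneg _ hA.le
          apply div_nonpos_of_nonpos_of_nonneg _ hk0.le
          linarith
        exact h6.trans (hΦ0 ∅)

end Pool.Agent.Helper68.SP
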