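import Pool.Agent.Helper68.SP.HeavyDefs

/-!
# SP-13: the number of heavy sets

PROOF.
* `card_of_heavy`: `0 < δ σ.card ≤ cm σ`, so some `e ∈ N` has `σ ⊆ vs e`, hence `σ.card ≤ k`; `σ` is nonempty.
* `sum_heavy_le`: `∑_{σ ∈ T} g σ.card ≤ ∑_{σ ∈ T} (g σ.card / δ σ.card) cm σ = ∑_{e ∈ N} x e ∑_{σ ∈ T, σ ⊆ vs e} g σ.card / δ σ.card`.  For a fixed `e` the sets `σ ⊆ vs e` are at
  most `2^k`, and each has `σ.card ∈ Icc 1 k`, `g σ.card / δ σ.card ≤ ∑_{a ∈ Icc 1 k} g a / δ a`.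
-/

set_option autoImplicit false

namespace Pool.Agent.Helper68.SP

open Finset

variable {E V : Type} [Fintype E] [DecidableEq E] [Fintype V] [DecidableEq V]

theorem mem_heavySets {vs : E → Finset V} {x : E → ℝ} {N : Finset E} {δ : ℕ → ℝ} {σ : Finset V} :
    σ ∈ heavySets vs x N δ ↔ Heavy vs x N δ σ := by
  classical
  unfold heavySets
  rw [Finset.mem_filter]
  exact ⟨fun h => h.2, fun h => ⟨Finset.mem_univ _, h⟩⟩

theorem card_of_heavy {k : ℕ} {vs : E → Finset V} (hvs : ∀ e, (vs e).card ≤ k) {x : E → ℝ}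
    {N : Finset E} {δ : ℕ → ℝ} (hδ : ∀ a, 0 < δ a) {σ : Finset V}
    (hσ : σ ∈ heavySets vs x N δ) : 1 ≤ σ.card ∧ σ.card ≤ k := by
  obtain ⟨h1, h2⟩ := mem_heavySets.1 hσ
  refine ⟨Finset.card_pos.2 h1, ?_⟩
  by_contra hk
  have h0 : cm vs x N σ = 0 := by
    unfold cm
    refine Finset.sum_eq_zero fun e _ => ?_
    rw [if_neg]
    intro hs
    exact hk ((Finset.card_le_card hs).trans (hvs e))
  have := hδ σ.card
  rw [h0] at h2
  linarith

theorem sum_heavy_le {k : ℕ} {vs : E → Finset V} (hvs : ∀ e, (vs e).card ≤ k) {x : E → ℝ}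
    (hx : ∀ e, 0 ≤ x e) {N : Finset E} {δ : ℕ → ℝ} (hδ : ∀ a, 0 < δ a) (g : ℕ → ℝ)
    (hg : ∀ a, 0 ≤ g a) :
    ∑ σ ∈ heavySets vs x N δ, g σ.card ≤
      2 ^ k * (∑ e ∈ N, x e) * ∑ a ∈ Finset.Icc 1 k, g a / δ a := by
  have hgd : ∀ a, 0 ≤ g a / δ a := fun a => div_nonneg (hg a) (hδ a).le
  have h1 : ∀ σ ∈ heavySets vs x N δ, g σ.card ≤ g σ.card / δ σ.card * cm vs x N σ := by
    intro σ hσ
    have h2 := (mem_heavySets.1 hσ).2
    calc g σ.card = g σ.card / δ σ.card * δ σ.card := by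
          rw [div_mul_cancel₀ _ (hδ _).ne']
      _ ≤ g σ.card / δ σ.card * cm vs x N σ := mul_le_mul_of_nonneg_left h2 (hgd _)
  refine (Finset.sum_le_sum h1).trans ?_
  have h3 : ∑ σ ∈ heavySets vs x N δ, g σ.card / δ σ.card * cm vs x N σ =
      ∑ e ∈ N, x e * ∑ σ ∈ (heavySets vs x N δ).filter (fun σ => σ ⊆ vs e),
        g σ.card / δ σ.card := by
    unfold cm
    simp_rw [Finset.mul_sum]
    rw [Finset.sum_comm]
    refine Finset.sum_congr rfl fun e _ => ?_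
    rw [Finset.sum_filter]
    refine Finset.sum_congr rfl fun σ _ => ?_
    split_ifs
    · rw [mul_comm]
    · rw [mul_zero]
  rw [h3]
  have h4 : ∀ e ∈ N, x e * ∑ σ ∈ (heavySets vs x N δ).filter (fun σ => σ ⊆ vs e),
      g σ.card / δ σ.card ≤ x e * (2 ^ k * ∑ a ∈ Finset.Icc 1 k, g a / δ a) := by
    intro e _
    refine mul_le_mul_of_nonneg_left ?_ (hx e)
    have h5 : ∀ σ ∈ (heavySets vs x N δ).filter (fun σ => σ ⊆ vs e),
        g σ.card / δ σ.card ≤ ∑ a ∈ Finset.Icc 1 k, g a / δ a := by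
      intro σ hσ
      have h6 := card_of_heavy hvs hδ (Finset.mem_filter.1 hσ).1
      exact Finset.single_le_sum (f := fun a => g a / δ a) (fun a _ => hgd a)
        (Finset.mem_Icc.2 h6)
    have h7 := Finset.sum_le_card_nsmul _ _ _ h5
    refine h7.trans ?_
    rw [nsmul_eq_mul]
    refine mul_le_mul_of_nonneg_right ?_ (Finset.sum_nonneg fun a _ => hgd a)
    have h8 : ((heavySets vs x N δ).filter (fun σ => σ ⊆ vs e)).card ≤ 2 ^ k := by
      have h9 : (heavySets vs x N δ).filter (fun σ => σ ⊆ vs e) ⊆ (vs e).powerset := by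
        intro σ hσ
        exact Finset.mem_powerset.2 (Finset.mem_filter.1 hσ).2
      refine (Finset.card_le_card h9).trans ?_
      rw [Finset.card_powerset]
      exact Nat.pow_le_pow_right (by norm_num) (hvs e)
    exact_mod_cast h8
  refine (Finset.sum_le_sum h4).trans (le_of_eq ?_)
  rw [← Finset.sum_mul]
  ring

end Pool.Agent.Helper68.SP
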