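import Pool.Agent.Helper68.SP.Defs

/-!
# Project SP: heavy sets of vertices (definitions)
-/

set_option autoImplicit false

namespace Pool.Agent.Helper68.SP

open Finset

variable {E V : Type} [Fintype E] [DecidableEq E] [Fintype V] [DecidableEq V]

/-- the mass of the elements of `N` that contain `σ` -/
noncomputable def cm (vs : E → Finset V) (x : E → ℝ) (N : Finset E) (σ : Finset V) : ℝ :=
  ∑ e ∈ N, if σ ⊆ vs e then x e else 0

/-- heavy sets -/
def Heavy (vs : E → Finset V) (x : E → ℝ) (N : Finset E) (δ : ℕ → ℝ) (σ : Finset V) : Prop :=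
  σ.Nonempty ∧ δ σ.card ≤ cm vs x N σ

open Classical in
/-- the finite set of the heavy sets -/
noncomputable def heavySets (vs : E → Finset V) (x : E → ℝ) (N : Finset E) (δ : ℕ → ℝ) :
    Finset (Finset V) := Finset.univ.filter (Heavy vs x N δ)

end Pool.Agent.Helper68.SP
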