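import Pool.Agent.Helper68.SP.Defs

/-!
# SP-01: a fractional matching with linearly independent support

`Indep vs S`: the columns of the incidence matrix with index in `S` are linearly independent.

PROOF of `exists_indep_support`.  Strong induction on the cardinality of the support
`S = {e | z e ≠ 0}`.  If `Indep (pvs c) S` take `z' = z`.  Otherwise there is `a ≠ 0` with `a e = 0` for
`e ∉ S` and `deg (pvs c) a v = 0` for all `v`.  Summing over the vertices `(0, u)` of the first side (`k ≥ 1`;
each `e` has exactly one vertex there: `(0, u) ∈ pvs c e ↔ c 0 e = u`) gives `∑ e, a e = 0`, so `a` has a positive and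
a negative coordinate.  Replacing `a` by `-a` we may assume `0 ≤ ∑ w e * a e`.  Let `e₀` minimise
`z e / (- a e)` among the `e` with `a e < 0`, `t = z e₀ / (- a e₀) > 0`; then `z₁ = z + t a ≥ 0`, `z₁ e₀ = 0`, the support of `z₁` is
contained in `S` and does not contain `e₀ ∈ S`, `deg z₁ v = deg z v`, `∑ w z ≤ ∑ w z₁`.  Apply the induction hypothesis.
(Compare `Pool/Agent/Helper92/Weak/Farkas.lean`, lemma `exists_indep_support`, for the same argument over `ℚ`.)
-/

set_option autoImplicit false

namespace Pool.Agent.Helper68.SP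

open Finset

/-- the columns of the incidence matrix with index in `S` are linearly independent -/
def Indep {E V : Type*} [Fintype E] [DecidableEq E] [DecidableEq V] (vs : E → Finset V)
    (S : Finset E) : Prop :=
  ∀ a : E → ℝ, (∀ e, e ∉ S → a e = 0) → (∀ v, deg vs a v = 0) → a = 0

lemma deg_add_mul {E V : Type*} [Fintype E] [DecidableEq E] [DecidableEq V] (vs : E → Finset V)
    (z a : E → ℝ) (t : ℝ) (v : V) :
    deg vs (fun e => z e + t * a e) v = deg vs z v + t * deg vs a v := by
  unfold deg
  rw [Finset.mul_sum, ← Finset.sum_add_distrib]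
  refine Finset.sum_congr rfl fun e _ => ?_
  split_ifs <;> simp

lemma deg_neg {E V : Type*} [Fintype E] [DecidableEq E] [DecidableEq V] (vs : E → Finset V)
    (a : E → ℝ) (v : V) :
    deg vs (fun e => - a e) v = - deg vs a v := by
  unfold deg
  rw [← Finset.sum_neg_distrib]
  refine Finset.sum_congr rfl fun e _ => ?_
  split_ifs <;> simp

lemma mem_pvs_iff {E U : Type*} [DecidableEq U] {k : ℕ} (c : Fin k → E → U) (e : E) (i : Fin k)
    (u : U) : (i, u) ∈ pvs c e ↔ c i e = u := by
  unfold pvs
  simp only [Finset.mem_image, Finset.mem_univ, true_and, Prod.mk.injEq]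
  constructor
  · rintro ⟨j, rfl, h⟩
    exact h
  · intro h
    exact ⟨i, rfl, h⟩

lemma sum_eq_zero_of_deg {E U : Type} [Fintype E] [DecidableEq E] [Fintype U] [DecidableEq U]
    {k : ℕ} (hk : 1 ≤ k) (c : Fin k → E → U) (a : E → ℝ) (ha : ∀ v, deg (pvs c) a v = 0) :
    ∑ e, a e = 0 := by
  have h1 : ∑ u : U, deg (pvs c) a (⟨0, hk⟩, u) = ∑ e, a e := by
    unfold deg
    rw [Finset.sum_comm]
    refine Finset.sum_congr rfl fun e _ => ?_
    simp only [mem_pvs_iff]
    simp
  rw [← h1]
  exact Finset.sum_eq_zero fun u _ => ha _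

/-- one step: the support can be made smaller -/
lemma indep_step {E U : Type} [Fintype E] [DecidableEq E] [Fintype U] [DecidableEq U]
    {k : ℕ} (hk : 1 ≤ k) (c : Fin k → E → U) (w z : E → ℝ) (hz : IsFM (pvs c) z)
    (a : E → ℝ) (haS : ∀ e, z e = 0 → a e = 0) (had : ∀ v, deg (pvs c) a v = 0) (ha0 : a ≠ 0)
    (haw : 0 ≤ ∑ e, w e * a e) :
    ∃ z' : E → ℝ, IsFM (pvs c) z' ∧ (∀ e, z e = 0 → z' e = 0) ∧ (∃ e, z e ≠ 0 ∧ z' e = 0) ∧
      ∑ e, w e * z e ≤ ∑ e, w e * z' e := by
  classical
  have hsum := sum_eq_zero_of_deg hk c a had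
  -- a negative coordinate
  have hneg : ∃ e, a e < 0 := by
    by_contra hcon
    push Not at hcon
    apply ha0
    have h1 := (Finset.sum_eq_zero_iff_of_nonneg (fun e _ => hcon e)).1 hsum
    funext e
    exact h1 e (Finset.mem_univ e)
  obtain ⟨e₁, he₁⟩ := hneg
  obtain ⟨e₀, he₀, hmin⟩ := Finset.exists_min_image (Finset.univ.filter (fun e => a e < 0))
    (fun e => z e / (- a e)) ⟨e₁, by simp [he₁]⟩
  have he₀n : a e₀ < 0 := (Finset.mem_filter.1 he₀).2
  have hz₀ : z e₀ ≠ 0 := fun h => by
    have := haS e₀ h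
    linarith
  have hz₀p : 0 < z e₀ := lt_of_le_of_ne (hz.nonneg e₀) (Ne.symm hz₀)
  set t : ℝ := z e₀ / (- a e₀) with ht
  have htp : 0 < t := div_pos hz₀p (by linarith)
  refine ⟨fun e => z e + t * a e, ⟨?_, ?_⟩, ?_, ⟨e₀, hz₀, ?_⟩, ?_⟩
  · intro e
    by_cases h : a e < 0
    · have h2 := hmin e (Finset.mem_filter.2 ⟨Finset.mem_univ e, h⟩)
      have h3 : t ≤ z e / (- a e) := h2
      rw [le_div_iff₀ (by linarith)] at h3
      have h4 : 0 ≤ z e + t * a e := by linarith
      exact h4
    · push Not at h
      have := mul_nonneg htp.le h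
      have h5 := hz.nonneg e
      have h4 : 0 ≤ z e + t * a e := by linarith
      exact h4
  · intro v
    rw [deg_add_mul, had v]
    have := hz.deg_le v
    linarith
  · intro e he
    simp [he, haS e he]
  · simp only
    rw [ht]
    have : a e₀ ≠ 0 := ne_of_lt he₀n
    field_simp
    ring
  · have h1 : ∑ e, w e * (z e + t * a e) = ∑ e, w e * z e + t * ∑ e, w e * a e := by
      rw [Finset.mul_sum, ← Finset.sum_add_distrib]
      exact Finset.sum_congr rfl fun e _ => by ring
    rw [h1]
    have := mul_nonneg htp.le haw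
    linarith

theorem exists_indep_support {E U : Type} [Fintype E] [DecidableEq E] [Fintype U] [DecidableEq U]
    {k : ℕ} (hk : 1 ≤ k) (c : Fin k → E → U) (w z : E → ℝ) (hz : IsFM (pvs c) z) :
    ∃ z' : E → ℝ, IsFM (pvs c) z' ∧ (∀ e, z e = 0 → z' e = 0) ∧
      ∑ e, w e * z e ≤ ∑ e, w e * z' e ∧ Indep (pvs c) (Finset.univ.filter (fun e => z' e ≠ 0)) := by
  classical
  obtain ⟨n, hn⟩ : ∃ n, (Finset.univ.filter (fun e => z e ≠ 0)).card = n := ⟨_, rfl⟩
  induction n using Nat.strong_induction_on generalizing z with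
  | _ n ih =>
    by_cases hI : Indep (pvs c) (Finset.univ.filter (fun e => z e ≠ 0))
    · exact ⟨z, hz, fun e h => h, le_refl _, hI⟩
    · unfold Indep at hI
      push Not at hI
      obtain ⟨a, haS, had, ha0⟩ := hI
      have haS' : ∀ e, z e = 0 → a e = 0 := fun e he => haS e (by simp [he])
      have hstep : ∃ z' : E → ℝ, IsFM (pvs c) z' ∧ (∀ e, z e = 0 → z' e = 0) ∧
          (∃ e, z e ≠ 0 ∧ z' e = 0) ∧ ∑ e, w e * z e ≤ ∑ e, w e * z' e := by
        rcases le_total 0 (∑ e, w e * a e) with h | h
        · exact indep_step hk c w z hz a haS' had ha0 h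
        · refine indep_step hk c w z hz (fun e => - a e) (fun e he => by simp [haS' e he])
            (fun v => by rw [deg_neg, had v, neg_zero]) ?_ ?_
          · intro h0
            apply ha0
            funext e
            have := congrFun h0 e
            simpa using this
          · have h1 : ∑ e, w e * (- a e) = - ∑ e, w e * a e := by
              rw [← Finset.sum_neg_distrib]
              exact Finset.sum_congr rfl fun e _ => by ring
            rw [h1]
            linarith
      obtain ⟨z₁, hz₁, hsub, ⟨e₀, he₀, he₀'⟩, hw₁⟩ := hstep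
      have hlt : (Finset.univ.filter (fun e => z₁ e ≠ 0)).card < n := by
        rw [← hn]
        apply Finset.card_lt_card
        refine ⟨?_, ?_⟩
        · intro e he
          simp only [Finset.mem_filter, Finset.mem_univ, true_and] at he ⊢
          exact fun h => he (hsub e h)
        · intro hcon
          have h1 : e₀ ∈ Finset.univ.filter (fun e => z e ≠ 0) := by simp [he₀]
          have h2 := hcon h1
          simp only [Finset.mem_filter, Finset.mem_univ, true_and] at h2
          exact h2 he₀'
      obtain ⟨z', hz', hsub', hw', hI'⟩ := ih _ hlt z₁ hz₁ rfl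
      exact ⟨z', hz', fun e he => hsub' e (hsub e he), le_trans hw₁ hw', hI'⟩

end Pool.Agent.Helper68.SP
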