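import Pool.Agent.Helper68.SP.Defs

/-!
# SP-04: linear programming duality

PROOF.  `farkas` over `ℝ` (copy the proof of `Pool.Agent.Helper92.Weak.farkas` in
`Pool/Agent/Helper92/Weak/Farkas.lean`, which is over `ℚ`; it works verbatim over `ℝ`): for finitely many vectors `a i`
and `b` in a real vector space either `b = ∑ c i • a i` with `c ≥ 0` or there is a linear form `φ` with `φ (a i) ≥ 0` for all `i` and `φ b < 0`.

`strong_duality`: `b ≥ 0`.  In the space `(I → ℝ) × ℝ` consider for `j : J` the vectors `(fun i => A i j, - c j)`, for `i : I` the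
vectors `(Pi.single i 1, 0)`, the vector `(0, 1)` and the target `(b, - B)`.  In the first case of Farkas the coefficients `x j`, slack `s i`, `r` satisfy
`A x + s = b`, `- c·x + r = - B`: `x` is the solution.  In the second case the linear form is `φ (u, t) = ∑ y i u i + l t` with `y i ≥ 0`, `l ≥ 0`,
`∑ i, y i A i j ≥ l c j` for all `j`, and `∑ y i b i < l B`.  If `l = 0` this contradicts `b, y ≥ 0`.  If `l > 0` the vector `y / l` contradicts the
hypothesis.

`lp_policy`: `J = E`, `c = w`, `I = V ⊕ E`; rows `v`: `A v e = 1` if `v ∈ vs e`, else `0`, right side `1`; rows `e' : E`: `A e' e = 1` if `e = e'`, else `0`, right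
side `0` if `e' ∈ C`, `e' ∉ R`; `K * x e'` if `e' ∉ C`; and `1` if `e' ∈ C ∩ R` (a redundant constraint because `vs e'` is nonempty; in the dual
one can add the value of the row variable `t e'`, `e' ∈ C ∩ R`, to `y` at one vertex of `e'`, which does not change the cost).  Given dual variables `y v, t e ≥ 0` with
`ysum y (vs e) + t e ≥ w e`, let `y'` be `y` plus `∑_{e ∈ C ∩ R} t e` put at a chosen vertex of `e`; then `y'` covers `R ∩ C`, and for `e ∉ C` `t e ≥ max (w e - ysum y' (vs e)) 0`, so
the cost is at least `∑ y' v + K ∑_{e ∉ C} x e * max (w e - ysum y' (vs e)) 0 ≥ B`.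
-/

set_option autoImplicit false

namespace Pool.Agent.Helper68.SP

open Finset

/-- Farkas' lemma over the real numbers. -/
private theorem farkas {E : Type*} [AddCommGroup E] [Module ℝ E] {ι : Type*} (s : Finset ι) : ∀ (a : ι → E) (b : E),
    (∃ c : ι → ℝ, (∀ i ∈ s, 0 ≤ c i) ∧ b = ∑ i ∈ s, c i • a i) ∨
      (∃ y : E →ₗ[ℝ] ℝ, (∀ i ∈ s, 0 ≤ y (a i)) ∧ y b < 0) := by
  classical
  induction s using Finset.induction_on with
  | empty =>
    intro a b
    by_cases hb : b = 0
    · left
      exact ⟨0, by simp, by simp [hb]⟩
    · right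
      have h : ¬ ∀ φ : Module.Dual ℝ E, φ b = 0 := fun h =>
        hb ((Module.forall_dual_apply_eq_zero_iff ℝ b).1 h)
      push Not at h
      obtain ⟨φ, hφ⟩ := h
      rcases lt_or_gt_of_ne hφ with h1 | h1
      · exact ⟨φ, by simp, h1⟩
      · refine ⟨-φ, by simp, ?_⟩
        simp only [LinearMap.neg_apply]
        linarith
  | insert k s hk ih =>
    intro a b
    rcases ih a b with ⟨c, hc, hb⟩ | ⟨y, hy, hyb⟩
    · left
      refine ⟨fun i => if i = k then 0 else c i, ?_, ?_⟩
      · intro i hi
        by_cases h : i = k
        · simp [h]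
        · simp only [h, if_false]
          exact hc i ((Finset.mem_insert.1 hi).resolve_left h)
      · rw [Finset.sum_insert hk, hb]
        simp only [if_true, zero_smul, zero_add]
        refine Finset.sum_congr rfl fun i hi => ?_
        have : i ≠ k := fun h => hk (h ▸ hi)
        simp [this]
    · by_cases hk0 : 0 ≤ y (a k)
      · right
        refine ⟨y, ?_, hyb⟩
        intro i hi
        rcases Finset.mem_insert.1 hi with rfl | hi
        · exact hk0
        · exact hy i hi
      · push Not at hk0
        set p : E → E := fun x => x - (y x / y (a k)) • a k with hp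
        rcases ih (fun i => p (a i)) (p b) with ⟨c, hc, hb⟩ | ⟨z, hz, hzb⟩
        · left
          refine ⟨fun i => if i = k then y b / y (a k) - ∑ j ∈ s, c j * (y (a j) / y (a k))
            else c i, ?_, ?_⟩
          · intro i hi
            by_cases h : i = k
            · simp only [h, if_true]
              have h1 : 0 < y b / y (a k) := div_pos_of_neg_of_neg hyb hk0
              have h2 : ∑ j ∈ s, c j * (y (a j) / y (a k)) ≤ 0 := by
                apply Finset.sum_nonpos
                intro j hj
                exact mul_nonpos_of_nonneg_of_nonpos (hc j hj)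
                  (div_nonpos_of_nonneg_of_nonpos (hy j hj) hk0.le)
              linarith
            · simp only [h, if_false]
              exact hc i ((Finset.mem_insert.1 hi).resolve_left h)
          · rw [Finset.sum_insert hk]
            simp only [if_true]
            have h3 : ∑ i ∈ s, (if i = k then y b / y (a k) -
                ∑ j ∈ s, c j * (y (a j) / y (a k)) else c i) • a i = ∑ i ∈ s, c i • a i := by
              refine Finset.sum_congr rfl fun i hi => ?_
              have : i ≠ k := fun h => hk (h ▸ hi)
              simp [this]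
            rw [h3]
            have h4 : b - (y b / y (a k)) • a k =
                ∑ i ∈ s, c i • (a i - (y (a i) / y (a k)) • a k) := hb
            have h5 : ∑ i ∈ s, c i • (a i - (y (a i) / y (a k)) • a k) =
                ∑ i ∈ s, c i • a i - (∑ i ∈ s, c i * (y (a i) / y (a k))) • a k := by
              rw [Finset.sum_smul, ← Finset.sum_sub_distrib]
              refine Finset.sum_congr rfl fun i _ => ?_
              rw [smul_sub, smul_smul]
            rw [h5] at h4
            have h6 : b = ∑ i ∈ s, c i • a i - (∑ i ∈ s, c i * (y (a i) / y (a k))) • a k +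
                (y b / y (a k)) • a k := by
              rw [← h4]; abel
            conv_lhs => rw [h6]
            rw [sub_smul]
            abel
        · right
          refine ⟨z - (z (a k) / y (a k)) • y, ?_, ?_⟩
          · intro i hi
            rcases Finset.mem_insert.1 hi with rfl | hi
            · simp only [LinearMap.sub_apply, LinearMap.smul_apply, smul_eq_mul]
              rw [div_mul_cancel₀ _ hk0.ne, sub_self]
            · have := hz i hi
              simp only [hp, map_sub, map_smul, smul_eq_mul] at this
              simp only [LinearMap.sub_apply, LinearMap.smul_apply, smul_eq_mul]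
              have e : y (a i) / y (a k) * z (a k) = z (a k) / y (a k) * y (a i) := by ring
              rw [e] at this
              exact this
          · simp only [hp, map_sub, map_smul, smul_eq_mul] at hzb
            simp only [LinearMap.sub_apply, LinearMap.smul_apply, smul_eq_mul]
            have e : y b / y (a k) * z (a k) = z (a k) / y (a k) * y b := by ring
            rw [e] at hzb
            exact hzb

theorem strong_duality {I J : Type} [Fintype I] [Fintype J] (A : I → J → ℝ) (b : I → ℝ)
    (c : J → ℝ) (hb : ∀ i, 0 ≤ b i) (B : ℝ)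
    (h : ∀ y : I → ℝ, (∀ i, 0 ≤ y i) → (∀ j, c j ≤ ∑ i, y i * A i j) → B ≤ ∑ i, y i * b i) :
    ∃ x : J → ℝ, (∀ j, 0 ≤ x j) ∧ (∀ i, ∑ j, A i j * x j ≤ b i) ∧ B ≤ ∑ j, c j * x j := by
  classical
  let a : J ⊕ Option I → (I → ℝ) × ℝ := fun o => Sum.elim (fun j => ((fun i => A i j), -c j))
    (fun o => o.elim ((0, 1) : (I → ℝ) × ℝ) (fun i => (Pi.single i 1, 0))) o
  rcases farkas (Finset.univ : Finset (J ⊕ Option I)) a (b, -B) with ⟨t, ht, htb⟩ | ⟨φ, hφ, hφb⟩
  · rw [Fintype.sum_sum_type, Fintype.sum_option] at htb
    have h1 : b = (∑ j, t (Sum.inl j) • (fun i => A i j)) + ∑ i, t (Sum.inr (some i)) •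
        (Pi.single i 1 : I → ℝ) := by
      have h2 := congrArg Prod.fst htb
      simp only [a, Sum.elim_inl, Sum.elim_inr, Option.elim_none, Option.elim_some, Prod.fst_add,
        Prod.fst_sum, Prod.smul_fst, smul_zero, zero_add] at h2
      exact h2
    have h3 : -B = (∑ j, t (Sum.inl j) * (-c j)) + t (Sum.inr none) := by
      have h2 := congrArg Prod.snd htb
      simp only [a, Sum.elim_inl, Sum.elim_inr, Option.elim_none, Option.elim_some, Prod.snd_add,
        Prod.snd_sum, Prod.smul_snd, smul_eq_mul, mul_zero, mul_one, Finset.sum_const_zero,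
        add_zero] at h2
      exact h2
    refine ⟨fun j => t (Sum.inl j), fun j => ht _ (Finset.mem_univ _), ?_, ?_⟩
    · intro i
      have h4 := congrFun h1 i
      simp only [Pi.add_apply, Finset.sum_apply, Pi.smul_apply, smul_eq_mul] at h4
      have h5 : ∑ i', t (Sum.inr (some i')) * (Pi.single i' 1 : I → ℝ) i =
          t (Sum.inr (some i)) := by
        rw [Finset.sum_eq_single i]
        · simp
        · intro i' _ hi'
          rw [Pi.single_eq_of_ne (Ne.symm hi'), mul_zero]
        · intro hi
          exact absurd (Finset.mem_univ _) hi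
      rw [h5] at h4
      have h6 : 0 ≤ t (Sum.inr (some i)) := ht _ (Finset.mem_univ _)
      have h7 : ∑ j, A i j * t (Sum.inl j) = ∑ j, t (Sum.inl j) * A i j :=
        Finset.sum_congr rfl fun j _ => mul_comm _ _
      rw [h7]
      linarith
    · have h6 : 0 ≤ t (Sum.inr none) := ht _ (Finset.mem_univ _)
      have h7 : ∑ j, t (Sum.inl j) * (-c j) = -∑ j, c j * t (Sum.inl j) := by
        rw [← Finset.sum_neg_distrib]
        exact Finset.sum_congr rfl fun j _ => by ring
      rw [h7] at h3
      linarith
  · exfalso
    have hrep : ∀ (u : I → ℝ) (s : ℝ), φ (u, s) =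
        ∑ i, u i * φ (Pi.single i 1, 0) + s * φ (0, 1) := by
      intro u s
      have h1 : (u, s) = (∑ i, u i • ((Pi.single i 1, 0) : (I → ℝ) × ℝ)) +
          s • ((0, 1) : (I → ℝ) × ℝ) := by
        ext i
        · simp only [Prod.fst_add, Prod.fst_sum, Prod.smul_fst, smul_zero, add_zero,
            Finset.sum_apply, Pi.smul_apply, smul_eq_mul]
          rw [Finset.sum_eq_single i]
          · simp
          · intro i' _ hi'
            rw [Pi.single_eq_of_ne (Ne.symm hi'), mul_zero]
          · intro hi
            exact absurd (Finset.mem_univ _) hi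
        · simp only [Prod.snd_add, Prod.snd_sum, Prod.smul_snd, smul_eq_mul, mul_zero,
            Finset.sum_const_zero, zero_add, mul_one]
      rw [h1, map_add, map_sum, map_smul]
      simp only [map_smul, smul_eq_mul]
    have hy : ∀ i, 0 ≤ φ (Pi.single i 1, 0) := fun i =>
      hφ (Sum.inr (some i)) (Finset.mem_univ _)
    have hl : 0 ≤ φ (0, 1) := hφ (Sum.inr none) (Finset.mem_univ _)
    have hj : ∀ j, 0 ≤ ∑ i, A i j * φ (Pi.single i 1, 0) + (-c j) * φ (0, 1) := by
      intro j
      have h1 := hφ (Sum.inl j) (Finset.mem_univ _)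
      simp only [a, Sum.elim_inl] at h1
      rw [hrep] at h1
      exact h1
    rw [hrep] at hφb
    rcases hl.lt_or_eq with hl | hl
    · have h1 := h (fun i => φ (Pi.single i 1, 0) / φ (0, 1))
        (fun i => div_nonneg (hy i) hl.le) (by
          intro j
          have h2 : ∑ i, φ (Pi.single i 1, 0) / φ (0, 1) * A i j =
              (∑ i, A i j * φ (Pi.single i 1, 0)) / φ (0, 1) := by
            rw [Finset.sum_div]
            exact Finset.sum_congr rfl fun i _ => by ring
          rw [h2, le_div_iff₀ hl]
          linarith [hj j])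
      have h2 : ∑ i, φ (Pi.single i 1, 0) / φ (0, 1) * b i =
          (∑ i, b i * φ (Pi.single i 1, 0)) / φ (0, 1) := by
        rw [Finset.sum_div]
        exact Finset.sum_congr rfl fun i _ => by ring
      rw [h2, le_div_iff₀ hl] at h1
      linarith
    · rw [← hl, mul_zero, add_zero] at hφb
      have h1 : 0 ≤ ∑ i, b i * φ (Pi.single i 1, 0) :=
        Finset.sum_nonneg fun i _ => mul_nonneg (hb i) (hy i)
      linarith

theorem lp_policy {E V : Type} [Fintype E] [DecidableEq E] [Fintype V] [DecidableEq V]
    (vs : E → Finset V) (hvs : ∀ e, (vs e).Nonempty) (w x : E → ℝ) (hx : ∀ e, 0 ≤ x e) (K : ℝ)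
    (hK : 0 ≤ K) (R C : Finset E) (B : ℝ)
    (hB : ∀ y : V → ℝ, (∀ v, 0 ≤ y v) → (∀ e ∈ R, e ∈ C → w e ≤ ysum y (vs e)) →
      B ≤ ∑ v, y v + K * ∑ e ∈ Cᶜ, x e * max (w e - ysum y (vs e)) 0) :
    ∃ g : E → ℝ, IsFM vs g ∧ (∀ e ∈ C, e ∉ R → g e = 0) ∧ (∀ e, e ∉ C → g e ≤ K * x e) ∧
      B ≤ ∑ e, w e * g e := by
  choose p hp using hvs
  obtain ⟨g, hg0, hg1, hg2⟩ := strong_duality (I := V ⊕ E) (J := E)
    (fun i e => Sum.elim (fun v => if v ∈ vs e then (1 : ℝ) else 0)
      (fun e' => if e' = e then (1 : ℝ) else 0) i)
    (fun i => Sum.elim (fun _ => (1 : ℝ))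
      (fun e' => if e' ∈ C then (if e' ∈ R then (1 : ℝ) else 0) else K * x e') i)
    w (by
      rintro (v | e')
      · exact zero_le_one
      · simp only [Sum.elim_inr]
        split_ifs
        · exact zero_le_one
        · exact le_refl _
        · exact mul_nonneg hK (hx e')) B (by
      intro z hz hzc
      set y : V → ℝ := fun v => z (Sum.inl v) with hy
      set t : E → ℝ := fun e => z (Sum.inr e) with ht
      have hy0 : ∀ v, 0 ≤ y v := fun v => hz _
      have ht0 : ∀ e, 0 ≤ t e := fun e => hz _
      have hw : ∀ e, w e ≤ ysum y (vs e) + t e := by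
        intro e
        have h1 := hzc e
        rw [Fintype.sum_sum_type] at h1
        simp only [Sum.elim_inl, Sum.elim_inr, mul_ite, mul_one, mul_zero,
          Finset.sum_ite_eq', Finset.mem_univ, if_true] at h1
        have h2 : ysum y (vs e) = ∑ v, if v ∈ vs e then z (Sum.inl v) else 0 := by
          rw [ysum, Finset.sum_ite_mem, Finset.univ_inter]
        rw [h2]
        exact h1
      let D : Finset E := C.filter (fun e => e ∈ R)
      let q : V → ℝ := fun v => ∑ e ∈ D, if p e = v then t e else 0
      have hq0 : ∀ v, 0 ≤ q v := fun v => Finset.sum_nonneg fun e _ => by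
        split_ifs
        · exact ht0 e
        · exact le_refl _
      have hq1 : ∑ v, q v = ∑ e ∈ D, t e := by
        simp only [q]
        rw [Finset.sum_comm]
        exact Finset.sum_congr rfl fun e _ => by simp
      have hq2 : ∀ e ∈ D, t e ≤ ysum q (vs e) := by
        intro e he
        have h1 : t e ≤ q (p e) := by
          have h2 := Finset.single_le_sum (f := fun e' => if p e' = p e then t e' else 0)
            (fun e' _ => by
              split_ifs
              · exact ht0 e'
              · exact le_refl _) he
          simpa using h2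
        exact h1.trans (Finset.single_le_sum (fun v _ => hq0 v) (hp e))
      have hys : ∀ σ : Finset V, ysum (fun v => y v + q v) σ = ysum y σ + ysum q σ := fun σ => by
        simp only [ysum, Finset.sum_add_distrib]
      have hqs : ∀ σ : Finset V, 0 ≤ ysum q σ := fun σ => Finset.sum_nonneg fun v _ => hq0 v
      have h1 := hB (fun v => y v + q v) (fun v => add_nonneg (hy0 v) (hq0 v)) (by
        intro e heR heC
        rw [hys]
        have h2 := hq2 e (Finset.mem_filter.2 ⟨heC, heR⟩)
        linarith [hw e])
      rw [Finset.sum_add_distrib, hq1] at h1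
      have h2 : ∑ e ∈ Cᶜ, x e * max (w e - ysum (fun v => y v + q v) (vs e)) 0 ≤
          ∑ e ∈ Cᶜ, x e * t e := by
        apply Finset.sum_le_sum
        intro e _
        apply mul_le_mul_of_nonneg_left _ (hx e)
        apply max_le _ (ht0 e)
        rw [hys]
        linarith [hw e, hqs (vs e)]
      have h3 := mul_le_mul_of_nonneg_left h2 hK
      rw [Fintype.sum_sum_type]
      simp only [Sum.elim_inl, Sum.elim_inr, mul_one]
      have h4 : ∑ e, z (Sum.inr e) * (if e ∈ C then (if e ∈ R then (1 : ℝ) else 0)
          else K * x e) = ∑ e ∈ D, t e + K * ∑ e ∈ Cᶜ, x e * t e := by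
        rw [← Finset.sum_add_sum_compl C, Finset.mul_sum]
        congr 1
        · simp only [D]
          rw [Finset.sum_filter]
          apply Finset.sum_congr rfl
          intro e he
          rw [if_pos he]
          split_ifs
          · rw [mul_one]
          · rw [mul_zero]
        · apply Finset.sum_congr rfl
          intro e he
          rw [if_neg (Finset.mem_compl.1 he)]
          simp only [ht]
          ring
      rw [h4]
      have h5 : ∑ v, z (Sum.inl v) = ∑ v, y v := rfl
      rw [h5]
      linarith)
  refine ⟨g, ⟨hg0, ?_⟩, ?_, ?_, hg2⟩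
  · intro v
    have h1 := hg1 (Sum.inl v)
    simp only [Sum.elim_inl, ite_mul, one_mul, zero_mul] at h1
    exact h1
  · intro e heC heR
    have h1 := hg1 (Sum.inr e)
    simp only [Sum.elim_inr, ite_mul, one_mul, zero_mul, Finset.sum_ite_eq, Finset.mem_univ,
      if_true, if_pos heC, if_neg heR] at h1
    exact le_antisymm h1 (hg0 e)
  · intro e heC
    have h1 := hg1 (Sum.inr e)
    simp only [Sum.elim_inr, ite_mul, one_mul, zero_mul, Finset.sum_ite_eq, Finset.mem_univ,
      if_true, if_neg heC] at h1
    exact h1

end Pool.Agent.Helper68.SP
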