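import Pool.Agent.Helper68.SP.Defs

/-!
# Project SP: optimal matchings (definitions and elementary facts)
-/

set_option autoImplicit false

namespace Pool.Agent.Helper68.SP

open Finset

variable {E U : Type} [Fintype E] [DecidableEq E] {k : ℕ}

/-- the largest weight of a matching contained in `A` -/
noncomputable def optM (c : Fin k → E → U) (w : E → ℝ) (A : Finset E) : ℝ :=
  sSup {t : ℝ | ∃ S : Finset E, S ⊆ A ∧ IsMatching c S ∧ t = ∑ e ∈ S, w e}

/-- the largest cardinality of a matching -/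
noncomputable def rankM (c : Fin k → E → U) : ℕ :=
  sSup {n : ℕ | ∃ S : Finset E, IsMatching c S ∧ n = S.card}

omit [Fintype E] [DecidableEq E] in
lemma isMatching_empty (c : Fin k → E → U) : IsMatching c (∅ : Finset E) := by
  intro i
  simp

omit [DecidableEq E] in
lemma optSet_finite (c : Fin k → E → U) (w : E → ℝ) (A : Finset E) :
    {t : ℝ | ∃ S : Finset E, S ⊆ A ∧ IsMatching c S ∧ t = ∑ e ∈ S, w e}.Finite := by
  apply (Set.finite_range (fun S : Finset E => ∑ e ∈ S, w e)).subset
  rintro t ⟨S, -, -, rfl⟩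
  exact ⟨S, rfl⟩

lemma le_optM {c : Fin k → E → U} {w : E → ℝ} {A S : Finset E} (hS : S ⊆ A)
    (hM : IsMatching c S) : ∑ e ∈ S, w e ≤ optM c w A :=
  le_csSup (optSet_finite c w A).bddAbove ⟨S, hS, hM, rfl⟩

lemma optM_nonneg (c : Fin k → E → U) (w : E → ℝ) (A : Finset E) : 0 ≤ optM c w A := by
  have := le_optM (w := w) (Finset.empty_subset A) (isMatching_empty c)
  simpa using this

lemma exists_opt (c : Fin k → E → U) (w : E → ℝ) (A : Finset E) :
    ∃ S : Finset E, S ⊆ A ∧ IsMatching c S ∧ ∑ e ∈ S, w e = optM c w A := by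
  have h := Set.Nonempty.csSup_mem (s := {t : ℝ | ∃ S : Finset E, S ⊆ A ∧ IsMatching c S ∧
    t = ∑ e ∈ S, w e}) ⟨_, ∅, Finset.empty_subset A, isMatching_empty c, rfl⟩ (optSet_finite c w A)
  obtain ⟨S, h1, h2, h3⟩ := h
  exact ⟨S, h1, h2, h3.symm⟩

lemma optM_mono (c : Fin k → E → U) (w : E → ℝ) {A B : Finset E} (h : A ⊆ B) :
    optM c w A ≤ optM c w B := by
  obtain ⟨S, h1, h2, h3⟩ := exists_opt c w A
  rw [← h3]
  exact le_optM (h1.trans h) h2

omit [DecidableEq E] in
lemma card_le_rankM {c : Fin k → E → U} {S : Finset E} (hM : IsMatching c S) :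
    S.card ≤ rankM c := by
  apply le_csSup
  · refine ⟨Fintype.card E, ?_⟩
    rintro n ⟨S, -, rfl⟩
    exact Finset.card_le_univ S
  · exact ⟨S, hM, rfl⟩

/-- an optimal matching in `R` -/
noncomputable def optSol (c : Fin k → E → U) (w : E → ℝ) (R : Finset E) : Finset E :=
  Classical.choose (exists_opt c w R)

lemma optSol_subset (c : Fin k → E → U) (w : E → ℝ) (R : Finset E) : optSol c w R ⊆ R :=
  (Classical.choose_spec (exists_opt c w R)).1

lemma optSol_isMatching (c : Fin k → E → U) (w : E → ℝ) (R : Finset E) :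
    IsMatching c (optSol c w R) := (Classical.choose_spec (exists_opt c w R)).2.1

lemma sum_optSol (c : Fin k → E → U) (w : E → ℝ) (R : Finset E) :
    ∑ e ∈ optSol c w R, w e = optM c w R := (Classical.choose_spec (exists_opt c w R)).2.2

/-- its indicator -/
noncomputable def zOpt (c : Fin k → E → U) (w : E → ℝ) (R : Finset E) (e : E) : ℝ :=
  if e ∈ optSol c w R then 1 else 0

lemma zOpt_eq_zero {c : Fin k → E → U} {w : E → ℝ} {R : Finset E} {e : E} (h : e ∉ R) :
    zOpt c w R e = 0 := by
  unfold zOpt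
  rw [if_neg]
  exact fun h1 => h (optSol_subset c w R h1)

lemma sum_zOpt (c : Fin k → E → U) (w : E → ℝ) (R : Finset E) :
    ∑ e, w e * zOpt c w R e = optM c w R := by
  rw [← sum_optSol c w R]
  unfold zOpt
  simp

omit [Fintype E] [DecidableEq E] in
lemma mem_pvs [DecidableEq U] {c : Fin k → E → U} {e : E} {i : Fin k} {u : U} :
    (i, u) ∈ pvs c e ↔ c i e = u := by
  unfold pvs
  simp

lemma isFM_zOpt [DecidableEq U] (c : Fin k → E → U) (w : E → ℝ) (R : Finset E) :
    IsFM (pvs c) (zOpt c w R) := by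
  refine ⟨fun e => ?_, ?_⟩
  · unfold zOpt
    split_ifs <;> norm_num
  · rintro ⟨i, u⟩
    unfold deg
    have h1 : ∀ e, (if (i, u) ∈ pvs c e then zOpt c w R e else 0) =
        if e ∈ (optSol c w R).filter (fun e => c i e = u) then 1 else 0 := by
      intro e
      unfold zOpt
      simp only [mem_pvs, Finset.mem_filter]
      by_cases h1 : c i e = u <;> by_cases h2 : e ∈ optSol c w R <;> simp [h1, h2]
    simp only [h1]
    rw [Finset.sum_ite_mem, Finset.univ_inter, Finset.sum_const, nsmul_eq_mul, mul_one]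
    have h2 : ((optSol c w R).filter (fun e => c i e = u)).card ≤ 1 := by
      rw [Finset.card_le_one]
      intro a ha b hb
      rw [Finset.mem_filter] at ha hb
      exact optSol_isMatching c w R i ha.1 hb.1 (ha.2.trans hb.2.symm)
    exact_mod_cast h2

end Pool.Agent.Helper68.SP
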