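import Pool.Agent.Helper68.SP.CoreDual
import Pool.Agent.Helper68.SP.LP

/-!
# SP-18: policies for instances with few vertices

PROOF.  `K` from `core_dual`, `x = mean p z ≥ 0`.  For `S : Finset E` let `D S` be the set of the values
`∑ v, y v + K * ∑ e ∈ Cᶜ, x e * max (w e - ysum y (vs e)) 0` for `y ≥ 0` which cover `S ∩ C`; it is nonempty (`y = Γ`) and bounded below by `0`; `v S = sInf (D S)`.
`lp_policy` with `R := S`, `B := v S` gives `g₀ S`; let `g R = g₀ (R ∩ C)` (its `g e = 0` for `e ∈ C \ (R ∩ C)`, i.e. `e ∈ C \ R`).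
Then `∑ w g R ≥ v (R ∩ C) = v R`.  For `δ > 0` choose for every `R` a `y R` covering `R ∩ C` with value `< v R + δ`; `core_dual` gives
`∑ w x - ε₀ ∑ x ≤ Ex v + δ ≤ Ex (∑ w g) + δ`; let `δ → 0` (`le_of_forall_pos_le_add`).
-/

set_option autoImplicit false

namespace Pool.Agent.Helper68.SP

open Finset

theorem policy_bounded (k : ℕ) (hk : 1 ≤ k) (Γ ε₀ C1 : ℝ) (hΓ : 1 ≤ Γ) (hε₀ : 0 < ε₀)
    (hC1 : 0 < C1) :
    ∃ K : ℝ, 0 < K ∧ ∀ (E V : Type) [Fintype E] [DecidableEq E] [Fintype V] [DecidableEq V]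
      (vs : E → Finset V) (w : E → ℝ) (p : ℝ) (z : Finset E → E → ℝ) (C : Finset E),
      (∀ e, (vs e).Nonempty) → (∀ e, (vs e).card ≤ k) → (∀ e, 0 ≤ w e ∧ w e ≤ Γ) →
      0 ≤ p → p ≤ 1 → (∀ R, IsFM vs (z R)) → (∀ R e, e ∉ R → z R e = 0) →
      (Fintype.card V : ℝ) ≤ C1 * ∑ e, mean p z e →
      ∃ g : Finset E → E → ℝ, (∀ R, IsFM vs (g R)) ∧ (∀ R, ∀ e ∈ C, e ∉ R → g R e = 0) ∧
        (∀ R e, e ∉ C → g R e ≤ K * mean p z e) ∧ (∀ R R', R ∩ C = R' ∩ C → g R = g R') ∧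
        ∑ e, w e * mean p z e - ε₀ * ∑ e, mean p z e ≤
          Ex (fun _ => p) (fun R => ∑ e, w e * g R e) := by
  obtain ⟨K, hK, H⟩ := core_dual k hk Γ ε₀ C1 hΓ hε₀ hC1
  refine ⟨K, hK, ?_⟩
  intro E V _ _ _ _ vs w p z C hne hcard hw hp0 hp1 hz hzR hV
  have hrate : IsRate (fun _ : E => p) := fun _ => ⟨hp0, hp1⟩
  have hmean : ∀ e, 0 ≤ mean p z e := fun e => Ex_nonneg hrate fun R => (hz R).nonneg e
  set cost : (V → ℝ) → ℝ := fun y => ∑ v, y v +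
    K * ∑ e ∈ Cᶜ, mean p z e * max (w e - ysum y (vs e)) 0 with hcost
  have hcost0 : ∀ y : V → ℝ, (∀ v, 0 ≤ y v) → 0 ≤ cost y := by
    intro y hy
    apply add_nonneg
    · exact Finset.sum_nonneg fun v _ => hy v
    · apply mul_nonneg hK.le
      exact Finset.sum_nonneg fun e _ => mul_nonneg (hmean e) (le_max_right _ _)
  set D : Finset E → Set ℝ := fun S => {t | ∃ y : V → ℝ, (∀ v, 0 ≤ y v) ∧
    (∀ e ∈ S, e ∈ C → w e ≤ ysum y (vs e)) ∧ t = cost y} with hD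
  have hDne : ∀ S, (D S).Nonempty := by
    intro S
    refine ⟨cost (fun _ => Γ), fun _ => Γ, fun _ => by linarith, ?_, rfl⟩
    intro e _ _
    have h1 : ysum (fun _ : V => Γ) (vs e) = (vs e).card * Γ := by
      unfold ysum
      rw [Finset.sum_const, nsmul_eq_mul]
    rw [h1]
    have h2 : (1 : ℝ) ≤ (vs e).card := by
      exact_mod_cast Finset.card_pos.2 (hne e)
    have h3 := (hw e).2
    nlinarith
  have hDbdd : ∀ S, BddBelow (D S) := by
    intro S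
    refine ⟨0, ?_⟩
    rintro t ⟨y, hy, -, rfl⟩
    exact hcost0 y hy
  have hpol : ∀ S : Finset E, ∃ g : E → ℝ, IsFM vs g ∧ (∀ e ∈ C, e ∉ S → g e = 0) ∧
      (∀ e, e ∉ C → g e ≤ K * mean p z e) ∧ sInf (D S) ≤ ∑ e, w e * g e := by
    intro S
    apply lp_policy vs hne w (mean p z) hmean K hK.le S C
    intro y hy hcov
    exact csInf_le (hDbdd S) ⟨y, hy, hcov, rfl⟩
  choose g₀ hFM h0 hle hval using hpol
  refine ⟨fun R => g₀ (R ∩ C), fun R => hFM _, ?_, fun R e he => hle _ e he, ?_, ?_⟩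
  · intro R e heC heR
    exact h0 (R ∩ C) e heC fun h => heR (Finset.mem_inter.1 h).1
  · intro R R' h
    show g₀ (R ∩ C) = g₀ (R' ∩ C)
    rw [h]
  · apply le_of_forall_pos_le_add
    intro δ hδ
    have hy : ∀ R : Finset E, ∃ y : V → ℝ, (∀ v, 0 ≤ y v) ∧
        (∀ e ∈ R ∩ C, e ∈ C → w e ≤ ysum y (vs e)) ∧ cost y < sInf (D (R ∩ C)) + δ := by
      intro R
      obtain ⟨t, ⟨y, hy0, hcov, rfl⟩, ht⟩ := exists_lt_of_csInf_lt (hDne (R ∩ C))
        (lt_add_of_pos_right (sInf (D (R ∩ C))) hδ)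
      exact ⟨y, hy0, hcov, ht⟩
    choose y hy0 hcov hlt using hy
    have h1 := H E V vs w p z C y hne hcard hw hp0 hp1 hz hzR hV hy0
      (fun R e heR heC => hcov R e (Finset.mem_inter.2 ⟨heR, heC⟩) heC)
    refine h1.trans ?_
    have h2 : Ex (fun _ => p) (fun R => cost (y R)) ≤
        Ex (fun _ => p) (fun R => ∑ e, w e * g₀ (R ∩ C) e + δ) := by
      apply Ex_mono hrate
      intro R
      linarith [hlt R, hval (R ∩ C)]
    have h3 : Ex (fun _ => p) (fun R => ∑ e, w e * g₀ (R ∩ C) e + δ) =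
        Ex (fun _ => p) (fun R => ∑ e, w e * g₀ (R ∩ C) e) + δ := by
      rw [Ex_add, Ex_const]
    exact h2.trans h3.le

end Pool.Agent.Helper68.SP
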