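import Pool.Agent.Helper68.SP.Defs

/-!
# SP-21: sampling lemmas

PROOFS.
* `Ex_two`: by `Ex_mix` with `A = C` applied to the inner expectation, `R = mix C R₁ R₂` has `R ∩ C = R₁ ∩ C` and `(Q ∩ R) \ C = (Q ∩ R₂) \ C`; exchange the expectations over `Q` and `R₁`
  (`Ex_comm`) and use `Ex_inter` for `(Q, R₂)`.
* `exc_le`: `X T = ∑_{e ∈ D} (a e / r e) 1[e ∈ T]` has mean `∑_{e ∈ D} a e` (`Ex_mem`; if `r e = 0` then `a e = 0`) and, the indicators being independent (`Ex_subset` for pairs),
  `Ex (X - mean)^2 = ∑_{e ∈ D} (a e / r e)^2 r e (1 - r e) ≤ ∑_{e ∈ D} κ a e` (`a e / r e ≤ κ`).  And `max (t - ε) 0 ≤ t^2 / (4 ε)` for all real `t`.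
* `normalize`: `mx e = 1 + ε + sup_{v ∈ vs e} exc v` (`Finset.sup'` over `vs e`, or any `mx e ≥ 1 + ε + exc v` for `v ∈ vs e` attained at some `v ∈ vs e`), `G e = h e / mx e`.
  Degree at `v`: `∑_{e ∋ v} h e / mx e ≤ deg h v / (1 + ε + exc v) ≤ 1`.  Loss: `h e / (1+ε) - G e = h e (mx e - 1 - ε) / ((1+ε) mx e)`; if the sup is attained at `v ∈ vs e` this is
  `≤ h e * exc v / ((1+ε) (1+ε+exc v))`, so `∑_e w e (h e/(1+ε) - G e) ≤ Γ ∑_v exc v / (1+ε) * deg h v / (1+ε+exc v) ≤ Γ ∑_v exc v / (1+ε)`.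
-/

set_option autoImplicit false

namespace Pool.Agent.Helper68.SP

open Finset

theorem Ex_two {E : Type} [Fintype E] [DecidableEq E] (q r : E → ℝ) (C : Finset E)
    (Φ : Finset E → Finset E → ℝ) :
    Ex q (fun Q => Ex r (fun R => Φ (R ∩ C) ((Q ∩ R) \ C))) =
      Ex r (fun R => Ex (fun e => q e * r e) (fun T => Φ (R ∩ C) (T \ C))) := by
  have h1 : ∀ Q : Finset E, Ex r (fun R => Φ (R ∩ C) ((Q ∩ R) \ C)) =
      Ex r (fun S => Ex r (fun T => Φ (S ∩ C) ((Q ∩ T) \ C))) := by
    intro Q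
    rw [← Ex_mix r C (fun R => Φ (R ∩ C) ((Q ∩ R) \ C))]
    refine Ex_congr r fun S => Ex_congr r fun T => ?_
    have h2 : (Q ∩ mix C S T) \ C = (Q ∩ T) \ C := by
      ext e
      simp only [Finset.mem_sdiff, Finset.mem_inter, mem_mix]
      tauto
    rw [mix_inter, h2]
  rw [Ex_congr q h1, Ex_comm]
  refine Ex_congr r fun S => ?_
  exact Ex_inter q r (fun T => Φ (S ∩ C) (T \ C))

private theorem cov_eq {E : Type} [Fintype E] [DecidableEq E] (r : E → ℝ) (e f : E) :
    Ex r (fun T => ((if e ∈ T then 1 else 0) - r e) * ((if f ∈ T then 1 else 0) - r f)) =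
      if e = f then r e - r e ^ 2 else 0 := by
  have h0 : ∀ e : E, Ex r (fun T => (if e ∈ T then (1 : ℝ) else 0) - r e) = 0 := by
    intro e
    rw [Ex_sub, Ex_mem, Ex_const, sub_self]
  by_cases hef : e = f
  · subst hef
    rw [if_pos rfl]
    have h1 : ∀ T : Finset E, ((if e ∈ T then (1 : ℝ) else 0) - r e) *
        ((if e ∈ T then 1 else 0) - r e) =
          (1 - 2 * r e) * (if e ∈ T then 1 else 0) + r e ^ 2 := by
      intro T
      split_ifs
      · ring
      · ring
    rw [Ex_congr r h1, Ex_add, Ex_mul_left, Ex_mem, Ex_const]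
    ring
  · rw [if_neg hef]
    rw [Ex_mul_of_indep r {e} (f := fun T => (if e ∈ T then (1 : ℝ) else 0) - r e)
      (g := fun T => (if f ∈ T then (1 : ℝ) else 0) - r f), h0, zero_mul]
    · intro S T hST
      have h1 : e ∈ S ↔ e ∈ T := by
        have h2 := Finset.ext_iff.1 hST e
        simpa using h2
      simp only [h1]
    · intro S T hST
      have h1 : f ∈ S ↔ f ∈ T := by
        have h2 := Finset.ext_iff.1 hST f
        have h3 : f ≠ e := fun h => hef h.symm
        simpa [h3] using h2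
      simp only [h1]

theorem exc_le {E : Type} [Fintype E] [DecidableEq E] (r : E → ℝ) (hr : IsRate r) (D : Finset E)
    (a : E → ℝ) (κ ε : ℝ) (hκ : 0 ≤ κ) (hε : 0 < ε) (ha : ∀ e, 0 ≤ a e)
    (har : ∀ e ∈ D, a e ≤ κ * r e) :
    Ex r (fun T => max (∑ e ∈ D, (if e ∈ T then a e / r e else 0) - ∑ e ∈ D, a e - ε) 0) ≤
      κ / (4 * ε) * ∑ e ∈ D, a e := by
  have hmul : ∀ e ∈ D, a e / r e * r e = a e := by
    intro e he
    by_cases h0 : r e = 0
    · have h1 := har e he
      rw [h0, mul_zero] at h1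
      have h2 := ha e
      rw [h0, mul_zero]
      linarith
    · exact div_mul_cancel₀ _ h0
  have hle : ∀ e ∈ D, a e / r e ≤ κ := by
    intro e he
    by_cases h0 : r e = 0
    · rw [h0, div_zero]
      exact hκ
    · have h1 : 0 < r e := lt_of_le_of_ne (hr e).1 (Ne.symm h0)
      rw [div_le_iff₀ h1]
      exact har e he
  have hge : ∀ e, 0 ≤ a e / r e := fun e => div_nonneg (ha e) (hr e).1
  have hX : ∀ T : Finset E, ∑ e ∈ D, (if e ∈ T then a e / r e else 0) - ∑ e ∈ D, a e =
      ∑ e ∈ D, a e / r e * ((if e ∈ T then 1 else 0) - r e) := by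
    intro T
    rw [← Finset.sum_sub_distrib]
    refine Finset.sum_congr rfl fun e he => ?_
    have h1 := hmul e he
    split_ifs
    · rw [mul_sub, mul_one, h1]
    · rw [zero_sub, zero_sub, mul_neg, h1]
  have hmax : ∀ t : ℝ, max (t - ε) 0 ≤ 1 / (4 * ε) * t ^ 2 := by
    intro t
    have h4 : (0 : ℝ) < 4 * ε := by linarith
    refine max_le ?_ (by positivity)
    rw [one_div, inv_mul_eq_div, le_div_iff₀ h4]
    nlinarith [sq_nonneg (t - 2 * ε)]
  have hsq : ∀ T : Finset E, (∑ e ∈ D, a e / r e * ((if e ∈ T then 1 else 0) - r e)) ^ 2 =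
      ∑ e ∈ D, ∑ f ∈ D, (a e / r e * (a f / r f)) *
        (((if e ∈ T then 1 else 0) - r e) * ((if f ∈ T then 1 else 0) - r f)) := by
    intro T
    rw [sq, Finset.sum_mul_sum]
    refine Finset.sum_congr rfl fun e _ => Finset.sum_congr rfl fun f _ => ?_
    ring
  have hvar : Ex r (fun T => (∑ e ∈ D, a e / r e * ((if e ∈ T then 1 else 0) - r e)) ^ 2) =
      ∑ e ∈ D, (a e / r e * (a e / r e)) * (r e - r e ^ 2) := by
    rw [Ex_congr r hsq, Ex_sum]
    refine Finset.sum_congr rfl fun e he => ?_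
    rw [Ex_sum]
    simp only [Ex_mul_left, cov_eq, mul_ite, mul_zero]
    rw [Finset.sum_ite_eq, if_pos he]
  calc Ex r (fun T => max (∑ e ∈ D, (if e ∈ T then a e / r e else 0) - ∑ e ∈ D, a e - ε) 0)
      ≤ Ex r (fun T => 1 / (4 * ε) *
          (∑ e ∈ D, a e / r e * ((if e ∈ T then 1 else 0) - r e)) ^ 2) := by
        refine Ex_mono hr fun T => ?_
        rw [hX T]
        exact hmax _
    _ = 1 / (4 * ε) * ∑ e ∈ D, (a e / r e * (a e / r e)) * (r e - r e ^ 2) := by
        rw [Ex_mul_left, hvar]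
    _ ≤ 1 / (4 * ε) * ∑ e ∈ D, κ * a e := by
        refine mul_le_mul_of_nonneg_left (Finset.sum_le_sum fun e he => ?_) (by positivity)
        have h1 := hmul e he
        have h2 := hle e he
        have h3 := hge e
        have h4 := (hr e).1
        calc (a e / r e * (a e / r e)) * (r e - r e ^ 2)
            ≤ (a e / r e * (a e / r e)) * r e := by
              refine mul_le_mul_of_nonneg_left ?_ (mul_nonneg h3 h3)
              nlinarith
          _ = a e / r e * a e := by rw [mul_assoc, h1]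
          _ ≤ κ * a e := mul_le_mul_of_nonneg_right h2 (ha e)
    _ = κ / (4 * ε) * ∑ e ∈ D, a e := by
        rw [← Finset.mul_sum]
        ring

theorem normalize {E V : Type} [Fintype E] [DecidableEq E] [Fintype V] [DecidableEq V]
    (vs : E → Finset V) (hne : ∀ e, (vs e).Nonempty) (w h : E → ℝ) (Γ ε : ℝ) (hΓ : 0 ≤ Γ)
    (hε : 0 < ε) (hw : ∀ e, 0 ≤ w e ∧ w e ≤ Γ) (hh : ∀ e, 0 ≤ h e) (exc : V → ℝ)
    (hexc : ∀ v, 0 ≤ exc v) (hdeg : ∀ v, deg vs h v ≤ 1 + ε + exc v) :
    ∃ G : E → ℝ, IsFM vs G ∧ (∀ e, h e = 0 → G e = 0) ∧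
      (∑ e, w e * h e - Γ * ∑ v, exc v) / (1 + ε) ≤ ∑ e, w e * G e := by
  have hex : ∀ e, ∃ v ∈ vs e, ∀ u ∈ vs e, exc u ≤ exc v := fun e =>
    Finset.exists_max_image (vs e) exc (hne e)
  choose m hm hmax using hex
  have h1ε : (0 : ℝ) < 1 + ε := by linarith
  have hpos : ∀ v, 0 < 1 + ε + exc v := fun v => by linarith [hexc v]
  refine ⟨fun e => h e / (1 + ε + exc (m e)), ⟨fun e => div_nonneg (hh e) (hpos _).le, ?_⟩, ?_, ?_⟩
  · intro v
    have h1 : deg vs (fun e => h e / (1 + ε + exc (m e))) v ≤ deg vs h v / (1 + ε + exc v) := by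
      unfold deg
      rw [Finset.sum_div]
      refine Finset.sum_le_sum fun e _ => ?_
      split_ifs with hv
      · refine div_le_div_of_nonneg_left (hh e) (hpos v) ?_
        have h2 := hmax e v hv
        linarith
      · rw [zero_div]
    refine h1.trans ?_
    rw [div_le_one (hpos v)]
    exact hdeg v
  · intro e he
    simp only [he, zero_div]
  · rw [div_le_iff₀ h1ε]
    have hdeg0 : ∀ v, 0 ≤ deg vs h v := fun v => by
      unfold deg
      refine Finset.sum_nonneg fun e _ => ?_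
      split_ifs
      · exact hh e
      · exact le_rfl
    have hterm : ∀ e, w e * h e - w e * (h e / (1 + ε + exc (m e))) * (1 + ε) ≤
        Γ * ∑ v, (if v ∈ vs e then h e * (exc v / (1 + ε + exc v)) else 0) := by
      intro e
      have h2 : w e * h e - w e * (h e / (1 + ε + exc (m e))) * (1 + ε) =
          w e * (h e * (exc (m e) / (1 + ε + exc (m e)))) := by
        have h3 := (hpos (m e)).ne'
        field_simp
        ring
      have h4 : ∀ v, 0 ≤ h e * (exc v / (1 + ε + exc v)) := fun v =>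
        mul_nonneg (hh e) (div_nonneg (hexc v) (hpos v).le)
      have h5 : h e * (exc (m e) / (1 + ε + exc (m e))) ≤
          ∑ v, (if v ∈ vs e then h e * (exc v / (1 + ε + exc v)) else 0) := by
        have h6 := Finset.single_le_sum
          (f := fun v => if v ∈ vs e then h e * (exc v / (1 + ε + exc v)) else 0)
          (s := Finset.univ) (fun v _ => by
            split_ifs
            · exact h4 v
            · exact le_rfl) (Finset.mem_univ (m e))
        simp only [hm e, if_true] at h6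
        exact h6
      rw [h2]
      calc w e * (h e * (exc (m e) / (1 + ε + exc (m e))))
          ≤ Γ * (h e * (exc (m e) / (1 + ε + exc (m e)))) :=
            mul_le_mul_of_nonneg_right (hw e).2 (h4 _)
        _ ≤ _ := mul_le_mul_of_nonneg_left h5 hΓ
    have hsum := Finset.sum_le_sum fun e (_ : e ∈ Finset.univ) => hterm e
    rw [Finset.sum_sub_distrib, ← Finset.mul_sum, Finset.sum_comm, ← Finset.sum_mul] at hsum
    have hdv : ∀ v, ∑ e, (if v ∈ vs e then h e * (exc v / (1 + ε + exc v)) else 0) ≤ exc v := by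
      intro v
      have h7 : ∑ e, (if v ∈ vs e then h e * (exc v / (1 + ε + exc v)) else 0) =
          deg vs h v * (exc v / (1 + ε + exc v)) := by
        unfold deg
        rw [Finset.sum_mul]
        refine Finset.sum_congr rfl fun e _ => ?_
        rw [ite_mul, zero_mul]
      rw [h7]
      calc deg vs h v * (exc v / (1 + ε + exc v))
          ≤ (1 + ε + exc v) * (exc v / (1 + ε + exc v)) :=
            mul_le_mul_of_nonneg_right (hdeg v) (div_nonneg (hexc v) (hpos v).le)
        _ = exc v := by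
            rw [mul_div_assoc', mul_div_cancel_left₀ _ (hpos v).ne']
    have hs2 : Γ * ∑ v, ∑ e, (if v ∈ vs e then h e * (exc v / (1 + ε + exc v)) else 0) ≤
        Γ * ∑ v, exc v :=
      mul_le_mul_of_nonneg_left (Finset.sum_le_sum fun v _ => hdv v) hΓ
    linarith

end Pool.Agent.Helper68.SP
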