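import Pool.Agent.Helper68.SP.Indep

/-!
# SP-02: independent columns force a vertex of degree at most `k - 1`

PROOF.  Let `m = S.card ≥ 1` and let `T` be the finite set of the pairs `(i, u)` such that `S.filter (c i · = u)` is
nonempty, `n = T.card`.  The `m` vectors `χ_e : T → ℝ`, `χ_e (i, u) = 1` if `c i e = u` and `0` otherwise (`e ∈ S`), are linearly
independent (this is `Indep`; the rows outside `T` vanish on `S`).  They lie in the subspace
`H = {a : T → ℝ | ∑_{(0,u) ∈ T} a = ∑_{(1,u) ∈ T} a}` (both sums are `1` for `χ_e`; `k ≥ 2`), which is the kernel of a nonzero linear form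
(evaluate it at the indicator of a point `(0, c 0 e) ∈ T`), so `dim H = n - 1` and `m ≤ n - 1`.  Double counting:
`∑_{(i,u) ∈ T} (S.filter (c i · = u)).card = k m`.  If all the cardinalities were `≥ k`, then `k n ≤ k m`, contradiction with `m < n`.
-/

set_option autoImplicit false

namespace Pool.Agent.Helper68.SP

open Finset

private theorem mem_pvs' {E U : Type*} [DecidableEq U] {k : ℕ} (c : Fin k → E → U) (e : E)
    (i : Fin k) (u : U) : (i, u) ∈ pvs c e ↔ c i e = u := by
  unfold pvs
  rw [Finset.mem_image]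
  constructor
  · rintro ⟨j, -, hj⟩
    obtain ⟨rfl, h⟩ := Prod.mk.inj hj
    exact h
  · intro h
    exact ⟨i, Finset.mem_univ _, by rw [h]⟩

private theorem deg_pvs {E U : Type*} [Fintype E] [DecidableEq E] [DecidableEq U]
    {k : ℕ} (c : Fin k → E → U) (a : E → ℝ) (i : Fin k) (u : U) :
    deg (pvs c) a (i, u) = ∑ e, if c i e = u then a e else 0 := by
  unfold deg
  refine Finset.sum_congr rfl fun e _ => ?_
  by_cases h : c i e = u
  · rw [if_pos ((mem_pvs' c e i u).2 h), if_pos h]
  · rw [if_neg (fun h' => h ((mem_pvs' c e i u).1 h')), if_neg h]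

private theorem side_sum {E U : Type*} [Fintype E] [DecidableEq E] [Fintype U] [DecidableEq U]
    {k : ℕ} (c : Fin k → E → U) (a : E → ℝ) (i : Fin k) :
    ∑ u, deg (pvs c) a (i, u) = ∑ e, a e := by
  simp_rw [deg_pvs]
  rw [Finset.sum_comm]
  refine Finset.sum_congr rfl fun e _ => ?_
  simp

theorem exists_small_degree {E U : Type} [Fintype E] [DecidableEq E] [Fintype U] [DecidableEq U]
    {k : ℕ} (hk : 2 ≤ k) (c : Fin k → E → U) (S : Finset E) (hS : S.Nonempty)
    (h : Indep (pvs c) S) :
    ∃ (i : Fin k) (u : U), (S.filter (fun e => c i e = u)).Nonempty ∧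
      (S.filter (fun e => c i e = u)).card ≤ k - 1 := by
  by_contra hcon
  push Not at hcon
  obtain ⟨e₀, he₀⟩ := hS
  obtain ⟨T, hT⟩ : ∃ T : Finset (Fin k × U), T = Finset.univ.filter
      (fun q : Fin k × U => (S.filter (fun e => c q.1 e = q.2)).Nonempty) := ⟨_, rfl⟩
  have hmemT : ∀ q : Fin k × U, q ∈ T ↔ (S.filter (fun e => c q.1 e = q.2)).Nonempty := fun q => by
    rw [hT, Finset.mem_filter]
    simp
  obtain ⟨i0, hi0⟩ : ∃ i0 : Fin k, i0.val = 0 := ⟨⟨0, by omega⟩, rfl⟩
  obtain ⟨i1, hi1⟩ : ∃ i1 : Fin k, i1.val = 1 := ⟨⟨1, by omega⟩, rfl⟩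
  have hi01 : i1 ≠ i0 := fun h' => by
    rw [h'] at hi1
    omega
  have hv0 : (i0, c i0 e₀) ∈ T := (hmemT _).2 ⟨e₀, Finset.mem_filter.2 ⟨he₀, rfl⟩⟩
  -- the key claim
  have hkey : ∀ a : E → ℝ, (∀ e, e ∉ S → a e = 0) →
      (∀ v ∈ T.erase (i0, c i0 e₀), deg (pvs c) a v = 0) → a = 0 := by
    intro a ha hv
    have hv1 : ∀ v, v ≠ (i0, c i0 e₀) → deg (pvs c) a v = 0 := by
      rintro ⟨i, u⟩ hne
      by_cases hm : (i, u) ∈ T
      · exact hv _ (Finset.mem_erase.2 ⟨hne, hm⟩)
      · rw [deg_pvs]
        apply Finset.sum_eq_zero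
        intro e _
        split_ifs with hc
        · apply ha
          intro heS
          exact hm ((hmemT _).2 ⟨e, Finset.mem_filter.2 ⟨heS, hc⟩⟩)
        · rfl
    have h1 : ∑ e, a e = 0 := by
      rw [← side_sum c a i1]
      apply Finset.sum_eq_zero
      intro u _
      apply hv1
      intro h'
      exact hi01 (Prod.mk.inj h').1
    have h2 : deg (pvs c) a (i0, c i0 e₀) = 0 := by
      rw [← side_sum c a i0, Finset.sum_eq_single (c i0 e₀)] at h1
      · exact h1
      · intro u _ hu
        apply hv1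
        intro h'
        exact hu (Prod.mk.inj h').2
      · intro h'
        exact absurd (Finset.mem_univ _) h'
    apply h a ha
    intro v
    by_cases hv' : v = (i0, c i0 e₀)
    · rw [hv', h2]
    · exact hv1 v hv'
  -- the linear map
  let L : ({e // e ∈ S} → ℝ) →ₗ[ℝ] ({q // q ∈ T.erase (i0, c i0 e₀)} → ℝ) :=
    { toFun := fun a q => deg (pvs c) (fun e => if he : e ∈ S then a ⟨e, he⟩ else 0) q.1
      map_add' := by
        intro a b
        ext q
        simp only [deg, Pi.add_apply]
        rw [← Finset.sum_add_distrib]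
        refine Finset.sum_congr rfl fun e _ => ?_
        split_ifs <;> simp
      map_smul' := by
        intro r a
        ext q
        simp only [deg, Pi.smul_apply, smul_eq_mul, RingHom.id_apply]
        rw [Finset.mul_sum]
        refine Finset.sum_congr rfl fun e _ => ?_
        split_ifs <;> simp }
  have hL : Function.Injective L := by
    rw [injective_iff_map_eq_zero]
    intro a ha
    have h1 := hkey (fun e => if he : e ∈ S then a ⟨e, he⟩ else 0)
      (fun e he => by simp [he]) (fun v hv => by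
        have := congrFun ha ⟨v, hv⟩
        exact this)
    ext ⟨e, he⟩
    have h2 := congrFun h1 e
    simpa [he] using h2
  have hle := LinearMap.finrank_le_finrank_of_injective hL
  rw [Module.finrank_fintype_fun_eq_card, Module.finrank_fintype_fun_eq_card, Fintype.card_coe,
    Fintype.card_coe, Finset.card_erase_of_mem hv0] at hle
  have hTpos : 0 < T.card := Finset.card_pos.2 ⟨_, hv0⟩
  -- double counting
  have hdc : ∑ q ∈ T, (S.filter (fun e => c q.1 e = q.2)).card = k * S.card := by
    have h1 : ∑ q ∈ T, (S.filter (fun e => c q.1 e = q.2)).card =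
        ∑ q : Fin k × U, (S.filter (fun e => c q.1 e = q.2)).card := by
      apply Finset.sum_subset (Finset.subset_univ _)
      intro q _ hq
      rw [hmemT, Finset.not_nonempty_iff_eq_empty] at hq
      rw [hq, Finset.card_empty]
    rw [h1, Fintype.sum_prod_type]
    have h2 : ∀ i : Fin k, ∑ u : U, (S.filter (fun e => c i e = u)).card = S.card := fun i =>
      (Finset.card_eq_sum_card_fiberwise (fun e _ => Finset.mem_univ (c i e))).symm
    simp only [h2]
    simp
  have hge : k * T.card ≤ ∑ q ∈ T, (S.filter (fun e => c q.1 e = q.2)).card := by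
    rw [mul_comm, ← smul_eq_mul]
    apply Finset.card_nsmul_le_sum
    intro q hq
    have := hcon q.1 q.2 ((hmemT q).1 hq)
    omega
  rw [hdc] at hge
  have := Nat.le_of_mul_le_mul_left hge (by omega)
  omega

end Pool.Agent.Helper68.SP
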