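import Pool.Agent.Helper68.SP.StageDefs

/-!
# SP-07: elementary properties of a stage

PROOFS.
* `best_nonneg`, `best_le`: `lev ≤ L` (`Nat.findGreatest_le`).
* `best_eq_zero`: if no `e ∈ N` has target `σ` then `X = 0 < η σ / 2`, so the greatest `i` with the property is `0`.
* `best_congr`: `X` uses `d e` only for `e ∈ N` with `oth e ⊆ F`.
* `best_spec`: if `best > 0` then `lev = i > 0` and `Nat.findGreatest_spec` (the property holds for `0`) gives `η σ / 2 ≤ X d F σ (i ε)`.
* `le_best`: if `i ≤ L` and `η σ / 2 ≤ X d F σ (i ε)` then `i ≤ lev` (`Nat.le_findGreatest`).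
* `last_mass`: suppose the sum `m` is `> η σ / 2`, in particular `> 0`, so some `e ∈ N` has `best + ε < d e ≤ L ε`, hence `i = lev + 1 ≤ L`.
  For this `i` every element of the sum has `oth e = ∅ ⊆ F` and `i ε ≤ d e` and contributes `x e / rr ∅ = x e` to `X d F σ (i ε)`; all
  other terms are `≥ 0` (`rr ≥ 0`).  So `X d F σ (i ε) ≥ m > η σ / 2`, and `le_best` gives `i ≤ lev`, contradiction.
* `false_le`: fix `F` and `σ` with `y σ < best`.  Then `best > 0`, and with `i = lev`, all `e` counted in `X d F σ (i ε)` have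
  `d e ≥ i ε = best > y σ`, so `e ∈ Bad`.  Hence `1 ≤ (2 / η σ) ∑_{e ∈ N ∩ Bad, tgt e = σ, oth e ⊆ F} x e / rr (oth e)`.
  Sum over `σ` (every `e` has one target) and take the expectation with `Ex_subset`:
  `Ex rate (fun F => if oth e ⊆ F then 1 else 0) = rr (oth e) > 0`.
-/

set_option autoImplicit false
set_option linter.unusedSectionVars false
set_option linter.unusedVariables false

namespace Pool.Agent.Helper68.SP

open Finset

namespace Stage

variable {E S : Type} [Fintype E] [DecidableEq E] [Fintype S] [DecidableEq S] (st : Stage E S)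

theorem lev_spec (ε : ℝ) (L : ℕ) (d : E → ℝ) (F : Finset S) (σ : S) :
    st.lev ε L d F σ = 0 ∨
      st.η σ / 2 ≤ st.X d F σ ((st.lev ε L d F σ : ℝ) * ε) := by
  classical
  have key : ∀ (P : ℕ → Prop) (inst : DecidablePred P), P 0 → P (@Nat.findGreatest P inst L) :=
    fun P inst h0 => @Nat.findGreatest_spec 0 P inst L (Nat.zero_le L) h0
  exact key (fun i : ℕ => i = 0 ∨ st.η σ / 2 ≤ st.X d F σ ((i : ℝ) * ε)) _ (Or.inl rfl)

theorem lev_le (ε : ℝ) (L : ℕ) (d : E → ℝ) (F : Finset S) (σ : S) :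
    st.lev ε L d F σ ≤ L := by
  unfold lev
  exact Nat.findGreatest_le L

theorem le_lev {ε : ℝ} {L : ℕ} (d : E → ℝ) (F : Finset S) (σ : S) (i : ℕ) (hi : i ≤ L)
    (h : st.η σ / 2 ≤ st.X d F σ ((i : ℝ) * ε)) : i ≤ st.lev ε L d F σ := by
  unfold lev
  exact Nat.le_findGreatest hi (Or.inr h)

theorem rr_nonneg {k : ℕ} {θ : S → ℝ} (hg : st.Good k θ) (A : Finset S) : 0 ≤ st.rr A :=
  Finset.prod_nonneg fun τ _ => (hg.isRate τ).1

theorem rr_pos {k : ℕ} {θ : S → ℝ} (hg : st.Good k θ) {e : E} (he : e ∈ st.N) :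
    0 < st.rr (st.oth e) :=
  Finset.prod_pos fun τ hτ => hg.rate_pos e he τ hτ

theorem best_nonneg {ε : ℝ} (hε : 0 < ε) (L : ℕ) (d : E → ℝ) (F : Finset S) (σ : S) :
    0 ≤ st.best ε L d F σ :=
  mul_nonneg (Nat.cast_nonneg _) hε.le

theorem best_le {ε : ℝ} (hε : 0 < ε) (L : ℕ) (d : E → ℝ) (F : Finset S) (σ : S) :
    st.best ε L d F σ ≤ (L : ℝ) * ε :=
  mul_le_mul_of_nonneg_right (Nat.cast_le.2 (st.lev_le ε L d F σ)) hε.le

theorem best_eq_zero {k : ℕ} {θ : S → ℝ} (hg : st.Good k θ) {ε : ℝ} (hε : 0 < ε) (L : ℕ)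
    (d : E → ℝ) (F : Finset S) (σ : S) (hσ : ∀ e ∈ st.N, st.tgt e ≠ σ) :
    st.best ε L d F σ = 0 := by
  have hX : ∀ β, st.X d F σ β = 0 := by
    intro β
    unfold X
    refine Finset.sum_eq_zero fun e he => ?_
    rw [if_neg]
    exact fun h => hσ e he h.1
  rcases st.lev_spec ε L d F σ with h | h
  · unfold best
    rw [h]
    simp
  · rw [hX] at h
    have := hg.η_pos σ
    linarith

theorem X_congr (d d' : E → ℝ) (F : Finset S) (σ : S) (β : ℝ)
    (hd : ∀ e ∈ st.N, st.oth e ⊆ F → d e = d' e) : st.X d F σ β = st.X d' F σ β := by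
  unfold X
  refine Finset.sum_congr rfl fun e he => ?_
  by_cases h : st.oth e ⊆ F
  · rw [hd e he h]
  · rw [if_neg (fun h' => h h'.2.1), if_neg (fun h' => h h'.2.1)]

theorem best_congr (ε : ℝ) (L : ℕ) (d d' : E → ℝ) (F : Finset S) (σ : S)
    (hd : ∀ e ∈ st.N, st.oth e ⊆ F → d e = d' e) :
    st.best ε L d F σ = st.best ε L d' F σ := by
  have hX : ∀ β, st.X d F σ β = st.X d' F σ β := fun β => st.X_congr d d' F σ β hd
  have : st.lev ε L d F σ = st.lev ε L d' F σ := by
    apply le_antisymm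
    · rcases st.lev_spec ε L d F σ with h | h
      · rw [h]; exact Nat.zero_le _
      · rw [hX] at h
        exact st.le_lev d' F σ _ (st.lev_le ε L d F σ) h
    · rcases st.lev_spec ε L d' F σ with h | h
      · rw [h]; exact Nat.zero_le _
      · rw [← hX] at h
        exact st.le_lev d F σ _ (st.lev_le ε L d' F σ) h
  unfold best
  rw [this]

theorem best_spec {ε : ℝ} (hε : 0 < ε) (L : ℕ) (d : E → ℝ) (F : Finset S) (σ : S)
    (h : 0 < st.best ε L d F σ) : st.η σ / 2 ≤ st.X d F σ (st.best ε L d F σ) := by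
  rcases st.lev_spec ε L d F σ with h' | h'
  · unfold best at h
    rw [h'] at h
    simp at h
  · exact h'

theorem le_best {ε : ℝ} (hε : 0 < ε) (L : ℕ) (d : E → ℝ) (F : Finset S) (σ : S) (i : ℕ)
    (hi : i ≤ L) (h : st.η σ / 2 ≤ st.X d F σ ((i : ℝ) * ε)) :
    (i : ℝ) * ε ≤ st.best ε L d F σ :=
  mul_le_mul_of_nonneg_right (Nat.cast_le.2 (st.le_lev d F σ i hi h)) hε.le

theorem last_mass {k : ℕ} {θ : S → ℝ} (hg : st.Good k θ) {ε : ℝ} (hε : 0 < ε) (L : ℕ)
    (d : E → ℝ) (hd : ∀ e ∈ st.N, d e ≤ (L : ℝ) * ε) (F : Finset S) (σ : S) :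
    ∑ e ∈ st.N, (if st.tgt e = σ ∧ st.oth e = ∅ ∧ st.best ε L d F σ + ε < d e then st.x e else 0) ≤
      st.η σ / 2 := by
  by_contra hcon
  push Not at hcon
  have hη := hg.η_pos σ
  -- some element of the sum
  have hex : ∃ e ∈ st.N, st.best ε L d F σ + ε < d e := by
    by_contra hne
    push Not at hne
    have : ∑ e ∈ st.N,
        (if st.tgt e = σ ∧ st.oth e = ∅ ∧ st.best ε L d F σ + ε < d e then st.x e else 0) = 0 := by
      refine Finset.sum_eq_zero fun e he => ?_
      rw [if_neg]
      exact fun h => absurd h.2.2 (not_lt.2 (hne e he))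
    rw [this] at hcon
    linarith
  obtain ⟨e0, he0, hlt0⟩ := hex
  have hi : st.lev ε L d F σ + 1 ≤ L := by
    have h1 : ((st.lev ε L d F σ + 1 : ℕ) : ℝ) * ε < (L : ℝ) * ε := by
      have h2 := lt_of_lt_of_le hlt0 (hd e0 he0)
      unfold best at h2
      push_cast
      linarith
    have h3 : ((st.lev ε L d F σ + 1 : ℕ) : ℝ) < (L : ℝ) := lt_of_mul_lt_mul_right h1 hε.le
    exact le_of_lt (by exact_mod_cast h3)
  have hX : st.η σ / 2 ≤ st.X d F σ (((st.lev ε L d F σ + 1 : ℕ) : ℝ) * ε) := by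
    refine le_trans hcon.le ?_
    unfold X
    refine Finset.sum_le_sum fun e he => ?_
    by_cases h : st.tgt e = σ ∧ st.oth e = ∅ ∧ st.best ε L d F σ + ε < d e
    · rw [if_pos h, if_pos]
      · rw [h.2.1]
        simp [rr]
      · refine ⟨h.1, ?_, ?_⟩
        · rw [h.2.1]; exact Finset.empty_subset _
        · have := h.2.2
          unfold best at this
          push_cast
          linarith
    · rw [if_neg h]
      split_ifs
      · exact div_nonneg (hg.x_nonneg e) (st.rr_nonneg hg _)
      · exact le_rfl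
  have := st.le_lev d F σ _ hi hX
  omega

theorem false_le {k : ℕ} {θ : S → ℝ} (hg : st.Good k θ) {ε : ℝ} (hε : 0 < ε) (L : ℕ)
    (d : E → ℝ) (y : S → ℝ) (hy : ∀ σ, 0 ≤ y σ) (Bad : Finset E)
    (hBad : ∀ e ∈ st.N, e ∉ Bad → d e ≤ y (st.tgt e)) :
    Ex st.rate (fun F => ((Finset.univ.filter (fun σ => y σ < st.best ε L d F σ)).card : ℝ)) ≤
      ∑ e ∈ st.N, if e ∈ Bad then 2 / st.η (st.tgt e) * st.x e else 0 := by
  classical
  have h1 : ∀ F : Finset S,
      ((Finset.univ.filter (fun σ => y σ < st.best ε L d F σ)).card : ℝ) ≤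
        ∑ e ∈ st.N, (if e ∈ Bad then 2 / st.η (st.tgt e) * st.x e / st.rr (st.oth e) else 0) *
          (if st.oth e ⊆ F then 1 else 0) := by
    intro F
    rw [Finset.card_filter]
    push_cast
    have h2 : ∀ σ : S, (if y σ < st.best ε L d F σ then (1 : ℝ) else 0) ≤
        ∑ e ∈ st.N, if st.tgt e = σ then
          (if e ∈ Bad then 2 / st.η (st.tgt e) * st.x e / st.rr (st.oth e) else 0) *
            (if st.oth e ⊆ F then 1 else 0) else 0 := by
      intro σ
      have hη := hg.η_pos σ
      split_ifs with h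
      · have hb : 0 < st.best ε L d F σ := lt_of_le_of_lt (hy σ) h
        have hs := st.best_spec hε L d F σ hb
        have h3 : 1 ≤ 2 / st.η σ * st.X d F σ (st.best ε L d F σ) := by
          rw [div_mul_eq_mul_div, le_div_iff₀ hη]
          linarith
        refine le_trans h3 ?_
        unfold X
        rw [Finset.mul_sum]
        refine Finset.sum_le_sum fun e he => ?_
        by_cases ht : st.tgt e = σ
        · rw [if_pos ht]
          by_cases hc : st.tgt e = σ ∧ st.oth e ⊆ F ∧ st.best ε L d F σ ≤ d e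
          · rw [if_pos hc]
            have hbad : e ∈ Bad := by
              by_contra hnb
              have h4 := hBad e he hnb
              rw [ht] at h4
              have h5 := hc.2.2
              linarith
            rw [if_pos hbad, if_pos hc.2.1, ht]
            apply le_of_eq
            ring
          · rw [if_neg hc, mul_zero]
            refine mul_nonneg ?_ ?_
            · split_ifs
              · refine div_nonneg (mul_nonneg (div_nonneg (by norm_num) (hg.η_pos _).le)
                  (hg.x_nonneg e)) (st.rr_nonneg hg _)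
              · exact le_rfl
            · split_ifs
              · exact zero_le_one
              · exact le_rfl
        · rw [if_neg ht, if_neg (fun h' => ht h'.1), mul_zero]
      · refine Finset.sum_nonneg fun e he => ?_
        split_ifs <;>
          first
            | exact le_rfl
            | (simp only [mul_one, mul_zero, zero_mul]; exact le_rfl)
            | (simp only [mul_one]
               exact div_nonneg (mul_nonneg (div_nonneg (by norm_num) (hg.η_pos _).le)
                  (hg.x_nonneg e)) (st.rr_nonneg hg _))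
    refine le_trans (Finset.sum_le_sum fun σ _ => h2 σ) ?_
    rw [Finset.sum_comm]
    refine le_of_eq (Finset.sum_congr rfl fun e _ => ?_)
    rw [Finset.sum_ite_eq]
    simp
  refine le_trans (Ex_mono hg.isRate h1) ?_
  rw [Ex_sum]
  refine Finset.sum_le_sum fun e he => ?_
  rw [Ex_mul_left, Ex_subset]
  have hr := st.rr_pos hg he
  have hr' : (∏ τ ∈ st.oth e, st.rate τ) = st.rr (st.oth e) := rfl
  rw [hr']
  split_ifs
  · rw [div_mul_cancel₀ _ hr.ne']
  · rw [zero_mul]

end Stage

end Pool.Agent.Helper68.SP
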