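import Pool.Agent.Helper68.SP.Defs

/-!
# Project SP: one stage of the estimation procedure (definitions)

Every element `e ∈ N` has a target `tgt e : S` and a set `oth e` of other super-vertices; a random subset `F`
of `S` (rates `rate`) is revealed.  `X d F σ β` is the (inverse probability weighted) estimate of the mass
of the elements with target `σ` and demand `d e ≥ β`; `best` is the largest grid level
`β = i ε`, `i ≤ L`, with `i = 0` or `X ≥ η σ / 2`.
-/

set_option autoImplicit false

namespace Pool.Agent.Helper68.SP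

open Finset

/-- one stage -/
structure Stage (E S : Type) where
  N : Finset E
  tgt : E → S
  oth : E → Finset S
  x : E → ℝ
  rate : S → ℝ
  η : S → ℝ

namespace Stage

variable {E S : Type} [DecidableEq E] [DecidableEq S] (st : Stage E S)

/-- product of the rates -/
def rr (A : Finset S) : ℝ := ∏ τ ∈ A, st.rate τ

/-- the estimate -/
noncomputable def X (d : E → ℝ) (F : Finset S) (σ : S) (β : ℝ) : ℝ := by
  classical exact
    ∑ e ∈ st.N, if st.tgt e = σ ∧ st.oth e ⊆ F ∧ β ≤ d e then st.x e / st.rr (st.oth e) else 0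

/-- the level of `σ` -/
noncomputable def lev (ε : ℝ) (L : ℕ) (d : E → ℝ) (F : Finset S) (σ : S) : ℕ := by
  classical exact Nat.findGreatest (fun i => i = 0 ∨ st.η σ / 2 ≤ st.X d F σ ((i : ℝ) * ε)) L

/-- the lower bound for the value of `σ` -/
noncomputable def best (ε : ℝ) (L : ℕ) (d : E → ℝ) (F : Finset S) (σ : S) : ℝ :=
  (st.lev ε L d F σ : ℝ) * ε

/-- conditions on a stage -/
structure Good (k : ℕ) (θ : S → ℝ) : Prop where
  x_nonneg : ∀ e, 0 ≤ st.x e
  isRate : IsRate st.rate
  rate_pos : ∀ e ∈ st.N, ∀ τ ∈ st.oth e, 0 < st.rate τ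
  η_pos : ∀ σ, 0 < st.η σ
  θ_nonneg : ∀ σ, 0 ≤ θ σ
  card_oth : ∀ e ∈ st.N, (st.oth e).card ≤ k
  codeg : ∀ e ∈ st.N, ∀ A ⊆ st.oth e, A.Nonempty →
    ∑ e' ∈ st.N, (if st.tgt e' = st.tgt e ∧ A ⊆ st.oth e' then st.x e' else 0) ≤
      θ (st.tgt e) * st.η (st.tgt e) * st.rr A

end Stage

end Pool.Agent.Helper68.SP
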