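import Pool.Agent.Helper68.SP.SysDefs
import Pool.Agent.Helper68.SP.StageBasic

/-!
# SP-10: elementary properties of the multi-stage procedure

PROOFS.
* `W_succ`: definition.  `bb_nonneg`, `bb_le`: `Stage.best_nonneg`, `Stage.best_le`.
* `bb_eq_zero`: if `σ ∉ T` then no active `e ∈ N` has `tgt j e = σ` (`tgt j e ∈ rem j e ⊆ rem 0 e ⊆ T`), use `Stage.best_eq_zero`.
* `W_le`: `W j e ≤ w e - ε` by induction (`bb ≥ 0`, `s ≥ 0`); `dem_le`: `dem j e ≤ w e - ε ≤ L ε`, using `Y ≥ 0`.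
* `bb_congr`: by induction on `j`, if `Y = Y'` on all `F i`, `i < k`, then `W j` is the same function for `Y` and `Y'` for all `j ≤ k` and `bb j` is the same for
  `j < k`: `bb j σ` uses `dem j e = W j e - ∑_{rem (j+1) e} Y` only for `e` with `rem (j+1) e ⊆ F j` (`Stage.best_congr`).
* `uncovered_le` (M2): let `e ∈ N` with `ε + k s + ∑_{j<k, active} bb j (tgt j e) < w e`, where active means `(rem j e).Nonempty`.  `rem 0 e ≠ ∅` is a
  hypothesis (`hne`).  Let `j < k` be the last active stage: `rem j e ≠ ∅`, `rem (j+1) e = ∅` (the cardinality decreases by one at each active stage, `rem k e = ∅`;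
  activity is monotone).  Unfolding `W`, `W (j+1) e = w e - ε - ∑_{i ≤ j} (bb i (tgt i e) + s) > 0`
  (all `i ≤ j` are active, none later, `(j+1) s ≤ k s`), so
  `dem j e = W j e > bb j (tgt j e) + s ≥ bb j (tgt j e) + ε`.  Hence `x e` is counted in the sum of `Stage.last_mass` for `stage j`, `σ = tgt j e`.  Sum over `j < k` and `σ ∈ T`.
-/

set_option autoImplicit false
set_option linter.unusedVariables false
set_option linter.unusedSectionVars false

namespace Pool.Agent.Helper68.SP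

open Finset

namespace Sys

variable {E S : Type} [Fintype E] [DecidableEq E] [Fintype S] [DecidableEq S] (sy : Sys E S)

theorem W_succ (ε s : ℝ) (L : ℕ) (F : ℕ → Finset S) (Y : S → ℝ) (j : ℕ) (e : E) :
    sy.W ε s L F Y (j + 1) e = if (sy.rem j e).Nonempty then
      sy.W ε s L F Y j e - sy.bb ε s L F Y j (sy.tgt j e) - s else sy.W ε s L F Y j e := by
  rfl

theorem bb_nonneg {ε : ℝ} (hε : 0 < ε) (s : ℝ) (L : ℕ) (F : ℕ → Finset S) (Y : S → ℝ) (j : ℕ)
    (σ : S) : 0 ≤ sy.bb ε s L F Y j σ := by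
  exact (sy.stage j).best_nonneg hε L _ _ σ

theorem bb_le {ε : ℝ} (hε : 0 < ε) (s : ℝ) (L : ℕ) (F : ℕ → Finset S) (Y : S → ℝ) (j : ℕ)
    (σ : S) : sy.bb ε s L F Y j σ ≤ (L : ℝ) * ε := by
  exact (sy.stage j).best_le hε L _ _ σ

private lemma spRem_sub {k : ℕ} {θ : ℕ → S → ℝ} {T : Finset S} (hg : sy.Good k θ T) (e : E)
    (he : e ∈ sy.N) (j : ℕ) : sy.rem j e ⊆ sy.rem 0 e := by
  induction j with
  | zero => exact Finset.Subset.refl _
  | succ j ih =>
    rw [hg.rem_succ e he j]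
    exact (Finset.erase_subset _ _).trans ih

theorem bb_eq_zero {k : ℕ} {θ : ℕ → S → ℝ} {T : Finset S} (hg : sy.Good k θ T) {ε : ℝ}
    (hε : 0 < ε) (s : ℝ) (L : ℕ) (F : ℕ → Finset S) (Y : S → ℝ) (j : ℕ) (hj : j < k)
    (σ : S) (hσ : σ ∉ T) : sy.bb ε s L F Y j σ = 0 := by
  refine (sy.stage j).best_eq_zero (hg.stage_good j hj) hε L _ _ σ ?_
  intro e he heq
  have he' : e ∈ sy.N ∧ (sy.rem j e).Nonempty := Finset.mem_filter.1 he
  have h1 : sy.tgt j e ∈ sy.rem j e := hg.tgt_mem e he'.1 j he'.2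
  have h2 : sy.tgt j e = σ := heq
  rw [h2] at h1
  exact hσ (hg.mem_T e he'.1 σ (spRem_sub sy hg e he'.1 j h1))

theorem W_le {ε s : ℝ} (hε : 0 < ε) (hs : 0 ≤ s) (L : ℕ) (F : ℕ → Finset S) (Y : S → ℝ) (j : ℕ)
    (e : E) : sy.W ε s L F Y j e ≤ sy.w e - ε := by
  induction j with
  | zero => exact le_refl _
  | succ j ih =>
    rw [W_succ]
    split_ifs with h
    · have := sy.bb_nonneg hε s L F Y j (sy.tgt j e)
      linarith
    · exact ih

theorem dem_le {ε s : ℝ} (hε : 0 < ε) (hs : 0 ≤ s) (L : ℕ) (F : ℕ → Finset S) (Y : S → ℝ)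
    (hY : ∀ σ, 0 ≤ Y σ) (j : ℕ) (e : E) : sy.dem ε s L F Y j e ≤ sy.w e - ε := by
  have h1 := sy.W_le hε hs L F Y j e
  have h2 : 0 ≤ ∑ σ ∈ sy.rem (j + 1) e, Y σ := Finset.sum_nonneg fun σ _ => hY σ
  unfold dem
  linarith

private lemma spBb_congr_of (ε s : ℝ) (L : ℕ) (F : ℕ → Finset S) (Y Y' : S → ℝ) (j : ℕ)
    (hW : ∀ e, sy.W ε s L F Y j e = sy.W ε s L F Y' j e) (hY : ∀ σ ∈ F j, Y σ = Y' σ) (σ : S) :
    sy.bb ε s L F Y j σ = sy.bb ε s L F Y' j σ := by
  unfold bb
  refine (sy.stage j).best_congr ε L _ _ (F j) σ ?_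
  intro e _ hoth
  unfold dem
  rw [hW e]
  congr 1
  refine Finset.sum_congr rfl fun τ hτ => ?_
  exact hY τ (hoth hτ)

private lemma spW_congr (ε s : ℝ) (L : ℕ) (F : ℕ → Finset S) (Y Y' : S → ℝ) (k : ℕ)
    (hY : ∀ i < k, ∀ σ ∈ F i, Y σ = Y' σ) (j : ℕ) (hj : j ≤ k) :
    ∀ e, sy.W ε s L F Y j e = sy.W ε s L F Y' j e := by
  induction j with
  | zero => intro e; rfl
  | succ j ih =>
    intro e
    have ih' := ih (by omega)
    rw [W_succ, W_succ, ih' e, spBb_congr_of sy ε s L F Y Y' j ih' (hY j (by omega))]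

theorem bb_congr {k : ℕ} {θ : ℕ → S → ℝ} {T : Finset S} (hg : sy.Good k θ T) (ε s : ℝ)
    (L : ℕ) (F : ℕ → Finset S) (Y Y' : S → ℝ) (hY : ∀ i < k, ∀ σ ∈ F i, Y σ = Y' σ) (j : ℕ)
    (hj : j < k) (σ : S) : sy.bb ε s L F Y j σ = sy.bb ε s L F Y' j σ := by
  exact spBb_congr_of sy ε s L F Y Y' j (fun e => spW_congr sy ε s L F Y Y' k hY j hj.le e)
    (hY j hj) σ

private lemma spLast_exists {k : ℕ} {θ : ℕ → S → ℝ} {T : Finset S} (hg : sy.Good k θ T) (e : E)
    (he : e ∈ sy.N) (h0 : (sy.rem 0 e).Nonempty) :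
    ∃ j < k, (sy.rem j e).Nonempty ∧ sy.rem (j + 1) e = ∅ := by
  classical
  have hex : ∃ j, sy.rem j e = ∅ := ⟨k, hg.rem_last e he⟩
  have hspec := Nat.find_spec hex
  have hle : Nat.find hex ≤ k := Nat.find_min' hex (hg.rem_last e he)
  have hpos : Nat.find hex ≠ 0 := by
    intro h
    rw [h] at hspec
    exact h0.ne_empty hspec
  obtain ⟨j, hj⟩ := Nat.exists_eq_succ_of_ne_zero hpos
  refine ⟨j, by omega, ?_, ?_⟩
  · exact Finset.nonempty_iff_ne_empty.2 (Nat.find_min hex (by omega))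
  · rw [hj] at hspec
    exact hspec

private lemma spW_eq (ε s : ℝ) (L : ℕ) (F : ℕ → Finset S) (Y : S → ℝ) (e : E) (j : ℕ) :
    sy.W ε s L F Y j e = sy.w e - ε - ∑ i ∈ Finset.range j,
      (if (sy.rem i e).Nonempty then sy.bb ε s L F Y i (sy.tgt i e) + s else 0) := by
  induction j with
  | zero => simp [W]
  | succ j ih =>
    rw [W_succ, Finset.sum_range_succ]
    split_ifs with h
    · rw [ih]; ring
    · rw [ih]; ring

private lemma spW_gt {ε s : ℝ} (hε : 0 < ε) (hs : 0 ≤ s) (L : ℕ) (F : ℕ → Finset S) (Y : S → ℝ)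
    (e : E) {k : ℕ} (j : ℕ) (hj : j < k) (hj1 : (sy.rem j e).Nonempty)
    (hbig : ε + (k : ℝ) * s + ∑ j ∈ Finset.range k,
        (if (sy.rem j e).Nonempty then sy.bb ε s L F Y j (sy.tgt j e) else 0) < sy.w e) :
    sy.bb ε s L F Y j (sy.tgt j e) + s < sy.W ε s L F Y j e := by
  have h1 := sy.W_succ ε s L F Y j e
  rw [if_pos hj1, spW_eq sy ε s L F Y e (j + 1)] at h1
  have h2 : ∑ i ∈ Finset.range (j + 1),
      (if (sy.rem i e).Nonempty then sy.bb ε s L F Y i (sy.tgt i e) + s else 0) ≤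
      ∑ i ∈ Finset.range k,
      ((if (sy.rem i e).Nonempty then sy.bb ε s L F Y i (sy.tgt i e) else 0) + s) := by
    refine (Finset.sum_le_sum (g := fun i => ((if (sy.rem i e).Nonempty then
      sy.bb ε s L F Y i (sy.tgt i e) else 0) + s)) ?_).trans
      (Finset.sum_le_sum_of_subset_of_nonneg
        (Finset.range_subset_range.2 (by omega : j + 1 ≤ k)) ?_)
    · intro i _
      split_ifs
      · exact le_refl _
      · linarith
    · intro i _ _
      have := sy.bb_nonneg hε s L F Y i (sy.tgt i e)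
      split_ifs
      · linarith
      · linarith
  rw [Finset.sum_add_distrib, Finset.sum_const, Finset.card_range, nsmul_eq_mul] at h2
  linarith

theorem uncovered_le {k : ℕ} {θ : ℕ → S → ℝ} {T : Finset S} (hg : sy.Good k θ T) {ε s : ℝ}
    (hε : 0 < ε) (hs : ε ≤ s) (L : ℕ) (hw : ∀ e ∈ sy.N, sy.w e ≤ (L : ℝ) * ε)
    (hne : ∀ e ∈ sy.N, (sy.rem 0 e).Nonempty) (F : ℕ → Finset S) (Y : S → ℝ)
    (hY : ∀ σ, 0 ≤ Y σ) :
    ∑ e ∈ sy.N, (if ε + (k : ℝ) * s + ∑ j ∈ Finset.range k,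
        (if (sy.rem j e).Nonempty then sy.bb ε s L F Y j (sy.tgt j e) else 0) < sy.w e
        then sy.x e else 0) ≤
      ∑ j ∈ Finset.range k, ∑ σ ∈ T, sy.η j σ / 2 := by
  have hs0 : 0 ≤ s := hε.le.trans hs
  have hterm : ∀ e ∈ sy.N, (if ε + (k : ℝ) * s + ∑ j ∈ Finset.range k,
        (if (sy.rem j e).Nonempty then sy.bb ε s L F Y j (sy.tgt j e) else 0) < sy.w e
        then sy.x e else 0) ≤ ∑ j ∈ Finset.range k, ∑ σ ∈ T,
        (if (sy.rem j e).Nonempty then
          (if (sy.stage j).tgt e = σ ∧ (sy.stage j).oth e = ∅ ∧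
            (sy.stage j).best ε L (sy.dem ε s L F Y j) (F j) σ + ε < sy.dem ε s L F Y j e
            then (sy.stage j).x e else 0) else 0) := by
    intro e he
    have hnn : ∀ j ∈ Finset.range k, ∀ σ ∈ T, 0 ≤ (if (sy.rem j e).Nonempty then
          (if (sy.stage j).tgt e = σ ∧ (sy.stage j).oth e = ∅ ∧
            (sy.stage j).best ε L (sy.dem ε s L F Y j) (F j) σ + ε < sy.dem ε s L F Y j e
            then (sy.stage j).x e else 0) else 0) := by
      intro j _ σ _
      split_ifs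
      · exact hg.x_nonneg e
      · exact le_refl _
      · exact le_refl _
    split_ifs with hbig
    · obtain ⟨j, hj, hj1, hj2⟩ := spLast_exists sy hg e he (hne e he)
      have hmem : sy.tgt j e ∈ T :=
        hg.mem_T e he _ (spRem_sub sy hg e he j (hg.tgt_mem e he j hj1))
      have hW := spW_gt sy hε hs0 L F Y e j hj hj1 hbig
      have hcond : (sy.stage j).tgt e = sy.tgt j e ∧ (sy.stage j).oth e = ∅ ∧
            (sy.stage j).best ε L (sy.dem ε s L F Y j) (F j) (sy.tgt j e) + ε <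
              sy.dem ε s L F Y j e := by
        refine ⟨rfl, hj2, ?_⟩
        have h1 : sy.dem ε s L F Y j e = sy.W ε s L F Y j e := by
          unfold dem
          rw [hj2, Finset.sum_empty, sub_zero]
        have h2 : (sy.stage j).best ε L (sy.dem ε s L F Y j) (F j) (sy.tgt j e) =
          sy.bb ε s L F Y j (sy.tgt j e) := rfl
        rw [h1, h2]
        linarith
      have h3 : sy.x e = (if (sy.rem j e).Nonempty then
          (if (sy.stage j).tgt e = sy.tgt j e ∧ (sy.stage j).oth e = ∅ ∧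
            (sy.stage j).best ε L (sy.dem ε s L F Y j) (F j) (sy.tgt j e) + ε <
              sy.dem ε s L F Y j e
            then (sy.stage j).x e else 0) else 0) := by
        rw [if_pos hj1, if_pos hcond]
        rfl
      rw [h3]
      refine le_trans ?_ (Finset.single_le_sum (fun i hi => Finset.sum_nonneg (hnn i hi))
        (Finset.mem_range.2 hj))
      exact Finset.single_le_sum (f := fun σ => (if (sy.rem j e).Nonempty then
          (if (sy.stage j).tgt e = σ ∧ (sy.stage j).oth e = ∅ ∧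
            (sy.stage j).best ε L (sy.dem ε s L F Y j) (F j) σ + ε < sy.dem ε s L F Y j e
            then (sy.stage j).x e else 0) else 0)) (hnn j (Finset.mem_range.2 hj)) hmem
    · exact Finset.sum_nonneg fun j hj => Finset.sum_nonneg (hnn j hj)
  refine (Finset.sum_le_sum hterm).trans ?_
  rw [Finset.sum_comm]
  refine Finset.sum_le_sum fun j hj => ?_
  rw [Finset.sum_comm]
  refine Finset.sum_le_sum fun σ _ => ?_
  have h5 := (sy.stage j).last_mass (hg.stage_good j (Finset.mem_range.1 hj)) hε L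
    (sy.dem ε s L F Y j) ?_ (F j) σ
  · refine le_trans (le_of_eq ?_) h5
    exact (Finset.sum_filter _ _).symm
  · intro e he
    have he' : e ∈ sy.N ∧ (sy.rem j e).Nonempty := Finset.mem_filter.1 he
    have h6 := sy.dem_le hε hs0 L F Y hY j e
    have h7 := hw e he'.1
    linarith

end Sys

end Pool.Agent.Helper68.SP
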